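import Pool.Agent.W411.LP.Base

/-!
# Finite generation of `SL₂(ℤ[x,x⁻¹])`
-/

set_option autoImplicit false

namespace Pool.Agent.W411.LP

open LaurentPolynomial

/-- the upper elementary matrix -/
noncomputable def up (c : A) : SLA := ⟨!![1, c; 0, 1], by simp [Matrix.det_fin_two]⟩

/-- the lower elementary matrix -/
noncomputable def lo (c : A) : SLA := ⟨!![1, 0; c, 1], by simp [Matrix.det_fin_two]⟩

/-- the diagonal matrix `diag(x, x⁻¹)` -/
noncomputable def dg : SLA := ⟨!![T 1, 0; 0, T (-1)], by
  rw [Matrix.det_fin_two_of, ← T_add]; simp [T_zero]⟩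

theorem up_add (a b : A) : up (a + b) = up a * up b := by
  apply Subtype.ext
  show !![1, a + b; 0, 1] = !![1, a; 0, 1] * !![1, b; 0, 1]
  ext i j
  fin_cases i <;> fin_cases j <;> simp [Matrix.mul_apply, add_comm]

theorem lo_add (a b : A) : lo (a + b) = lo a * lo b := by
  apply Subtype.ext
  show !![1, 0; a + b, 1] = !![1, 0; a, 1] * !![1, 0; b, 1]
  ext i j
  fin_cases i <;> fin_cases j <;> simp [Matrix.mul_apply, add_comm]

theorem up_zero : up 0 = 1 := by
  apply Subtype.ext
  show !![1, 0; 0, 1] = (1 : Matrix (Fin 2) (Fin 2) A)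
  exact Matrix.one_fin_two.symm

theorem lo_zero : lo 0 = 1 := by
  apply Subtype.ext
  show !![1, 0; 0, 1] = (1 : Matrix (Fin 2) (Fin 2) A)
  exact Matrix.one_fin_two.symm

theorem dg_up (c : A) : dg * up c = up (T 2 * c) * dg := by
  apply Subtype.ext
  show !![T 1, 0; 0, T (-1)] * !![1, c; 0, 1] = !![1, T 2 * c; 0, 1] * !![T 1, 0; 0, T (-1)]
  have h : (T 2 : A) * c * T (-1) = T 1 * c := by
    rw [mul_comm (T 2 * c) (T (-1)), ← mul_assoc, ← T_add]; norm_num
  ext i j
  fin_cases i <;> fin_cases j <;> simp [Matrix.mul_apply, h]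

theorem dg_lo (c : A) : dg * lo (T 2 * c) = lo c * dg := by
  apply Subtype.ext
  show !![T 1, 0; 0, T (-1)] * !![1, 0; T 2 * c, 1] = !![1, 0; c, 1] * !![T 1, 0; 0, T (-1)]
  have h : (T (-1) : A) * (T 2 * c) = c * T 1 := by
    rw [← mul_assoc, ← T_add, mul_comm]; norm_num
  ext i j
  fin_cases i <;> fin_cases j <;> simp [Matrix.mul_apply, h]

/-- five generators -/
noncomputable def FS : Set SLA := {up 1, up (T 1), lo 1, lo (T 1), dg}

theorem FS_finite : FS.Finite := by
  unfold FS
  exact Set.toFinite _

/-- the coefficients `c` with `up c` in the group -/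
def UA : AddSubgroup A where
  carrier := {c | up c ∈ Subgroup.closure FS}
  zero_mem' := by
    show up 0 ∈ Subgroup.closure FS
    rw [up_zero]; exact one_mem _
  add_mem' := by
    intro a b ha hb
    show up (a + b) ∈ Subgroup.closure FS
    rw [up_add]; exact mul_mem ha hb
  neg_mem' := by
    intro a ha
    show up (-a) ∈ Subgroup.closure FS
    have : up (-a) = (up a)⁻¹ := by
      rw [eq_inv_iff_mul_eq_one, ← up_add, neg_add_cancel, up_zero]
    rw [this]; exact inv_mem ha

/-- the coefficients `c` with `lo c` in the group -/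
def LA : AddSubgroup A where
  carrier := {c | lo c ∈ Subgroup.closure FS}
  zero_mem' := by
    show lo 0 ∈ Subgroup.closure FS
    rw [lo_zero]; exact one_mem _
  add_mem' := by
    intro a b ha hb
    show lo (a + b) ∈ Subgroup.closure FS
    rw [lo_add]; exact mul_mem ha hb
  neg_mem' := by
    intro a ha
    show lo (-a) ∈ Subgroup.closure FS
    have : lo (-a) = (lo a)⁻¹ := by
      rw [eq_inv_iff_mul_eq_one, ← lo_add, neg_add_cancel, lo_zero]
    rw [this]; exact inv_mem ha

theorem dg_mem : dg ∈ Subgroup.closure FS := Subgroup.subset_closure (by simp [FS])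

theorem UA_T2 (c : A) : T 2 * c ∈ UA ↔ c ∈ UA := by
  show up (T 2 * c) ∈ Subgroup.closure FS ↔ up c ∈ Subgroup.closure FS
  have h : up (T 2 * c) = dg * up c * dg⁻¹ := by rw [dg_up, mul_inv_cancel_right]
  constructor
  · intro h1
    have h2 : up c = dg⁻¹ * up (T 2 * c) * dg := by rw [h]; group
    rw [h2]
    exact mul_mem (mul_mem (inv_mem dg_mem) h1) dg_mem
  · intro h1
    rw [h]
    exact mul_mem (mul_mem dg_mem h1) (inv_mem dg_mem)

theorem LA_T2 (c : A) : T 2 * c ∈ LA ↔ c ∈ LA := by
  show lo (T 2 * c) ∈ Subgroup.closure FS ↔ lo c ∈ Subgroup.closure FS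
  have h : lo c = dg * lo (T 2 * c) * dg⁻¹ := by rw [dg_lo, mul_inv_cancel_right]
  constructor
  · intro h1
    rw [h]
    exact mul_mem (mul_mem dg_mem h1) (inv_mem dg_mem)
  · intro h1
    have h2 : lo (T 2 * c) = dg⁻¹ * lo c * dg := by rw [h]; group
    rw [h2]
    exact mul_mem (mul_mem (inv_mem dg_mem) h1) dg_mem

theorem all_T (P : AddSubgroup A) (h2 : ∀ c : A, T 2 * c ∈ P ↔ c ∈ P) (h0 : (1 : A) ∈ P)
    (h1 : (T 1 : A) ∈ P) : ∀ c : A, c ∈ P := by
  have key : ∀ n : ℤ, (T (2 * n) : A) ∈ P ∧ (T (2 * n + 1) : A) ∈ P := by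
    intro n
    induction n using Int.induction_on with
    | zero => exact ⟨by simpa using h0, by simpa using h1⟩
    | succ i ih =>
      constructor
      · have := (h2 _).2 ih.1
        rw [← T_add] at this
        convert this using 2; ring
      · have := (h2 _).2 ih.2
        rw [← T_add] at this
        convert this using 2; ring
    | pred i ih =>
      constructor
      · apply (h2 _).1
        rw [← T_add]
        convert ih.1 using 2; ring
      · apply (h2 _).1
        rw [← T_add]
        convert ih.2 using 2; ring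
  have hT : ∀ n : ℤ, (T n : A) ∈ P := by
    intro n
    rcases Int.even_or_odd' n with ⟨k, hk | hk⟩
    · rw [hk]; exact (key k).1
    · rw [hk]; exact (key k).2
  intro c
  induction c using LaurentPolynomial.induction_on' with
  | add p q hp hq => exact P.add_mem hp hq
  | C_mul_T n a =>
    have : (C a * T n : A) = a • T n := by
      rw [zsmul_eq_mul]; simp
    rw [this]; exact P.zsmul_mem (hT n) a

theorem up_mem (c : A) : up c ∈ Subgroup.closure FS :=
  all_T UA UA_T2 (Subgroup.subset_closure (by simp [FS])) (Subgroup.subset_closure (by simp [FS])) c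

theorem lo_mem (c : A) : lo c ∈ Subgroup.closure FS :=
  all_T LA LA_T2 (Subgroup.subset_closure (by simp [FS])) (Subgroup.subset_closure (by simp [FS])) c

/-- **five matrices generate `SL₂(ℤ[x,x⁻¹])`** -/
theorem closure_FS : Subgroup.closure FS = (⊤ : Subgroup SLA) := by
  rw [eq_top_iff]
  intro g _
  have h := mem_EE g
  have hle : EE ≤ Subgroup.closure FS := by
    rw [EE, Subgroup.closure_le]
    rintro g ⟨i, j, c, hij, hg⟩
    fin_cases i <;> fin_cases j
    · exact absurd rfl hij
    · have : g = up c := by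
        apply Subtype.ext
        rw [hg]
        show Matrix.transvection 0 1 c = !![1, c; 0, 1]
        ext i j
        fin_cases i <;> fin_cases j <;> simp [Matrix.transvection]
      rw [this]; exact up_mem c
    · have : g = lo c := by
        apply Subtype.ext
        rw [hg]
        show Matrix.transvection 1 0 c = !![1, 0; c, 1]
        ext i j
        fin_cases i <;> fin_cases j <;> simp [Matrix.transvection]
      rw [this]; exact lo_mem c
    · exact absurd rfl hij
  exact hle h

end Pool.Agent.W411.LP
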