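import Mathlib

/-!
# Elementary matrices over the integral Laurent polynomials
-/

set_option autoImplicit false

namespace Pool.Agent.W411.LP

open LaurentPolynomial

/-- `SL_2(ℤ[x, x⁻¹])` -/
abbrev SLA := Matrix.SpecialLinearGroup (Fin 2) (LaurentPolynomial ℤ)

/-- the elementary matrices -/
def ES : Set SLA := {g | ∃ i j : Fin 2, ∃ c : LaurentPolynomial ℤ, i ≠ j ∧
  (g : Matrix (Fin 2) (Fin 2) (LaurentPolynomial ℤ)) = Matrix.transvection i j c}

/-- the elementary group -/
noncomputable def EE : Subgroup SLA := Subgroup.closure ES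

/-- a matrix given by its entries -/
noncomputable def mk (a b c d : LaurentPolynomial ℤ) (h : a * d - b * c = 1) : SLA :=
  ⟨!![a, b; c, d], by rw [Matrix.det_fin_two_of]; exact h⟩

theorem mk_coe (a b c d : LaurentPolynomial ℤ) (h : a * d - b * c = 1) :
    (mk a b c d h : Matrix (Fin 2) (Fin 2) (LaurentPolynomial ℤ)) = !![a, b; c, d] := rfl

theorem ext_mk {g : SLA} {a b c d : LaurentPolynomial ℤ} {h : a * d - b * c = 1}
    (h1 : g 0 0 = a) (h2 : g 0 1 = b) (h3 : g 1 0 = c) (h4 : g 1 1 = d) : g = mk a b c d h := by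
  apply Subtype.ext
  refine Matrix.ext fun i j => ?_
  fin_cases i <;> fin_cases j <;> assumption

theorem e12_mem (f : LaurentPolynomial ℤ) : mk 1 f 0 1 (by ring) ∈ EE := by
  apply Subgroup.subset_closure
  refine ⟨0, 1, f, by decide, ?_⟩
  rw [mk_coe, Matrix.transvection]
  ext i j
  fin_cases i <;> fin_cases j <;> simp [Matrix.single]

theorem e21_mem (f : LaurentPolynomial ℤ) : mk 1 0 f 1 (by ring) ∈ EE := by
  apply Subgroup.subset_closure
  refine ⟨1, 0, f, by decide, ?_⟩
  rw [mk_coe, Matrix.transvection]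
  ext i j
  fin_cases i <;> fin_cases j <;> simp [Matrix.single]

theorem mk_mul_apply (a b c d : LaurentPolynomial ℤ) (h : a * d - b * c = 1) (g : SLA) (j : Fin 2) :
    (mk a b c d h * g) 0 j = a * g 0 j + b * g 1 j ∧
    (mk a b c d h * g) 1 j = c * g 0 j + d * g 1 j := by
  constructor
  · rw [Matrix.SpecialLinearGroup.coe_mul, Matrix.mul_apply, Fin.sum_univ_two]
    rfl
  · rw [Matrix.SpecialLinearGroup.coe_mul, Matrix.mul_apply, Fin.sum_univ_two]
    rfl

theorem det_eq (g : SLA) : g 0 0 * g 1 1 - g 0 1 * g 1 0 = 1 := by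
  have := g.2
  rwa [Matrix.det_fin_two] at this

/-- the group generated by the elementary matrices contains the Weyl elements -/
theorem weyl_mem {u w : LaurentPolynomial ℤ} (h : u * w = 1) :
    mk 0 u (-w) 0 (by linear_combination h) ∈ EE := by
  have h1 := EE.mul_mem (EE.mul_mem (e12_mem u) (e21_mem (-w))) (e12_mem u)
  convert h1 using 1
  symm
  apply ext_mk
  · rw [mul_assoc, (mk_mul_apply _ _ _ _ _ _ _).1, (mk_mul_apply _ _ _ _ _ _ _).1,
      (mk_mul_apply _ _ _ _ _ _ _).2]
    simp only [mk_coe, Matrix.of_apply, Matrix.cons_val', Matrix.cons_val_zero,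
      Matrix.cons_val_one, Matrix.cons_val_fin_one]
    linear_combination (-1 : LaurentPolynomial ℤ) * h
  · rw [mul_assoc, (mk_mul_apply _ _ _ _ _ _ _).1, (mk_mul_apply _ _ _ _ _ _ _).1,
      (mk_mul_apply _ _ _ _ _ _ _).2]
    simp only [mk_coe, Matrix.of_apply, Matrix.cons_val', Matrix.cons_val_zero,
      Matrix.cons_val_one, Matrix.cons_val_fin_one]
    linear_combination (-u) * h
  · rw [mul_assoc, (mk_mul_apply _ _ _ _ _ _ _).2, (mk_mul_apply _ _ _ _ _ _ _).1,
      (mk_mul_apply _ _ _ _ _ _ _).2]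
    simp only [mk_coe, Matrix.of_apply, Matrix.cons_val', Matrix.cons_val_zero,
      Matrix.cons_val_one, Matrix.cons_val_fin_one]
    ring
  · rw [mul_assoc, (mk_mul_apply _ _ _ _ _ _ _).2, (mk_mul_apply _ _ _ _ _ _ _).1,
      (mk_mul_apply _ _ _ _ _ _ _).2]
    simp only [mk_coe, Matrix.of_apply, Matrix.cons_val', Matrix.cons_val_zero,
      Matrix.cons_val_one, Matrix.cons_val_fin_one]
    linear_combination (-1 : LaurentPolynomial ℤ) * h

/-- the diagonal matrices -/
theorem diag_mem {u w : LaurentPolynomial ℤ} (h : u * w = 1) :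
    mk u 0 0 w (by linear_combination h) ∈ EE := by
  have h1 := EE.mul_mem (weyl_mem h) (weyl_mem (u := -1) (w := -1) (by ring))
  convert h1 using 1
  symm
  apply ext_mk
  · rw [(mk_mul_apply _ _ _ _ _ _ _).1]
    simp [mk_coe]
  · rw [(mk_mul_apply _ _ _ _ _ _ _).1]
    simp [mk_coe]
  · rw [(mk_mul_apply _ _ _ _ _ _ _).2]
    simp [mk_coe]
  · rw [(mk_mul_apply _ _ _ _ _ _ _).2]
    simp [mk_coe]

/-- upper triangular matrices -/
theorem upper_mem {u w b : LaurentPolynomial ℤ} (h : u * w = 1) :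
    mk u b 0 w (by linear_combination h) ∈ EE := by
  have h1 := EE.mul_mem (diag_mem h) (e12_mem (w * b))
  convert h1 using 1
  symm
  apply ext_mk
  · rw [(mk_mul_apply _ _ _ _ _ _ _).1]
    simp [mk_coe]
  · rw [(mk_mul_apply _ _ _ _ _ _ _).1]
    simp only [mk_coe, Matrix.of_apply, Matrix.cons_val', Matrix.cons_val_zero,
      Matrix.cons_val_one, Matrix.cons_val_fin_one]
    linear_combination b * h
  · rw [(mk_mul_apply _ _ _ _ _ _ _).2]
    simp [mk_coe]
  · rw [(mk_mul_apply _ _ _ _ _ _ _).2]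
    simp [mk_coe]

/-- a matrix whose first column is a unit times the first column of an element of `EE` -/
theorem mem_of_col {g ε : SLA} (hε : ε ∈ EE) {u w : LaurentPolynomial ℤ} (h : u * w = 1)
    (h0 : g 0 0 = u * ε 0 0) (h1 : g 1 0 = u * ε 1 0) : g ∈ EE := by
  have hd := det_eq ε
  have hg := det_eq g
  have e1 : (ε⁻¹ * g) 0 0 = u := by
    rw [Matrix.SpecialLinearGroup.coe_mul, Matrix.SpecialLinearGroup.SL2_inv_expl,
      Matrix.mul_apply, Fin.sum_univ_two]
    simp only [Matrix.cons_val', Matrix.cons_val_zero, Matrix.cons_val_one,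
      Matrix.cons_val_fin_one]
    rw [h0, h1]
    linear_combination u * hd
  have e2 : (ε⁻¹ * g) 1 0 = 0 := by
    rw [Matrix.SpecialLinearGroup.coe_mul, Matrix.SpecialLinearGroup.SL2_inv_expl,
      Matrix.mul_apply, Fin.sum_univ_two]
    simp only [Matrix.cons_val', Matrix.cons_val_zero, Matrix.cons_val_one,
      Matrix.cons_val_fin_one]
    rw [h0, h1]
    ring
  have hdd := det_eq (ε⁻¹ * g)
  rw [e1, e2, mul_zero, sub_zero] at hdd
  have e3 : (ε⁻¹ * g) 1 1 = w := by
    calc (ε⁻¹ * g) 1 1 = (u * w) * (ε⁻¹ * g) 1 1 := by rw [h, one_mul]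
      _ = w * (u * (ε⁻¹ * g) 1 1) := by ring
      _ = w := by rw [hdd, mul_one]
  have h2 : ε⁻¹ * g ∈ EE := by
    rw [ext_mk (h := by linear_combination h) e1 rfl e2 e3]
    exact upper_mem h
  have h3 := EE.mul_mem hε h2
  rwa [mul_inv_cancel_left] at h3

/-- the first columns of the elements of `EE` -/
def EV (p q : LaurentPolynomial ℤ) : Prop := ∃ ε ∈ EE, ε 0 0 = p ∧ ε 1 0 = q

theorem EV.e12 {p q : LaurentPolynomial ℤ} (h : EV p q) (f : LaurentPolynomial ℤ) :
    EV (p + f * q) q := by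
  obtain ⟨ε, hε, rfl, rfl⟩ := h
  refine ⟨_, EE.mul_mem (e12_mem f) hε, ?_, ?_⟩
  · rw [(mk_mul_apply _ _ _ _ _ _ _).1, one_mul]
  · rw [(mk_mul_apply _ _ _ _ _ _ _).2, zero_mul, zero_add, one_mul]

theorem EV.weyl {p q : LaurentPolynomial ℤ} (h : EV p q) {u w : LaurentPolynomial ℤ}
    (huw : u * w = 1) : EV (u * q) (-w * p) := by
  obtain ⟨ε, hε, rfl, rfl⟩ := h
  refine ⟨_, EE.mul_mem (weyl_mem huw) hε, ?_, ?_⟩
  · rw [(mk_mul_apply _ _ _ _ _ _ _).1, zero_mul, zero_add]
  · rw [(mk_mul_apply _ _ _ _ _ _ _).2, zero_mul, add_zero]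

theorem EV_one : EV 1 0 := ⟨1, EE.one_mem, by simp, by simp⟩

theorem EV_neg_one : EV (-1) 0 := by
  refine ⟨_, diag_mem (u := -1) (w := -1) (by ring), ?_, ?_⟩ <;> rfl

theorem T_mul_T_neg (k : ℤ) : (T k * T (-k) : LaurentPolynomial ℤ) = 1 := by
  rw [← T_add, add_neg_cancel, T_zero]

/-- coprime integers -/
theorem EV_int (k : ℤ) : ∀ (n : ℕ) (α β : ℤ), IsCoprime α β → β.natAbs ≤ n →
    EV (C α) (C β * T k) := by
  intro n
  induction n with
  | zero =>
    intro α β h hn
    have hβ : β = 0 := by omega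
    subst hβ
    rw [isCoprime_zero_right, Int.isUnit_iff] at h
    rcases h with rfl | rfl
    · simpa using EV_one
    · have := EV_neg_one
      simpa using this
  | succ n ih =>
    intro α β h hn
    by_cases hβ : β = 0
    · exact ih α β h (by omega)
    -- `(α, β x^k) = e12 (q x^{-k}) (r, β x^k)` and `(r, β x^k)` comes from `(-β, r x^k)`
    have h1 : IsCoprime (-β) (α % β) := by
      have : IsCoprime (α % β) β := by
        rw [Int.emod_def, sub_eq_add_neg, ← mul_neg]
        exact IsCoprime.add_mul_left_left h _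
      exact this.symm.neg_left
    have hlt : (α % β).natAbs ≤ n := by
      have h1 := Int.emod_lt_abs α hβ
      have h2 := Int.emod_nonneg α hβ
      have h3 := Int.abs_eq_natAbs β
      omega
    have h2 := ih (-β) (α % β) h1 hlt
    have h3 := h2.weyl (u := T (-k)) (w := T k) (by rw [mul_comm]; exact T_mul_T_neg k)
    have e1 : (T (-k) * (C (α % β) * T k) : LaurentPolynomial ℤ) = C (α % β) := by
      rw [mul_left_comm, ← T_add, neg_add_cancel, T_zero, mul_one]
    have e2 : (-T k * C (-β) : LaurentPolynomial ℤ) = C β * T k := by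
      rw [map_neg]; ring
    rw [e1, e2] at h3
    have h4 := h3.e12 (C (α / β) * T (-k))
    have e3 : (C (α % β) + C (α / β) * T (-k) * (C β * T k) : LaurentPolynomial ℤ) = C α := by
      have : (C (α / β) * T (-k) * (C β * T k) : LaurentPolynomial ℤ) = C (α / β * β) := by
        calc (C (α / β) * T (-k) * (C β * T k) : LaurentPolynomial ℤ)
            = (C (α / β) * C β) * (T k * T (-k)) := by ring
          _ = _ := by rw [T_mul_T_neg, mul_one, ← C.map_mul]
      rw [this, ← C.map_add]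
      congr 1
      exact Int.emod_add_ediv_mul α β
    rwa [e3] at h4

end Pool.Agent.W411.LP
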