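import Pool.Agent.W411.LP.Desc
import Pool.Agent.W411.LP.Mat

/-!
# Vertices of defect one
-/

set_option autoImplicit false

namespace Pool.Agent.W411.LP

open LaurentPolynomial AddSubgroup

/-- the first column -/
noncomputable def cv (g : SLA) : W := (toF (g 0 0), toF (g 1 0))

/-- the second column -/
noncomputable def cv2 (g : SLA) : W := (toF (g 0 1), toF (g 1 1))

theorem det_cv (g : SLA) : det (cv g) (cv2 g) = 1 := by
  have h := det_eq g
  have := congrArg toF h
  rw [map_sub, map_mul, map_mul, map_one] at this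
  simp only [det, cv, cv2]
  linear_combination this

theorem cv_mem (g : SLA) : cv g ∈ M := ⟨toF_mem _, toF_mem _⟩

theorem cv2_mem (g : SLA) : cv2 g ∈ M := ⟨toF_mem _, toF_mem _⟩

/-- good cusps -/
def Good (u : W) : Prop := ∃ (r : ℚ) (i : ℤ), r ≠ 0 ∧ ∃ ε ∈ EE, u = (C r * T i : F) • cv ε

theorem unit_inv {r : ℚ} (hr : r ≠ 0) (i : ℤ) : (C r⁻¹ * T (-i) : F) * (C r * T i) = 1 := by
  calc (C r⁻¹ * T (-i) : F) * (C r * T i) = (C r⁻¹ * C r) * (T (-i) * T i) := by ring
    _ = 1 := by rw [← C.map_mul, inv_mul_cancel₀ hr, ← T_add, neg_add_cancel, T_zero, C.map_one,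
      one_mul]

theorem Good.smul {u : W} (h : Good u) {r : ℚ} (hr : r ≠ 0) (i : ℤ) :
    Good ((C r * T i : F) • u) := by
  obtain ⟨s, j, hs, ε, hε, rfl⟩ := h
  refine ⟨r * s, i + j, mul_ne_zero hr hs, ε, hε, ?_⟩
  rw [smul_smul, C.map_mul, T_add]
  congr 1
  ring

theorem Good.of_smul {u : W} {r : ℚ} (hr : r ≠ 0) {i : ℤ} (h : Good ((C r * T i : F) • u)) :
    Good u := by
  have := h.smul (inv_ne_zero hr) (-i)
  rwa [smul_smul, unit_inv hr, one_smul] at this

theorem int_of_col {g ε : SLA} {r : ℚ} {i : ℤ} (h : cv g = (C r * T i : F) • cv ε) :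
    ∃ n : ℤ, r * n = 1 := by
  have h1 := det_cv g
  rw [h, det_smul_left] at h1
  obtain ⟨n, hn⟩ := mem_AF.1 (det_mem (cv_mem ε) (cv2_mem g)) (0 - i)
  refine ⟨n, ?_⟩
  have h2 := congrArg (fun f : F => f.coeff 0) h1
  simp only [mul_assoc] at h2
  rw [coeff_C_mul, coeff_T_mul, hn] at h2
  rw [h2, ← T_zero, T_apply, if_pos rfl]

theorem mem_of_good {g : SLA} (h : Good (cv g)) : g ∈ EE := by
  obtain ⟨r, i, hr, ε, hε, h⟩ := h
  obtain ⟨n, hn⟩ := int_of_col h
  have h' : cv ε = (C r⁻¹ * T (-i) : F) • cv g := by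
    rw [h, smul_smul, unit_inv hr, one_smul]
  obtain ⟨n', hn'⟩ := int_of_col h'
  have hrn : r = n' := by
    have : r = r * (r⁻¹ * n') := by rw [hn', mul_one]
    rw [this, ← mul_assoc, mul_inv_cancel₀ hr, one_mul]
  have hnn : n' * n = 1 := by
    rw [hrn] at hn
    exact_mod_cast hn
  have hu : (C n' * T i : A) * (C n * T (-i)) = 1 := by
    calc (C n' * T i : A) * (C n * T (-i)) = (C n' * C n) * (T i * T (-i)) := by ring
      _ = 1 := by rw [← C.map_mul, hnn, ← T_add, add_neg_cancel, T_zero, C.map_one, one_mul]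
  have htoF : toF (C n' * T i) = C r * T i := by rw [map_mul, toF_C, toF_T, hrn]
  refine mem_of_col hε hu (toF_injective ?_) (toF_injective ?_)
  · rw [map_mul, htoF]
    exact congrArg Prod.fst h
  · rw [map_mul, htoF]
    exact congrArg Prod.snd h

theorem Good.of_prim {u : W} {r : ℚ} (hr : r ≠ 0) : Good ((C r : F) • u) ↔ Good u := by
  constructor
  · intro h
    refine Good.of_smul hr (i := 0) ?_
    rwa [T_zero, mul_one]
  · intro h
    have := h.smul hr 0
    rwa [T_zero, mul_one] at this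

/-- in a vertex of defect one, all cusps are good as soon as one is -/
theorem good_of_good {v : Vtx} (hv : v.D M = 1) {a b : W} (ha : a ∈ v.V) (hb : b ∈ v.V)
    (ha0 : a ≠ 0) (hb0 : b ≠ 0) (hgood : Good a) : Good b := by
  obtain ⟨a', b', c, k, q, hf⟩ := v.exists_NFr
  -- the lattice at `0` is integral
  have hlz : v.lz M ≤ M ⊓ v.V := by
    have h1 := Vtx.D_eq_lz (v := v) (sh_M 1)
    rw [hv] at h1
    rw [← relIndex_eq_one]
    exact Nat.dvd_one.1 (Dvd.intro_left _ h1.symm)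
  have e1 : phi a' b' (1, 0) = a' := by rw [phi_apply]; simp
  have e2 : phi a' b' (0, 1) = b' := by rw [phi_apply]; simp
  have ha' : a' ∈ M := by
    have : phi a' b' (1, 0) ∈ v.lz M := hf.mem_lz.2 ⟨1, 0, by simp⟩
    rw [e1] at this
    exact (hlz this).1
  have hb' : b' ∈ M := by
    have : phi a' b' (0, 1) ∈ v.lz M := hf.mem_lz.2 ⟨0, 1, by simp⟩
    rw [e2] at this
    exact (hlz this).1
  have haV : a' ∈ v.V := by rw [← e1]; exact hf.phi_mem _
  obtain ⟨n, hn⟩ : ∃ n : ℤ, c = n := by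
    refine C_mul_T_mem_AF (k := k) ?_
    rw [← hf.fr.hdet]
    exact det_mem ha' hb'
  have hn1 : n.natAbs = 1 := by
    by_contra hne
    obtain ⟨p, hp, hpn⟩ := Nat.exists_prime_and_dvd hne
    obtain ⟨l, hl⟩ := Int.natCast_dvd.2 hpn
    have hp0 : (p : ℚ) ≠ 0 := by exact_mod_cast hp.ne_zero
    have hpa : (C ((p : ℚ)⁻¹) : F) • a' ∉ M := by
      intro h
      have h1 : (C ((p : ℚ)⁻¹) : F) • a' = phi a' b' ((p : ℚ)⁻¹ • ((1 : ℚ), (0 : ℚ))) := by
        rw [phi_smul, e1]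
      rw [h1] at h
      have h2 := hf.mem_lz.1 (Vtx.N_V_le_lz ⟨h, hf.phi_mem _⟩)
      obtain ⟨i, j, hij⟩ := h2
      have h3 := congrArg Prod.fst hij
      simp at h3
      have h4 : (1 : ℚ) = p * i := by rw [← h3]; field_simp
      have h5 : (1 : ℤ) = p * i := by exact_mod_cast h4
      have h6 : (p : ℤ) ∣ 1 := ⟨i, h5⟩
      have := Int.natAbs_dvd_natAbs.2 h6
      simp at this
      exact hp.one_lt.ne' this
    have h1 := Vtx.relIndex_lz_Mp (v := v) hp ha' haV hpa
    have h2 : v.lz M ≤ v.lz (Mp p a') := by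
      intro m hm
      refine Vtx.N_V_le_lz ⟨⟨(hlz hm).1, ?_⟩, hm.1⟩
      obtain ⟨x, rfl⟩ := hf.V_iff.1 hm.1
      obtain ⟨i, j, rfl⟩ := hf.mem_lz.1 hm
      have h3 := hf.fr.det_phi (1, 0) ((i : ℚ), (j : ℚ))
      rw [e1] at h3
      rw [h3, ← mul_assoc, ← C.map_mul, hn, hl]
      have : (p : ℚ)⁻¹ * (dt (1, 0) ((i : ℚ), (j : ℚ)) * ((p * l : ℤ) : ℚ)) = ((j * l : ℤ) : ℚ) := by
        simp only [dt]
        push_cast
        field_simp
        ring
      rw [this]
      exact AF.mul_mem (C_int_mem _) (T_mem _)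
    rw [relIndex_eq_one.2 h2] at h1
    exact hp.one_lt.ne h1
  have hnn : n * n = 1 := by
    rcases Int.natAbs_eq n with h | h <;> rw [hn1] at h <;> rw [h] <;> norm_num
  -- the two cusps
  obtain ⟨x, rfl⟩ := hf.V_iff.1 ha
  obtain ⟨y, rfl⟩ := hf.V_iff.1 hb
  obtain ⟨r, hr, hx⟩ := exists_prim_L0 (hf.phi_ne_zero.1 ha0)
  obtain ⟨r', hr', hy⟩ := exists_prim_L0 (hf.phi_ne_zero.1 hb0)
  obtain ⟨t, ht, hxt⟩ := partner_L0 hx (smul_ne_zero hr (hf.phi_ne_zero.1 ha0))
  obtain ⟨z, hz, hyz⟩ := partner_L0 hy (smul_ne_zero hr' (hf.phi_ne_zero.1 hb0))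
  have hsM : phi a' b' (r • x) ∈ M := (hlz (hf.mem_lz.2 hx.1)).1
  have htM : phi a' b' t ∈ M := (hlz (hf.mem_lz.2 ht)).1
  have hdst := hf.fr.det_phi (r • x) t
  rw [hxt, one_mul, hn] at hdst
  obtain ⟨⟨p1, hp1⟩, ⟨p2, hp2⟩⟩ := hsM
  obtain ⟨⟨q1, hq1⟩, ⟨q2, hq2⟩⟩ := htM
  have hpq : p1 * q2 - p2 * q1 = C n * T k := by
    apply toF_injective
    rw [map_sub, map_mul, map_mul, map_mul, toF_C, toF_T, hp1, hp2, hq1, hq2, ← hdst]
    rfl
  have hCn : (C n * C n : A) = 1 := by rw [← C.map_mul, hnn, C.map_one]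
  have hTT : (T (-k) * T k : A) = 1 := by rw [← T_add, neg_add_cancel, T_zero]
  have hdet : p1 * (C n * T (-k) * q2) - (C n * T (-k) * q1) * p2 = 1 := by
    calc p1 * (C n * T (-k) * q2) - (C n * T (-k) * q1) * p2
        = C n * T (-k) * (p1 * q2 - p2 * q1) := by ring
      _ = (C n * C n) * (T (-k) * T k) := by rw [hpq]; ring
      _ = 1 := by rw [hCn, hTT, one_mul]
  set g := mk p1 (C n * T (-k) * q1) p2 (C n * T (-k) * q2) hdet with hg
  have hcvg : cv g = phi a' b' (r • x) := Prod.ext hp1 hp2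
  have hgE : g ∈ EE := by
    apply mem_of_good
    rw [hcvg, phi_smul, Good.of_prim hr]
    exact hgood
  -- expansion of `y`
  obtain ⟨α, β, hαβ⟩ := basis_L0 hx.1 ht hxt hy.1
  obtain ⟨γ, δ, hγδ⟩ := basis_L0 hx.1 ht hxt hz
  have hcop : IsCoprime α (n * β) := by
    have h1 : (α : ℚ) * δ - β * γ = 1 := by
      rw [hαβ, hγδ, dt_lin, hxt, mul_one] at hyz
      exact hyz
    have h2 : α * δ - β * γ = 1 := by exact_mod_cast h1
    exact ⟨δ, -(n * γ), by linear_combination h2 - β * γ * hnn⟩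
  obtain ⟨ε, hε, hε0, hε1⟩ := EV_int k _ α (n * β) hcop le_rfl
  rw [← Good.of_prim hr', ← phi_smul]
  refine ⟨1, 0, one_ne_zero, g * ε, EE.mul_mem hgE hε, ?_⟩
  rw [C.map_one, T_zero, one_mul, one_smul, hαβ, map_add, phi_smul a' b' (α : ℚ) (r • x),
    phi_smul a' b' (β : ℚ) t]
  have key : ∀ p q : A, toF (p * C α + C n * T (-k) * q * (C (n * β) * T k)) =
      C (α : ℚ) * toF p + C (β : ℚ) * toF q := by
    intro p q
    have : p * C α + C n * T (-k) * q * (C (n * β) * T k) = C α * p + C β * q := by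
      rw [C.map_mul]
      calc p * C α + C n * T (-k) * q * (C n * C β * T k)
          = C α * p + (C n * C n) * (T (-k) * T k) * (C β * q) := by ring
        _ = _ := by rw [hCn, hTT]; ring
    rw [this, map_add, map_mul, map_mul, toF_C, toF_C]
  refine Prod.ext ?_ ?_
  · show C (α : ℚ) * (phi a' b' (r • x)).1 + C (β : ℚ) * (phi a' b' t).1 = toF ((g * ε) 0 0)
    rw [hg, (mk_mul_apply _ _ _ _ _ _ _).1, hε0, hε1, key, hp1, hq1]
  · show C (α : ℚ) * (phi a' b' (r • x)).2 + C (β : ℚ) * (phi a' b' t).2 = toF ((g * ε) 1 0)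
    rw [hg, (mk_mul_apply _ _ _ _ _ _ _).2, hε0, hε1, key, hp2, hq2]

/-- the level one relation preserves good cusps -/
theorem good_rel {u w : W} (h : Rel 1 u w) : Good u ↔ Good w := by
  induction h with
  | same w r i hr => exact ⟨fun h => h.of_smul hr, fun h => h.smul hr i⟩
  | adj v h u w hu hw hu0 hw0 =>
    have hv : v.D M = 1 := by
      have := v.D_ne_zero
      omega
    exact ⟨good_of_good hv hu hw hu0 hw0, good_of_good hv hw hu hw0 hu0⟩
  | symm _ ih => exact ih.symm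
  | trans _ _ ih ih' => exact ih.trans ih'

/-- the vertex of a unimodular pair -/
noncomputable def vst (s t : W) (h : det s t = 1) : Vtx where
  P := PU s 0 ⊓ PU t 0
  Q := QU s 0 ⊓ QU t 0
  ex := ⟨s, t, 1, 0, one_ne_zero, by rw [h, C.map_one, T_zero, one_mul], fun _ => Iff.rfl,
    fun _ => Iff.rfl⟩

theorem vst_frame (s t : W) (h : det s t = 1) : IsFrame s t 1 0 (vst s t h).P (vst s t h).Q :=
  ⟨one_ne_zero, by rw [h, C.map_one, T_zero, one_mul], fun _ => Iff.rfl, fun _ => Iff.rfl⟩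

theorem vst_D {s t : W} (hs : s ∈ M) (ht : t ∈ M) (h : det s t = 1) : (vst s t h).D M = 1 := by
  apply Vtx.D_eq_one
  rintro m ⟨hmV, hm⟩
  have hf := vst_frame s t h
  obtain ⟨r, r', rfl⟩ := hf.mem_V.1 hmV
  obtain ⟨n, hn, z, hz, hnz⟩ := AddSubgroup.mem_sup.1 hm
  rw [hf.mem_sh_P] at hz
  have h1 : ∃ j : ℤ, r' = j := by
    obtain ⟨j, hj⟩ := mem_AF.1 (det_mem hs hn) 0
    refine ⟨j, ?_⟩
    have h2 := (hf.det_comb r r').1
    rw [← hnz, det_add_right] at h2
    have h3 := congrArg (fun f : F => f.coeff 0) h2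
    simp only [AddMonoidAlgebra.coeff_add, Finsupp.add_apply] at h3
    rw [hj, hz.1 0 (by norm_num), coeff_C_mul_T, if_pos rfl] at h3
    linarith
  have h2 : ∃ i : ℤ, r = i := by
    obtain ⟨i, hi⟩ := mem_AF.1 (det_mem ht hn) 0
    refine ⟨-i, ?_⟩
    have h2 := (hf.det_comb r r').2
    rw [← hnz, det_add_right] at h2
    have h3 := congrArg (fun f : F => f.coeff 0) h2
    simp only [AddMonoidAlgebra.coeff_add, Finsupp.add_apply] at h3
    rw [hi, hz.2 0 (by norm_num), coeff_C_mul_T, if_pos rfl] at h3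
    push_cast
    linarith
  obtain ⟨j, rfl⟩ := h1
  obtain ⟨i, rfl⟩ := h2
  exact M.add_mem (zC_mem hs i) (zC_mem ht j)

theorem vst_mem (s t : W) (h : det s t = 1) : s ∈ (vst s t h).V ∧ t ∈ (vst s t h).V := by
  have hf := vst_frame s t h
  exact ⟨hf.mem_V.2 ⟨1, 0, by simp⟩, hf.mem_V.2 ⟨0, 1, by simp⟩⟩

/-! ### Connectivity -/

theorem Rel.map_exists {D : ℕ} {a b : W} (h : Rel D a b) {g : W ≃ₗ[F] W} {j : ℤ} (hg : Sim g j) :
    ∃ D', Rel D' (g a) (g b) := by
  induction h with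
  | same w r i hr => exact ⟨0, by rw [map_smul]; exact Rel.same _ r i hr⟩
  | adj v h u w hu hw hu0 hw0 =>
    exact ⟨(v.map g hg).D M, Rel.adj (v.map g hg) le_rfl _ _ ((Vtx.map_mem_V hg).2 hu)
      ((Vtx.map_mem_V hg).2 hw) (by simpa using hu0) (by simpa using hw0)⟩
  | symm _ ih =>
    obtain ⟨D', h⟩ := ih
    exact ⟨D', h.symm⟩
  | trans _ _ ih ih' =>
    obtain ⟨D', h⟩ := ih
    obtain ⟨D'', h'⟩ := ih'
    exact ⟨max D' D'', (h.mono (le_max_left _ _)).trans (h'.mono (le_max_right _ _))⟩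

/-- the cusps connected to the standard one -/
def Reach (m : W) : Prop := ∃ D, Rel D ((1, 0) : W) m

theorem det_e (p q : F) : det ((1, 0) : W) (p, q) = q := by simp [det]

theorem det_e' (p q : F) : det ((0, 1) : W) (p, q) = -p := by simp [det]

theorem reach_trans {D : ℕ} {a b : W} (ha : Reach a) (h : Rel D a b) : Reach b := by
  obtain ⟨D', h'⟩ := ha
  exact ⟨max D' D, (h'.mono (le_max_left _ _)).trans (h.mono (le_max_right _ _))⟩

theorem rel_e : ∃ D, Rel D ((1, 0) : W) ((0, 1) : W) := by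
  have h : det ((1, 0) : W) (0, 1) = 1 := det_e 0 1
  exact ⟨_, Rel.adj (vst _ _ h) le_rfl _ _ (vst_mem _ _ h).1 (vst_mem _ _ h).2 (by simp) (by simp)⟩

theorem reach_smul {m : W} {r : ℚ} (hr : r ≠ 0) {i : ℤ} :
    Reach ((C r * T i : F) • m) ↔ Reach m :=
  ⟨fun h => reach_trans h (Rel.same (D := 0) m r i hr),
    fun h => reach_trans h (Rel.same (D := 0) m r i hr).symm⟩

theorem reach_e12 {p q : F} (h : Reach (p, q)) (f : F) : Reach (p + f * q, q) := by
  obtain ⟨D, h⟩ := h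
  obtain ⟨D', h'⟩ := h.map_exists (nn_sim ((1, 0) : W) f)
  rw [nn_self, nn_apply, det_e] at h'
  refine ⟨D', ?_⟩
  have e : ((p, q) : W) + (f * q) • ((1, 0) : W) = (p + f * q, q) := by ext1 <;> simp
  rwa [e] at h'

theorem reach_e21 {p q : F} (h : Reach (p, q)) (f : F) : Reach (p, q + f * p) := by
  obtain ⟨D, h⟩ := h
  obtain ⟨D', h'⟩ := h.map_exists (nn_sim ((0, 1) : W) (-f))
  obtain ⟨D₀, h₀⟩ := rel_e
  obtain ⟨D₁, h₁⟩ := h₀.map_exists (nn_sim ((0, 1) : W) (-f))
  rw [nn_self] at h₁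
  have k1 : Reach (nn ((0, 1) : W) (-f) (1, 0)) := reach_trans ⟨D₀, h₀⟩ h₁.symm
  have k2 := reach_trans k1 h'
  rw [nn_apply, det_e'] at k2
  have e : ((p, q) : W) + (-f * -p) • ((0, 1) : W) = (p, q + f * p) := by ext1 <;> simp
  rwa [e] at k2

theorem reach_swap {p q : F} (h : Reach (p, q)) : Reach (-q, p) := by
  have h1 := reach_e21 h 1
  have h2 := reach_e12 h1 (-1)
  have h3 := reach_e21 h2 1
  have e1 : p + -1 * (q + 1 * p) = -q := by ring
  have e2 : q + 1 * p + 1 * (p + -1 * (q + 1 * p)) = p := by ring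
  rwa [e2, e1] at h3

theorem reach_neg {p q : F} (h : Reach (p, q)) : Reach (-p, -q) := by
  have h1 := (reach_smul (m := (p, q)) (r := -1) (by norm_num) (i := 0)).2 h
  have e : (C (-1 : ℚ) * T 0 : F) • ((p, q) : W) = (-p, -q) := by
    rw [T_zero, mul_one, Cneg, C.map_one]
    ext1 <;> simp
  rwa [e] at h1

open Polynomial in
/-- columns of polynomials whose greatest common divisor is a monomial -/
theorem reach_poly (n : ℕ) (f g : Polynomial ℚ) (h : EuclideanDomain.gcd f g ∣ Polynomial.X ^ n) :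
    Reach (Polynomial.toLaurent f, Polynomial.toLaurent g) ∧
      Reach (-Polynomial.toLaurent f, Polynomial.toLaurent g) := by
  revert h
  refine EuclideanDomain.GCD.induction (P := fun f g : Polynomial ℚ =>
    EuclideanDomain.gcd f g ∣ Polynomial.X ^ n →
    Reach (Polynomial.toLaurent f, Polynomial.toLaurent g) ∧
      Reach (-Polynomial.toLaurent f, Polynomial.toLaurent g)) f g ?_ ?_
  · intro x hx
    rw [EuclideanDomain.gcd_zero_left] at hx
    obtain ⟨i, -, hi⟩ := (dvd_prime_pow Polynomial.prime_X n).1 hx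
    obtain ⟨u, hu⟩ := hi
    obtain ⟨r, hr, hru⟩ := Polynomial.isUnit_iff.1 u.isUnit
    have hr0 : r ≠ 0 := hr.ne_zero
    have hx' : x = Polynomial.C r⁻¹ * Polynomial.X ^ i := by
      rw [← hu, ← hru]
      calc x = x * Polynomial.C (r * r⁻¹) := by rw [mul_inv_cancel₀ hr0, Polynomial.C_1, mul_one]
        _ = _ := by rw [Polynomial.C_mul]; ring
    have h1 : Reach (0, Polynomial.toLaurent x) := by
      obtain ⟨D, h⟩ := rel_e
      have h1 := (reach_smul (m := ((0, 1) : W)) (inv_ne_zero hr0) (i := (i : ℤ))).2 ⟨D, h⟩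
      have e : (LaurentPolynomial.C r⁻¹ * T (i : ℤ) : F) • ((0, 1) : W) =
          (0, Polynomial.toLaurent x) := by
        rw [hx', map_mul, Polynomial.toLaurent_C, Polynomial.toLaurent_X_pow]
        ext1 <;> simp
      rwa [e] at h1
    rw [map_zero, neg_zero]
    exact ⟨h1, h1⟩
  · intro a b ha ih hgcd
    rw [EuclideanDomain.gcd_val] at hgcd
    obtain ⟨h1, h2⟩ := ih hgcd
    have hdiv : Polynomial.toLaurent b = Polynomial.toLaurent (b % a) +
        Polynomial.toLaurent (b / a) * Polynomial.toLaurent a := by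
      rw [← map_mul, ← map_add]
      congr 1
      have := EuclideanDomain.div_add_mod b a
      linear_combination (-1 : Polynomial ℚ) * this
    constructor
    · -- from `(-r, a)`
      have k1 := reach_neg (reach_swap h2)
      rw [neg_neg, neg_neg] at k1
      have k2 := reach_e21 k1 (Polynomial.toLaurent (b / a))
      rwa [← hdiv] at k2
    · have k1 := reach_swap h1
      have k2 := reach_e21 k1 (-Polynomial.toLaurent (b / a))
      rw [neg_mul_neg, ← hdiv] at k2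
      exact k2

/-- all unimodular columns are connected to the standard one -/
theorem reach_unimodular {p q x y : F} (h : p * x + q * y = 1) : Reach (p, q) := by
  have key : ∀ f : F, ∃ (n : ℕ), ∀ m : ℕ, n ≤ m → ∃ f' : Polynomial ℚ,
      Polynomial.toLaurent f' = f * T m := by
    intro f
    obtain ⟨n, f', hf'⟩ := exists_T_pow f
    refine ⟨n, fun m hm => ⟨f' * Polynomial.X ^ (m - n), ?_⟩⟩
    rw [map_mul, hf', Polynomial.toLaurent_X_pow, mul_assoc, ← T_add]
    congr 2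
    omega
  obtain ⟨n1, h1⟩ := key p
  obtain ⟨n2, h2⟩ := key q
  obtain ⟨n3, h3⟩ := key x
  obtain ⟨n4, h4⟩ := key y
  set n := n1 + n2 + n3 + n4 with hn
  obtain ⟨p', hp'⟩ := h1 n (by omega)
  obtain ⟨q', hq'⟩ := h2 n (by omega)
  obtain ⟨x', hx'⟩ := h3 n (by omega)
  obtain ⟨y', hy'⟩ := h4 n (by omega)
  have hsum : p' * x' + q' * y' = Polynomial.X ^ (n + n) := by
    apply Polynomial.toLaurent_injective
    rw [map_add, map_mul, map_mul, hp', hq', hx', hy', Polynomial.toLaurent_X_pow]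
    calc p * T n * (x * T n) + q * T n * (y * T n) = (p * x + q * y) * (T n * T n) := by ring
      _ = _ := by rw [h, one_mul, ← T_add]; congr 1
  have hg : EuclideanDomain.gcd p' q' ∣ Polynomial.X ^ (n + n) := by
    rw [← hsum]
    exact dvd_add ((EuclideanDomain.gcd_dvd_left p' q').mul_right _)
      ((EuclideanDomain.gcd_dvd_right p' q').mul_right _)
  have h5 := (reach_poly _ _ _ hg).1
  rw [hp', hq'] at h5
  rw [← reach_smul (r := 1) one_ne_zero (i := (n : ℤ))]
  have e : (C (1 : ℚ) * T (n : ℤ) : F) • ((p, q) : W) = (p * T n, q * T n) := by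
    rw [C.map_one, one_mul]
    ext1 <;> simp [mul_comm]
  rwa [e]

/-- **every matrix of determinant one is elementary** -/
theorem mem_EE (g : SLA) : g ∈ EE := by
  have hdet := det_cv g
  have h1 : Reach (cv g) := by
    refine reach_unimodular (x := (cv2 g).2) (y := -(cv2 g).1) ?_
    simp only [det] at hdet
    show (cv g).1 * (cv2 g).2 + (cv g).2 * -(cv2 g).1 = 1
    linear_combination hdet
  obtain ⟨D, hD⟩ := h1
  have he : det ((1, 0) : W) (0, 1) = 1 := det_e 0 1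
  have e1 : ((1, 0) : W) ∈ M := ⟨AF.one_mem, AF.zero_mem⟩
  have e2 : ((0, 1) : W) ∈ M := ⟨AF.zero_mem, AF.one_mem⟩
  have h2 := descend (vst_mem _ _ he).1 (vst_D e1 e2 he) (vst_mem _ _ hdet).1
    (vst_D (cv_mem g) (cv2_mem g) hdet) D hD
  have h3 : Good ((1, 0) : W) := by
    refine ⟨1, 0, one_ne_zero, 1, EE.one_mem, ?_⟩
    rw [C.map_one, T_zero, one_mul, one_smul, cv]
    simp
  exact mem_of_good ((good_rel h2).1 h3)

end Pool.Agent.W411.LP
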