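import Pool.Agent.W411.LP.Base

/-!
# The general linear group
-/

set_option autoImplicit false

namespace Pool.Agent.W411.LP

open LaurentPolynomial

/-- elementary and diagonal matrices -/
def GS : Set (Matrix.GeneralLinearGroup (Fin 2) (LaurentPolynomial ℤ)) :=
  {g | (∃ i j : Fin 2, ∃ c : LaurentPolynomial ℤ, i ≠ j ∧
        (g : Matrix (Fin 2) (Fin 2) (LaurentPolynomial ℤ)) = Matrix.transvection i j c) ∨
      (∃ d : Fin 2 → (LaurentPolynomial ℤ)ˣ,
        (g : Matrix (Fin 2) (Fin 2) (LaurentPolynomial ℤ)) =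
          Matrix.diagonal (fun k => (d k : LaurentPolynomial ℤ)))}

theorem toGL_mem (s : SLA) : Matrix.SpecialLinearGroup.toGL s ∈ Subgroup.closure GS := by
  have h1 : EE ≤ (Subgroup.closure GS).comap Matrix.SpecialLinearGroup.toGL := by
    rw [EE, Subgroup.closure_le]
    rintro g ⟨i, j, c, hij, hg⟩
    exact Subgroup.subset_closure (Or.inl ⟨i, j, c, hij, hg⟩)
  exact h1 (mem_EE s)

theorem closure_GS : Subgroup.closure GS = ⊤ := by
  rw [eq_top_iff]
  intro g _
  set u : (LaurentPolynomial ℤ)ˣ := Matrix.GeneralLinearGroup.det g with hu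
  let d : Fin 2 → (LaurentPolynomial ℤ)ˣ := ![u, 1]
  let Dm : Matrix.GeneralLinearGroup (Fin 2) (LaurentPolynomial ℤ) :=
    ⟨Matrix.diagonal (fun k => (d k : LaurentPolynomial ℤ)),
      Matrix.diagonal (fun k => ((d k)⁻¹ : (LaurentPolynomial ℤ)ˣ)),
      by rw [Matrix.diagonal_mul_diagonal]; simp,
      by rw [Matrix.diagonal_mul_diagonal]; simp⟩
  have hDm : Dm ∈ Subgroup.closure GS := Subgroup.subset_closure (Or.inr ⟨d, rfl⟩)
  have hdet : Matrix.det ((Dm⁻¹ * g : Matrix.GeneralLinearGroup (Fin 2) (LaurentPolynomial ℤ)) :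
      Matrix (Fin 2) (Fin 2) (LaurentPolynomial ℤ)) = 1 := by
    have h2 : Matrix.GeneralLinearGroup.det Dm = u := by
      apply Units.ext
      show Matrix.det (Matrix.diagonal (fun k => (d k : LaurentPolynomial ℤ))) = _
      rw [Matrix.det_diagonal]
      simp [d]
    have h3 : Matrix.GeneralLinearGroup.det (Dm⁻¹ * g) = 1 := by
      rw [map_mul, map_inv, h2, ← hu, inv_mul_cancel]
    exact congrArg Units.val h3
  have h4 : Dm⁻¹ * g = Matrix.SpecialLinearGroup.toGL ⟨_, hdet⟩ := Units.ext rfl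
  have h5 : Dm⁻¹ * g ∈ Subgroup.closure GS := by rw [h4]; exact toGL_mem _
  have h6 := (Subgroup.closure GS).mul_mem hDm h5
  rwa [mul_inv_cancel_left] at h6

end Pool.Agent.W411.LP
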