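import Pool.Agent.W411.LP.E2c

/-!
# Descent of the level
-/

set_option autoImplicit false

namespace Pool.Agent.W411.LP

open LaurentPolynomial AddSubgroup

/-- cusps which are not low in some vertex of defect `D` -/
def DNL (D : ℕ) (a : W) : Prop := ∃ (v : Vtx) (i : ℤ), v.D M = D ∧ v.NL ((T i : F) • a)

/-- the invariant of the descent -/
def Phi (D : ℕ) (b a : W) : Prop :=
  (¬ DNL D a → Rel (D - 1) a b) ∧
  (∀ (v : Vtx) (i : ℤ), v.D M = D → v.NL ((T i : F) • a) → ∃ d, v.Low d ∧ Rel (D - 1) d b)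

theorem NL_transfer_self {D : ℕ} {v v₁ : Vtx} {a : W} {i : ℤ} (h₁ : v₁.D M = D)
    (hn : v₁.NL ((T i : F) • a)) (ha : a ∈ v.V) (hD : v.D M ≤ D) : v.D M = D ∧ v.NL a := by
  have := hn.transfer (v' := v) (i := -i) (by rw [T_smul_cancel']; exact ha) (by rw [h₁]; exact hD)
  rw [T_smul_cancel', h₁] at this
  exact this

theorem Phi_same {D : ℕ} {b w : W} {r : ℚ} {i : ℤ} (hr : r ≠ 0) :
    Phi D b ((C r * T i : F) • w) ↔ Phi D b w := by
  have hNL : ∀ (v : Vtx) (j : ℤ), v.NL ((T j : F) • ((C r * T i : F) • w)) ↔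
      v.NL ((T (j + i) : F) • w) := by
    intro v j
    have e : (T j : F) • ((C r * T i : F) • w) = (C r : F) • ((T (j + i) : F) • w) := by
      rw [smul_smul, smul_smul, T_add]
      congr 1
      ring
    rw [e]
    exact ⟨fun h => h.of_smul hr, fun h => h.smul hr⟩
  have hDNL : DNL D ((C r * T i : F) • w) ↔ DNL D w := by
    constructor
    · rintro ⟨v, j, hD, h⟩
      exact ⟨v, j + i, hD, (hNL v j).1 h⟩
    · rintro ⟨v, j, hD, h⟩
      exact ⟨v, j - i, hD, (hNL v _).2 (by rw [sub_add_cancel]; exact h)⟩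
  have hs := Rel.same (D := D - 1) w r i hr
  constructor
  · rintro ⟨h1, h2⟩
    refine ⟨fun h => hs.symm.trans (h1 (by rwa [hDNL])), fun v j hD hn => ?_⟩
    exact h2 v (j - i) hD ((hNL v _).2 (by rw [sub_add_cancel]; exact hn))
  · rintro ⟨h1, h2⟩
    refine ⟨fun h => hs.trans (h1 (by rwa [hDNL] at h)), fun v j hD hn => ?_⟩
    exact h2 v (j + i) hD ((hNL v j).1 hn)

theorem Phi_iff_of_mem {D : ℕ} (hD1 : D ≠ 1) {b a : W} {v : Vtx} (hv : v.D M = D) (ha : a ∈ v.V)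
    (ha0 : a ≠ 0) : Phi D b a ↔ ∃ d, v.Low d ∧ Rel (D - 1) d b := by
  constructor
  · rintro ⟨h1, h2⟩
    rcases Vtx.low_or_NL ha ha0 with hl | hn
    · refine ⟨a, hl, h1 ?_⟩
      rintro ⟨v₁, i, hD₁, hn₁⟩
      exact (NL_transfer_self hD₁ hn₁ ha hv.le).2.not_low hl
    · exact h2 v 0 hv (by rw [T_zero, one_smul]; exact hn)
  · rintro ⟨d, hd, hdb⟩
    refine ⟨fun h => ?_, fun v₁ i hD₁ hn₁ => ?_⟩
    · rcases Vtx.low_or_NL ha ha0 with hl | hn
      · have := Vtx.E1 v hl hd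
        rw [hv] at this
        exact this.trans hdb
      · exact absurd ⟨v, 0, hv, by rw [T_zero, one_smul]; exact hn⟩ h
    · have hn := (NL_transfer_self hD₁ hn₁ ha hv.le).2
      obtain ⟨d₀, d₁, k1, k2, k3⟩ := Vtx.NL.eqv hD1 hn hn₁ hv hD₁
      refine ⟨d₁, k2, k3.symm.trans (Rel.trans ?_ hdb)⟩
      have := Vtx.E1 v k1 hd
      rwa [hv] at this

theorem Phi_adj {D : ℕ} (hD1 : D ≠ 1) {b u w : W} {v : Vtx} (hv : v.D M ≤ D) (hu : u ∈ v.V)
    (hw : w ∈ v.V) (hu0 : u ≠ 0) (hw0 : w ≠ 0) : Phi D b u ↔ Phi D b w := by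
  rcases hv.eq_or_lt with hv | hv
  · rw [Phi_iff_of_mem hD1 hv hu hu0, Phi_iff_of_mem hD1 hv hw hw0]
  · have key : ∀ u ∈ v.V, ¬ DNL D u := by
      rintro u hu ⟨v₁, i, hD₁, hn₁⟩
      exact hv.ne (NL_transfer_self hD₁ hn₁ hu hv.le).1
    have hno : ∀ u ∈ v.V, ∀ (v₁ : Vtx) (i : ℤ), v₁.D M = D → ¬ v₁.NL ((T i : F) • u) :=
      fun u hu v₁ i hD₁ hn₁ => key u hu ⟨v₁, i, hD₁, hn₁⟩
    have hrel : Rel (D - 1) u w := Rel.adj v (by omega) u w hu hw hu0 hw0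
    constructor
    · rintro ⟨h1, -⟩
      exact ⟨fun _ => hrel.symm.trans (h1 (key u hu)), fun v₁ i hD₁ hn₁ =>
        absurd hn₁ (hno w hw v₁ i hD₁)⟩
    · rintro ⟨h1, -⟩
      exact ⟨fun _ => hrel.trans (h1 (key w hw)), fun v₁ i hD₁ hn₁ =>
        absurd hn₁ (hno u hu v₁ i hD₁)⟩

theorem Phi_rel {D : ℕ} (hD1 : D ≠ 1) {b u w : W} (h : Rel D u w) : Phi D b u ↔ Phi D b w := by
  induction h with
  | same w r i hr => exact Phi_same hr
  | adj v h u w hu hw hu0 hw0 => exact Phi_adj hD1 h hu hw hu0 hw0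
  | symm _ ih => exact ih.symm
  | trans _ _ ih ih' => exact ih.trans ih'

/-- one step of the descent -/
theorem descend_step {D : ℕ} (hD1 : 1 < D) {a b : W} {va vb : Vtx} (ha : a ∈ va.V)
    (hva : va.D M < D) (hb : b ∈ vb.V) (hvb : vb.D M < D) (h : Rel D a b) : Rel (D - 1) a b := by
  have key : ∀ {u : W} {v : Vtx}, u ∈ v.V → v.D M < D → ¬ DNL D u := by
    rintro u v hu hv ⟨v₁, i, hD₁, hn₁⟩
    exact hv.ne (NL_transfer_self hD₁ hn₁ hu hv.le).1
  have hb' : Phi D b b := ⟨fun _ => Rel.refl _ _, fun v₁ i hD₁ hn₁ =>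
    absurd ⟨v₁, i, hD₁, hn₁⟩ (key hb hvb)⟩
  exact ((Phi_rel hD1.ne' h).2 hb').1 (key ha hva)

/-- **the descent** -/
theorem descend {a b : W} {va vb : Vtx} (ha : a ∈ va.V) (hva : va.D M = 1) (hb : b ∈ vb.V)
    (hvb : vb.D M = 1) : ∀ D : ℕ, Rel D a b → Rel 1 a b := by
  intro D
  induction D with
  | zero => exact fun h => h.mono (by omega)
  | succ D ih =>
    intro h
    rcases Nat.eq_zero_or_pos D with hD | hD
    · rw [hD] at h; exact h
    · exact ih (descend_step (D := D + 1) (by omega) ha (by omega) hb (by omega) h)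

end Pool.Agent.W411.LP
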