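import Pool.Agent.W411.LP.Prm

/-!
# Low cusps of a vertex are equivalent
-/

set_option autoImplicit false

namespace Pool.Agent.W411.LP

open LaurentPolynomial AddSubgroup

/-- the `F`-line -/
noncomputable def Fl (w : W) : AddSubgroup W where
  carrier := {m | ∃ f : F, m = f • w}
  zero_mem' := ⟨0, by simp⟩
  add_mem' := by
    rintro _ _ ⟨f, rfl⟩ ⟨g, rfl⟩
    exact ⟨f + g, by rw [add_smul]⟩
  neg_mem' := by
    rintro _ ⟨f, rfl⟩
    exact ⟨-f, by rw [neg_smul]⟩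

theorem mem_Fl {w m : W} : m ∈ Fl w ↔ ∃ f : F, m = f • w := Iff.rfl

theorem ln_le_Fl (w : W) : ln w ≤ Fl w := by
  rintro _ ⟨r, rfl⟩
  exact ⟨C r, rfl⟩

theorem Fl_smul {f g : F} (h : g * f = 1) (w : W) : Fl (f • w) = Fl w := by
  ext m
  rw [mem_Fl, mem_Fl]
  constructor
  · rintro ⟨t, rfl⟩
    exact ⟨t * f, by rw [smul_smul]⟩
  · rintro ⟨t, rfl⟩
    exact ⟨t * g, by rw [smul_smul, mul_assoc, h, mul_one]⟩

theorem C_smul_ne_zero {r : ℚ} (hr : r ≠ 0) {w : W} (hw : w ≠ 0) : (C r : F) • w ≠ 0 := by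
  intro h
  rcases C_smul_eq_zero h with h | h
  · exact hr h
  · exact hw h

theorem T_smul_ne_zero {i : ℤ} {w : W} (hw : w ≠ 0) : (T i : F) • w ≠ 0 := by
  intro h
  apply hw
  rw [← T_smul_cancel' i w, h, smul_zero]

namespace Vtx

/-- normalised frames -/
structure NFr (v : Vtx) (a b : W) (c : ℚ) (k : ℤ) (q : ℕ) : Prop where
  fr : IsFrame a b c k v.P v.Q
  hq : 0 < q
  hz : (v.lz M).comap (phi a b) = L0
  hi : (v.li M).comap (phi a b) = Li q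

theorem exists_NFr (v : Vtx) : ∃ a b c k q, NFr v a b c k q := by
  obtain ⟨a, b, c, k, h, q, hq, h1, h2⟩ := v.exists_nf
  exact ⟨a, b, c, k, q, h, hq, h1, h2⟩

/-- low cusps -/
def Low (v : Vtx) (w : W) : Prop := w ∈ v.V ∧ w ≠ 0 ∧ (v.c0 M w ≠ 1 ∨ v.ci M w ≠ 1)

variable {v : Vtx} {N : AddSubgroup W}

theorem ci_eq_one {w : W} (hw : w ∈ v.V) :
    v.ci N w = 1 ↔ ∀ r : ℚ, (C r : F) • w ∈ v.li N → (C r : F) • w ∈ N := by
  rw [ci, inf_li hw, relIndex_eq_one]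
  constructor
  · intro h r hr
    exact (h ⟨⟨r, rfl⟩, hr⟩).2
  · rintro h _ ⟨⟨r, rfl⟩, hr⟩
    exact ⟨⟨r, rfl⟩, h r hr⟩

theorem c0_eq_one {w : W} (hw : w ∈ v.V) :
    v.c0 N w = 1 ↔ ∀ r : ℚ, (C r : F) • w ∈ v.lz N → (C r : F) • w ∈ N := by
  rw [c0, inf_lz hw, relIndex_eq_one]
  constructor
  · intro h r hr
    exact (h ⟨⟨r, rfl⟩, hr⟩).2
  · rintro h _ ⟨⟨r, rfl⟩, hr⟩
    exact ⟨⟨r, rfl⟩, h r hr⟩

theorem ci_smul {r : ℚ} (hr : r ≠ 0) (w : W) : v.ci N ((C r : F) • w) = v.ci N w := by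
  rw [ci, ci, ln_smul hr]

theorem c0_smul {r : ℚ} (hr : r ≠ 0) (w : W) : v.c0 N ((C r : F) • w) = v.c0 N w := by
  rw [c0, c0, ln_smul hr]

theorem Low.smul {w : W} (h : v.Low w) {r : ℚ} (hr : r ≠ 0) : v.Low ((C r : F) • w) :=
  ⟨C_smul_mem_V h.1 r, C_smul_ne_zero hr h.2.1, by rw [c0_smul hr, ci_smul hr]; exact h.2.2⟩

section nfr

variable {a b : W} {c : ℚ} {k : ℤ} {q : ℕ}

theorem NFr.mem_lz (h : NFr v a b c k q) {x : ℚ × ℚ} : phi a b x ∈ v.lz M ↔ x ∈ L0 := by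
  rw [← h.hz]; exact Iff.rfl

theorem NFr.mem_li (h : NFr v a b c k q) {x : ℚ × ℚ} : phi a b x ∈ v.li M ↔ x ∈ Li q := by
  rw [← h.hi]; exact Iff.rfl

theorem NFr.prim_lz (h : NFr v a b c k q) {x : ℚ × ℚ} : PrimW (v.lz M) (phi a b x) ↔ Prim L0 x := by
  simp only [PrimW, Prim, ← phi_smul, h.mem_lz]

theorem NFr.prim_li (h : NFr v a b c k q) {x : ℚ × ℚ} :
    PrimW (v.li M) (phi a b x) ↔ Prim (Li q) x := by
  simp only [PrimW, Prim, ← phi_smul, h.mem_li]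

theorem NFr.V_iff (h : NFr v a b c k q) {m : W} : m ∈ v.V ↔ ∃ x, m = phi a b x := h.fr.mem_V_iff

theorem NFr.phi_mem (h : NFr v a b c k q) (x : ℚ × ℚ) : phi a b x ∈ v.V := h.fr.phi_mem x

theorem NFr.phi_ne_zero (h : NFr v a b c k q) {x : ℚ × ℚ} : phi a b x ≠ 0 ↔ x ≠ 0 := by
  rw [Ne, Ne, not_iff_not]
  exact map_eq_zero_iff _ h.fr.phi_injective

/-- the change of the defect in terms of primitive vectors -/
theorem NFr.D_mv (h : NFr v a b c k q) {x y : ℚ × ℚ} (hx : Prim (Li q) x) (hy : Prim L0 y)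
    (hxy : dt x y ≠ 0) (h1 : phi a b x ∈ v.V) (h2 : phi a b y ∈ v.V)
    (h3 : det (phi a b x) (phi a b y) ≠ 0) :
    ((v.mv (phi a b x) (phi a b y) h1 h2 h3).D M : ℚ) = v.D M * |dt x y| := by
  have := D_mv_gen (N := M) h.fr v.D_ne_zero hxy ⟨1, one_ne_zero, (one_smul _ x).symm⟩
    ⟨1, one_ne_zero, (one_smul _ y).symm⟩ (by rw [h.hi]; exact hx.iff) (by rw [h.hz]; exact hy.iff)
    (by rw [h.hz]) h1 h2 h3
  rw [h.hz, relIndex_self] at this
  simpa using this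

end nfr

/-- vertices of defect `D` whose auxiliary module is `N` -/
structure Lev (D p : ℕ) (N : AddSubgroup W) (v : Vtx) : Prop where
  hD : v.D M = D
  ex : ∃ s ∈ M, s ∈ v.V ∧ (C ((p : ℚ)⁻¹) : F) • s ∉ M ∧ N = Mp p s

section lev

variable {D p : ℕ}

theorem Lev.infV (h : Lev D p N v) (hp : p.Prime) (hpD : p ∣ D) : N ⊓ v.V = M ⊓ v.V := by
  obtain ⟨s, hs, hsV, hsp, rfl⟩ := h.ex
  exact Mp_inf_V hp (by rw [h.hD]; exact hpD) hs hsV

theorem Lev.le (h : Lev D p N v) : N ≤ M := by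
  obtain ⟨s, hs, hsV, hsp, rfl⟩ := h.ex
  exact Mp_le

theorem Lev.sh (h : Lev D p N v) : sh 1 N = N := by
  obtain ⟨s, hs, hsV, hsp, rfl⟩ := h.ex
  exact sh_Mp 1

theorem Lev.D_ne (h : Lev D p N v) : v.D N ≠ 0 := by
  obtain ⟨s, hs, hsV, hsp, rfl⟩ := h.ex
  exact D_Mp_ne_zero hsV

theorem Lev.D_le (h : Lev D p N v) : v.D N ≤ D := by
  obtain ⟨s, hs, hsV, hsp, rfl⟩ := h.ex
  rw [← h.hD]
  exact D_Mp_le hsV

theorem Lev.lz (h : Lev D p N v) (hp : p.Prime) : (v.lz N).relIndex (v.lz M) = p := by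
  obtain ⟨s, hs, hsV, hsp, rfl⟩ := h.ex
  exact relIndex_lz_Mp hp hs hsV hsp

theorem Lev.li (h : Lev D p N v) (hp : p.Prime) (hpD : p ∣ D) :
    (v.li N).relIndex (v.li M) = p := by
  obtain ⟨s, hs, hsV, hsp, rfl⟩ := h.ex
  exact relIndex_li_Mp hp (by rw [h.hD]; exact hpD) hs hsV hsp

theorem Lev.next (h : Lev D p N v) (hp : p.Prime) (hpD : p ∣ D) {v₁ : Vtx} (h₁ : v₁.D M = D)
    {y : W} (hy : y ∈ v.V) (hy₁ : y ∈ v₁.V) (hy0 : y ≠ 0) : Lev D p N v₁ := by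
  obtain ⟨s, hs, hsV, hsp, rfl⟩ := h.ex
  obtain ⟨r, hr, hry⟩ := exists_prim_M hy0
  refine ⟨h₁, _, hry.1, C_smul_mem_V hy₁ r, hry.not_mem hp, ?_⟩
  exact Mp_eq hp hs hry.1 hsp (hry.not_mem hp)
    (dvd_det hp (by rw [h.hD]; exact hpD) hs hsV hry.1 (C_smul_mem_V hy r))

variable {a b : W} {c : ℚ} {k : ℤ} {q : ℕ}

theorem Lev.subP0 (h : Lev D p N v) (hp : p.Prime) (hf : NFr v a b c k q) :
    ((v.lz N).comap (phi a b)).relIndex L0 = p := by
  have h1 : v.lz N ≤ v.P ⊓ LP.sh 1 v.Q := inf_le_left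
  have h2 : v.lz M ≤ v.P ⊓ LP.sh 1 v.Q := inf_le_left
  rw [← hf.hz, hf.fr.relIndex_comap h1 h2, h.lz hp]

theorem Lev.subPi (h : Lev D p N v) (hp : p.Prime) (hpD : p ∣ D) (hf : NFr v a b c k q) :
    ((v.li N).comap (phi a b)).relIndex (Li q) = p := by
  have h1 : v.li N ≤ v.P ⊓ LP.sh 1 v.Q := inf_le_left
  have h2 : v.li M ≤ v.P ⊓ LP.sh 1 v.Q := inf_le_left
  rw [← hf.hi, hf.fr.relIndex_comap h1 h2, h.li hp hpD]

theorem Lev.le0 (h : Lev D p N v) (hf : NFr v a b c k q) :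
    (v.lz N).comap (phi a b) ≤ L0 := by
  rw [← hf.hz]
  exact AddSubgroup.comap_mono (lz_mono h.le)

theorem Lev.lei (h : Lev D p N v) (hf : NFr v a b c k q) :
    (v.li N).comap (phi a b) ≤ Li q := by
  rw [← hf.hi]
  exact AddSubgroup.comap_mono (li_mono h.le)

end lev

/-- the multiples of a primitive vector in a subgroup of index `p` -/
theorem prim_mul_iff {p : ℕ} (hp : p.Prime) {L K : AddSubgroup (ℚ × ℚ)} (h : SubP p L K)
    {y : ℚ × ℚ} (hy : Prim L y) (hyK : y ∉ K) (r : ℚ) :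
    r • ((p : ℚ) • y) ∈ K ↔ ∃ k : ℤ, r = k := by
  have hp0 : (p : ℚ) ≠ 0 := by exact_mod_cast hp.ne_zero
  constructor
  · intro h1
    rw [smul_smul] at h1
    obtain ⟨m, hm⟩ := hy.2 _ (h.le h1)
    rw [hm] at h1
    have hdvd : (p : ℤ) ∣ m := by
      by_contra hnd
      have hcop : IsCoprime (p : ℤ) m := (Nat.prime_iff_prime_int.1 hp).coprime_iff_not_dvd.2 hnd
      obtain ⟨u, t, hut⟩ := hcop
      apply hyK
      have e : y = (u : ℚ) • ((p : ℚ) • y) + (t : ℚ) • ((m : ℚ) • y) := by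
        rw [smul_smul, smul_smul, ← add_smul]
        have : (u : ℚ) * p + t * m = 1 := by exact_mod_cast hut
        rw [this, one_smul]
      rw [e]
      exact K.add_mem (smul_mem_L (h.mul y hy.1) u) (smul_mem_L h1 t)
    obtain ⟨l, hl⟩ := hdvd
    refine ⟨l, ?_⟩
    have h2 : r * p = p * l := by rw [hm, hl]; push_cast; ring
    exact mul_right_cancel₀ hp0 (by rw [h2]; ring)
  · rintro ⟨k, rfl⟩
    exact smul_mem_L (h.mul y hy.1) k

theorem prim_iff_of_mem {L K : AddSubgroup (ℚ × ℚ)} (hle : K ≤ L) {y : ℚ × ℚ} (hy : Prim L y)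
    (hyK : y ∈ K) (r : ℚ) : r • y ∈ K ↔ ∃ k : ℤ, r = k := by
  constructor
  · intro h
    exact hy.2 r (hle h)
  · rintro ⟨k, rfl⟩
    exact smul_mem_L hyK k

/-- exceptional cusps -/
def ExcV (v : Vtx) (N : AddSubgroup W) (x : W) : Prop :=
  ∃ r : ℚ, r ≠ 0 ∧ PrimW (v.lz M) ((C r : F) • x) ∧ PrimW (v.li M) ((C r : F) • x) ∧
    (C r : F) • x ∈ v.lz N ∧ (C r : F) • x ∈ v.li N

theorem NFr.excV {a b : W} {c : ℚ} {k : ℤ} {q : ℕ} (h : NFr v a b c k q) {x : ℚ × ℚ} :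
    ExcV v N (phi a b x) ↔
      Exc q ((v.lz N).comap (phi a b)) ((v.li N).comap (phi a b)) x := by
  simp only [ExcV, Exc, ← phi_smul, h.prim_lz, h.prim_li]
  rfl

section steps

variable {D p : ℕ} {a b : W} {c : ℚ} {k : ℤ} {q : ℕ}

/-- small moves -/
theorem edges (hf : NFr v a b c k q) (hD : v.D M = D) :
    Edges q (fun x y => Rel (D - 1) (phi a b x) (phi a b y)) where
  symm _ _ h := h.symm
  trans _ _ _ h h' := h.trans h'
  scale r x hr _ := by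
    show Rel (D - 1) (phi a b (r • x)) (phi a b x)
    rw [phi_smul]; exact Rel.smul _ _ hr
  edge x y hx hy hxy hlt := by
    have hx0 := (ne_zero_of_dt hxy).1
    have hy0 := (ne_zero_of_dt hxy).2
    obtain ⟨r, hr, hrx⟩ := exists_prim_Li hf.hq hx0
    obtain ⟨s, hs, hsy⟩ := exists_prim_L0 hy0
    obtain ⟨i, hi⟩ := hrx.2 r⁻¹ (by rw [smul_smul, inv_mul_cancel₀ hr, one_smul]; exact hx)
    obtain ⟨j, hj⟩ := hsy.2 s⁻¹ (by rw [smul_smul, inv_mul_cancel₀ hs, one_smul]; exact hy)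
    have hi1 : 1 ≤ |(i : ℚ)| := by
      have : i ≠ 0 := by rintro rfl; exact hr (by simpa using hi)
      exact_mod_cast Int.one_le_abs this
    have hj1 : 1 ≤ |(j : ℚ)| := by
      have : j ≠ 0 := by rintro rfl; exact hs (by simpa using hj)
      exact_mod_cast Int.one_le_abs this
    have hd : dt (r • x) (s • y) ≠ 0 := by
      rw [dt_smul_left, dt_smul_right]
      exact mul_ne_zero hr (mul_ne_zero hs hxy)
    have hle : |dt (r • x) (s • y)| < 1 := by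
      refine lt_of_le_of_lt ?_ hlt
      have e : dt x y = i * j * dt (r • x) (s • y) := by
        rw [dt_smul_left, dt_smul_right, ← hi, ← hj]
        field_simp
      rw [e, abs_mul, abs_mul]
      nlinarith [abs_nonneg (dt (r • x) (s • y)), mul_le_mul hi1 hj1 zero_le_one (abs_nonneg _)]
    have h1 := hf.phi_mem (r • x)
    have h2 := hf.phi_mem (s • y)
    have h3 : det (phi a b (r • x)) (phi a b (s • y)) ≠ 0 := hf.fr.det_phi_ne_zero.2 hd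
    have hDm := hf.D_mv hrx hsy hd h1 h2 h3
    have hDlt : (v.mv (phi a b (r • x)) (phi a b (s • y)) h1 h2 h3).D M ≤ D - 1 := by
      have : ((v.mv (phi a b (r • x)) (phi a b (s • y)) h1 h2 h3).D M : ℚ) < D := by
        rw [hDm, hD]
        have : (0 : ℚ) < D := by
          rw [← hD]; exact_mod_cast Nat.pos_of_ne_zero v.D_ne_zero
        nlinarith
      have := (Nat.cast_lt (α := ℚ)).1 this
      omega
    have hadj := Rel.adj _ hDlt _ _ (Tw_mem_mv h1 h2 h3) (y_mem_mv h1 h2 h3)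
      (T_smul_ne_zero (hf.phi_ne_zero.2 (smul_ne_zero hr hx0)))
      (hf.phi_ne_zero.2 (smul_ne_zero hs hy0))
    have k1 : Rel (D - 1) (phi a b (r • x)) (phi a b x) := by
      rw [phi_smul]; exact Rel.smul _ _ hr
    have k2 : Rel (D - 1) (phi a b (s • y)) (phi a b y) := by
      rw [phi_smul]; exact Rel.smul _ _ hs
    exact k1.symm.trans ((Rel.T _ _ 1).symm.trans (hadj.trans k2))

/-- ties with an improvement of the auxiliary defect -/
theorem tie (hp : p.Prime) (hpD : p ∣ D) (hf : NFr v a b c k q) (hl : Lev D p N v)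
    (IH : ∀ v' : Vtx, Lev D p N v' → v.D N < v'.D N →
      ∀ u w, v'.Low u → v'.Low w → Rel (D - 1) u w)
    {x y : ℚ × ℚ} (hx : Prim (Li q) x) (hy : Prim L0 y) (hxy : |dt x y| = 1)
    (hxK : x ∉ (v.li N).comap (phi a b)) (hyK : y ∉ (v.lz N).comap (phi a b)) :
    Rel (D - 1) (phi a b x) (phi a b y) := by
  have hd : dt x y ≠ 0 := by
    intro h; rw [h, abs_zero] at hxy; exact zero_ne_one hxy
  have hp0 : (p : ℚ) ≠ 0 := by exact_mod_cast hp.ne_zero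
  have hx0 := (ne_zero_of_dt hd).1
  have hy0 := (ne_zero_of_dt hd).2
  have h1 := hf.phi_mem x
  have h2 := hf.phi_mem y
  have h3 : det (phi a b x) (phi a b y) ≠ 0 := hf.fr.det_phi_ne_zero.2 hd
  have hS0 := SubP_of_relIndex hp (hl.le0 hf) (hl.subP0 hp hf)
  have hSi := SubP_of_relIndex hp (hl.lei hf) (hl.subPi hp hpD hf)
  set v₁ := v.mv (phi a b x) (phi a b y) h1 h2 h3 with hv₁
  have hD₁ : v₁.D M = D := by
    have := hf.D_mv hx hy hd h1 h2 h3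
    rw [hxy, mul_one, hl.hD] at this
    exact_mod_cast this
  have hy₁ : phi a b y ∈ v₁.V := y_mem_mv h1 h2 h3
  have hx₁ : (T 1 : F) • phi a b x ∈ v₁.V := Tw_mem_mv h1 h2 h3
  have hl₁ : Lev D p N v₁ := hl.next hp hpD hD₁ h2 hy₁ (hf.phi_ne_zero.2 hy0)
  have hF : v.D N < v₁.D N := by
    have := D_mv_gen (N := N) hf.fr hl.D_ne hd ⟨p, hp0, rfl⟩ ⟨p, hp0, rfl⟩
      (prim_mul_iff hp hSi hx hxK) (prim_mul_iff hp hS0 hy hyK) (hl.le0 hf) h1 h2 h3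
    rw [hl.subP0 hp hf, dt_smul_left, dt_smul_right, abs_mul, abs_mul, hxy, Nat.abs_cast,
      mul_one, ← mul_assoc] at this
    have h4 : (v₁.D N : ℚ) = v.D N * p := mul_right_cancel₀ hp0 this
    have h5 : v₁.D N = v.D N * p := by exact_mod_cast h4
    rw [h5]
    have := hp.one_lt
    have := Nat.pos_of_ne_zero hl.D_ne
    nlinarith
  have hlow1 : v₁.Low ((T 1 : F) • phi a b x) := by
    refine ⟨hx₁, T_smul_ne_zero (hf.phi_ne_zero.2 hx0), Or.inl ?_⟩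
    have ht := transfer_w h1 h2 h3 (sh_M 1)
    rw [← hv₁, hD₁, hl.hD] at ht
    have hD0 : 0 < D := by rw [← hl.hD]; exact Nat.pos_of_ne_zero v.D_ne_zero
    rw [← Nat.eq_of_mul_eq_mul_left hD0 ht]
    intro h4
    rw [ci_eq_one h1] at h4
    have h5 := h4 1 (by rw [C.map_one, one_smul]; exact hf.mem_li.2 hx.1)
    rw [C.map_one, one_smul] at h5
    have h6 : phi a b x ∈ N ⊓ v.V := by rw [hl.infV hp hpD]; exact ⟨h5, h1⟩
    exact hxK (N_V_le_li h6)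
  have hlow2 : v₁.Low (phi a b y) := by
    refine ⟨hy₁, hf.phi_ne_zero.2 hy0, Or.inr ?_⟩
    have ht := transfer_y h1 h2 h3 (sh_M 1)
    rw [← hv₁, hD₁, hl.hD] at ht
    have hD0 : 0 < D := by rw [← hl.hD]; exact Nat.pos_of_ne_zero v.D_ne_zero
    rw [← Nat.eq_of_mul_eq_mul_left hD0 ht]
    intro h4
    rw [c0_eq_one h2] at h4
    have h5 := h4 1 (by rw [C.map_one, one_smul]; exact hf.mem_lz.2 hy.1)
    rw [C.map_one, one_smul] at h5
    have h6 : phi a b y ∈ N ⊓ v.V := by rw [hl.infV hp hpD]; exact ⟨h5, h2⟩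
    exact hyK (N_V_le_lz h6)
  exact (Rel.T _ _ 1).symm.trans (IH v₁ hl₁ hF _ _ hlow1 hlow2)

/-- non-exceptional cusps are equivalent -/
theorem nonexc (hp : p.Prime) (hpD : p ∣ D) (hl : Lev D p N v)
    (IH : ∀ v' : Vtx, Lev D p N v' → v.D N < v'.D N →
      ∀ u w, v'.Low u → v'.Low w → Rel (D - 1) u w) :
    ∃ b₀ : W, ∀ x ∈ v.V, x ≠ 0 → ¬ ExcV v N x → Rel (D - 1) x b₀ := by
  obtain ⟨a, b, c, k, q, hf⟩ := v.exists_NFr
  obtain ⟨b₀, hb₀⟩ := planar hf.hq (edges hf hl.hD)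
    (SubP_of_relIndex hp (hl.le0 hf) (hl.subP0 hp hf))
    (SubP_of_relIndex hp (hl.lei hf) (hl.subPi hp hpD hf))
    (fun x y hx hy hxy hxK hyK => tie hp hpD hf hl IH hx hy hxy hxK hyK)
  refine ⟨phi a b b₀, fun m hm hm0 hexc => ?_⟩
  obtain ⟨x, rfl⟩ := hf.V_iff.1 hm
  exact hb₀ x (hf.phi_ne_zero.1 hm0) (fun h => hexc (hf.excV.2 h))

end steps

end Vtx

end Pool.Agent.W411.LP
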