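import Pool.Agent.W411.LP.E1

/-!
# Exceptional cusps, and the theorem on low cusps
-/

set_option autoImplicit false

namespace Pool.Agent.W411.LP

open LaurentPolynomial AddSubgroup

namespace Vtx

variable {v : Vtx} {N : AddSubgroup W}

theorem smul_mem_P {m : W} (hm : m ∈ v.P) {f : F} (hf : f ∈ Pos 0) : f • m ∈ v.P := by
  obtain ⟨a, b, c, k, h⟩ := v.ex
  exact h.smul_mem_P hm hf

theorem smul_mem_Q {m : W} (hm : m ∈ v.Q) {f : F} (hf : f ∈ Neg 1) : f • m ∈ v.Q := by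
  obtain ⟨a, b, c, k, h⟩ := v.ex
  exact h.smul_mem_Q hm hf

theorem smul_mem_Q_of_V {s : W} (hs : s ∈ v.V) {f : F} (hf : f ∈ Neg 0) : f • s ∈ v.Q := by
  have h1 : s ∈ sh 1 v.Q := V_le_Q hs
  have : f • s = (T 1 * f) • ((T (-1) : F) • s) := by
    rw [smul_smul, mul_assoc, mul_comm f, ← mul_assoc, ← T_add]
    simp
  rw [this]
  rw [mem_sh] at h1
  refine smul_mem_Q h1 ?_
  rw [T_mul_mem_Neg]
  simpa using hf

/-- the intersection of `P` with `Q + F w` -/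
theorem inf_Fl_le {z y : W} (hz : z ∈ v.V) (hz0 : z ≠ 0) :
    M ⊓ (v.P ⊓ (v.Q ⊔ Fl z)) ≤ (M ⊓ (ln y ⊔ sh 1 v.P)) ⊔ (M ⊓ ln z) := by
  rintro m ⟨hmM, hmP, hm⟩
  obtain ⟨r, hr, hs⟩ := exists_prim_M hz0
  set s := (C r : F) • z with hsdef
  have hsV : s ∈ v.V := C_smul_mem_V hz r
  obtain ⟨q, hq, _, ⟨f, rfl⟩, rfl⟩ := AddSubgroup.mem_sup.1 hm
  set g := f * C r⁻¹ with hg
  have hfg : f • z = g • s := by
    rw [hg, hsdef, mul_smul, C_smul_cancel hr]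
  have h1 : g • s = pp 0 g • s + np 0 g • s := by rw [← add_smul, ← pp_add_np]
  have hpp : pp 0 g • s ∈ v.P := smul_mem_P (V_le_P hsV) (pp_mem _ _)
  have hnp : np 0 g • s ∈ v.Q := smul_mem_Q_of_V hsV (np_mem _ _)
  have h2 : q + np 0 g • s = 0 := by
    have h3 : q + np 0 g • s ∈ v.P ⊓ v.Q := by
      refine ⟨?_, v.Q.add_mem hq hnp⟩
      have : q + np 0 g • s = (q + f • z) - pp 0 g • s := by rw [hfg, h1]; abel
      rw [this]
      exact v.P.sub_mem hmP hpp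
    rwa [P_inf_Q, AddSubgroup.mem_bot] at h3
  have h3 : q + f • z = pp 0 g • s := by
    rw [hfg, h1]
    calc q + (pp 0 g • s + np 0 g • s) = pp 0 g • s + (q + np 0 g • s) := by abel
      _ = _ := by rw [h2, add_zero]
  rw [h3] at hmM ⊢
  set g₁ := pp 0 g with hg₁
  have hg₁A : g₁ ∈ AF := mem_AF_of_smul hs hmM
  obtain ⟨n, hn⟩ := mem_AF.1 hg₁A 0
  have hg₂P : g₁ - C (n : ℚ) ∈ Pos 1 := by
    intro i hi
    rw [AddMonoidAlgebra.coeff_sub, Finsupp.sub_apply, C_apply]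
    split_ifs with h
    · rw [h, hn, sub_self]
    · rw [pp_mem 0 g i (by omega), sub_zero]
  have hg₂A : g₁ - C (n : ℚ) ∈ AF := AF.sub_mem hg₁A (C_int_mem n)
  have e : g₁ • s = (g₁ - C (n : ℚ)) • s + (C (n : ℚ) : F) • s := by
    rw [← add_smul, sub_add_cancel]
  rw [e]
  refine AddSubgroup.add_mem _ (AddSubgroup.mem_sup_left ⟨smul_mem_M hg₂A hs.1,
    AddSubgroup.mem_sup_right ?_⟩) (AddSubgroup.mem_sup_right ⟨zC_mem hs.1 n, ?_⟩)
  · rw [mem_sh, smul_smul]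
    refine smul_mem_P (V_le_P hsV) ?_
    rw [T_mul_mem_Pos]
    simpa using hg₂P
  · exact ⟨n * r, by rw [hsdef, smul_smul, ← C.map_mul]⟩

section exc

variable {D p : ℕ}

/-- if `x` is primitive in both lattices and `M` has the same multiples, both constants agree -/
theorem c0_eq_ci_of_prim {z : W} (hz : z ∈ v.V) (h1 : PrimW (v.lz M) z) (h2 : PrimW (v.li M) z) :
    v.c0 M z = v.ci M z := by
  rw [c0, ci, inf_lz hz, inf_li hz]
  congr 1
  ext m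
  constructor
  · rintro ⟨⟨r, rfl⟩, hr⟩
    exact ⟨⟨r, rfl⟩, (h2.iff r).2 (h1.2 r hr)⟩
  · rintro ⟨⟨r, rfl⟩, hr⟩
    exact ⟨⟨r, rfl⟩, (h1.iff r).2 (h2.2 r hr)⟩

/-- the step at an exceptional low cusp -/
theorem exc_step (hp : p.Prime) (hpD : p ∣ D) (hl : Lev D p N v) {w : W} (hw : v.Low w)
    (hexc : ExcV v N w) : ∃ (v₁ : Vtx) (y w₁ : W), Lev D p N v₁ ∧ v₁.D N = v.D N ∧
      y ∈ v.V ∧ y ∈ v₁.V ∧ y ≠ 0 ∧ ¬ ExcV v N y ∧ ¬ ExcV v₁ N y ∧ v₁.Low w₁ ∧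
      Rel (D - 1) w₁ w ∧ Fl w₁ = Fl w ∧
      J M v.P (v.Q ⊔ Fl w) < J M v₁.P (v₁.Q ⊔ Fl w) := by
  obtain ⟨a, b, c, k, q, hf⟩ := v.exists_NFr
  obtain ⟨r, hr, hz1, hz2, hz3, hz4⟩ := hexc
  have hzV : (C r : F) • w ∈ v.V := C_smul_mem_V hw.1 r
  have hz0 : (C r : F) • w ≠ 0 := C_smul_ne_zero hr hw.2.1
  have hlowz := hw.smul hr
  have hFlz : Fl ((C r : F) • w) = Fl w :=
    Fl_smul (g := C r⁻¹) (by rw [← C.map_mul, inv_mul_cancel₀ hr, C.map_one]) w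
  obtain ⟨x, hx⟩ := hf.V_iff.1 hzV
  rw [hx] at hz0 hz1 hz2 hz3 hz4 hzV hlowz hFlz
  have hxz := hf.prim_lz.1 hz1
  have hxi := hf.prim_li.1 hz2
  have hx0 : x ≠ 0 := hf.phi_ne_zero.1 hz0
  obtain ⟨y, hy, hxy⟩ := partner_L0 hxz hx0
  have hd : dt x y ≠ 0 := by rw [hxy]; exact one_ne_zero
  have hy0 := (ne_zero_of_dt hd).2
  have hyp : Prim L0 y := prim_L0_of_dt hy hxz.1 (by rw [dt_swap, hxy]; simp)
  have hS0 := SubP_of_relIndex hp (hl.le0 hf) (hl.subP0 hp hf)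
  have hyK : y ∉ (v.lz N).comap (phi a b) := hS0.not_both hxz.1 hy hxy hz3
  have hp0 : (p : ℚ) ≠ 0 := by exact_mod_cast hp.ne_zero
  have h2 := hf.phi_mem y
  have h3 : det (phi a b x) (phi a b y) ≠ 0 := hf.fr.det_phi_ne_zero.2 hd
  set v₁ := v.mv (phi a b x) (phi a b y) hzV h2 h3 with hv₁
  have hDm : v₁.D M = D := by
    have := hf.D_mv hxi hyp hd hzV h2 h3
    rw [hxy, abs_one, mul_one, hl.hD] at this
    exact_mod_cast this
  have hD0 : 0 < D := by rw [← hl.hD]; exact Nat.pos_of_ne_zero v.D_ne_zero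
  have hy₁ : phi a b y ∈ v₁.V := y_mem_mv hzV h2 h3
  have hx₁ : (T 1 : F) • phi a b x ∈ v₁.V := Tw_mem_mv hzV h2 h3
  have hl₁ : Lev D p N v₁ := hl.next hp hpD hDm h2 hy₁ (hf.phi_ne_zero.2 hy0)
  have hF : v₁.D N = v.D N := by
    have := D_mv_gen (N := N) hf.fr hl.D_ne hd ⟨1, one_ne_zero, (one_smul _ x).symm⟩
      ⟨p, hp0, rfl⟩ (prim_iff_of_mem (hl.lei hf) hxi hz4)
      (prim_mul_iff hp hS0 hyp hyK) (hl.le0 hf) hzV h2 h3
    rw [hl.subP0 hp hf, dt_smul_right, hxy, mul_one, Nat.abs_cast] at this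
    exact_mod_cast mul_right_cancel₀ hp0 this
  -- the constant at `z`
  have hci : v.ci M (phi a b x) ≠ 1 := by
    rcases hlowz.2.2 with h | h
    · rwa [c0_eq_ci_of_prim hzV hz1 hz2] at h
    · exact h
  have ht := transfer_w hzV h2 h3 (sh_M 1)
  rw [← hv₁, hDm, hl.hD] at ht
  have ht' := Nat.eq_of_mul_eq_mul_left hD0 ht
  have hlow₁ : v₁.Low ((T 1 : F) • phi a b x) :=
    ⟨hx₁, T_smul_ne_zero hz0, Or.inl (by rw [← ht']; exact hci)⟩
  -- `y` is not exceptional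
  have hney : ¬ ExcV v N (phi a b y) := by
    rintro ⟨t, ht, hty, -, hty', -⟩
    rw [← phi_smul] at hty hty'
    rcases prim_smul_eq hyp (hf.prim_lz.1 hty) ht with h | h
    · rw [h, one_smul] at hty'; exact hyK hty'
    · rw [h, neg_one_smul, map_neg] at hty'
      exact hyK ((v.lz N).neg_mem_iff.1 hty')
  have hney₁ : ¬ ExcV v₁ N (phi a b y) := by
    rintro ⟨t, ht, -, hty, -, hty'⟩
    -- the constants at infinity agree
    have e1 : v₁.ci N (phi a b y) = v₁.ci M (phi a b y) := by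
      rw [← ci_smul ht (v := v₁) (N := N), ← ci_smul ht (v := v₁) (N := M)]
      have htV : (C t : F) • phi a b y ∈ v₁.V := C_smul_mem_V hy₁ t
      rw [ci, ci, inf_li htV, inf_li htV]
      congr 1
      · ext m
        constructor
        · rintro ⟨hm, hm'⟩; exact ⟨hm, hl.le hm'⟩
        · rintro ⟨hm, hm'⟩
          have : m ∈ N ⊓ v₁.V := by
            rw [hl₁.infV hp hpD]; exact ⟨hm', ln_le htV hm⟩
          exact ⟨hm, this.1⟩
      · ext m
        constructor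
        · rintro ⟨hm, hm'⟩; exact ⟨hm, li_mono hl.le hm'⟩
        · rintro ⟨⟨s, rfl⟩, hm'⟩
          obtain ⟨n, rfl⟩ := hty.2 s hm'
          exact ⟨⟨n, rfl⟩, zC_mem hty' n⟩
    have t1 := transfer_y hzV h2 h3 (sh_M 1)
    have t2 := transfer_y hzV h2 h3 hl.sh
    rw [← hv₁, hDm, hl.hD] at t1
    rw [← hv₁, hF] at t2
    have t1' := Nat.eq_of_mul_eq_mul_left hD0 t1
    have t2' := Nat.eq_of_mul_eq_mul_left (Nat.pos_of_ne_zero hl.D_ne) t2
    have e2 : v.c0 N (phi a b y) = v.c0 M (phi a b y) := by rw [t1', t2', e1]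
    have e3 : ln (phi a b y) ⊓ N = ln (phi a b y) ⊓ M := by
      ext m
      constructor
      · rintro ⟨hm, hm'⟩; exact ⟨hm, hl.le hm'⟩
      · rintro ⟨hm, hm'⟩
        have : m ∈ N ⊓ v.V := by
          rw [hl.infV hp hpD]; exact ⟨hm', ln_le h2 hm⟩
        exact ⟨hm, this.1⟩
    have hc0 := c0_ne_zero hl.sh h2 hl.D_ne
    have e4 := relIndex_mul_relIndex (ln (phi a b y) ⊓ N) (ln (phi a b y) ⊓ v.lz N)
      (ln (phi a b y) ⊓ v.lz M)
      (fun m hm => ⟨hm.1, N_V_le_lz ⟨hm.2, ln_le h2 hm.1⟩⟩)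
      (inf_le_inf_left _ (lz_mono hl.le))
    rw [c0, c0, inf_lz h2, inf_lz h2] at e2
    rw [c0, inf_lz h2] at hc0
    rw [e2, ← e3] at e4
    rw [e2, ← e3] at hc0
    have e5 : (ln (phi a b y) ⊓ v.lz N).relIndex (ln (phi a b y) ⊓ v.lz M) = 1 :=
      Nat.eq_of_mul_eq_mul_left (Nat.pos_of_ne_zero hc0) (by rw [e4, mul_one])
    rw [relIndex_eq_one] at e5
    exact hyK (e5 ⟨self_mem_ln _, hf.mem_lz.2 hy⟩).2
  refine ⟨v₁, phi a b y, _, hl₁, hF, h2, hy₁, hf.phi_ne_zero.2 hy0, hney, hney₁, hlow₁, ?_, ?_, ?_⟩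
  · refine (Rel.T _ _ 1).trans ?_
    rw [← hx]
    exact Rel.smul _ _ hr
  · rw [Fl_smul (g := T (-1)) (by rw [← T_add, neg_add_cancel, T_zero])]
    exact hFlz
  · -- the angle increases
    rw [← hFlz]
    have hJ := D_mv hzV h2 h3 M
    rw [← hv₁, hDm] at hJ
    have hJ' := D_inf M hzV
    rw [hl.hD] at hJ'
    have hXne : J M v.P (v.Q ⊔ ln (phi a b x)) ≠ 0 := by
      intro h0
      rw [h0, zero_mul] at hJ
      omega
    have hgg : v.gg M (phi a b x) (phi a b y) = v.ci M (phi a b x) :=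
      Nat.eq_of_mul_eq_mul_left (Nat.pos_of_ne_zero hXne) (hJ.symm.trans hJ')
    have hgg1 := relIndex_gg (v := v) (N := M) hzV h2
    have hQS : v₁.Q ⊔ Fl (phi a b x) = v.Q ⊔ Fl (phi a b x) := by
      rw [hv₁, mv_Q, sup_assoc, sup_eq_right.2 (ln_le_Fl _)]
    rw [hQS]
    have hstep := J_step M (A := v.P) (A' := v₁.P)
      (sup_le ((ln_le h2).trans V_le_P) shP_le) (v.Q ⊔ Fl (phi a b x))
    have hJne : J M v₁.P (v.Q ⊔ Fl (phi a b x)) ≠ 0 := by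
      intro h0
      have := J_mono (N := M) (A := v₁.P) (B := v₁.Q) (A' := v₁.P)
        (B' := v.Q ⊔ Fl (phi a b x)) le_rfl (by rw [← hQS]; exact le_sup_left)
      rw [h0, zero_dvd_iff] at this
      exact v₁.D_ne_zero this
    rw [hstep] at hJne ⊢
    set X := J M v.P (v.Q ⊔ Fl (phi a b x)) with hX
    set f := (M ⊓ v₁.P ⊔ M ⊓ (v.P ⊓ (v.Q ⊔ Fl (phi a b x)))).relIndex (M ⊓ v.P) with hfdef
    have hXpos : 0 < X := Nat.pos_of_ne_zero (left_ne_zero_of_mul hJne)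
    have hfne : f ≠ 0 := right_ne_zero_of_mul hJne
    have hf1 : f ≠ 1 := by
      intro h1
      rw [hfdef, relIndex_eq_one] at h1
      have h4 : M ⊓ v.P ≤ (M ⊓ (ln (phi a b y) ⊔ sh 1 v.P)) ⊔ (M ⊓ ln (phi a b x)) :=
        h1.trans (sup_le le_sup_left (inf_Fl_le hzV hz0))
      rw [← relIndex_eq_one, hgg1, hgg] at h4
      exact hci h4
    have : 2 ≤ f := by omega
    nlinarith

theorem J_le_D {S : AddSubgroup W} : J M v.P (v.Q ⊔ S) ≤ v.D M :=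
  Nat.le_of_dvd (Nat.pos_of_ne_zero v.D_ne_zero) (J_mono le_rfl le_sup_left)

/-- low cusps are equivalent to nonexceptional ones -/
theorem low_rel (hp : p.Prime) (hpD : p ∣ D) {F₀ : ℕ}
    (IH : ∀ v' : Vtx, Lev D p N v' → F₀ < v'.D N →
      ∀ u w, v'.Low u → v'.Low w → Rel (D - 1) u w) (S : AddSubgroup W) :
    ∀ (m : ℕ) (v : Vtx) (w : W), Lev D p N v → v.D N = F₀ → v.Low w → Fl w = S →
      D - J M v.P (v.Q ⊔ S) ≤ m → ∀ x ∈ v.V, x ≠ 0 → ¬ ExcV v N x → Rel (D - 1) w x := by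
  intro m
  induction m with
  | zero =>
    intro v w hl hF hw hS hm x hx hx0 hxe
    obtain ⟨b₀, hb₀⟩ := nonexc hp hpD hl (by rw [hF]; exact IH)
    by_cases hexc : ExcV v N w
    · exfalso
      obtain ⟨v₁, y, w₁, hl₁, -, -, -, -, -, -, -, -, -, hJ⟩ := exc_step hp hpD hl hw hexc
      have := J_le_D (v := v₁) (S := Fl w)
      rw [hl₁.hD] at this
      rw [hS] at this hJ
      omega
    · exact (hb₀ w hw.1 hw.2.1 hexc).trans (hb₀ x hx hx0 hxe).symm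
  | succ m ih =>
    intro v w hl hF hw hS hm x hx hx0 hxe
    obtain ⟨b₀, hb₀⟩ := nonexc hp hpD hl (by rw [hF]; exact IH)
    by_cases hexc : ExcV v N w
    · obtain ⟨v₁, y, w₁, hl₁, hF₁, hyV, hyV₁, hy0, hye, hye₁, hw₁, hrel, hFl, hJ⟩ :=
        exc_step hp hpD hl hw hexc
      have := J_le_D (v := v₁) (S := Fl w)
      rw [hl₁.hD] at this
      rw [hS] at this hJ
      have h1 : Rel (D - 1) w₁ y := ih v₁ w₁ hl₁ (by rw [hF₁, hF]) hw₁ (by rw [hFl, hS])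
        (by omega) y hyV₁ hy0 hye₁
      exact hrel.symm.trans (h1.trans ((hb₀ y hyV hy0 hye).trans (hb₀ x hx hx0 hxe).symm))
    · exact (hb₀ w hw.1 hw.2.1 hexc).trans (hb₀ x hx hx0 hxe).symm

/-- there is a nonexceptional cusp -/
theorem exists_nonexc (hp : p.Prime) (hl : Lev D p N v) : ∃ x ∈ v.V, x ≠ 0 ∧ ¬ ExcV v N x := by
  obtain ⟨a, b, c, k, q, hf⟩ := v.exists_NFr
  have hS0 := SubP_of_relIndex hp (hl.le0 hf) (hl.subP0 hp hf)
  obtain ⟨x, hx, hxK⟩ := hS0.ne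
  have hx0 : x ≠ 0 := by rintro rfl; exact hxK (AddSubgroup.zero_mem _)
  obtain ⟨r, hr, hrx⟩ := exists_prim_L0 hx0
  obtain ⟨i, hi⟩ := hrx.2 r⁻¹ (by rw [smul_smul, inv_mul_cancel₀ hr, one_smul]; exact hx)
  refine ⟨phi a b (r • x), hf.phi_mem _, hf.phi_ne_zero.2 (smul_ne_zero hr hx0), ?_⟩
  rintro ⟨t, ht, hty, -, hty', -⟩
  rw [← phi_smul] at hty hty'
  have h1 : r • x ∈ (v.lz N).comap (phi a b) := by
    rcases prim_smul_eq hrx (hf.prim_lz.1 hty) ht with h | h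
    · rw [h, one_smul] at hty'; exact hty'
    · rw [h, neg_one_smul, map_neg] at hty'
      exact (v.lz N).neg_mem_iff.1 hty'
  apply hxK
  have : x = (i : ℚ) • (r • x) := by rw [← hi, smul_smul, inv_mul_cancel₀ hr, one_smul]
  rw [this]
  exact smul_mem_L h1 i

theorem E1_aux (hp : p.Prime) (hpD : p ∣ D) (N : AddSubgroup W) :
    ∀ (n : ℕ) (v : Vtx), Lev D p N v → D - v.D N ≤ n →
      ∀ u w, v.Low u → v.Low w → Rel (D - 1) u w := by
  intro n
  induction n with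
  | zero =>
    intro v hl hn u w hu hw
    have IH : ∀ v' : Vtx, Lev D p N v' → v.D N < v'.D N →
        ∀ u w, v'.Low u → v'.Low w → Rel (D - 1) u w := by
      intro v' hl' hlt
      have := hl'.D_le
      omega
    obtain ⟨x, hx, hx0, hxe⟩ := exists_nonexc hp hl
    exact (low_rel hp hpD IH _ _ v u hl rfl hu rfl le_rfl x hx hx0 hxe).trans
      (low_rel hp hpD IH _ _ v w hl rfl hw rfl le_rfl x hx hx0 hxe).symm
  | succ n ih =>
    intro v hl hn u w hu hw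
    have IH : ∀ v' : Vtx, Lev D p N v' → v.D N < v'.D N →
        ∀ u w, v'.Low u → v'.Low w → Rel (D - 1) u w := by
      intro v' hl' hlt
      exact ih v' hl' (by omega)
    obtain ⟨x, hx, hx0, hxe⟩ := exists_nonexc hp hl
    exact (low_rel hp hpD IH _ _ v u hl rfl hu rfl le_rfl x hx hx0 hxe).trans
      (low_rel hp hpD IH _ _ v w hl rfl hw rfl le_rfl x hx hx0 hxe).symm

end exc

/-- **low cusps of a vertex are equivalent at the previous level** -/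
theorem E1 (v : Vtx) {u w : W} (hu : v.Low u) (hw : v.Low w) : Rel (v.D M - 1) u w := by
  have hD1 : v.D M ≠ 1 := by
    intro h1
    rcases hu.2.2 with h | h
    · apply h
      have := D_zero (sh_M 1) hu.1
      rw [h1] at this
      exact Nat.dvd_one.1 (Dvd.intro_left _ this.symm)
    · apply h
      have := D_inf M hu.1
      rw [h1] at this
      exact Nat.dvd_one.1 (Dvd.intro_left _ this.symm)
  obtain ⟨p, hp, hpD⟩ := Nat.exists_prime_and_dvd hD1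
  obtain ⟨r, hr, hs⟩ := exists_prim_M hu.2.1
  have hl : Lev (v.D M) p (Mp p ((C r : F) • u)) v :=
    ⟨rfl, _, hs.1, C_smul_mem_V hu.1 r, hs.not_mem hp, rfl⟩
  exact E1_aux hp hpD _ _ v hl le_rfl u w hu hw

end Vtx

end Pool.Agent.W411.LP
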