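import Pool.Agent.W411.LP.Tr

/-!
# Cusps which are not low
-/

set_option autoImplicit false

namespace Pool.Agent.W411.LP

open LaurentPolynomial AddSubgroup

/-- the vectors `m` with `det u m ∈ Pos k` -/
noncomputable def PU (u : W) (k : ℤ) : AddSubgroup W where
  carrier := {m | det u m ∈ Pos k}
  zero_mem' := by
    show det u 0 ∈ Pos k
    rw [det_zero_right]; exact AddSubgroup.zero_mem _
  add_mem' := fun {m m'} hm hm' => by
    show det u (m + m') ∈ Pos k
    rw [det_add_right]; exact AddSubgroup.add_mem _ hm hm'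
  neg_mem' := fun {m} hm => by
    show det u (-m) ∈ Pos k
    rw [det_neg_right]; exact AddSubgroup.neg_mem _ hm

/-- the vectors `m` with `det u m ∈ Neg k` -/
noncomputable def QU (u : W) (k : ℤ) : AddSubgroup W where
  carrier := {m | det u m ∈ Neg k}
  zero_mem' := by
    show det u 0 ∈ Neg k
    rw [det_zero_right]; exact AddSubgroup.zero_mem _
  add_mem' := fun {m m'} hm hm' => by
    show det u (m + m') ∈ Neg k
    rw [det_add_right]; exact AddSubgroup.add_mem _ hm hm'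
  neg_mem' := fun {m} hm => by
    show det u (-m) ∈ Neg k
    rw [det_neg_right]; exact AddSubgroup.neg_mem _ hm

theorem mem_PU {u m : W} {k : ℤ} : m ∈ PU u k ↔ det u m ∈ Pos k := Iff.rfl

theorem mem_QU {u m : W} {k : ℤ} : m ∈ QU u k ↔ det u m ∈ Neg k := Iff.rfl

theorem sh_PU (u : W) (k i : ℤ) : sh i (PU u k) = PU u (k + i) := by
  ext m
  rw [mem_sh, mem_PU, mem_PU, det_smul_right, T_mul_mem_Pos, sub_neg_eq_add]

theorem sh_QU (u : W) (k i : ℤ) : sh i (QU u k) = QU u (k + i) := by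
  ext m
  rw [mem_sh, mem_QU, mem_QU, det_smul_right, T_mul_mem_Neg, sub_neg_eq_add]

/-- the intrinsic defect of a cusp -/
noncomputable def Om (u : W) (k : ℤ) : ℕ := J M (PU u k) (QU u k)

theorem Om_eq (u : W) (k i : ℤ) : Om u k = Om u (k + i) := by
  rw [Om, Om, ← sh_PU, ← sh_QU]
  conv_rhs => rw [← sh_M i]
  rw [J_sh]

theorem Om_const (u : W) (k k' : ℤ) : Om u k = Om u k' := by
  rw [Om_eq u k (k' - k)]
  congr 1
  ring

theorem Om_T (u : W) (i k k' : ℤ) : Om ((T i : F) • u) k = Om u k' := by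
  have e1 : PU ((T i : F) • u) k = PU u (k - i) := by
    ext m
    rw [mem_PU, mem_PU, det_smul_left, T_mul_mem_Pos]
  have e2 : QU ((T i : F) • u) k = QU u (k - i) := by
    ext m
    rw [mem_QU, mem_QU, det_smul_left, T_mul_mem_Neg]
  rw [Om, e1, e2]
  exact Om_const u _ _

namespace Vtx

variable {v : Vtx}

/-- cusps which are not low -/
def NL (v : Vtx) (u : W) : Prop := u ∈ v.V ∧ u ≠ 0 ∧ v.c0 M u = 1 ∧ v.ci M u = 1

theorem NL.not_low {u : W} (h : v.NL u) : ¬ v.Low u := by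
  rintro ⟨-, -, h1 | h1⟩
  · exact h1 h.2.2.1
  · exact h1 h.2.2.2

theorem low_or_NL {u : W} (hu : u ∈ v.V) (hu0 : u ≠ 0) : v.Low u ∨ v.NL u := by
  by_cases h1 : v.c0 M u = 1
  · by_cases h2 : v.ci M u = 1
    · exact Or.inr ⟨hu, hu0, h1, h2⟩
    · exact Or.inl ⟨hu, hu0, Or.inr h2⟩
  · exact Or.inl ⟨hu, hu0, Or.inl h1⟩

theorem NL.smul {u : W} (h : v.NL u) {r : ℚ} (hr : r ≠ 0) : v.NL ((C r : F) • u) :=
  ⟨C_smul_mem_V h.1 r, C_smul_ne_zero hr h.2.1, by rw [c0_smul hr]; exact h.2.2.1,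
    by rw [ci_smul hr]; exact h.2.2.2⟩

theorem NL.of_smul {u : W} {r : ℚ} (hr : r ≠ 0) (h : v.NL ((C r : F) • u)) : v.NL u := by
  have := h.smul (inv_ne_zero hr)
  rwa [C_smul_cancel hr] at this

theorem map_NL {g : W ≃ₗ[F] W} {j : ℤ} (hg : Sim g j) (hN : mp g M = M) {w : W} :
    (v.map g hg).NL (g w) ↔ v.NL w := by
  rw [NL, NL, map_mem_V, map_c0 hg hN, map_ci hg hN]
  simp

variable {u y : W} {c : ℚ} {k : ℤ}

theorem P_le_PU (h : IsFrame u y c k v.P v.Q) : v.P ≤ PU u k := fun _ hm => ((h.hP _).1 hm).1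

theorem Q_le_QU (h : IsFrame u y c k v.P v.Q) : v.Q ≤ QU u k := fun _ hm => ((h.hQ _).1 hm).1

/-- the key property at `0` of cusps which are not low -/
theorem PU_le (h : IsFrame u y c k v.P v.Q) (hu : u ∈ v.V) (h0 : v.c0 M u = 1) :
    M ⊓ PU u k ≤ (M ⊓ v.P) ⊔ (M ⊓ v.Q) := by
  rw [c0_eq_one hu] at h0
  have key : ∀ (n : ℕ) (m : W), m ∈ M → m ∈ PU u k → (T (n : ℤ) : F) • m ∈ v.P →
      m ∈ (M ⊓ v.P) ⊔ (M ⊓ v.Q) := by
    intro n
    induction n with
    | zero =>
      intro m hm _ hn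
      rw [Nat.cast_zero, T_zero, one_smul] at hn
      exact AddSubgroup.mem_sup_left ⟨hm, hn⟩
    | succ n ih =>
      intro m hm hmU hn
      obtain ⟨r, s, hrs⟩ := h.exists_sub_mem_P hn
      have h1 := (h.mem_sh_P.1 hrs).1
      rw [det_sub_right, (h.det_comb r s).1, det_smul_right] at h1
      have h2 : (T ((n + 1 : ℕ) : ℤ) * det u m : F) ∈ Pos (k + 1) := by
        rw [T_mul_mem_Pos]
        exact Pos_mono (by push_cast; omega) hmU
      have h3 := (Pos (k + 1)).sub_mem h2 h1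
      rw [sub_sub_cancel] at h3
      have h4 := h3 k (by omega)
      rw [coeff_C_mul_T, if_pos rfl] at h4
      have hs : s = 0 := (mul_eq_zero.1 h4).resolve_right h.hc
      subst hs
      rw [C.map_zero, zero_smul, add_zero] at hrs
      -- `C r • u` is integral
      have h5 : (C r : F) • u ∈ v.lz M := by
        refine ⟨C_smul_mem_V hu r, ?_⟩
        have := AddSubgroup.sub_mem (M ⊔ sh 1 v.P)
          (AddSubgroup.mem_sup_left (T_smul_mem_M.2 hm : (T ((n + 1 : ℕ) : ℤ) : F) • m ∈ M))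
          (AddSubgroup.mem_sup_right hrs)
        rwa [sub_sub_cancel] at this
      have h6 := h0 r h5
      set m' := m - (T (-((n + 1 : ℕ) : ℤ)) : F) • ((C r : F) • u) with hm'
      have h7 : m' ∈ M := M.sub_mem hm (T_smul_mem_M.2 h6)
      have h8 : m' ∈ PU u k := by
        rw [mem_PU, hm', det_sub_right, det_smul_right, det_smul_right, det_self, mul_zero,
          mul_zero, sub_zero]
        exact hmU
      have h9 : (T (n : ℤ) : F) • m' ∈ v.P := by
        rw [mem_sh] at hrs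
        have e : (T (n : ℤ) : F) • m' = (T (-1) : F) • ((T ((n + 1 : ℕ) : ℤ) : F) • m - (C r : F) • u) := by
          rw [hm', smul_sub, smul_sub, smul_smul, smul_smul (T (-1)), ← T_add, ← T_add]
          congr 3
          · push_cast; ring
          · push_cast; ring
        rw [e]; exact hrs
      have h10 := ih m' h7 h8 h9
      have e : m = m' + (T (-((n + 1 : ℕ) : ℤ)) : F) • ((C r : F) • u) := by rw [hm']; abel
      rw [e]
      refine AddSubgroup.add_mem _ h10 (AddSubgroup.mem_sup_right ⟨T_smul_mem_M.2 h6, ?_⟩)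
      refine smul_mem_Q_of_V (C_smul_mem_V hu r) ?_
      have := C_mul_T_mem_Neg (R := ℚ) (k := 0) (n := -((n + 1 : ℕ) : ℤ)) (c := 1)
        (by push_cast; omega)
      rwa [C.map_one, one_mul] at this
  rintro m ⟨hm, hmU⟩
  obtain ⟨n, hn⟩ := h.exhaust_P m
  exact key n m hm hmU (hn n le_rfl)

/-- the key property at infinity of cusps which are not low -/
theorem QU_le (h : IsFrame u y c k v.P v.Q) (hu : u ∈ v.V) (h0 : v.ci M u = 1) :
    M ⊓ QU u k ≤ (M ⊓ v.P) ⊔ (M ⊓ v.Q) := by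
  rw [ci_eq_one hu] at h0
  have key : ∀ (n : ℕ) (m : W), m ∈ M → m ∈ QU u k → (T (-(n : ℤ)) : F) • m ∈ v.Q →
      m ∈ (M ⊓ v.P) ⊔ (M ⊓ v.Q) := by
    intro n
    induction n with
    | zero =>
      intro m hm _ hn
      rw [Nat.cast_zero, neg_zero, T_zero, one_smul] at hn
      exact AddSubgroup.mem_sup_right ⟨hm, hn⟩
    | succ n ih =>
      intro m hm hmU hn
      have hn' : (T (-(n : ℤ)) : F) • m ∈ sh 1 v.Q := by
        rw [mem_sh, smul_smul, ← T_add]
        convert hn using 3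
        push_cast; ring
      obtain ⟨r, s, hrs⟩ := h.exists_sub_mem_Q hn'
      have h1 := ((h.hQ _).1 hrs).1
      rw [det_sub_right, (h.det_comb r s).1, det_smul_right] at h1
      have h2 : (T (-(n : ℤ)) * det u m : F) ∈ Neg k := by
        rw [T_mul_mem_Neg]
        exact Neg_mono (by omega) hmU
      have h3 := (Neg k).sub_mem h2 h1
      rw [sub_sub_cancel] at h3
      have h4 := h3 k le_rfl
      rw [coeff_C_mul_T, if_pos rfl] at h4
      have hs : s = 0 := (mul_eq_zero.1 h4).resolve_right h.hc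
      subst hs
      rw [C.map_zero, zero_smul, add_zero] at hrs
      have h5 : (C r : F) • u ∈ v.li M := by
        refine ⟨C_smul_mem_V hu r, ?_⟩
        have := AddSubgroup.sub_mem (M ⊔ v.Q)
          (AddSubgroup.mem_sup_left (T_smul_mem_M.2 hm : (T (-(n : ℤ)) : F) • m ∈ M))
          (AddSubgroup.mem_sup_right hrs)
        rwa [sub_sub_cancel] at this
      have h6 := h0 r h5
      set m' := m - (T (n : ℤ) : F) • ((C r : F) • u) with hm'
      have h7 : m' ∈ M := M.sub_mem hm (T_smul_mem_M.2 h6)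
      have h8 : m' ∈ QU u k := by
        rw [mem_QU, hm', det_sub_right, det_smul_right, det_smul_right, det_self, mul_zero,
          mul_zero, sub_zero]
        exact hmU
      have h9 : (T (-(n : ℤ)) : F) • m' ∈ v.Q := by
        rw [hm', smul_sub, T_smul_cancel']
        exact hrs
      have h10 := ih m' h7 h8 h9
      have e : m = m' + (T (n : ℤ) : F) • ((C r : F) • u) := by rw [hm']; abel
      rw [e]
      refine AddSubgroup.add_mem _ h10 (AddSubgroup.mem_sup_left ⟨T_smul_mem_M.2 h6, ?_⟩)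
      refine smul_mem_P (V_le_P (C_smul_mem_V hu r)) ?_
      have := C_mul_T_mem_Pos (R := ℚ) (k := 0) (n := (n : ℤ)) (c := 1) (by omega)
      rwa [C.map_one, one_mul] at this
  rintro m ⟨hm, hmU⟩
  obtain ⟨n, hn⟩ := h.exhaust_Q m
  exact key n m hm hmU (hn n le_rfl)

theorem Om_dvd (h : IsFrame u y c k v.P v.Q) : Om u k ∣ v.D M := J_mono (P_le_PU h) (Q_le_QU h)

theorem NL.Om_eq (hn : v.NL u) (h : IsFrame u y c k v.P v.Q) : Om u k = v.D M := by
  refine Nat.dvd_antisymm (Om_dvd h) ?_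
  rw [Om, D, J, J]
  exact relIndex_dvd_of_le_left _ (sup_le (PU_le h hn.1 hn.2.2.1) (QU_le h hn.1 hn.2.2.2))

theorem NL_of_Om (h : IsFrame u y c k v.P v.Q) (hu : u ∈ v.V) (hu0 : u ≠ 0)
    (hO : Om u k = v.D M) : v.NL u := by
  set G := (M ⊓ v.P) ⊔ (M ⊓ v.Q) with hG
  set G' := (M ⊓ PU u k) ⊔ (M ⊓ QU u k) with hG'
  have hGG : G ≤ G' := sup_le_sup (inf_le_inf_left _ (P_le_PU h)) (inf_le_inf_left _ (Q_le_QU h))
  have hGM : G' ≤ M := sup_le inf_le_left inf_le_left
  have h1 := relIndex_mul_relIndex _ _ _ hGG hGM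
  have h2 : G'.relIndex M = G.relIndex M := hO
  have h3 : G.relIndex M ≠ 0 := v.D_ne_zero
  rw [h2] at h1
  have h4 : G.relIndex G' = 1 := Nat.eq_of_mul_eq_mul_right (Nat.pos_of_ne_zero h3)
    (by rw [h1, one_mul])
  rw [relIndex_eq_one] at h4
  refine ⟨hu, hu0, ?_, ?_⟩
  · rw [c0_eq_one hu]
    rintro r ⟨-, hr⟩
    obtain ⟨n, hn, z, hz, hnz⟩ := AddSubgroup.mem_sup.1 hr
    rw [mem_sh] at hz
    have h5 : (T (-1) : F) • n = (T (-1) : F) • ((C r : F) • u) - (T (-1) : F) • z := by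
      rw [← hnz, smul_add, add_sub_cancel_right]
    have h6 : (T (-1) : F) • n ∈ PU u k := by
      rw [mem_PU, h5, det_sub_right, det_smul_right, det_smul_right, det_self, mul_zero, mul_zero,
        zero_sub]
      exact AddSubgroup.neg_mem _ (P_le_PU h hz)
    obtain ⟨m1, ⟨hm1, hm1'⟩, m2, ⟨hm2, hm2'⟩, h12⟩ :=
      AddSubgroup.mem_sup.1 (h4 (AddSubgroup.mem_sup_left ⟨T_smul_mem_M.2 hn, h6⟩))
    have h7 : (T (-1) : F) • ((C r : F) • u) ∈ v.Q := by
      refine smul_mem_Q_of_V (C_smul_mem_V hu r) ?_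
      have := C_mul_T_mem_Neg (R := ℚ) (k := 0) (n := -1) (c := 1) (by omega)
      rwa [C.map_one, one_mul] at this
    have h8 : (T (-1) : F) • ((C r : F) • u) - m2 ∈ v.P ⊓ v.Q := by
      refine ⟨?_, v.Q.sub_mem h7 hm2'⟩
      have : (T (-1) : F) • ((C r : F) • u) - m2 = m1 + (T (-1) : F) • z := by
        have : (T (-1) : F) • ((C r : F) • u) = (m1 + m2) + (T (-1) : F) • z := by
          rw [h12, h5]; abel
        rw [this]; abel
      rw [this]
      exact v.P.add_mem hm1' hz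
    rw [P_inf_Q, AddSubgroup.mem_bot, sub_eq_zero] at h8
    rw [← h8] at hm2
    exact T_smul_mem_M.1 hm2
  · rw [ci_eq_one hu]
    rintro r ⟨-, hr⟩
    obtain ⟨n, hn, z, hz, hnz⟩ := AddSubgroup.mem_sup.1 hr
    have h5 : n = (C r : F) • u - z := by rw [← hnz, add_sub_cancel_right]
    have h6 : n ∈ QU u k := by
      rw [mem_QU, h5, det_sub_right, det_smul_right, det_self, mul_zero, zero_sub]
      exact AddSubgroup.neg_mem _ (Q_le_QU h hz)
    obtain ⟨m1, ⟨hm1, hm1'⟩, m2, ⟨hm2, hm2'⟩, h12⟩ :=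
      AddSubgroup.mem_sup.1 (h4 (AddSubgroup.mem_sup_right ⟨hn, h6⟩))
    have h8 : (C r : F) • u - m1 ∈ v.P ⊓ v.Q := by
      refine ⟨v.P.sub_mem (V_le_P (C_smul_mem_V hu r)) hm1', ?_⟩
      have : (C r : F) • u - m1 = m2 + z := by
        rw [← hnz, ← h12]; abel
      rw [this]
      exact v.Q.add_mem hm2' hz
    rw [P_inf_Q, AddSubgroup.mem_bot, sub_eq_zero] at h8
    rw [← h8] at hm1
    exact hm1

/-- a frame which starts with a given vector -/
theorem exists_frame_of_mem {u : W} (hu : u ∈ v.V) (hu0 : u ≠ 0) :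
    ∃ y c k, IsFrame u y c k v.P v.Q := by
  obtain ⟨a, b, c, k, h⟩ := v.ex
  obtain ⟨x, rfl⟩ := h.mem_V_iff.1 hu
  have hx0 : x ≠ 0 := by rintro rfl; exact hu0 (map_zero _)
  obtain ⟨y, hy⟩ : ∃ y, dt x y ≠ 0 := by
    by_cases h1 : x.1 = 0
    · have h2 : x.2 ≠ 0 := fun h2 => hx0 (Prod.ext h1 h2)
      exact ⟨(1, 0), by simp [dt, h2]⟩
    · exact ⟨(0, 1), by simp [dt, h1]⟩
  exact ⟨_, _, _, h.phi_frame hy⟩

/-- cusps which are not low are not low in all vertices which contain them -/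
theorem NL.transfer {u : W} (hn : v.NL u) {v' : Vtx} {i : ℤ} (hu' : (T i : F) • u ∈ v'.V)
    (hD : v'.D M ≤ v.D M) : v'.D M = v.D M ∧ v'.NL ((T i : F) • u) := by
  obtain ⟨y, c, k, h⟩ := exists_frame_of_mem hn.1 hn.2.1
  have hu0 : (T i : F) • u ≠ 0 := T_smul_ne_zero hn.2.1
  obtain ⟨y', c', k', h'⟩ := exists_frame_of_mem hu' hu0
  have h1 := hn.Om_eq h
  have h2 : Om ((T i : F) • u) k' = v.D M := by rw [Om_T u i k' k, h1]
  have h3 := Om_dvd h'
  rw [h2] at h3
  have h4 : v'.D M = v.D M :=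
    le_antisymm hD (Nat.le_of_dvd (Nat.pos_of_ne_zero v'.D_ne_zero) h3)
  exact ⟨h4, NL_of_Om h' hu' hu0 (by rw [h2, h4])⟩

end Vtx

end Pool.Agent.W411.LP
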