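import Pool.Agent.W411.LP.E2a

/-!
# Moves at a cusp which is not low
-/

set_option autoImplicit false

namespace Pool.Agent.W411.LP

open LaurentPolynomial AddSubgroup

namespace Vtx

variable {v : Vtx}

theorem T_smul_mem_Q {s : W} (hs : s ∈ v.V) {i : ℤ} (hi : i < 0) : (T i : F) • s ∈ v.Q := by
  refine smul_mem_Q_of_V hs ?_
  have := C_mul_T_mem_Neg (R := ℚ) (k := 0) (n := i) (c := 1) hi
  rwa [C.map_one, one_mul] at this

/-- if the lattice at `0` is integral then the defect is `1` -/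
theorem D_eq_one (h : v.lz M ≤ M) : v.D M = 1 := by
  set G := (M ⊓ v.P) ⊔ (M ⊓ v.Q) with hG
  obtain ⟨a, b, c, k, hf⟩ := v.ex
  have key : ∀ (N : ℕ) (m : W), m ∈ M → m ∈ v.P → (T (-(N : ℤ)) : F) • m ∈ v.Q →
      ∀ n : ℕ, (T (-(n : ℤ)) : F) • m ∈ G := by
    intro N
    induction N with
    | zero =>
      intro m hm hmP hmQ n
      rw [Nat.cast_zero, neg_zero, T_zero, one_smul] at hmQ
      rw [hf.disj hmP hmQ, smul_zero]
      exact G.zero_mem
    | succ N ih =>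
      intro m hm hmP hmQ n
      have hmP' := hmP
      rw [← v.V_sup_P] at hmP'
      obtain ⟨x, hx, z, hz, rfl⟩ := AddSubgroup.mem_sup.1 hmP'
      have hxM : x ∈ M := h ⟨hx, AddSubgroup.mem_sup.2 ⟨x + z, hm, -z, neg_mem hz, by abel⟩⟩
      have hzM : z ∈ M := by
        have := M.sub_mem hm hxM
        rwa [add_sub_cancel_left] at this
      rw [mem_sh] at hz
      have h1 : (T (-(N : ℤ)) : F) • ((T (-1) : F) • z) ∈ v.Q := by
        have e : (T (-(N : ℤ)) : F) • ((T (-1) : F) • z) =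
            (T (-((N + 1 : ℕ) : ℤ)) : F) • (x + z) - (T (-((N + 1 : ℕ) : ℤ)) : F) • x := by
          rw [smul_add, add_sub_cancel_left, smul_smul, ← T_add]
          congr 2
          push_cast; ring
        rw [e]
        exact v.Q.sub_mem hmQ (T_smul_mem_Q hx (by push_cast; omega))
      have h2 := ih _ (T_smul_mem_M.2 hzM) hz h1
      rcases n with _ | n
      · rw [Nat.cast_zero, neg_zero, T_zero, one_smul]
        exact AddSubgroup.mem_sup_left ⟨hm, hmP⟩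
      · rw [smul_add]
        refine G.add_mem (AddSubgroup.mem_sup_right ⟨T_smul_mem_M.2 hxM,
          T_smul_mem_Q hx (by push_cast; omega)⟩) ?_
        have := h2 n
        rw [smul_smul, ← T_add] at this
        convert this using 3
        push_cast; ring
  show G.relIndex M = 1
  rw [relIndex_eq_one]
  intro m hm
  obtain ⟨n, hn⟩ := hf.exhaust_P m
  obtain ⟨N, hN⟩ := hf.exhaust_Q ((T (n : ℤ) : F) • m)
  have := key N _ (T_smul_mem_M.2 hm) (hn n le_rfl) (hN N le_rfl) n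
  rwa [T_smul_cancel'] at this

/-- two vertices share their class of low cusps -/
def Eqv (D : ℕ) (v v' : Vtx) : Prop := ∃ d d', v.Low d ∧ v'.Low d' ∧ Rel (D - 1) d d'

theorem Eqv.symm {D : ℕ} {v v' : Vtx} (h : Eqv D v v') : Eqv D v' v := by
  obtain ⟨d, d', h1, h2, h3⟩ := h
  exact ⟨d', d, h2, h1, h3.symm⟩

theorem Eqv.trans {D : ℕ} {v v' v'' : Vtx} (h : Eqv D v v') (h' : Eqv D v' v'')
    (hD : v'.D M = D) : Eqv D v v'' := by
  obtain ⟨d, d', h1, h2, h3⟩ := h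
  obtain ⟨e, e', k1, k2, k3⟩ := h'
  refine ⟨d, e', h1, k2, h3.trans (Rel.trans ?_ k3)⟩
  have := E1 v' h2 k1
  rwa [hD] at this

theorem Eqv.map {D : ℕ} {v v' : Vtx} (h : Eqv D v v') {g : W ≃ₗ[F] W} {j : ℤ} (hg : Sim g j)
    (hM : mp g M = M) : Eqv D (v.map g hg) (v'.map g hg) := by
  obtain ⟨d, d', h1, h2, h3⟩ := h
  exact ⟨g d, g d', (map_Low hg hM).2 h1, (map_Low hg hM).2 h2, h3.map hg hM⟩

/-- a primitive vector of a cusp which is not low -/
theorem NL.prim {u : W} (hn : v.NL u) {a b : W} {c : ℚ} {k : ℤ} {q : ℕ} (hf : NFr v a b c k q) :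
    ∃ r : ℚ, r ≠ 0 ∧ ∃ x, phi a b x = (C r : F) • u ∧ Prim L0 x ∧ Prim (Li q) x ∧
      phi a b x ∈ M := by
  obtain ⟨x₀, rfl⟩ := hf.V_iff.1 hn.1
  have hx₀ : x₀ ≠ 0 := hf.phi_ne_zero.1 hn.2.1
  obtain ⟨r, hr, hx⟩ := exists_prim_L0 hx₀
  have h0 := (c0_eq_one hn.1).1 hn.2.2.1
  have hi := (ci_eq_one hn.1).1 hn.2.2.2
  have hM : phi a b (r • x₀) ∈ M := by
    rw [phi_smul]
    refine h0 r ?_
    rw [← phi_smul, hf.mem_lz]; exact hx.1
  refine ⟨r, hr, r • x₀, phi_smul _ _ _ _, hx, ⟨hf.mem_li.1 (N_V_le_li ⟨hM, hf.phi_mem _⟩), ?_⟩, hM⟩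
  intro t ht
  apply hx.2
  rw [← hf.mem_lz]
  refine N_V_le_lz ⟨?_, hf.phi_mem _⟩
  rw [smul_smul, phi_smul]
  refine hi _ ?_
  rw [← phi_smul, ← smul_smul, hf.mem_li]
  exact ht

theorem mem_V_of_smul {u : W} {r : ℚ} (hr : r ≠ 0) (h : (C r : F) • u ∈ v.V) : u ∈ v.V := by
  have := C_smul_mem_V h r⁻¹
  rwa [C_smul_cancel hr] at this

theorem C_smul_det_ne_zero {u w : W} {r : ℚ} (h : det ((C r : F) • u) w ≠ 0) : det u w ≠ 0 := by
  intro h0
  apply h
  rw [det_smul_left, h0, mul_zero]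

/-- the right move -/
theorem NL.right {D : ℕ} {u y : W} {c : ℚ} {k : ℤ} (hn : v.NL u) (hD : v.D M = D) (hD1 : D ≠ 1)
    (h : IsFrame u y c k v.P v.Q) : ∃ v' : Vtx, v'.D M = D ∧ v'.NL u ∧
      (∃ y' c', IsFrame u y' c' (k - 1) v'.P v'.Q) ∧ Eqv D v v' := by
  obtain ⟨a, b, c₁, k₁, q, hf⟩ := v.exists_NFr
  obtain ⟨r, hr, x, hx, hx0, hxi, hxM⟩ := hn.prim hf
  have hxne : x ≠ 0 := hf.phi_ne_zero.1 (by rw [hx]; exact C_smul_ne_zero hr hn.2.1)
  obtain ⟨z, hz, hxz⟩ := partner_L0 hx0 hxne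
  have hd : dt x z ≠ 0 := by rw [hxz]; exact one_ne_zero
  have hz0 := (ne_zero_of_dt hd).2
  have hzp : Prim L0 z := prim_L0_of_dt hz hx0.1 (by rw [dt_swap, hxz]; simp)
  have h1 := hf.phi_mem x
  have h2 := hf.phi_mem z
  have h3 : det (phi a b x) (phi a b z) ≠ 0 := hf.fr.det_phi_ne_zero.2 hd
  set v₁ := v.mv (phi a b x) (phi a b z) h1 h2 h3 with hv₁
  have hD₁ : v₁.D M = D := by
    have := hf.D_mv hxi hzp hd h1 h2 h3
    rw [hxz, abs_one, mul_one, hD] at this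
    exact_mod_cast this
  have hD0 : 0 < D := by rw [← hD]; exact Nat.pos_of_ne_zero v.D_ne_zero
  have hc0 : v.c0 M (phi a b z) ≠ 1 := by
    intro h4
    rw [c0_eq_one h2] at h4
    have h5 := h4 1 (by rw [C.map_one, one_smul]; exact hf.mem_lz.2 hz)
    rw [C.map_one, one_smul] at h5
    apply hD1
    rw [← hD]
    apply D_eq_one
    intro m hm
    obtain ⟨w, rfl⟩ := hf.V_iff.1 hm.1
    obtain ⟨i, j, rfl⟩ := basis_L0 hx0.1 hz hxz (hf.mem_lz.1 hm)
    rw [map_add, phi_smul, phi_smul]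
    exact M.add_mem (zC_mem hxM i) (zC_mem h5 j)
  have hlow : v.Low (phi a b z) := ⟨h2, hf.phi_ne_zero.2 hz0, Or.inl hc0⟩
  have hlow₁ : v₁.Low (phi a b z) := by
    refine ⟨y_mem_mv h1 h2 h3, hf.phi_ne_zero.2 hz0, Or.inr ?_⟩
    have ht := transfer_y h1 h2 h3 (sh_M 1)
    rw [← hv₁, hD₁, hD] at ht
    rw [← Nat.eq_of_mul_eq_mul_left hD0 ht]
    exact hc0
  set v' := v₁.map (tl (-1)) (tl_sim (-1)) with hv'
  have hux : tl (-1) ((T 1 : F) • phi a b x) = (C r : F) • u := by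
    rw [tl_apply, T_smul_cancel', hx]
  have huV : u ∈ v'.V := by
    apply mem_V_of_smul hr
    rw [← hux]
    exact (map_mem_V _).2 (Tw_mem_mv h1 h2 h3)
  have hD' : v'.D M = D := by rw [hv', map_D _ (mp_tl_M _), hD₁]
  obtain ⟨c', h'⟩ := h.of_mem h1 h2 h3
  have hfr : IsFrame (tl (-1) ((T 1 : F) • phi a b x)) (tl (-1) (phi a b z)) c' (k + 1 + (-1 + -1))
      v'.P v'.Q := (move_frame h').map (tl_sim (-1))
  have hzV : tl (-1) (phi a b z) ∈ v'.V := (map_mem_V _).2 (y_mem_mv h1 h2 h3)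
  refine ⟨v', hD', ?_, ?_, ?_⟩
  · have := NL.transfer hn (v' := v') (i := 0) (by rw [T_zero, one_smul]; exact huV)
      (by rw [hD', hD])
    have h5 := this.2
    rwa [T_zero, one_smul] at h5
  · have hdne : det u (tl (-1) (phi a b z)) ≠ 0 := by
      apply C_smul_det_ne_zero (r := r)
      rw [← hux, hfr.hdet]
      intro h0
      exact hfr.hc (C_mul_T_eq_zero h0)
    obtain ⟨c'', h''⟩ := hfr.of_mem huV hzV hdne
    refine ⟨tl (-1) (phi a b z), c'', ?_⟩
    rw [show k - 1 = k + 1 + (-1 + -1) by ring]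
    exact h''
  · exact ⟨_, _, hlow, (map_Low (tl_sim (-1)) (mp_tl_M _)).2 hlow₁, (Rel.T _ _ (-1)).symm⟩

/-- the left move -/
theorem NL.left {D : ℕ} {u y : W} {c : ℚ} {k : ℤ} (hn : v.NL u) (hD : v.D M = D) (hD1 : D ≠ 1)
    (h : IsFrame u y c k v.P v.Q) : ∃ v' : Vtx, v'.D M = D ∧ v'.NL u ∧
      (∃ y' c', IsFrame u y' c' (k + 1) v'.P v'.Q) ∧ Eqv D v v' := by
  obtain ⟨a, b, c₁, k₁, q, hf⟩ := v.exists_NFr
  obtain ⟨r, hr, x, hx, hx0, hxi, hxM⟩ := hn.prim hf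
  have hxne : x ≠ 0 := hf.phi_ne_zero.1 (by rw [hx]; exact C_smul_ne_zero hr hn.2.1)
  obtain ⟨z, hz, hzx⟩ := partner_Li hf.hq hxi hxne
  have hd : dt z x ≠ 0 := by rw [hzx]; exact one_ne_zero
  have hz0 := (ne_zero_of_dt hd).1
  have hzp : Prim (Li q) z := prim_Li_of_dt hf.hq hz hxi.1 (by rw [hzx]; simp)
  have h1 := hf.phi_mem z
  have h2 := hf.phi_mem x
  have h3 : det (phi a b z) (phi a b x) ≠ 0 := hf.fr.det_phi_ne_zero.2 hd
  set v₁ := v.mv (phi a b z) (phi a b x) h1 h2 h3 with hv₁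
  have hD₁ : v₁.D M = D := by
    have := hf.D_mv hzp hx0 hd h1 h2 h3
    rw [hzx, abs_one, mul_one, hD] at this
    exact_mod_cast this
  have hD0 : 0 < D := by rw [← hD]; exact Nat.pos_of_ne_zero v.D_ne_zero
  have hci : v.ci M (phi a b z) ≠ 1 := by
    intro h4
    rw [ci_eq_one h1] at h4
    have h5 := h4 1 (by rw [C.map_one, one_smul]; exact hf.mem_li.2 hz)
    rw [C.map_one, one_smul] at h5
    apply hD1
    rw [← hD]
    apply D_eq_one
    -- the lattice at infinity is integral, hence so is the lattice at `0`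
    have h6 : v.li M ≤ M ⊓ v.V := by
      intro m hm
      refine ⟨?_, hm.1⟩
      obtain ⟨w, rfl⟩ := hf.V_iff.1 hm.1
      obtain ⟨i, j, rfl⟩ := basis_Li hf.hq hz hxi.1 hzx (hf.mem_li.1 hm)
      rw [map_add, phi_smul, phi_smul]
      exact M.add_mem (zC_mem h5 i) (zC_mem hxM j)
    have h7 := relIndex_lz_eq_li (v := v) (sh_M 1) v.D_ne_zero
    rw [relIndex_eq_one.2 h6, relIndex_eq_one] at h7
    exact h7.trans inf_le_left
  have hlow : v.Low (phi a b z) := ⟨h1, hf.phi_ne_zero.2 hz0, Or.inr hci⟩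
  have hlow₁ : v₁.Low ((T 1 : F) • phi a b z) := by
    refine ⟨Tw_mem_mv h1 h2 h3, T_smul_ne_zero (hf.phi_ne_zero.2 hz0), Or.inl ?_⟩
    have ht := transfer_w h1 h2 h3 (sh_M 1)
    rw [← hv₁, hD₁, hD] at ht
    rw [← Nat.eq_of_mul_eq_mul_left hD0 ht]
    exact hci
  have huV : u ∈ v₁.V := by
    apply mem_V_of_smul hr
    rw [← hx]
    exact y_mem_mv h1 h2 h3
  obtain ⟨c', h'⟩ := h.of_mem h1 h2 h3
  have hfr : IsFrame ((T 1 : F) • phi a b z) (phi a b x) c' (k + 1) v₁.P v₁.Q := move_frame h'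
  have hzV : (T 1 : F) • phi a b z ∈ v₁.V := Tw_mem_mv h1 h2 h3
  refine ⟨v₁, hD₁, ?_, ?_, ?_⟩
  · have := NL.transfer hn (v' := v₁) (i := 0) (by rw [T_zero, one_smul]; exact huV)
      (by rw [hD₁, hD])
    have h5 := this.2
    rwa [T_zero, one_smul] at h5
  · have hdne : det u ((T 1 : F) • phi a b z) ≠ 0 := by
      apply C_smul_det_ne_zero (r := r)
      rw [← hx, det_swap, hfr.hdet]
      intro h0
      exact hfr.hc (C_mul_T_eq_zero (neg_eq_zero.1 h0))
    obtain ⟨c'', h''⟩ := hfr.of_mem huV hzV hdne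
    exact ⟨_, _, h''⟩
  · exact ⟨_, _, hlow, hlow₁, (Rel.T _ _ 1).symm⟩

/-- vertices with the given cusp in all positions -/
theorem NL.position {D : ℕ} {u y : W} {c : ℚ} {k : ℤ} (hn : v.NL u) (hD : v.D M = D) (hD1 : D ≠ 1)
    (h : IsFrame u y c k v.P v.Q) (k' : ℤ) : ∃ v' : Vtx, v'.D M = D ∧ v'.NL u ∧
      (∃ y' c', IsFrame u y' c' k' v'.P v'.Q) ∧ Eqv D v v' := by
  have hup : ∀ n : ℕ, ∃ v' : Vtx, v'.D M = D ∧ v'.NL u ∧
      (∃ y' c', IsFrame u y' c' (k + 1 + n) v'.P v'.Q) ∧ Eqv D v v' := by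
    intro n
    induction n with
    | zero => simpa using hn.left hD hD1 h
    | succ n ih =>
      obtain ⟨v', hD', hn', ⟨y', c', h'⟩, he⟩ := ih
      obtain ⟨v'', hD'', hn'', ⟨y'', c'', h''⟩, he'⟩ := hn'.left hD' hD1 h'
      refine ⟨v'', hD'', hn'', ⟨y'', c'', ?_⟩, he.trans he' hD'⟩
      convert h'' using 1
      push_cast; ring
  have hdown : ∀ n : ℕ, ∃ v' : Vtx, v'.D M = D ∧ v'.NL u ∧
      (∃ y' c', IsFrame u y' c' (k + 1 - n) v'.P v'.Q) ∧ Eqv D v v' := by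
    intro n
    induction n with
    | zero => simpa using hn.left hD hD1 h
    | succ n ih =>
      obtain ⟨v', hD', hn', ⟨y', c', h'⟩, he⟩ := ih
      obtain ⟨v'', hD'', hn'', ⟨y'', c'', h''⟩, he'⟩ := hn'.right hD' hD1 h'
      refine ⟨v'', hD'', hn'', ⟨y'', c'', ?_⟩, he.trans he' hD'⟩
      convert h'' using 1
      push_cast; ring
  rcases le_total (k + 1) k' with hk | hk
  · obtain ⟨n, hn⟩ := Int.eq_ofNat_of_zero_le (sub_nonneg.2 hk)
    have := hup n
    rwa [show k + 1 + (n : ℤ) = k' by omega] at this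
  · obtain ⟨n, hn⟩ := Int.eq_ofNat_of_zero_le (sub_nonneg.2 hk)
    have := hdown n
    rwa [show k + 1 - (n : ℤ) = k' by omega] at this

/-- the transvection by a monomial does not change the class of low cusps -/
theorem NL.monomial {D : ℕ} {u : W} (hn : v.NL u) (hD : v.D M = D) (hD1 : D ≠ 1) (hu : u ∈ M)
    (n j : ℤ) : Eqv D v (v.map (nn u (C (n : ℚ) * T j)) (nn_sim _ _)) := by
  obtain ⟨y, c, k, h⟩ := exists_frame_of_mem hn.1 hn.2.1
  obtain ⟨v₀, hD₀, hn₀, ⟨y₀, c₀, h₀⟩, he⟩ := hn.position hD hD1 h (-j)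
  have hM : mp (nn u (C (n : ℚ) * T j)) M = M := mp_nn_M hu (AF.mul_mem (C_int_mem n) (T_mem j))
  have he' := he.map (nn_sim u (C (n : ℚ) * T j)) hM
  -- the vertex `v₀` is fixed
  have hfix : v₀.map (nn u (C (n : ℚ) * T j)) (nn_sim _ _) = v₀ := by
    have h1 := h₀.map (nn_sim u (C (n : ℚ) * T j))
    have h2 := h₀.reframe (r := 1) (s := 0) (r' := n * c₀) (s' := 1) (by norm_num)
    have e1 : (C (1 : ℚ) : F) • u + (C (0 : ℚ) : F) • y₀ = nn u (C (n : ℚ) * T j) u := by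
      rw [nn_self]; simp
    have e2 : (C ((n : ℚ) * c₀) : F) • u + (C (1 : ℚ) : F) • y₀ = nn u (C (n : ℚ) * T j) y₀ := by
      rw [nn_apply, h₀.hdet]
      have : (C (n : ℚ) * T j * (C c₀ * T (-j)) : F) = C ((n : ℚ) * c₀) := by
        calc (C (n : ℚ) * T j * (C c₀ * T (-j)) : F) = (C (n : ℚ) * C c₀) * (T j * T (-j)) := by ring
          _ = _ := by rw [← T_add, add_neg_cancel, T_zero, mul_one, C.map_mul]
      rw [this, C.map_one, one_smul, add_comm]
    rw [e1, e2] at h2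
    rw [add_zero] at h1
    obtain ⟨hP, hQ⟩ := h1.unique h2
    exact ext' hP hQ
  rw [hfix] at he'
  exact he.trans he'.symm hD₀

theorem exists_low {u : W} {D : ℕ} (hn : v.NL u) (hD : v.D M = D) (hD1 : D ≠ 1) :
    ∃ d, v.Low d := by
  obtain ⟨y, c, k, h⟩ := exists_frame_of_mem hn.1 hn.2.1
  obtain ⟨v', -, -, -, d, -, hd, -⟩ := hn.right hD hD1 h
  exact ⟨d, hd⟩

theorem NL.integral {D : ℕ} {u : W} (hD1 : D ≠ 1) (hu : u ∈ M) :
    ∀ f ∈ AF, ∀ v : Vtx, v.NL u → v.D M = D → Eqv D v (v.map (nn u f) (nn_sim _ _)) := by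
  intro f hf
  have key : ∀ s : Finset ℤ, ∀ v : Vtx, v.NL u → v.D M = D →
      Eqv D v (v.map (nn u (∑ i ∈ s, C (f.coeff i) * T i)) (nn_sim _ _)) := by
    intro s
    induction s using Finset.induction_on with
    | empty =>
      intro v hn hD
      obtain ⟨d, hd⟩ := exists_low hn hD hD1
      refine ⟨d, d, hd, ?_, Rel.refl _ _⟩
      have e : v.map (nn u (∑ i ∈ (∅ : Finset ℤ), C (f.coeff i) * T i)) (nn_sim _ _) = v := by
        have : ∀ m, (nn u (∑ i ∈ (∅ : Finset ℤ), C (f.coeff i) * T i)).symm m = m := by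
          intro m
          rw [nn_symm_apply, Finset.sum_empty]
          simp
        apply ext'
        · ext m
          rw [map_P, mem_mp, this]
        · ext m
          rw [map_Q, mem_mp, this]
      rw [e]; exact hd
    | insert i s hi ih =>
      intro v hn hD
      obtain ⟨n, hn'⟩ := mem_AF.1 hf i
      have hM : mp (nn u (C (n : ℚ) * T i)) M = M := mp_nn_M hu (AF.mul_mem (C_int_mem n) (T_mem i))
      set v₁ := v.map (nn u (C (n : ℚ) * T i)) (nn_sim _ _) with hv₁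
      have h1 : Eqv D v v₁ := hn.monomial hD hD1 hu n i
      have hn₁ : v₁.NL u := by
        have := (map_NL (v := v) (nn_sim u (C (n : ℚ) * T i)) hM).2 hn
        rwa [nn_self] at this
      have hD₁ : v₁.D M = D := by rw [hv₁, map_D _ hM, hD]
      have h2 := ih v₁ hn₁ hD₁
      have e : v.map (nn u (∑ i ∈ insert i s, C (f.coeff i) * T i)) (nn_sim _ _) =
          v₁.map (nn u (∑ i ∈ s, C (f.coeff i) * T i)) (nn_sim _ _) := by
        have : ∀ m, (nn u (∑ i ∈ insert i s, C (f.coeff i) * T i)).symm m =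
            (nn u (C (n : ℚ) * T i)).symm ((nn u (∑ i ∈ s, C (f.coeff i) * T i)).symm m) := by
          intro m
          rw [nn_symm, nn_symm, nn_symm, ← nn_add, Finset.sum_insert hi, hn', neg_add]
        apply ext'
        · ext m
          rw [map_P, mem_mp, this, map_P, mem_mp, hv₁, map_P, mem_mp]
        · ext m
          rw [map_Q, mem_mp, this, map_Q, mem_mp, hv₁, map_Q, mem_mp]
      rw [e]
      exact h1.trans h2 hD₁
  intro v hn hD
  have e : f = ∑ i ∈ f.coeff.support, C (f.coeff i) * T i := by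
    apply LaurentPolynomial.ext
    intro j
    rw [AddMonoidAlgebra.coeff_sum, Finsupp.finsetSum_apply]
    simp only [coeff_C_mul_T]
    rw [Finset.sum_ite_eq]
    split_ifs with h
    · rfl
    · simpa using h
  have := key f.coeff.support v hn hD
  rwa [← e] at this

end Vtx

end Pool.Agent.W411.LP
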