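import Pool.Agent.W411.LP.E2b

/-!
# Vertices which contain a cusp which is not low
-/

set_option autoImplicit false

namespace Pool.Agent.W411.LP

open LaurentPolynomial AddSubgroup

theorem coeff_int_of_mul' {e φ : F} (he : e ∈ AF) (he' : e ∈ Neg 1) (he0 : e.coeff 0 = 1)
    (h : ∀ i, 0 < i → ∃ k : ℤ, (e * φ).coeff i = k) : ∀ i, 0 < i → ∃ k : ℤ, φ.coeff i = k := by
  have h1 : ∀ i < 0, ∃ k : ℤ, (invert φ : F).coeff i = k := by
    refine coeff_int_of_mul (e := (invert e : F)) ?_ ?_ ?_ ?_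
    · rw [mem_AF]
      intro i
      rw [invert_apply]
      exact mem_AF.1 he _
    · intro i hi
      rw [invert_apply]
      exact he' _ (by omega)
    · rw [invert_apply, neg_zero]; exact he0
    · intro i hi
      rw [← map_mul, invert_apply]
      exact h _ (by omega)
  intro i hi
  obtain ⟨k, hk⟩ := h1 (-i) (by omega)
  rw [invert_apply, neg_neg] at hk
  exact ⟨k, hk⟩

/-- the ideal of the determinants with a fixed vector -/
noncomputable def dI (s : W) : Ideal A where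
  carrier := {f | ∃ m ∈ M, det s m = toF f}
  zero_mem' := ⟨0, M.zero_mem, by rw [det_zero_right, map_zero]⟩
  add_mem' := by
    rintro f g ⟨m, hm, hf⟩ ⟨m', hm', hg⟩
    exact ⟨m + m', M.add_mem hm hm', by rw [det_add_right, hf, hg, map_add]⟩
  smul_mem' := by
    rintro t f ⟨m, hm, hf⟩
    exact ⟨toF t • m, smul_mem_M (toF_mem t) hm, by rw [det_smul_right, hf, smul_eq_mul, map_mul]⟩

theorem mem_dI {s : W} {f : A} : f ∈ dI s ↔ ∃ m ∈ M, det s m = toF f := Iff.rfl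

section

variable {s y : W} {k : ℤ} {P Q : AddSubgroup W}

theorem dI_int (h : IsFrame s y 1 k P Q) : ∃ n : ℤ, n ≠ 0 ∧ C n ∈ dI s := by
  obtain ⟨n, hn, hnM⟩ := exists_nat_smul_mem y
  refine ⟨n, by exact_mod_cast hn.ne', mem_dI.2 ⟨_, (T_smul_mem_M (n := -k)).2 hnM, ?_⟩⟩
  rw [det_smul_right, det_smul_right, h.hdet, toF_C, C.map_one, one_mul, mul_left_comm, ← T_add,
    neg_add_cancel, T_zero, mul_one]
  simp

theorem dI_prime (hs : PrimW M s) (p : ℕ) (hp : p.Prime) : ∃ b ∈ dI s, red p b ≠ 0 := by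
  obtain ⟨m, hm, hmd⟩ := exists_det_not_mem (hs.not_mem hp)
  obtain ⟨b, hb⟩ := det_mem hs.1 hm
  refine ⟨b, mem_dI.2 ⟨m, hm, hb.symm⟩, ?_⟩
  rw [Ne, red_eq_zero hp.ne_zero, hb]
  exact hmd

theorem exists_e (hs : PrimW M s) (h : IsFrame s y 1 k P Q) :
    ∃ e ∈ AF, e ∈ Pos 0 ∧ e.coeff 0 = 1 ∧ ∃ m ∈ M, det s m = T k * e := by
  obtain ⟨e, he, he', he0⟩ := exists_const_one (dI s) (dI_int h) (dI_prime hs)
  obtain ⟨m, hm, hme⟩ := mem_dI.1 he
  refine ⟨toF e, toF_mem e, ?_, ?_, _, (T_smul_mem_M (n := k)).2 hm, ?_⟩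
  · intro i hi
    rw [coeff_toF, he' i hi, Int.cast_zero]
  · rw [coeff_toF, he0, Int.cast_one]
  · rw [det_smul_right, hme]

theorem exists_e' (hs : PrimW M s) (h : IsFrame s y 1 k P Q) :
    ∃ e ∈ AF, e ∈ Neg 1 ∧ e.coeff 0 = 1 ∧ ∃ m ∈ M, det s m = T k * e := by
  obtain ⟨e, he, he', he0⟩ := exists_const_one' (dI s) (dI_int h) (dI_prime hs)
  obtain ⟨m, hm, hme⟩ := mem_dI.1 he
  refine ⟨toF e, toF_mem e, ?_, ?_, _, (T_smul_mem_M (n := k)).2 hm, ?_⟩
  · intro i hi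
    rw [coeff_toF, he' i hi, Int.cast_zero]
  · rw [coeff_toF, he0, Int.cast_one]
  · rw [det_smul_right, hme]

end

namespace Vtx

variable {v : Vtx} {s y : W} {k : ℤ}

theorem NL.lift0 (hn : v.NL s) (h : IsFrame s y 1 k v.P v.Q) {e : F} (he : e ∈ Pos 0) {m : W}
    (hm : m ∈ M) (hme : det s m = T k * e) : ∃ α : F, α ∈ Pos 0 ∧ α • s + e • y ∈ M := by
  have h1 : m ∈ PU s k := by
    rw [mem_PU, hme, T_mul_mem_Pos, sub_self]; exact he
  obtain ⟨m1, ⟨hm1, hm1'⟩, m2, ⟨hm2, hm2'⟩, h12⟩ :=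
    AddSubgroup.mem_sup.1 (PU_le h hn.1 hn.2.2.1 ⟨hm, h1⟩)
  have h2 : det s m2 = 0 := by
    refine eq_zero_of_Pos_Neg (k := k) ?_ (Q_le_QU h hm2')
    have : det s m2 = det s m - det s m1 := by rw [← h12, det_add_right]; ring
    rw [this]
    exact (Pos k).sub_mem h1 (P_le_PU h hm1')
  have h3 : det s m1 = T k * e := by
    rw [← hme, ← h12, det_add_right, h2, add_zero]
  refine ⟨T (-k) * det m1 y, ?_, ?_⟩
  · rw [T_mul_mem_Pos, det_swap]
    have := ((h.hP _).1 hm1').2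
    simpa using (Pos k).neg_mem this
  · have h4 := h.expand m1
    rw [h3, inv_one, C.map_one, one_mul, ← mul_assoc, ← T_add, neg_add_cancel, T_zero,
      one_mul] at h4
    rw [← h4]
    exact hm1

theorem NL.lift1 (hn : v.NL s) (h : IsFrame s y 1 k v.P v.Q) {e : F} (he : e ∈ Neg 1) {m : W}
    (hm : m ∈ M) (hme : det s m = T k * e) : ∃ α : F, α ∈ Neg 1 ∧ α • s + e • y ∈ M := by
  have h0 : det s ((T (-1) : F) • m) = T (k - 1) * e := by
    rw [det_smul_right, hme, ← mul_assoc, ← T_add]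
    congr 2
    ring
  have h1 : (T (-1) : F) • m ∈ QU s k := by
    rw [mem_QU, h0, T_mul_mem_Neg]
    rwa [show k - (k - 1) = 1 by ring]
  obtain ⟨m1, ⟨hm1, hm1'⟩, m2, ⟨hm2, hm2'⟩, h12⟩ :=
    AddSubgroup.mem_sup.1 (QU_le h hn.1 hn.2.2.2 ⟨T_smul_mem_M.2 hm, h1⟩)
  have h2 : det s m1 = 0 := by
    refine eq_zero_of_Pos_Neg (k := k) (P_le_PU h hm1') ?_
    have : det s m1 = det s ((T (-1) : F) • m) - det s m2 := by rw [← h12, det_add_right]; ring
    rw [this]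
    exact (Neg k).sub_mem h1 (Q_le_QU h hm2')
  have h3 : det s m2 = T (k - 1) * e := by
    rw [← h0, ← h12, det_add_right, h2, zero_add]
  have h3' : det s ((T 1 : F) • m2) = T k * e := by
    rw [det_smul_right, h3, ← mul_assoc, ← T_add]
    congr 2
    ring
  refine ⟨T (-k) * det ((T 1 : F) • m2) y, ?_, ?_⟩
  · rw [T_mul_mem_Neg, det_swap, det_smul_right]
    have h5 := ((h.hQ _).1 hm2').2
    refine (Neg _).neg_mem ?_
    rw [T_mul_mem_Neg]
    rwa [show 1 - -k - 1 = k by ring]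
  · have h4 := h.expand ((T 1 : F) • m2)
    rw [h3', inv_one, C.map_one, one_mul, ← mul_assoc, ← T_add, neg_add_cancel, T_zero,
      one_mul] at h4
    rw [← h4]
    exact T_smul_mem_M.2 hm2

/-- two vertices in the same position at a primitive cusp which is not low -/
theorem NL.same_pos {D : ℕ} {v' : Vtx} {y' : W} (hD1 : D ≠ 1) (hs : PrimW M s) (hn : v.NL s)
    (hn' : v'.NL s) (hD : v.D M = D) (h : IsFrame s y 1 k v.P v.Q)
    (h' : IsFrame s y' 1 k v'.P v'.Q) : Eqv D v v' := by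
  have hy : ∃ φ : F, y' = φ • s + y := by
    refine ⟨T (-k) * det y' y, ?_⟩
    have h4 := h.expand y'
    rw [h'.hdet, inv_one, C.map_one, one_mul, one_mul, ← T_add, neg_add_cancel, T_zero,
      one_smul] at h4
    exact h4
  obtain ⟨φ, hφ⟩ := hy
  -- the coefficients of `φ`
  have key : ∀ (e α α' : F), α • s + e • y ∈ M → α' • s + e • y' ∈ M →
      α' - α + e * φ ∈ AF := by
    intro e α α' h1 h2
    apply mem_AF_of_smul hs
    have := M.sub_mem h2 h1
    rw [hφ] at this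
    have e1 : (α' - α + e * φ) • s = α' • s + e • (φ • s + y) - (α • s + e • y) := by
      rw [smul_add, smul_smul, add_smul, sub_smul]; abel
    rw [e1]; exact this
  have hneg : ∀ i < 0, ∃ n : ℤ, φ.coeff i = n := by
    obtain ⟨e, he, he', he0, m, hm, hme⟩ := exists_e hs h
    obtain ⟨α, hα, h1⟩ := hn.lift0 h he' hm hme
    obtain ⟨α', hα', h2⟩ := hn'.lift0 h' he' hm hme
    refine coeff_int_of_mul he he' he0 fun i hi => ?_
    obtain ⟨n, hn⟩ := mem_AF.1 (key e α α' h1 h2) i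
    rw [AddMonoidAlgebra.coeff_add, Finsupp.add_apply, AddMonoidAlgebra.coeff_sub,
      Finsupp.sub_apply, hα i hi, hα' i hi, sub_zero, zero_add] at hn
    exact ⟨n, hn⟩
  have hpos : ∀ i, 0 < i → ∃ n : ℤ, φ.coeff i = n := by
    obtain ⟨e, he, he', he0, m, hm, hme⟩ := exists_e' hs h
    obtain ⟨α, hα, h1⟩ := hn.lift1 h he' hm hme
    obtain ⟨α', hα', h2⟩ := hn'.lift1 h' he' hm hme
    refine coeff_int_of_mul' he he' he0 fun i hi => ?_
    obtain ⟨n, hn⟩ := mem_AF.1 (key e α α' h1 h2) i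
    rw [AddMonoidAlgebra.coeff_add, Finsupp.add_apply, AddMonoidAlgebra.coeff_sub,
      Finsupp.sub_apply, hα i (by omega), hα' i (by omega), sub_zero, zero_add] at hn
    exact ⟨n, hn⟩
  set φ' := φ - C (φ.coeff 0) with hφ'
  have hφ'A : φ' ∈ AF := by
    rw [mem_AF]
    intro i
    rw [hφ', AddMonoidAlgebra.coeff_sub, Finsupp.sub_apply, C_apply]
    rcases lt_trichotomy i 0 with hi | hi | hi
    · obtain ⟨n, hn⟩ := hneg i hi
      exact ⟨n, by rw [if_neg hi.ne, sub_zero, hn]⟩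
    · exact ⟨0, by rw [if_pos hi, hi, sub_self]; simp⟩
    · obtain ⟨n, hn⟩ := hpos i hi
      exact ⟨n, by rw [if_neg hi.ne', sub_zero, hn]⟩
  set f := φ' * T (-k) with hf
  have hfA : f ∈ AF := AF.mul_mem hφ'A (T_mem _)
  have hmap : v.map (nn s f) (nn_sim _ _) = v' := by
    have h1 := h.map (nn_sim s f)
    have h2 := h'.reframe (r := 1) (s := 0) (r' := -φ.coeff 0) (s' := 1) (by norm_num)
    have e1 : (C (1 : ℚ) : F) • s + (C (0 : ℚ) : F) • y' = nn s f s := by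
      rw [nn_self]; simp
    have e2 : (C (-φ.coeff 0) : F) • s + (C (1 : ℚ) : F) • y' = nn s f y := by
      rw [nn_apply, h.hdet, hφ, C.map_one, one_smul, one_mul, Cneg, neg_smul]
      have : f * T k = φ - C (φ.coeff 0) := by
        rw [hf, mul_assoc, ← T_add, neg_add_cancel, T_zero, mul_one]
      rw [this, sub_smul]
      abel
    rw [e1, e2] at h2
    rw [add_zero] at h1
    obtain ⟨hP, hQ⟩ := h1.unique h2
    exact ext' hP hQ
  rw [← hmap]
  exact NL.integral hD1 hs.1 f hfA v hn hD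

theorem scale_frame {u y : W} {c : ℚ} {k : ℤ} {P Q : AddSubgroup W} (h : IsFrame u y c k P Q)
    {r : ℚ} (hr : r ≠ 0) : ∃ y₁, IsFrame ((C r : F) • u) y₁ 1 k P Q := by
  have hc := h.hc
  have h1 := h.reframe (r := r) (s := 0) (r' := 0) (s' := (r * c)⁻¹) (by
    rw [zero_mul, sub_zero]
    exact mul_ne_zero hr (inv_ne_zero (mul_ne_zero hr hc)))
  have e : (r * (r * c)⁻¹ - 0 * 0) * c = 1 := by
    rw [zero_mul, sub_zero]
    field_simp
  rw [e, C.map_zero, zero_smul, add_zero, zero_smul, zero_add] at h1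
  exact ⟨_, h1⟩

/-- **all vertices which contain a cusp which is not low share their class of low cusps** -/
theorem NL.eqv {D : ℕ} {v v' : Vtx} {u : W} {i : ℤ} (hD1 : D ≠ 1) (hn : v.NL u)
    (hn' : v'.NL ((T i : F) • u)) (hD : v.D M = D) (hD' : v'.D M = D) : Eqv D v v' := by
  -- shift `v'`
  set v'' := v'.map (tl (-i)) (tl_sim (-i)) with hv''
  have hn'' : v''.NL u := by
    have := (map_NL (v := v') (tl_sim (-i)) (mp_tl_M _)).2 hn'
    rwa [tl_apply, T_smul_cancel'] at this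
  have hD'' : v''.D M = D := by rw [hv'', map_D _ (mp_tl_M _), hD']
  have he : Eqv D v' v'' := by
    obtain ⟨d, hd⟩ := exists_low hn' hD' hD1
    exact ⟨d, _, hd, (map_Low (tl_sim (-i)) (mp_tl_M _)).2 hd, (Rel.T _ _ (-i)).symm⟩
  refine Eqv.trans ?_ he.symm hD''
  obtain ⟨y, c, k, h⟩ := exists_frame_of_mem hn.1 hn.2.1
  obtain ⟨y'', c'', k'', h''⟩ := exists_frame_of_mem hn''.1 hn''.2.1
  obtain ⟨v₀, hD₀, hn₀, ⟨y₀, c₀, h₀⟩, he₀⟩ := hn.position hD hD1 h k''
  refine he₀.trans ?_ hD₀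
  obtain ⟨r, hr, hs⟩ := exists_prim_M hn.2.1
  obtain ⟨y₁, h₁⟩ := scale_frame h₀ hr
  obtain ⟨y₂, h₂⟩ := scale_frame h'' hr
  exact NL.same_pos hD1 hs (hn₀.smul hr) (hn''.smul hr) hD₀ h₁ h₂

end Vtx

end Pool.Agent.W411.LP
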