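import Mathlib

/-!
# Index calculus for subgroups of an abelian group
-/

set_option autoImplicit false

namespace Pool.Agent.W411.LP

open AddSubgroup

variable {W : Type*} [AddCommGroup W]

/-- adding a subgroup which meets the big group inside the small one does not change the index -/
theorem relIndex_sup_eq {A B Z : AddSubgroup W} (hAB : A ≤ B) (hZ : B ⊓ Z ≤ A) :
    (A ⊔ Z).relIndex (B ⊔ Z) = A.relIndex B := by
  have h1 : B ⊔ Z = B ⊔ (A ⊔ Z) := by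
    rw [← sup_assoc, sup_eq_left.2 hAB]
  rw [h1, relIndex_sup_right, ← inf_relIndex_right]
  congr 1
  rw [sup_inf_assoc_of_le Z hAB, inf_comm Z B, sup_eq_left.2 hZ]

/-- the index of `(X ⊓ Y) ⊔ (X ⊓ Z)` in `X ⊓ (Y ⊔ Z)` is symmetric -/
theorem relIndex_tri (X Y Z : AddSubgroup W) :
    ((X ⊓ Y) ⊔ (X ⊓ Z)).relIndex (X ⊓ (Y ⊔ Z)) = ((Y ⊓ X) ⊔ (Y ⊓ Z)).relIndex (Y ⊓ (X ⊔ Z)) := by
  have key : ∀ X Y : AddSubgroup W, ((X ⊓ Y) ⊔ (X ⊓ Z)).relIndex (X ⊓ (Y ⊔ Z)) =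
      ((X ⊓ Y) ⊔ Z).relIndex ((X ⊔ Z) ⊓ (Y ⊔ Z)) := by
    intro X Y
    rw [← relIndex_sup_eq (Z := Z)]
    · congr 1
      · rw [sup_assoc]
        congr 1
        exact sup_eq_right.2 inf_le_right
      · rw [sup_comm (X ⊓ _) Z, ← sup_inf_assoc_of_le X (le_sup_right : Z ≤ Y ⊔ Z), sup_comm Z X]
    · exact sup_le (inf_le_inf_left _ le_sup_left) (inf_le_inf_left _ le_sup_right)
    · exact le_sup_of_le_right (by
        rw [inf_assoc]
        exact inf_le_inf_left _ inf_le_right)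
  rw [key, key, inf_comm X Y, inf_comm (X ⊔ Z)]

/-- the index of `(N ⊓ A) ⊔ (N ⊓ B)` in `N` -/
noncomputable def J (N A B : AddSubgroup W) : ℕ := ((N ⊓ A) ⊔ (N ⊓ B)).relIndex N

theorem J_comm (N A B : AddSubgroup W) : J N A B = J N B A := by
  rw [J, J, sup_comm]

theorem J_step (N : AddSubgroup W) {A A' : AddSubgroup W} (hA : A' ≤ A) (B : AddSubgroup W) :
    J N A' B = J N A B * ((N ⊓ A') ⊔ (N ⊓ (A ⊓ B))).relIndex (N ⊓ A) := by
  have hX : (N ⊓ A') ⊔ (N ⊓ B) ≤ (N ⊓ A) ⊔ (N ⊓ B) := sup_le_sup_right (inf_le_inf_left _ hA) _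
  have hN : (N ⊓ A) ⊔ (N ⊓ B) ≤ N := sup_le inf_le_left inf_le_left
  rw [J, J, ← relIndex_mul_relIndex _ _ _ hX hN, mul_comm]
  congr 1
  have h1 : (N ⊓ A) ⊔ (N ⊓ B) = (N ⊓ A) ⊔ ((N ⊓ A') ⊔ (N ⊓ B)) := by
    rw [← sup_assoc, sup_eq_left.2 (inf_le_inf_left N hA)]
  rw [h1, relIndex_sup_right, ← inf_relIndex_right]
  congr 1
  rw [sup_inf_assoc_of_le _ (inf_le_inf_left N hA)]
  congr 1
  ext x
  simp only [mem_inf]
  tauto

theorem J_step' (N : AddSubgroup W) {B B' : AddSubgroup W} (hB : B' ≤ B) (A : AddSubgroup W) :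
    J N A B' = J N A B * ((N ⊓ B') ⊔ (N ⊓ (B ⊓ A))).relIndex (N ⊓ B) := by
  rw [J_comm, J_step N hB A, J_comm]

theorem J_map (f : W ≃+ W) (N A B : AddSubgroup W) :
    J (N.map (f : W →+ W)) (A.map (f : W →+ W)) (B.map (f : W →+ W)) = J N A B := by
  rw [J, J, ← AddSubgroup.map_inf _ _ _ f.injective, ← AddSubgroup.map_inf _ _ _ f.injective,
    ← AddSubgroup.map_sup, relIndex_map_map_of_injective _ _ f.injective]

theorem J_mono {N A B A' B' : AddSubgroup W} (hA : A ≤ A') (hB : B ≤ B') : J N A' B' ∣ J N A B :=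
  relIndex_dvd_of_le_left _ (sup_le_sup (inf_le_inf_left _ hA) (inf_le_inf_left _ hB))

end Pool.Agent.W411.LP
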