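import Pool.Agent.W411.LP.Planar

/-!
# Planar lattices: covolume and normal form of a pair of lattices with the same covolume
-/

set_option autoImplicit false

namespace Pool.Agent.W411.LP

open Module

/-- the lattice spanned by `e` and `f` -/
def lt (e f : ℚ × ℚ) : AddSubgroup (ℚ × ℚ) where
  carrier := {u | ∃ i j : ℤ, u = (i : ℚ) • e + (j : ℚ) • f}
  zero_mem' := ⟨0, 0, by simp⟩
  add_mem' := by
    rintro _ _ ⟨i, j, rfl⟩ ⟨i', j', rfl⟩
    exact ⟨i + i', j + j', by push_cast; module⟩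
  neg_mem' := by
    rintro _ ⟨i, j, rfl⟩
    exact ⟨-i, -j, by push_cast; module⟩

theorem mem_lt {e f u : ℚ × ℚ} : u ∈ lt e f ↔ ∃ i j : ℤ, u = (i : ℚ) • e + (j : ℚ) • f := Iff.rfl

theorem left_mem_lt (e f : ℚ × ℚ) : e ∈ lt e f := ⟨1, 0, by simp⟩

theorem right_mem_lt (e f : ℚ × ℚ) : f ∈ lt e f := ⟨0, 1, by simp⟩

theorem L0_eq_lt : L0 = lt (1, 0) (0, 1) := by
  ext u
  rw [mem_lt, mem_L0]
  constructor
  · rintro ⟨i, j, rfl⟩; exact ⟨i, j, by simp⟩
  · rintro ⟨i, j, rfl⟩; exact ⟨i, j, by simp⟩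

/-- expansion in the basis `e, f` -/
theorem expand {e f : ℚ × ℚ} (h : dt e f ≠ 0) (u : ℚ × ℚ) :
    u = (dt u f / dt e f) • e + (dt e u / dt e f) • f := by
  obtain ⟨D, hD⟩ : ∃ D, D = dt e f := ⟨_, rfl⟩
  rw [← hD] at h ⊢
  ext
  · simp only [Prod.fst_add, Prod.smul_fst, smul_eq_mul]
    rw [div_mul_eq_mul_div, div_mul_eq_mul_div, ← add_div, eq_div_iff h, hD]
    simp only [dt]
    ring
  · simp only [Prod.snd_add, Prod.smul_snd, smul_eq_mul]
    rw [div_mul_eq_mul_div, div_mul_eq_mul_div, ← add_div, eq_div_iff h, hD]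
    simp only [dt]
    ring

theorem dt_lin (a b c d : ℚ) (e f : ℚ × ℚ) :
    dt (a • e + b • f) (c • e + d • f) = (a * d - b * c) * dt e f := by
  simp only [dt, Prod.fst_add, Prod.snd_add, Prod.smul_fst, Prod.smul_snd, smul_eq_mul]
  ring

/-- the basis of `ℚ × ℚ` given by two independent vectors -/
theorem exists_basis {e f : ℚ × ℚ} (h : dt e f ≠ 0) :
    ∃ b : Basis (Fin 2) ℚ (ℚ × ℚ), b 0 = e ∧ b 1 = f := by
  have hli : LinearIndependent ℚ ![e, f] := by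
    rw [LinearIndependent.pair_iff]
    intro s t hst
    have h1 : dt (s • e + t • f) f = 0 := by rw [hst]; simp [dt]
    have h2 : dt e (s • e + t • f) = 0 := by rw [hst]; simp [dt]
    rw [dt_add_left, dt_smul_left, dt_smul_left, dt_self] at h1
    rw [dt_add_right, dt_smul_right, dt_smul_right, dt_self] at h2
    constructor
    · have : s * dt e f = 0 := by linarith
      exact (mul_eq_zero.1 this).resolve_right h
    · have : t * dt e f = 0 := by linarith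
      exact (mul_eq_zero.1 this).resolve_right h
  have hsp : ⊤ ≤ Submodule.span ℚ (Set.range ![e, f]) := by
    intro u _
    rw [expand h u]
    refine Submodule.add_mem _ (Submodule.smul_mem _ _ (Submodule.subset_span ⟨0, rfl⟩))
      (Submodule.smul_mem _ _ (Submodule.subset_span ⟨1, rfl⟩))
  exact ⟨Basis.mk hli hsp, by simp, by simp⟩

theorem lt_eq_closure (b : Basis (Fin 2) ℚ (ℚ × ℚ)) :
    lt (b 0) (b 1) = AddSubgroup.closure (Set.range b) := by
  apply le_antisymm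
  · rintro _ ⟨i, j, rfl⟩
    rw [Int.cast_smul_eq_zsmul, Int.cast_smul_eq_zsmul]
    exact AddSubgroup.add_mem _
      (AddSubgroup.zsmul_mem _ (AddSubgroup.subset_closure (Set.mem_range_self 0)) _)
      (AddSubgroup.zsmul_mem _ (AddSubgroup.subset_closure (Set.mem_range_self 1)) _)
  · rw [AddSubgroup.closure_le]
    rintro _ ⟨i, rfl⟩
    fin_cases i
    · exact left_mem_lt _ _
    · exact right_mem_lt _ _

/-- the index of a lattice in another one -/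
theorem relIndex_lt {e f e' f' : ℚ × ℚ} (h : dt e f ≠ 0) (h' : dt e' f' ≠ 0)
    (hle : lt e f ≤ lt e' f') : ((lt e f).relIndex (lt e' f') : ℚ) = |dt e f| / |dt e' f'| := by
  obtain ⟨b, hb0, hb1⟩ := exists_basis h
  obtain ⟨b', hb0', hb1'⟩ := exists_basis h'
  have h1 := AddSubgroup.relIndex_eq_abs_det (lt e f) (lt e' f') hle b b'
    (by rw [← lt_eq_closure, hb0, hb1]) (by rw [← lt_eq_closure, hb0', hb1'])
  rw [h1, Basis.det_apply, Matrix.det_fin_two]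
  simp only [Basis.toMatrix_apply, hb0, hb1]
  obtain ⟨x, y, hxy⟩ : ∃ x y : ℚ, e = x • b' 0 + y • b' 1 := ⟨_, _, by
    rw [hb0', hb1']; exact expand h' e⟩
  obtain ⟨z, w, hzw⟩ : ∃ x y : ℚ, f = x • b' 0 + y • b' 1 := ⟨_, _, by
    rw [hb0', hb1']; exact expand h' f⟩
  have e1 : dt e f = (x * w - y * z) * dt e' f' := by
    rw [hxy, hzw, dt_lin, hb0', hb1']
  rw [e1, abs_mul, mul_div_assoc, div_self (abs_ne_zero.2 h'), mul_one]
  congr 1
  have r1 : b'.repr e 0 = x := by rw [hxy]; simp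
  have r2 : b'.repr e 1 = y := by rw [hxy]; simp
  have r3 : b'.repr f 0 = z := by rw [hzw]; simp
  have r4 : b'.repr f 1 = w := by rw [hzw]; simp
  rw [r1, r2, r3, r4]
  ring

/-- index in the standard lattice -/
theorem relIndex_L0 {e f : ℚ × ℚ} (h : dt e f ≠ 0) (he : e ∈ L0) (hf : f ∈ L0) :
    ((lt e f).relIndex L0 : ℚ) = |dt e f| := by
  have hle : lt e f ≤ L0 := by
    rintro _ ⟨i, j, rfl⟩
    exact L0.add_mem (smul_mem_L he i) (smul_mem_L hf j)
  rw [L0_eq_lt] at hle ⊢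
  rw [relIndex_lt h (by simp [dt]) hle]
  simp [dt]

/-- a subgroup of `ℚ` which contains `1` and has bounded denominators is cyclic -/
theorem cyclic_of_bdd (G : AddSubgroup ℚ) (h1 : (1 : ℚ) ∈ G) {n : ℕ} (hn : 0 < n)
    (hG : ∀ r ∈ G, ∃ k : ℤ, (n : ℚ) * r = k) :
    ∃ t : ℚ, t ≠ 0 ∧ ∀ r, r ∈ G ↔ ∃ k : ℤ, r = k * t := by
  have hn' : (n : ℚ) ≠ 0 := by positivity
  let G' : AddSubgroup ℤ := G.comap ((AddMonoidHom.mulRight (n : ℚ)⁻¹).comp (Int.castAddHom ℚ))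
  have hG' : ∀ k : ℤ, k ∈ G' ↔ (k : ℚ) * (n : ℚ)⁻¹ ∈ G := fun k => by
    simp [G', AddSubgroup.mem_comap]
  obtain ⟨d, hd⟩ := Int.subgroup_cyclic G'
  rw [← AddSubgroup.zmultiples_eq_closure] at hd
  have hmem : ∀ k : ℤ, k ∈ G' ↔ ∃ z : ℤ, k = z * d := by
    intro k
    rw [hd, AddSubgroup.mem_zmultiples_iff]
    constructor
    · rintro ⟨z, hz⟩; exact ⟨z, by rw [← hz]; simp⟩
    · rintro ⟨z, hz⟩; exact ⟨z, by rw [hz]; simp⟩
  have hd0 : d ≠ 0 := by
    rintro rfl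
    have : (n : ℤ) ∈ G' := by rw [hG']; rw [Int.cast_natCast, mul_inv_cancel₀ hn']; exact h1
    rw [hmem] at this
    obtain ⟨z, hz⟩ := this
    simp at hz
    omega
  refine ⟨d * (n : ℚ)⁻¹, mul_ne_zero (by exact_mod_cast hd0) (inv_ne_zero hn'), fun r => ⟨fun hr => ?_, ?_⟩⟩
  · obtain ⟨k, hk⟩ := hG r hr
    have hr' : r = (k : ℚ) * (n : ℚ)⁻¹ := by rw [← hk]; field_simp
    rw [hr', ← hG', hmem] at hr
    obtain ⟨z, hz⟩ := hr
    exact ⟨z, by rw [hr', hz]; push_cast; ring⟩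
  · rintro ⟨k, rfl⟩
    have : k * d ∈ G' := (hmem _).2 ⟨k, rfl⟩
    rw [hG'] at this
    push_cast at this
    rwa [mul_assoc] at this

/-- a subgroup between `L0` and `(1/n) L0` is a lattice -/
theorem exists_lt {L : AddSubgroup (ℚ × ℚ)} (h : L0 ≤ L) {n : ℕ} (hn : 0 < n)
    (hL : ∀ x ∈ L, (n : ℚ) • x ∈ L0) : ∃ e f : ℚ × ℚ, dt e f ≠ 0 ∧ L = lt e f := by
  obtain ⟨t₁, ht₁, h₁⟩ := cyclic_of_bdd
    (L.comap ((AddMonoidHom.inl ℚ ℚ))) (by
      rw [AddSubgroup.mem_comap]; exact h ⟨1, 0, by simp⟩) hn (by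
      intro r hr
      rw [AddSubgroup.mem_comap] at hr
      obtain ⟨i, j, hij⟩ := hL _ hr
      exact ⟨i, by simpa using congrArg Prod.fst hij⟩)
  obtain ⟨t₂, ht₂, h₂⟩ := cyclic_of_bdd
    (L.map ((AddMonoidHom.snd ℚ ℚ))) (by
      rw [AddSubgroup.mem_map]; exact ⟨(0, 1), h ⟨0, 1, by simp⟩, rfl⟩) hn (by
      intro r hr
      rw [AddSubgroup.mem_map] at hr
      obtain ⟨x, hx, rfl⟩ := hr
      obtain ⟨i, j, hij⟩ := hL _ hx
      exact ⟨j, by simpa using congrArg Prod.snd hij⟩)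
  obtain ⟨f, hf, hf2⟩ : ∃ f ∈ L, f.2 = t₂ := by
    have := (h₂ t₂).2 ⟨1, by simp⟩
    rw [AddSubgroup.mem_map] at this
    exact this
  have he : ((t₁, 0) : ℚ × ℚ) ∈ L := (h₁ t₁).2 ⟨1, by simp⟩
  refine ⟨(t₁, 0), f, ?_, ?_⟩
  · simp only [dt, hf2, zero_mul, sub_zero]
    exact mul_ne_zero ht₁ ht₂
  · ext u
    rw [mem_lt]
    constructor
    · intro hu
      obtain ⟨k, hk⟩ := (h₂ u.2).1 (AddSubgroup.mem_map.2 ⟨u, hu, rfl⟩)
      have h3 : u - (k : ℚ) • f ∈ L := L.sub_mem hu (smul_mem_L hf k)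
      have h4 : u - (k : ℚ) • f = (u.1 - k * f.1, 0) := by
        ext
        · simp
        · simp [hf2, hk]
      rw [h4] at h3
      obtain ⟨i, hi⟩ := (h₁ (u.1 - k * f.1)).1 h3
      refine ⟨i, k, ?_⟩
      ext
      · simp only [Prod.fst_add, Prod.smul_fst, smul_eq_mul]
        linarith
      · simp only [Prod.snd_add, Prod.smul_snd, smul_eq_mul, hf2, hk]
        ring
    · rintro ⟨i, j, rfl⟩
      exact L.add_mem (smul_mem_L he i) (smul_mem_L hf j)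

theorem lt_le {e f : ℚ × ℚ} {L : AddSubgroup (ℚ × ℚ)} (he : e ∈ L) (hf : f ∈ L) : lt e f ≤ L := by
  rintro _ ⟨i, j, rfl⟩
  exact L.add_mem (smul_mem_L he i) (smul_mem_L hf j)

/-- simultaneous diagonalisation of two lattices which contain `L0` with the same index -/
theorem diag_form {L L' : AddSubgroup (ℚ × ℚ)} (h : L0 ≤ L) (h' : L0 ≤ L') {n : ℕ} (hn : 0 < n)
    (hL : ∀ x ∈ L, (n : ℚ) • x ∈ L0) (hL' : ∀ x ∈ L', (n : ℚ) • x ∈ L0)
    (hidx : L0.relIndex L = L0.relIndex L') :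
    ∃ e f : ℚ × ℚ, dt e f ≠ 0 ∧ L = lt e f ∧ ∃ a b : ℚ, L' = lt (a • e) (b • f) ∧
      |a * b| = 1 := by
  have hn' : (n : ℚ) ≠ 0 := by positivity
  obtain ⟨e, f, hef, hLef⟩ := exists_lt h hn hL
  have heL : e ∈ L := by rw [hLef]; exact left_mem_lt _ _
  have hfL : f ∈ L := by rw [hLef]; exact right_mem_lt _ _
  -- the coordinate map
  let Φ : (Fin 2 → ℤ) →ₗ[ℤ] (ℚ × ℚ) :=
    { toFun := fun x => ((x 0 : ℤ) : ℚ) • e + ((x 1 : ℤ) : ℚ) • f
      map_add' := fun x y => by simp only [Pi.add_apply, Int.cast_add]; module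
      map_smul' := fun c x => by
        simp only [Pi.smul_apply, smul_eq_mul, Int.cast_mul, RingHom.id_apply]
        rw [← Int.cast_smul_eq_zsmul ℚ c, smul_add, smul_smul, smul_smul] }
  have hΦ : ∀ x, Φ x = ((x 0 : ℤ) : ℚ) • e + ((x 1 : ℤ) : ℚ) • f := fun _ => rfl
  have hΦL : ∀ x, Φ x ∈ L := fun x => by rw [hLef]; exact ⟨x 0, x 1, rfl⟩
  let K : Submodule ℤ (Fin 2 → ℤ) :=
    { carrier := {x | (n : ℚ)⁻¹ • Φ x ∈ L'}
      zero_mem' := by simp [L'.zero_mem]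
      add_mem' := by
        intro x y hx hy
        simp only [Set.mem_ofPred_eq] at hx hy ⊢
        rw [map_add, smul_add]; exact L'.add_mem hx hy
      smul_mem' := by
        intro c x hx
        simp only [Set.mem_ofPred_eq] at hx ⊢
        rw [map_smul, smul_comm]; exact L'.zsmul_mem hx c }
  have hK : ∀ x, x ∈ K ↔ (n : ℚ)⁻¹ • Φ x ∈ L' := fun _ => Iff.rfl
  have hK2 : ∀ x, ((n * n : ℕ) : ℤ) • x ∈ K := by
    intro x
    rw [hK, map_smul, ← Int.cast_smul_eq_zsmul ℚ, smul_smul]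
    have : (n : ℚ)⁻¹ * (((n * n : ℕ) : ℤ) : ℚ) = n := by push_cast; field_simp
    rw [this]
    exact h' (hL _ (hΦL x))
  have hrank : Module.finrank ℤ K = Module.finrank ℤ (Fin 2 → ℤ) := by
    refine le_antisymm (Submodule.finrank_le K) ?_
    let g : (Fin 2 → ℤ) →ₗ[ℤ] K := LinearMap.codRestrict K (((n * n : ℕ) : ℤ) • LinearMap.id)
      (fun x => by rw [LinearMap.smul_apply, LinearMap.id_apply]; exact hK2 x)
    refine LinearMap.finrank_le_finrank_of_injective (f := g) ?_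
    intro x y hxy
    have := congrArg Subtype.val hxy
    simp only [g, LinearMap.codRestrict_apply, LinearMap.smul_apply, LinearMap.id_apply] at this
    exact smul_right_injective _ (by positivity) this
  obtain ⟨b', a, ab', hab⟩ := Submodule.exists_smith_normal_form_of_rank_eq
    (Pi.basisFun ℤ (Fin 2)) hrank
  have hb' : ∀ x : Fin 2 → ℤ, ∃ i j : ℤ, x = i • b' 0 + j • b' 1 := by
    intro x
    refine ⟨b'.repr x 0, b'.repr x 1, ?_⟩
    conv_lhs => rw [← b'.sum_repr x]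
    rw [Fin.sum_univ_two]
  have hab' : ∀ x ∈ K, ∃ i j : ℤ, x = i • (a 0 • b' 0) + j • (a 1 • b' 1) := by
    intro x hx
    refine ⟨ab'.repr ⟨x, hx⟩ 0, ab'.repr ⟨x, hx⟩ 1, ?_⟩
    have := congrArg Subtype.val (ab'.sum_repr ⟨x, hx⟩)
    rw [Fin.sum_univ_two] at this
    simp only [Submodule.coe_add, Submodule.coe_smul] at this
    rw [hab, hab] at this
    exact this.symm
  set e' := Φ (b' 0) with he'
  set f' := Φ (b' 1) with hf'
  have hLe : L = lt e' f' := by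
    apply le_antisymm
    · intro u hu
      rw [hLef] at hu
      obtain ⟨i, j, rfl⟩ := hu
      have : (i : ℚ) • e + (j : ℚ) • f = Φ ![i, j] := by rw [hΦ]; simp
      rw [this]
      obtain ⟨i', j', hx⟩ := hb' ![i, j]
      rw [hx]
      exact ⟨i', j', by rw [map_add, map_smul, map_smul, Int.cast_smul_eq_zsmul,
        Int.cast_smul_eq_zsmul]⟩
    · exact lt_le (hΦL _) (hΦL _)
  have hef' : dt e' f' ≠ 0 := by
    intro h0
    have h1 : e ∈ lt e' f' := by rw [← hLe]; exact heL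
    have h2 : f ∈ lt e' f' := by rw [← hLe]; exact hfL
    obtain ⟨i, j, hij⟩ := h1
    obtain ⟨k, l, hkl⟩ := h2
    apply hef
    rw [hij, hkl, dt_lin, h0, mul_zero]
  have ha0 : a 0 ≠ 0 := by
    intro h0
    have h1 := hab 0
    rw [h0, zero_smul] at h1
    exact ab'.ne_zero 0 (Subtype.ext h1)
  have ha1 : a 1 ≠ 0 := by
    intro h0
    have h1 := hab 1
    rw [h0, zero_smul] at h1
    exact ab'.ne_zero 1 (Subtype.ext h1)
  have ha0' : ((a 0 : ℤ) : ℚ) ≠ 0 := by exact_mod_cast ha0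
  have ha1' : ((a 1 : ℤ) : ℚ) ≠ 0 := by exact_mod_cast ha1
  have hL'e : L' = lt (((a 0 : ℤ) / n : ℚ) • e') (((a 1 : ℤ) / n : ℚ) • f') := by
    apply le_antisymm
    · intro u hu
      have h1 : (n : ℚ) • u ∈ L := h (hL' u hu)
      rw [hLef] at h1
      obtain ⟨i, j, hij⟩ := h1
      have h2 : (n : ℚ) • u = Φ ![i, j] := by rw [hΦ, hij]; simp
      have h3 : u = (n : ℚ)⁻¹ • Φ ![i, j] := by rw [← h2, smul_smul, inv_mul_cancel₀ hn', one_smul]
      have h4 : ![i, j] ∈ K := by rw [hK, ← h3]; exact hu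
      obtain ⟨i', j', hx⟩ := hab' _ h4
      refine ⟨i', j', ?_⟩
      rw [h3, hx, map_add, map_smul, map_smul, map_smul, map_smul, ← he', ← hf',
        ← Int.cast_smul_eq_zsmul ℚ, ← Int.cast_smul_eq_zsmul ℚ, ← Int.cast_smul_eq_zsmul ℚ,
        ← Int.cast_smul_eq_zsmul ℚ]
      simp only [smul_add, smul_smul]
      congr 2 <;> field_simp
    · refine lt_le ?_ ?_
      · have : a 0 • b' 0 ∈ K := by rw [← hab]; exact (ab' 0).2
        rw [hK, map_smul, ← Int.cast_smul_eq_zsmul ℚ, smul_smul] at this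
        rwa [div_eq_inv_mul]
      · have : a 1 • b' 1 ∈ K := by rw [← hab]; exact (ab' 1).2
        rw [hK, map_smul, ← Int.cast_smul_eq_zsmul ℚ, smul_smul] at this
        rwa [div_eq_inv_mul]
  refine ⟨e', f', hef', hLe, _, _, hL'e, ?_⟩
  have hd2 : dt (((a 0 : ℤ) / n : ℚ) • e') (((a 1 : ℤ) / n : ℚ) • f') =
      ((a 0 : ℤ) / n : ℚ) * ((a 1 : ℤ) / n : ℚ) * dt e' f' := by
    rw [dt_smul_left, dt_smul_right]; ring
  have hd2' : dt (((a 0 : ℤ) / n : ℚ) • e') (((a 1 : ℤ) / n : ℚ) • f') ≠ 0 := by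
    rw [hd2]
    exact mul_ne_zero (mul_ne_zero (div_ne_zero ha0' hn') (div_ne_zero ha1' hn')) hef'
  have hstd : dt ((1, 0) : ℚ × ℚ) (0, 1) ≠ 0 := by simp [dt]
  have i1 := relIndex_lt hstd hef' (by rw [← hLe, ← L0_eq_lt]; exact h)
  have i2 := relIndex_lt hstd hd2' (by rw [← hL'e, ← L0_eq_lt]; exact h')
  rw [← hLe, ← L0_eq_lt] at i1
  rw [← hL'e, ← L0_eq_lt] at i2
  rw [← hidx, i1, hd2, abs_mul] at i2
  have h5 : |dt ((1, 0) : ℚ × ℚ) (0, 1)| = 1 := by simp [dt]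
  rw [h5] at i2
  have h6 : |dt e' f'| ≠ 0 := abs_ne_zero.2 hef'
  have h7 : |((a 0 : ℤ) / n : ℚ) * ((a 1 : ℤ) / n : ℚ)| ≠ 0 :=
    abs_ne_zero.2 (mul_ne_zero (div_ne_zero ha0' hn') (div_ne_zero ha1' hn'))
  rw [div_eq_div_iff h6 (mul_ne_zero h7 h6), one_mul, one_mul] at i2
  exact mul_right_cancel₀ h6 (by rw [i2, one_mul])

/-- normal form of two lattices which contain `L0` with the same index -/
theorem normal_form {L L' : AddSubgroup (ℚ × ℚ)} (h : L0 ≤ L) (h' : L0 ≤ L') {n : ℕ} (hn : 0 < n)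
    (hL : ∀ x ∈ L, (n : ℚ) • x ∈ L0) (hL' : ∀ x ∈ L', (n : ℚ) • x ∈ L0)
    (hidx : L0.relIndex L = L0.relIndex L') :
    ∃ q : ℕ, 0 < q ∧ ∃ e f : ℚ × ℚ, dt e f ≠ 0 ∧ L = lt e f ∧
      L' = lt ((q : ℚ)⁻¹ • e) ((q : ℚ) • f) := by
  obtain ⟨e, f, hef, hLe, a, b, hL'e, hab⟩ := diag_form h h' hn hL hL' hidx
  have ha : a ≠ 0 := by rintro rfl; simp at hab
  have hb : b ≠ 0 := by rintro rfl; simp at hab
  -- `|a| = r / s`
  set r : ℕ := a.num.natAbs with hr
  set s : ℕ := a.den with hs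
  have hr0 : r ≠ 0 := by rw [hr]; simpa using ha
  have hs0 : s ≠ 0 := a.den_nz
  have hcop : IsCoprime ((r : ℤ) ^ 2) ((s : ℤ) ^ 2) := by
    apply IsCoprime.pow
    rw [Nat.isCoprime_iff_coprime]
    exact a.reduced
  have habs : |a| = (r : ℚ) / s := by
    conv_lhs => rw [← Rat.num_div_den a]
    rw [abs_div, hr, Nat.cast_natAbs, Int.cast_abs, ← hs, Nat.abs_cast]
  have hr' : (r : ℚ) ≠ 0 := by exact_mod_cast hr0
  have hs' : (s : ℚ) ≠ 0 := by exact_mod_cast hs0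
  have habs' : |b| = (s : ℚ) / r := by
    rw [abs_mul, habs] at hab
    field_simp at hab ⊢
    linarith
  -- signs do not matter
  have hL'2 : L' = lt (((r : ℚ) / s) • e) (((s : ℚ) / r) • f) := by
    rw [hL'e, ← habs, ← habs']
    have key : ∀ a : ℚ, ∃ ε : ℤ, ε * ε = 1 ∧ |a| = ε * a := by
      intro a
      rcases abs_choice a with h | h
      · exact ⟨1, by norm_num, by rw [h]; simp⟩
      · exact ⟨-1, by norm_num, by rw [h]; simp⟩
    obtain ⟨ε, hε, hεa⟩ := key a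
    obtain ⟨δ, hδ, hδb⟩ := key b
    have hε' : (ε : ℚ) * ε = 1 := by exact_mod_cast hε
    have hδ' : (δ : ℚ) * δ = 1 := by exact_mod_cast hδ
    ext u
    rw [mem_lt, mem_lt]
    constructor
    · rintro ⟨i, j, rfl⟩
      refine ⟨i * ε, j * δ, ?_⟩
      rw [hεa, hδb]
      simp only [smul_smul]
      push_cast
      congr 2
      · linear_combination (- (i : ℚ) * a) * hε'
      · linear_combination (- (j : ℚ) * b) * hδ'
    · rintro ⟨i, j, rfl⟩
      refine ⟨i * ε, j * δ, ?_⟩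
      rw [hεa, hδb]
      simp only [smul_smul]
      push_cast
      congr 2 <;> ring
  obtain ⟨β, α', hαβ⟩ := hcop
  -- `β * r ^ 2 + α' * s ^ 2 = 1`
  have hαβ' : (β : ℚ) * (r : ℚ) ^ 2 + α' * (s : ℚ) ^ 2 = 1 := by exact_mod_cast hαβ
  refine ⟨r * s, by positivity, ((r : ℚ) ^ 2) • e + ((s : ℚ) ^ 2) • f,
    (-α' : ℚ) • e + (β : ℚ) • f, ?_, ?_, ?_⟩
  · rw [dt_lin]
    rw [show (r : ℚ) ^ 2 * β - (s : ℚ) ^ 2 * -α' = 1 by linarith, one_mul]
    exact hef
  · rw [hLe]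
    ext u
    rw [mem_lt, mem_lt]
    constructor
    · rintro ⟨i, j, rfl⟩
      refine ⟨i * β + j * α', - i * s ^ 2 + j * r ^ 2, ?_⟩
      rw [show (i : ℚ) • e + (j : ℚ) • f =
        (i * ((β : ℚ) * (r : ℚ) ^ 2 + α' * (s : ℚ) ^ 2)) • e +
        (j * ((β : ℚ) * (r : ℚ) ^ 2 + α' * (s : ℚ) ^ 2)) • f by rw [hαβ', mul_one, mul_one]]
      push_cast
      module
    · rintro ⟨i, j, rfl⟩
      refine ⟨i * r ^ 2 - j * α', i * s ^ 2 + j * β, ?_⟩
      push_cast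
      module
  · rw [hL'2]
    ext u
    rw [mem_lt, mem_lt]
    constructor
    · rintro ⟨i, j, rfl⟩
      refine ⟨i * β * r ^ 2 + j * α' * s ^ 2, j - i, ?_⟩
      simp only [smul_add, smul_smul]
      push_cast
      have h1 : (i : ℚ) * (r / s) = (i * β * r ^ 2 + j * α' * s ^ 2) * ((r * s : ℚ)⁻¹ * r ^ 2)
          + (j - i) * (r * s * -α') := by
        field_simp
        linear_combination (-(i : ℚ)) * hαβ'
      have h2 : (j : ℚ) * (s / r) = (i * β * r ^ 2 + j * α' * s ^ 2) * ((r * s : ℚ)⁻¹ * s ^ 2)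
          + (j - i) * (r * s * β) := by
        field_simp
        linear_combination (-(j : ℚ)) * hαβ'
      rw [h1, h2]
      module
    · rintro ⟨i, j, rfl⟩
      refine ⟨i - j * α' * s ^ 2, i + j * β * r ^ 2, ?_⟩
      simp only [smul_add, smul_smul]
      push_cast
      have h1 : ((i : ℚ) - j * α' * s ^ 2) * (r / s) = i * ((r * s : ℚ)⁻¹ * r ^ 2)
          + j * (r * s * -α') := by
        field_simp
        ring
      have h2 : ((i : ℚ) + j * β * r ^ 2) * (s / r) = i * ((r * s : ℚ)⁻¹ * s ^ 2)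
          + j * (r * s * β) := by
        field_simp
      rw [h1, h2]
      module

theorem Li_eq_lt {q : ℕ} : Li q = lt ((q : ℚ)⁻¹ • (1, 0)) ((q : ℚ) • (0, 1)) := by
  ext u
  rw [mem_lt, mem_Li]
  constructor
  · rintro ⟨i, j, rfl⟩; exact ⟨i, j, by simp [div_eq_mul_inv]⟩
  · rintro ⟨i, j, rfl⟩; exact ⟨i, j, by simp [div_eq_mul_inv]⟩

end Pool.Agent.W411.LP
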