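import Mathlib

/-!
# Laurent polynomials: positive and negative parts, integrality
-/

set_option autoImplicit false

namespace Pool.Agent.W411.LP

open LaurentPolynomial

/-- rational Laurent polynomials -/
abbrev F := LaurentPolynomial ℚ

/-- integral Laurent polynomials -/
abbrev A := LaurentPolynomial ℤ

section general

variable {R : Type*} [CommRing R]

theorem coeff_T_mul (n : ℤ) (f : LaurentPolynomial R) (i : ℤ) :
    (T n * f).coeff i = f.coeff (i - n) := by
  rw [T, AddMonoidAlgebra.coeff_single_mul_apply, one_mul]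
  congr 1
  ring

theorem coeff_C_mul (c : R) (f : LaurentPolynomial R) (i : ℤ) :
    (C c * f).coeff i = c * f.coeff i := by
  rw [← single_eq_C, AddMonoidAlgebra.coeff_single_mul_apply]
  simp

theorem coeff_C_mul_T (c : R) (n i : ℤ) :
    (C c * T n : LaurentPolynomial R).coeff i = if i = n then c else 0 := by
  rw [coeff_C_mul, T_apply]
  by_cases h : i = n
  · simp [h]
  · rw [if_neg h, if_neg (fun h' => h h'.symm), mul_zero]

theorem coeff_mul_low {f g : LaurentPolynomial R} {k l m : ℤ} (hf : ∀ i < k, f.coeff i = 0)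
    (hg : ∀ i < l, g.coeff i = 0) (hm : m < k + l) : (f * g).coeff m = 0 := by
  rw [AddMonoidAlgebra.coeff_mul_apply_left]
  apply Finset.sum_eq_zero
  intro h _
  by_cases hh : h < k
  · simp [hf h hh]
  · have : g.coeff (-h + m) = 0 := hg _ (by omega)
    simp [this]

theorem coeff_mul_bot {f g : LaurentPolynomial R} {k l : ℤ} (hf : ∀ i < k, f.coeff i = 0)
    (hg : ∀ i < l, g.coeff i = 0) : (f * g).coeff (k + l) = f.coeff k * g.coeff l := by
  rw [AddMonoidAlgebra.coeff_mul_apply_left, Finsupp.sum, Finset.sum_eq_single k]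
  · congr 2; ring
  · intro h _ hk
    by_cases hh : h < k
    · simp [hf h hh]
    · have : g.coeff (-h + (k + l)) = 0 := hg _ (by omega)
      simp [this]
  · intro h
    simp only [Finsupp.mem_support_iff, not_not] at h
    rw [h, zero_mul]

theorem coeff_mul_high {f g : LaurentPolynomial R} {k l m : ℤ} (hf : ∀ i, k ≤ i → f.coeff i = 0)
    (hg : ∀ i, l ≤ i → g.coeff i = 0) (hm : k + l - 1 ≤ m) : (f * g).coeff m = 0 := by
  rw [AddMonoidAlgebra.coeff_mul_apply_left]
  apply Finset.sum_eq_zero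
  intro h _
  by_cases hh : k ≤ h
  · simp [hf h hh]
  · have : g.coeff (-h + m) = 0 := hg _ (by omega)
    simp [this]

/-- Laurent polynomials with bounded below support -/
def Pos (k : ℤ) : AddSubgroup (LaurentPolynomial R) where
  carrier := {f | ∀ i < k, f.coeff i = 0}
  zero_mem' := fun i _ => by simp
  add_mem' := fun {f g} hf hg i hi => by simp [hf i hi, hg i hi]
  neg_mem' := fun {f} hf i hi => by simp [hf i hi]

/-- Laurent polynomials with bounded above support -/
def Neg (k : ℤ) : AddSubgroup (LaurentPolynomial R) where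
  carrier := {f | ∀ i, k ≤ i → f.coeff i = 0}
  zero_mem' := fun i _ => by simp
  add_mem' := fun {f g} hf hg i hi => by simp [hf i hi, hg i hi]
  neg_mem' := fun {f} hf i hi => by simp [hf i hi]

theorem mem_Pos {k : ℤ} {f : LaurentPolynomial R} : f ∈ Pos k ↔ ∀ i < k, f.coeff i = 0 := Iff.rfl

theorem mem_Neg {k : ℤ} {f : LaurentPolynomial R} : f ∈ Neg k ↔ ∀ i, k ≤ i → f.coeff i = 0 := Iff.rfl

theorem T_mul_mem_Pos {k n : ℤ} {f : LaurentPolynomial R} : T n * f ∈ Pos k ↔ f ∈ Pos (k - n) := by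
  simp only [mem_Pos, coeff_T_mul]
  constructor
  · intro h i hi
    simpa using h (i + n) (by omega)
  · intro h i hi
    exact h _ (by omega)

theorem T_mul_mem_Neg {k n : ℤ} {f : LaurentPolynomial R} : T n * f ∈ Neg k ↔ f ∈ Neg (k - n) := by
  simp only [mem_Neg, coeff_T_mul]
  constructor
  · intro h i hi
    simpa using h (i + n) (by omega)
  · intro h i hi
    exact h _ (by omega)

theorem Pos_mono {k l : ℤ} (h : k ≤ l) : (Pos l : AddSubgroup (LaurentPolynomial R)) ≤ Pos k :=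
  fun _ hf i hi => hf i (by omega)

theorem Neg_mono {k l : ℤ} (h : k ≤ l) : (Neg k : AddSubgroup (LaurentPolynomial R)) ≤ Neg l :=
  fun _ hf i hi => hf i (by omega)

theorem eq_zero_of_Pos_Neg {k : ℤ} {f : LaurentPolynomial R} (h : f ∈ Pos k) (h' : f ∈ Neg k) :
    f = 0 := by
  apply LaurentPolynomial.ext
  intro i
  rcases lt_or_ge i k with hi | hi
  · simpa using h i hi
  · simpa using h' i hi

theorem eq_C_mul_T {k : ℤ} {f : LaurentPolynomial R} (h : f ∈ Pos k) (h' : f ∈ Neg (k + 1)) :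
    f = C (f.coeff k) * T k := by
  apply LaurentPolynomial.ext
  intro i
  rw [coeff_C_mul_T]
  split_ifs with hi
  · rw [hi]
  · rcases lt_or_ge i k with hi | hi
    · exact h i hi
    · exact h' i (by omega)

theorem C_mul_T_mem_Pos {k n : ℤ} {c : R} (h : k ≤ n) :
    (C c * T n : LaurentPolynomial R) ∈ Pos k := by
  intro i hi
  rw [coeff_C_mul_T, if_neg (by omega)]

theorem C_mul_T_mem_Neg {k n : ℤ} {c : R} (h : n < k) :
    (C c * T n : LaurentPolynomial R) ∈ Neg k := by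
  intro i hi
  rw [coeff_C_mul_T, if_neg (by omega)]

theorem C_mul_mem_Pos {k : ℤ} {c : R} {f : LaurentPolynomial R} (hf : f ∈ Pos k) :
    C c * f ∈ Pos k := by
  intro i hi
  rw [coeff_C_mul, hf i hi, mul_zero]

theorem C_mul_mem_Neg {k : ℤ} {c : R} {f : LaurentPolynomial R} (hf : f ∈ Neg k) :
    C c * f ∈ Neg k := by
  intro i hi
  rw [coeff_C_mul, hf i hi, mul_zero]

theorem mul_mem_Pos {k l : ℤ} {f g : LaurentPolynomial R} (hf : f ∈ Pos k) (hg : g ∈ Pos l) :
    f * g ∈ Pos (k + l) := fun _ hi => coeff_mul_low hf hg hi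

theorem mul_mem_Neg {k l : ℤ} {f g : LaurentPolynomial R} (hf : f ∈ Neg k) (hg : g ∈ Neg l) :
    f * g ∈ Neg (k + l - 1) := fun _ hi => coeff_mul_high hf hg hi

theorem exists_mem_Pos (f : LaurentPolynomial R) : ∃ k : ℤ, f ∈ Pos k := by
  obtain ⟨k, hk⟩ := f.coeff.support.bddBelow
  refine ⟨k, fun i hi => ?_⟩
  by_contra h
  have := hk (Finsupp.mem_support_iff.2 h)
  omega

theorem exists_mem_Neg (f : LaurentPolynomial R) : ∃ k : ℤ, f ∈ Neg k := by
  obtain ⟨k, hk⟩ := f.coeff.support.bddAbove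
  refine ⟨k + 1, fun i hi => ?_⟩
  by_contra h
  have := hk (Finsupp.mem_support_iff.2 h)
  omega

/-- the positive part -/
noncomputable def pp (k : ℤ) (f : LaurentPolynomial R) : LaurentPolynomial R :=
  .ofCoeff (f.coeff.filter (fun i => k ≤ i))

/-- the negative part -/
noncomputable def np (k : ℤ) (f : LaurentPolynomial R) : LaurentPolynomial R :=
  .ofCoeff (f.coeff.filter (fun i => ¬ k ≤ i))

theorem coeff_pp (k : ℤ) (f : LaurentPolynomial R) (i : ℤ) :
    (pp k f).coeff i = if k ≤ i then f.coeff i else 0 := by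
  rw [pp, AddMonoidAlgebra.coeff_ofCoeff, Finsupp.filter_apply]

theorem coeff_np (k : ℤ) (f : LaurentPolynomial R) (i : ℤ) :
    (np k f).coeff i = if k ≤ i then 0 else f.coeff i := by
  rw [np, AddMonoidAlgebra.coeff_ofCoeff, Finsupp.filter_apply]
  split_ifs <;> simp_all

theorem pp_add_np (k : ℤ) (f : LaurentPolynomial R) : f = pp k f + np k f := by
  apply LaurentPolynomial.ext
  intro i
  rw [AddMonoidAlgebra.coeff_add, Finsupp.add_apply, coeff_pp, coeff_np]
  split_ifs <;> simp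

theorem pp_mem (k : ℤ) (f : LaurentPolynomial R) : pp k f ∈ Pos k := fun i hi => by
  rw [coeff_pp, if_neg (by omega)]

theorem np_mem (k : ℤ) (f : LaurentPolynomial R) : np k f ∈ Neg k := fun i hi => by
  rw [coeff_np, if_pos hi]

end general

/-! ### Integrality -/

/-- the inclusion of integral Laurent polynomials -/
noncomputable def toF : A →+* F := AddMonoidAlgebra.mapRingHom ℤ (Int.castRingHom ℚ)

theorem coeff_toF (f : A) (i : ℤ) : (toF f).coeff i = f.coeff i := by
  simp [toF]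

theorem toF_injective : Function.Injective toF := by
  intro f g h
  apply LaurentPolynomial.ext
  intro i
  have := congrArg (fun f : F => f.coeff i) h
  simp only [coeff_toF] at this
  exact_mod_cast this

theorem toF_C (c : ℤ) : toF (C c) = C (c : ℚ) := by
  apply LaurentPolynomial.ext
  intro i
  rw [coeff_toF, C_apply, C_apply]
  split_ifs <;> simp

theorem toF_T (n : ℤ) : toF (T n) = T n := by
  apply LaurentPolynomial.ext
  intro i
  rw [coeff_toF, T_apply, T_apply]
  split_ifs <;> simp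

/-- the subring of integral elements of `F` -/
noncomputable def AF : Subring F := toF.range

theorem toF_mem (f : A) : toF f ∈ AF := ⟨f, rfl⟩

theorem C_int_mem (c : ℤ) : (C (c : ℚ) : F) ∈ AF := ⟨C c, toF_C c⟩

theorem T_mem (n : ℤ) : (T n : F) ∈ AF := ⟨T n, toF_T n⟩

theorem mem_AF {f : F} : f ∈ AF ↔ ∀ i, ∃ k : ℤ, f.coeff i = k := by
  constructor
  · rintro ⟨g, rfl⟩ i
    exact ⟨g.coeff i, coeff_toF g i⟩
  · intro h
    have : f = ∑ i ∈ f.coeff.support, C (f.coeff i) * T i := by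
      apply LaurentPolynomial.ext
      intro j
      rw [AddMonoidAlgebra.coeff_sum, Finsupp.finsetSum_apply]
      simp only [coeff_C_mul_T]
      rw [Finset.sum_ite_eq]
      split_ifs with h
      · rfl
      · simpa using h
    rw [this]
    refine AF.sum_mem fun i _ => ?_
    obtain ⟨k, hk⟩ := h i
    rw [hk]
    exact AF.mul_mem (C_int_mem k) (T_mem i)

theorem T_mul_mem_AF {n : ℤ} {f : F} : T n * f ∈ AF ↔ f ∈ AF := by
  constructor
  · intro h
    have := AF.mul_mem (T_mem (-n)) h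
    rwa [← mul_assoc, ← T_add, neg_add_cancel, T_zero, one_mul] at this
  · intro h
    exact AF.mul_mem (T_mem n) h

theorem pp_mem_AF {k : ℤ} {f : F} (h : f ∈ AF) : pp k f ∈ AF := by
  rw [mem_AF] at h ⊢
  intro i
  rw [coeff_pp]
  split_ifs
  · exact h i
  · exact ⟨0, by simp⟩

theorem np_mem_AF {k : ℤ} {f : F} (h : f ∈ AF) : np k f ∈ AF := by
  rw [mem_AF] at h ⊢
  intro i
  rw [coeff_np]
  split_ifs
  · exact ⟨0, by simp⟩
  · exact h i

theorem exists_nat_mul_mem (f : F) : ∃ n : ℕ, 0 < n ∧ C (n : ℚ) * f ∈ AF := by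
  refine ⟨∏ i ∈ f.coeff.support, (f.coeff i).den, Finset.prod_pos fun i _ => (f.coeff i).pos, ?_⟩
  rw [mem_AF]
  intro i
  rw [coeff_C_mul]
  by_cases hi : i ∈ f.coeff.support
  · rw [← Finset.mul_prod_erase _ _ hi]
    refine ⟨(f.coeff i).num * ((∏ j ∈ f.coeff.support.erase i, (f.coeff j).den : ℕ) : ℤ), ?_⟩
    push_cast
    have := Rat.mul_den_eq_num (f.coeff i)
    calc _ = (f.coeff i * (f.coeff i).den) * ∏ j ∈ f.coeff.support.erase i, ((f.coeff j).den : ℚ) := by
          ring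
      _ = _ := by rw [this]
  · simp only [Finsupp.mem_support_iff, not_not] at hi
    exact ⟨0, by rw [hi]; simp⟩

/-- reduction modulo `p` -/
noncomputable def red (p : ℕ) : A →+* LaurentPolynomial (ZMod p) :=
  AddMonoidAlgebra.mapRingHom ℤ (Int.castRingHom (ZMod p))

theorem coeff_red (p : ℕ) (f : A) (i : ℤ) : (red p f).coeff i = (f.coeff i : ZMod p) := by
  simp [red]

theorem red_eq_zero {p : ℕ} (hp : p ≠ 0) {f : A} : red p f = 0 ↔ C ((p : ℚ)⁻¹) * toF f ∈ AF := by
  have hp' : (p : ℚ) ≠ 0 := by exact_mod_cast hp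
  constructor
  · intro h
    rw [mem_AF]
    intro i
    have h1 : (red p f).coeff i = 0 := by rw [h]; simp
    rw [coeff_red, ZMod.intCast_zmod_eq_zero_iff_dvd] at h1
    obtain ⟨k, hk⟩ := h1
    refine ⟨k, ?_⟩
    rw [coeff_C_mul, coeff_toF, hk]
    push_cast
    field_simp
  · intro h
    rw [mem_AF] at h
    apply LaurentPolynomial.ext
    intro i
    obtain ⟨k, hk⟩ := h i
    rw [coeff_C_mul, coeff_toF] at hk
    have h1 : f.coeff i = p * k := by
      have : ((f.coeff i : ℤ) : ℚ) = p * k := by rw [← hk]; field_simp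
      exact_mod_cast this
    rw [coeff_red, h1]
    simp

/-- **Gauss's lemma** -/
theorem gauss {p : ℕ} (hp : p.Prime) {f g : F} (hf : f ∈ AF) (hg : g ∈ AF)
    (h : C ((p : ℚ)⁻¹) * (f * g) ∈ AF) : C ((p : ℚ)⁻¹) * f ∈ AF ∨ C ((p : ℚ)⁻¹) * g ∈ AF := by
  have : Fact p.Prime := ⟨hp⟩
  obtain ⟨f, rfl⟩ := hf
  obtain ⟨g, rfl⟩ := hg
  rw [← map_mul, ← red_eq_zero hp.ne_zero, map_mul, mul_eq_zero] at h
  rw [← red_eq_zero hp.ne_zero, ← red_eq_zero hp.ne_zero]
  exact h

/-- if `f` is not integral, some integral multiple `C N * f` is integral and not divisible by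
a prime divisor of `N` -/
theorem exists_prime_of_not_mem {f : F} (hf : f ∉ AF) : ∃ N : ℕ, 0 < N ∧ C (N : ℚ) * f ∈ AF ∧
    ∃ p : ℕ, p.Prime ∧ p ∣ N ∧ C ((p : ℚ)⁻¹) * (C (N : ℚ) * f) ∉ AF := by
  classical
  have hex : ∃ n : ℕ, 0 < n ∧ C (n : ℚ) * f ∈ AF := exists_nat_mul_mem f
  obtain ⟨h1, h2⟩ := Nat.find_spec hex
  set N := Nat.find hex with hN
  have hN1 : N ≠ 1 := by
    intro h
    rw [h] at h2
    apply hf
    simpa using h2
  obtain ⟨p, hp, hpN⟩ := Nat.exists_prime_and_dvd hN1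
  refine ⟨N, h1, h2, p, hp, hpN, fun h3 => ?_⟩
  obtain ⟨k, hk⟩ := hpN
  have hp0 : (p : ℚ) ≠ 0 := by exact_mod_cast hp.ne_zero
  have hk0 : 0 < k := by
    rcases Nat.eq_zero_or_pos k with h | h
    · rw [hk, h] at h1; simp at h1
    · exact h
  have h4 : C (k : ℚ) * f ∈ AF := by
    rw [← mul_assoc, ← C.map_mul, hk] at h3
    convert h3 using 3
    push_cast
    field_simp
  have h5 := Nat.find_min' hex ⟨hk0, h4⟩
  rw [← hN, hk] at h5
  have := hp.two_le
  nlinarith

/-- the coefficient lemma -/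
theorem coeff_int_of_mul {e φ : F} (he : e ∈ AF) (he' : e ∈ Pos 0) (he0 : e.coeff 0 = 1)
    (h : ∀ i < 0, ∃ k : ℤ, (e * φ).coeff i = k) : ∀ i < 0, ∃ k : ℤ, φ.coeff i = k := by
  obtain ⟨k, hk⟩ := exists_mem_Pos φ
  obtain ⟨n, hn⟩ : ∃ n : ℕ, φ ∈ Pos (-(n : ℤ)) := ⟨k.natAbs, Pos_mono (by omega) hk⟩
  clear hk k
  induction n generalizing φ with
  | zero => exact fun i hi => ⟨0, by rw [hn i (by simpa using hi)]; simp⟩
  | succ n ih =>
    set m : ℤ := -((n + 1 : ℕ) : ℤ) with hm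
    obtain ⟨c, hc⟩ : ∃ c : ℤ, φ.coeff m = c := by
      obtain ⟨c, hc⟩ := h m (by omega)
      refine ⟨c, ?_⟩
      have h1 := coeff_mul_bot (f := e) (g := φ) (k := 0) (l := m) he' hn
      rw [zero_add, he0, one_mul] at h1
      rw [← h1, hc]
    have hφ : φ = (φ - C (c : ℚ) * T m) + C (c : ℚ) * T m := by ring
    have ih' := ih (φ := φ - C (c : ℚ) * T m) (by
      intro i hi
      rw [mul_sub, AddMonoidAlgebra.coeff_sub, Finsupp.sub_apply]
      obtain ⟨k, hk⟩ := h i hi
      obtain ⟨l, hl⟩ := mem_AF.1 (AF.mul_mem he (AF.mul_mem (C_int_mem c) (T_mem m))) i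
      exact ⟨k - l, by rw [hk, hl]; push_cast; ring⟩) (by
      intro i hi
      rw [AddMonoidAlgebra.coeff_sub, Finsupp.sub_apply, coeff_C_mul_T]
      split_ifs with h'
      · rw [h', hc, sub_self]
      · rw [hn i (by omega), sub_zero])
    intro i hi
    obtain ⟨k, hk⟩ := ih' i hi
    obtain ⟨l, hl⟩ := mem_AF.1 (AF.mul_mem (C_int_mem c) (T_mem m)) i
    refine ⟨k + l, ?_⟩
    rw [hφ, AddMonoidAlgebra.coeff_add, Finsupp.add_apply, hk, hl]
    push_cast
    ring

/-! ### Ideals -/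

theorem red_eq_zero_iff {p : ℕ} {f : A} : red p f = 0 ↔ ∀ i, (p : ℤ) ∣ f.coeff i := by
  constructor
  · intro h i
    have h1 : (red p f).coeff i = 0 := by rw [h]; simp
    rwa [coeff_red, ZMod.intCast_zmod_eq_zero_iff_dvd] at h1
  · intro h
    apply LaurentPolynomial.ext
    intro i
    rw [coeff_red]
    simpa using (ZMod.intCast_zmod_eq_zero_iff_dvd _ _).2 (h i)

theorem red_eq_zero_iff_exists {p : ℕ} (hp : p ≠ 0) {f : A} :
    red p f = 0 ↔ ∃ g : A, f = C (p : ℤ) * g := by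
  constructor
  · intro h
    obtain ⟨g, hg⟩ := (red_eq_zero hp).1 h
    refine ⟨g, toF_injective ?_⟩
    rw [map_mul, toF_C, hg, ← mul_assoc, ← C.map_mul]
    have : ((p : ℤ) : ℚ) * (p : ℚ)⁻¹ = 1 := by
      have hp' : (p : ℚ) ≠ 0 := by exact_mod_cast hp
      push_cast
      field_simp
    rw [this, C.map_one, one_mul]
  · rintro ⟨g, rfl⟩
    rw [red_eq_zero_iff]
    intro i
    rw [coeff_C_mul]
    exact Dvd.intro _ rfl

theorem pow_mem_Pos {f : A} (hf : f ∈ Pos 0) (k : ℕ) :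
    f ^ k ∈ Pos 0 ∧ (f ^ k).coeff 0 = f.coeff 0 ^ k := by
  induction k with
  | zero =>
    rw [pow_zero, pow_zero, ← T_zero]
    refine ⟨?_, by simp⟩
    have := C_mul_T_mem_Pos (R := ℤ) (k := 0) (n := 0) (c := 1) le_rfl
    rwa [C.map_one, one_mul] at this
  | succ k ih =>
    rw [pow_succ, pow_succ]
    refine ⟨?_, ?_⟩
    · have := mul_mem_Pos ih.1 hf
      rwa [add_zero] at this
    · have := coeff_mul_bot (k := 0) (l := 0) ih.1 hf
      rw [add_zero] at this
      rw [this, ih.2]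

/-- an ideal of `ℤ[x, x⁻¹]` which contains a nonzero integer and is not contained in `p ℤ[x, x⁻¹]`
for any prime `p` contains a polynomial with constant term `1` -/
theorem exists_const_one (I : Ideal A) (hn : ∃ n : ℤ, n ≠ 0 ∧ C n ∈ I)
    (hI : ∀ p : ℕ, p.Prime → ∃ b ∈ I, red p b ≠ 0) : ∃ e ∈ I, e ∈ Pos 0 ∧ e.coeff 0 = 1 := by
  obtain ⟨n, hn0, hnI⟩ := hn
  let S : AddSubgroup ℤ :=
    { carrier := {c | ∃ e ∈ I, e ∈ Pos 0 ∧ e.coeff 0 = c}
      zero_mem' := ⟨0, I.zero_mem, AddSubgroup.zero_mem _, by simp⟩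
      add_mem' := by
        rintro _ _ ⟨e, he, he', rfl⟩ ⟨f, hf, hf', rfl⟩
        exact ⟨e + f, I.add_mem he hf, AddSubgroup.add_mem _ he' hf', by simp⟩
      neg_mem' := by
        rintro _ ⟨e, he, he', rfl⟩
        exact ⟨-e, I.neg_mem he, AddSubgroup.neg_mem _ he', by simp⟩ }
  have hS : ∀ c, c ∈ S ↔ ∃ e ∈ I, e ∈ Pos 0 ∧ e.coeff 0 = c := fun _ => Iff.rfl
  obtain ⟨d, hd⟩ := Int.subgroup_cyclic S
  rw [← AddSubgroup.zmultiples_eq_closure] at hd
  have hdvd : ∀ c, c ∈ S → d ∣ c := by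
    intro c hc
    rw [hd, AddSubgroup.mem_zmultiples_iff] at hc
    obtain ⟨k, hk⟩ := hc
    exact ⟨k, by rw [← hk]; simp [mul_comm]⟩
  have hnS : n ∈ S := by
    refine (hS _).2 ⟨C n, hnI, ?_, by rw [C_apply, if_pos rfl]⟩
    have := C_mul_T_mem_Pos (R := ℤ) (k := 0) (n := 0) (c := n) le_rfl
    rwa [T_zero, mul_one] at this
  have hd0 : d ≠ 0 := by
    rintro rfl
    exact hn0 (zero_dvd_iff.1 (hdvd n hnS))
  by_cases hd1 : d.natAbs = 1
  · have hdS : d ∈ S := by rw [hd]; exact AddSubgroup.mem_zmultiples d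
    have : (1 : ℤ) ∈ S := by
      rcases Int.natAbs_eq d with h | h
      · rw [hd1] at h; rw [h] at hdS; simpa using hdS
      · rw [hd1] at h; rw [h] at hdS; simpa using S.neg_mem hdS
    exact (hS _).1 this
  · exfalso
    obtain ⟨p, hp, hpd⟩ := Nat.exists_prime_and_dvd hd1
    have hpd' : (p : ℤ) ∣ d := Int.natCast_dvd.2 hpd
    have hpp : Prime (p : ℤ) := Nat.prime_iff_prime_int.1 hp
    obtain ⟨b, hb, hbp⟩ := hI p hp
    -- the first coefficient which is not divisible by `p`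
    obtain ⟨r, hr, hrmin⟩ : ∃ r : ℤ, ¬ (p : ℤ) ∣ b.coeff r ∧ ∀ i < r, (p : ℤ) ∣ b.coeff i := by
      rw [Ne, red_eq_zero_iff] at hbp
      push Not at hbp
      obtain ⟨l, hl⟩ := exists_mem_Pos b
      obtain ⟨i, hi⟩ := hbp
      obtain ⟨m, hm, hm'⟩ := Int.exists_least_of_bdd (P := fun i => ¬ (p : ℤ) ∣ b.coeff i)
        ⟨l, fun z hz => by
          by_contra h
          exact hz (by rw [hl z (by omega)]; exact dvd_zero _)⟩ ⟨i, hi⟩
      refine ⟨m, hm, fun i hi => ?_⟩
      by_contra h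
      exact absurd (hm' i h) (by omega)
    obtain ⟨g, hg⟩ : ∃ g : A, np r b = C (p : ℤ) * g := by
      rw [← red_eq_zero_iff_exists hp.ne_zero, red_eq_zero_iff]
      intro i
      rw [coeff_np]
      split_ifs with h
      · exact dvd_zero _
      · exact hrmin i (by omega)
    set b' := T (-r) * pp r b with hb'
    have hb'1 : b' ∈ Pos 0 := by
      rw [hb', T_mul_mem_Pos]
      simpa using pp_mem r b
    have hb'2 : b'.coeff 0 = b.coeff r := by
      rw [hb', coeff_T_mul, coeff_pp]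
      simp
    have hpb : pp r b = T r * b' := by
      rw [hb', ← mul_assoc, ← T_add, add_neg_cancel, T_zero, one_mul]
    obtain ⟨k, m, hm, hnm⟩ : ∃ (k : ℕ) (m : ℤ), ¬ (p : ℤ) ∣ m ∧ n = (p : ℤ) ^ k * m := by
      have hf : FiniteMultiplicity (p : ℤ) n :=
        Int.finiteMultiplicity_iff.2 ⟨by rw [Int.natAbs_natCast]; exact hp.one_lt.ne', hn0⟩
      obtain ⟨m, hm, hm'⟩ := hf.exists_eq_pow_mul_and_not_dvd
      exact ⟨_, m, hm', hm⟩
    have h1 : C m * (pp r b) ^ k ∈ I := by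
      have e1 : pp r b = b - C (p : ℤ) * g := by
        rw [← hg, eq_sub_iff_add_eq]
        exact (pp_add_np r b).symm
      obtain ⟨c, hc⟩ := sub_dvd_pow_sub_pow (b - C (p : ℤ) * g) (- (C (p : ℤ) * g)) k
      have e2 : C m * (b - C (p : ℤ) * g) ^ k = b * (C m * c) + C n * ((-1) ^ k * g ^ k) := by
        have : (b - C (p : ℤ) * g) ^ k = (b - C (p : ℤ) * g - -(C (p : ℤ) * g)) * c
            + (- (C (p : ℤ) * g)) ^ k := by rw [← hc]; ring
        rw [this, hnm, C.map_mul, map_pow, neg_pow, mul_pow]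
        ring
      rw [e1, e2]
      exact I.add_mem (I.mul_mem_right _ hb) (I.mul_mem_right _ hnI)
    have h2 : C m * b' ^ k ∈ I := by
      rw [hpb, mul_pow] at h1
      have h3 := I.mul_mem_left (T (-r) ^ k) h1
      have e3 : (T (-r) ^ k * (C m * (T r ^ k * b' ^ k)) : A) = C m * b' ^ k := by
        have : (T (-r) * T r : A) = 1 := by rw [← T_add, neg_add_cancel, T_zero]
        calc (T (-r) ^ k * (C m * (T r ^ k * b' ^ k)) : A)
            = (T (-r) * T r) ^ k * (C m * b' ^ k) := by rw [mul_pow]; ring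
          _ = _ := by rw [this, one_pow, one_mul]
      rwa [e3] at h3
    have h3 := hdvd _ ((hS _).2 ⟨C m * b' ^ k, h2, C_mul_mem_Pos (pow_mem_Pos hb'1 k).1, rfl⟩)
    rw [coeff_C_mul, (pow_mem_Pos hb'1 k).2, hb'2] at h3
    rcases hpp.dvd_or_dvd (hpd'.trans h3) with h | h
    · exact hm h
    · exact hr (hpp.dvd_of_dvd_pow h)

/-- the same statement at infinity -/
theorem exists_const_one' (I : Ideal A) (hn : ∃ n : ℤ, n ≠ 0 ∧ C n ∈ I)
    (hI : ∀ p : ℕ, p.Prime → ∃ b ∈ I, red p b ≠ 0) : ∃ e ∈ I, e ∈ Neg 1 ∧ e.coeff 0 = 1 := by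
  obtain ⟨e, he, he', he0⟩ := exists_const_one (I.comap (invert (R := ℤ)).toRingHom) (by
      obtain ⟨n, hn0, hn⟩ := hn
      exact ⟨n, hn0, by rw [Ideal.mem_comap]; simpa using hn⟩) (by
      intro p hp
      obtain ⟨b, hb, hbp⟩ := hI p hp
      refine ⟨invert b, ?_, ?_⟩
      · rw [Ideal.mem_comap]
        show invert (invert b) ∈ I
        rwa [involutive_invert b]
      · rw [Ne, red_eq_zero_iff] at hbp ⊢
        intro h
        apply hbp
        intro i
        have := h (-i)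
        rwa [invert_apply, neg_neg] at this)
  refine ⟨invert e, he, ?_, ?_⟩
  · intro i hi
    rw [invert_apply]
    exact he' _ (by omega)
  · rw [invert_apply, neg_zero]
    exact he0

end Pool.Agent.W411.LP
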