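import Pool.Agent.W411.LP.NF

/-!
# Indices along lines
-/

set_option autoImplicit false

namespace Pool.Agent.W411.LP

open LaurentPolynomial AddSubgroup

theorem C_smul_eq_zero {r : ℚ} {w : W} (h : (C r : F) • w = 0) : r = 0 ∨ w = 0 := by
  by_cases hr : r = 0
  · exact Or.inl hr
  · right
    have : (C r⁻¹ : F) • ((C r : F) • w) = 0 := by rw [h, smul_zero]
    rwa [smul_smul, ← C.map_mul, inv_mul_cancel₀ hr, C.map_one, one_smul] at this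

theorem C_smul_cancel {r : ℚ} (hr : r ≠ 0) (w : W) : (C r⁻¹ : F) • ((C r : F) • w) = w := by
  rw [smul_smul, ← C.map_mul, inv_mul_cancel₀ hr, C.map_one, one_smul]

theorem ln_smul {r : ℚ} (hr : r ≠ 0) (w : W) : ln ((C r : F) • w) = ln w := by
  ext m
  rw [mem_ln, mem_ln]
  constructor
  · rintro ⟨s, rfl⟩
    exact ⟨s * r, by rw [smul_smul, ← C.map_mul]⟩
  · rintro ⟨s, rfl⟩
    refine ⟨s * r⁻¹, ?_⟩
    rw [smul_smul, ← C.map_mul]
    congr 2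
    field_simp

/-- index of subgroups of a line -/
theorem line_index {w : W} (hw : w ≠ 0) {X Y : AddSubgroup W}
    (hX : ∀ r : ℚ, (C r : F) • w ∈ X ↔ ∃ k : ℤ, r = k)
    (hYX : ∀ r : ℚ, (C r : F) • w ∈ Y → (C r : F) • w ∈ X)
    (hne : (ln w ⊓ Y).relIndex (ln w ⊓ X) ≠ 0) :
    ∃ c : ℕ, 0 < c ∧ (ln w ⊓ Y).relIndex (ln w ⊓ X) = c ∧
      ∀ r : ℚ, (C r : F) • w ∈ Y ↔ ∃ k : ℤ, r = c * k := by
  let ρ : ℤ →+ W :=
    { toFun := fun k => (C (k : ℚ) : F) • w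
      map_zero' := by simp
      map_add' := fun k l => by rw [Int.cast_add, C.map_add, add_smul] }
  have hρ : ∀ k : ℤ, ρ k = (C (k : ℚ) : F) • w := fun _ => rfl
  have hinj : Function.Injective ρ := by
    rw [injective_iff_map_eq_zero]
    intro k hk
    rcases C_smul_eq_zero hk with h | h
    · exact_mod_cast h
    · exact absurd h hw
  have e1 : ln w ⊓ X = (⊤ : AddSubgroup ℤ).map ρ := by
    ext m
    rw [AddSubgroup.mem_inf, AddSubgroup.mem_map]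
    constructor
    · rintro ⟨⟨r, rfl⟩, hr⟩
      obtain ⟨k, rfl⟩ := (hX r).1 hr
      exact ⟨k, AddSubgroup.mem_top _, rfl⟩
    · rintro ⟨k, _, rfl⟩
      exact ⟨⟨k, rfl⟩, (hX k).2 ⟨k, rfl⟩⟩
  have e2 : ln w ⊓ Y = (Y.comap ρ).map ρ := by
    ext m
    rw [AddSubgroup.mem_inf, AddSubgroup.mem_map]
    constructor
    · rintro ⟨⟨r, rfl⟩, hr⟩
      obtain ⟨k, rfl⟩ := (hX r).1 (hYX r hr)
      exact ⟨k, hr, rfl⟩
    · rintro ⟨k, hk, rfl⟩
      exact ⟨⟨k, rfl⟩, hk⟩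
  rw [e1, e2, relIndex_map_map_of_injective _ _ hinj, relIndex_top_right] at hne ⊢
  obtain ⟨d, hd⟩ := Int.subgroup_cyclic (Y.comap ρ)
  rw [← AddSubgroup.zmultiples_eq_closure, ← Int.zmultiples_natAbs] at hd
  obtain ⟨e, he⟩ : ∃ e : ℕ, e = d.natAbs := ⟨_, rfl⟩
  rw [← he] at hd
  rw [hd, Int.index_zmultiples, Int.natAbs_natCast] at hne ⊢
  refine ⟨e, Nat.pos_of_ne_zero hne, rfl, fun r => ?_⟩
  constructor
  · intro hr
    obtain ⟨k, rfl⟩ := (hX r).1 (hYX r hr)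
    have : k ∈ Y.comap ρ := hr
    rw [hd, AddSubgroup.mem_zmultiples_iff] at this
    obtain ⟨l, hl⟩ := this
    refine ⟨l, ?_⟩
    rw [← hl, smul_eq_mul]
    push_cast
    ring
  · rintro ⟨k, rfl⟩
    have h1 : (e : ℤ) * k ∈ Y.comap ρ := by
      rw [hd, AddSubgroup.mem_zmultiples_iff]
      exact ⟨k, by rw [smul_eq_mul, mul_comm]⟩
    have h2 : ρ ((e : ℤ) * k) ∈ Y := h1
    rw [hρ] at h2
    push_cast at h2
    exact h2

theorem inf_li {v : Vtx} {N : AddSubgroup W} {w : W} (hw : w ∈ v.V) :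
    ln w ⊓ (N ⊔ v.Q) = ln w ⊓ v.li N := by
  rw [Vtx.li, ← inf_assoc, inf_eq_left.2 (Vtx.ln_le hw)]

theorem inf_lz {v : Vtx} {N : AddSubgroup W} {w : W} (hw : w ∈ v.V) :
    ln w ⊓ (N ⊔ sh 1 v.P) = ln w ⊓ v.lz N := by
  rw [Vtx.lz, ← inf_assoc, inf_eq_left.2 (Vtx.ln_le hw)]

namespace Vtx

variable {v : Vtx} {N : AddSubgroup W}

theorem ci_spec (hD : v.D N ≠ 0) {w : W} (hw : w ∈ v.V) (hw0 : w ≠ 0)
    (h : ∀ r : ℚ, (C r : F) • w ∈ v.li N ↔ ∃ k : ℤ, r = k) :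
    ∃ c : ℕ, 0 < c ∧ v.ci N w = c ∧ ∀ r : ℚ, (C r : F) • w ∈ N ↔ ∃ k : ℤ, r = c * k := by
  have hne := ci_ne_zero hw hD
  rw [ci, inf_li hw] at hne ⊢
  exact line_index hw0 h (fun r hr => N_V_le_li ⟨hr, C_smul_mem_V hw r⟩) hne

theorem c0_spec (hN : sh 1 N = N) (hD : v.D N ≠ 0) {w : W} (hw : w ∈ v.V) (hw0 : w ≠ 0)
    (h : ∀ r : ℚ, (C r : F) • w ∈ v.lz N ↔ ∃ k : ℤ, r = k) :
    ∃ c : ℕ, 0 < c ∧ v.c0 N w = c ∧ ∀ r : ℚ, (C r : F) • w ∈ N ↔ ∃ k : ℤ, r = c * k := by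
  have hne := c0_ne_zero hN hw hD
  rw [c0, inf_lz hw] at hne ⊢
  exact line_index hw0 h (fun r hr => N_V_le_lz ⟨hr, C_smul_mem_V hw r⟩) hne

/-- the general formula for the change of the defect in a move -/
theorem D_mv_gen {a b : W} {c : ℚ} {k : ℤ} (h : IsFrame a b c k v.P v.Q) (hD : v.D N ≠ 0)
    {x y x' y' : ℚ × ℚ} (hxy : dt x y ≠ 0)
    (hx' : ∃ r : ℚ, r ≠ 0 ∧ x' = r • x) (hy' : ∃ r : ℚ, r ≠ 0 ∧ y' = r • y)
    (hx : ∀ r : ℚ, r • x' ∈ (v.li N).comap (phi a b) ↔ ∃ k : ℤ, r = k)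
    (hy : ∀ r : ℚ, r • y' ∈ (v.lz N).comap (phi a b) ↔ ∃ k : ℤ, r = k)
    (hle : (v.lz N).comap (phi a b) ≤ L0)
    (h1 : phi a b x ∈ v.V) (h2 : phi a b y ∈ v.V) (h3 : det (phi a b x) (phi a b y) ≠ 0) :
    ((v.mv (phi a b x) (phi a b y) h1 h2 h3).D N : ℚ) *
      (((v.lz N).comap (phi a b)).relIndex L0 : ℚ) = v.D N * |dt x' y'| := by
  obtain ⟨r, hr, rfl⟩ := hx'
  obtain ⟨s, hs, rfl⟩ := hy'
  have hx0 : x ≠ 0 := (ne_zero_of_dt hxy).1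
  have hrx0 : phi a b (r • x) ≠ 0 := by
    intro h0
    have := h.phi_injective (h0.trans (map_zero _).symm)
    exact smul_ne_zero hr hx0 this
  have hrxV : phi a b (r • x) ∈ v.V := h.phi_mem _
  obtain ⟨c', hc'0, hc', hc'N⟩ := ci_spec hD hrxV hrx0 (fun t => by
    rw [← phi_smul]; exact hx t)
  have hcD : v.D N = J N v.P (v.Q ⊔ ln (phi a b x)) * c' := by
    have e : v.ci N (phi a b (r • x)) = v.ci N (phi a b x) := by
      rw [ci, ci, phi_smul, ln_smul hr]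
    rw [D_inf N h1, ← hc', e]
  have hgD := D_mv h1 h2 h3 N
  -- the subgroup in the index
  set X : ℚ × ℚ := (c' : ℚ) • r • x with hX
  have hlt : ((v.lz N ⊓ ln (phi a b y)) ⊔ (N ⊓ ln (phi a b x))).comap (phi a b) =
      lt (s • y) X := by
    ext z
    rw [AddSubgroup.mem_comap, mem_lt]
    constructor
    · intro hz
      obtain ⟨z1, ⟨hz1, ⟨t1, ht1⟩⟩, z2, ⟨hz2, ⟨t2, ht2⟩⟩, hz12⟩ := AddSubgroup.mem_sup.1 hz
      subst ht1 ht2
      have e1 : (C t1 : F) • phi a b y = phi a b ((t1 / s) • (s • y)) := by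
        rw [← phi_smul, smul_smul, div_mul_cancel₀ _ hs]
      have e2 : (C t2 : F) • phi a b x = (C (t2 / r) : F) • phi a b (r • x) := by
        rw [phi_smul, smul_smul, ← C.map_mul, div_mul_cancel₀ _ hr]
      rw [e1] at hz1
      rw [e2] at hz2
      obtain ⟨i, hi⟩ := (hy (t1 / s)).1 hz1
      obtain ⟨j, hj⟩ := (hc'N (t2 / r)).1 hz2
      refine ⟨i, j, h.phi_injective ?_⟩
      rw [← hz12, map_add, e1, e2, hi, hj, ← phi_smul, hX, smul_smul (j : ℚ), mul_comm (c' : ℚ)]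
    · rintro ⟨i, j, rfl⟩
      rw [map_add]
      refine AddSubgroup.add_mem _ (AddSubgroup.mem_sup_left ⟨(hy i).2 ⟨i, rfl⟩, ?_⟩)
        (AddSubgroup.mem_sup_right ⟨?_, ?_⟩)
      · exact ⟨i * s, by rw [smul_smul, phi_smul]⟩
      · rw [hX, smul_smul, phi_smul]
        exact (hc'N _).2 ⟨j, by ring⟩
      · exact ⟨j * c' * r, by rw [hX, smul_smul, smul_smul, phi_smul]⟩
  have hX0 : dt (s • y) X ≠ 0 := by
    rw [hX, dt_smul_left, dt_smul_right, dt_smul_right, dt_swap y x]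
    have : (c' : ℚ) ≠ 0 := by positivity
    exact mul_ne_zero hs (mul_ne_zero this (mul_ne_zero hr (neg_ne_zero.2 hxy)))
  have hXm : X ∈ (v.lz N).comap (phi a b) := by
    rw [AddSubgroup.mem_comap, hX, phi_smul]
    exact N_V_le_lz ⟨(hc'N _).2 ⟨1, by simp⟩, C_smul_mem_V hrxV _⟩
  have hym : s • y ∈ (v.lz N).comap (phi a b) := by
    have := (hy 1).2 ⟨1, by simp⟩
    rwa [one_smul] at this
  have hgg : (v.gg N (phi a b x) (phi a b y) : ℚ) *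
      (((v.lz N).comap (phi a b)).relIndex L0 : ℚ) = |dt (s • y) X| := by
    have hs1 : v.lz N ⊓ ln (phi a b y) ⊔ N ⊓ ln (phi a b x) ≤ v.P ⊓ sh 1 v.Q :=
      sup_le (inf_le_left.trans inf_le_left) (inf_le_right.trans (ln_le h1))
    have hs2 : v.lz N ≤ v.P ⊓ sh 1 v.Q := inf_le_left
    rw [← relIndex_L0 hX0 (hle hym) (hle hXm), gg, ← h.relIndex_comap hs1 hs2, hlt,
      ← relIndex_mul_relIndex _ _ _ (lt_le hym hXm) hle]
    push_cast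
    rfl
  have hfin : |dt (s • y) X| = c' * |dt (r • x) (s • y)| := by
    rw [hX, dt_smul_right (c' : ℚ), abs_mul, Nat.abs_cast, dt_swap, abs_neg]
  rw [hgD, hcD]
  push_cast
  rw [mul_assoc, hgg, hfin]
  ring

end Vtx

end Pool.Agent.W411.LP
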