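import Pool.Agent.W411.LP.Vtx

/-!
# Moves between vertices and index formulas
-/

set_option autoImplicit false

namespace Pool.Agent.W411.LP

open LaurentPolynomial AddSubgroup

/-- a vertex -/
structure Vtx where
  P : AddSubgroup W
  Q : AddSubgroup W
  ex : ∃ a b c k, IsFrame a b c k P Q

namespace Vtx

variable (v : Vtx)

/-- the plane of a vertex -/
noncomputable def V : AddSubgroup W := v.P ⊓ sh 1 v.Q

/-- the lattice at `0` -/
noncomputable def lz (N : AddSubgroup W) : AddSubgroup W := v.V ⊓ (N ⊔ sh 1 v.P)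

/-- the lattice at infinity -/
noncomputable def li (N : AddSubgroup W) : AddSubgroup W := v.V ⊓ (N ⊔ v.Q)

/-- the defect -/
noncomputable def D (N : AddSubgroup W) : ℕ := J N v.P v.Q

noncomputable def ci (N : AddSubgroup W) (w : W) : ℕ := (ln w ⊓ N).relIndex (ln w ⊓ (N ⊔ v.Q))

noncomputable def c0 (N : AddSubgroup W) (y : W) : ℕ := (ln y ⊓ N).relIndex (ln y ⊓ (N ⊔ sh 1 v.P))

variable {v}

theorem C_smul_mem_V {w : W} (hw : w ∈ v.V) (r : ℚ) : (C r : F) • w ∈ v.V := by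
  obtain ⟨a, b, c, k, h⟩ := v.ex
  obtain ⟨s, t, rfl⟩ := h.mem_V.1 hw
  refine h.mem_V.2 ⟨r * s, r * t, ?_⟩
  rw [smul_add, smul_smul, smul_smul, C.map_mul, C.map_mul]

theorem ln_le {w : W} (hw : w ∈ v.V) : ln w ≤ v.V := by
  rintro _ ⟨r, rfl⟩
  exact C_smul_mem_V hw r

theorem V_le_P : v.V ≤ v.P := inf_le_left

theorem V_le_Q : v.V ≤ sh 1 v.Q := inf_le_right

theorem shP_le : sh 1 v.P ≤ v.P := by
  obtain ⟨a, b, c, k, h⟩ := v.ex
  exact h.sh_P_le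

theorem Q_le : v.Q ≤ sh 1 v.Q := by
  obtain ⟨a, b, c, k, h⟩ := v.ex
  exact h.le_sh_Q

theorem P_inf_Q : v.P ⊓ v.Q = ⊥ := by
  obtain ⟨a, b, c, k, h⟩ := v.ex
  rw [eq_bot_iff]
  intro m hm
  exact h.disj hm.1 hm.2

theorem V_inf_Q : v.V ⊓ v.Q = ⊥ := by
  rw [eq_bot_iff, ← v.P_inf_Q]
  exact inf_le_inf_right _ V_le_P

theorem V_inf_P : v.V ⊓ sh 1 v.P = ⊥ := by
  obtain ⟨a, b, c, k, h⟩ := v.ex
  rw [eq_bot_iff]
  intro m hm
  exact h.sh_P_disj hm.2 (V_le_Q hm.1)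

theorem V_sup_P : v.V ⊔ sh 1 v.P = v.P := by
  apply le_antisymm (sup_le V_le_P shP_le)
  obtain ⟨a, b, c, k, h⟩ := v.ex
  intro m hm
  obtain ⟨r, s, hrs⟩ := h.exists_sub_mem_P hm
  exact AddSubgroup.mem_sup.2 ⟨_, h.comb_mem r s, _, hrs, by abel⟩

theorem V_sup_Q : v.V ⊔ v.Q = sh 1 v.Q := by
  apply le_antisymm (sup_le V_le_Q Q_le)
  obtain ⟨a, b, c, k, h⟩ := v.ex
  intro m hm
  obtain ⟨r, s, hrs⟩ := h.exists_sub_mem_Q hm
  exact AddSubgroup.mem_sup.2 ⟨_, h.comb_mem r s, _, hrs, by abel⟩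

theorem V_eq {w y : W} (hw : w ∈ v.V) (hy : y ∈ v.V) (hwy : det w y ≠ 0) : v.V = ln w ⊔ ln y := by
  apply le_antisymm _ (sup_le (ln_le hw) (ln_le hy))
  obtain ⟨a, b, c, k, h⟩ := v.ex
  obtain ⟨c', h'⟩ := h.of_mem hw hy hwy
  intro m hm
  obtain ⟨r, s, rfl⟩ := h'.mem_V.1 hm
  exact AddSubgroup.mem_sup.2 ⟨_, ⟨r, rfl⟩, _, ⟨s, rfl⟩, rfl⟩

theorem move_frame {w y : W} {c : ℚ} {k : ℤ} {P Q : AddSubgroup W} (h : IsFrame w y c k P Q) :
    IsFrame ((T 1 : F) • w) y c (k + 1) (ln y ⊔ sh 1 P) (Q ⊔ ln w) where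
  hc := h.hc
  hdet := by
    rw [det_smul_left, h.hdet, T_add]
    ring
  hP m := by
    rw [det_smul_left, T_mul_mem_Pos, add_sub_cancel_right, AddSubgroup.mem_sup]
    constructor
    · rintro ⟨_, ⟨r, rfl⟩, p, hp, rfl⟩
      rw [h.mem_sh_P] at hp
      rw [det_add_right, det_add_right, det_smul_right, det_smul_right, det_self, mul_zero,
        zero_add, h.hdet, ← mul_assoc, ← C.map_mul]
      exact ⟨(Pos k).add_mem (C_mul_T_mem_Pos le_rfl) (Pos_mono (by omega) hp.1), hp.2⟩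
    · rintro ⟨h1, h2⟩
      have hm : m ∈ P := (h.hP m).2 ⟨h1, Pos_mono (by omega) h2⟩
      obtain ⟨r, s, hrs⟩ := h.exists_sub_mem_P hm
      have h3 := (h.mem_sh_P.1 hrs).2
      rw [det_sub_right, (h.det_comb r s).2] at h3
      have h4 := (Pos (k + 1)).sub_mem h2 h3
      rw [sub_sub_cancel] at h4
      have h5 := h4 k (by omega)
      rw [coeff_C_mul_T, if_pos rfl, neg_eq_zero] at h5
      have hr : r = 0 := (mul_eq_zero.1 h5).resolve_right h.hc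
      subst hr
      exact ⟨_, ⟨s, rfl⟩, _, hrs, by simp⟩
  hQ m := by
    rw [det_smul_left, T_mul_mem_Neg, add_sub_cancel_right, AddSubgroup.mem_sup]
    constructor
    · rintro ⟨q, hq, _, ⟨r, rfl⟩, rfl⟩
      rw [h.hQ] at hq
      rw [det_add_right, det_add_right, det_smul_right, det_smul_right, det_self, mul_zero,
        add_zero, det_swap y w, h.hdet]
      refine ⟨hq.1, (Neg (k + 1)).add_mem (Neg_mono (by omega) hq.2) (C_mul_mem_Neg
        ((Neg (k + 1)).neg_mem (C_mul_T_mem_Neg (by omega))))⟩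
    · rintro ⟨h1, h2⟩
      have hm : m ∈ sh 1 Q := h.mem_sh_Q.2 ⟨Neg_mono (by omega) h1, h2⟩
      obtain ⟨r, s, hrs⟩ := h.exists_sub_mem_Q hm
      have h3 := ((h.hQ _).1 hrs).1
      rw [det_sub_right, (h.det_comb r s).1] at h3
      have h4 := (Neg k).sub_mem h1 h3
      rw [sub_sub_cancel] at h4
      have h5 := h4 k le_rfl
      rw [coeff_C_mul_T, if_pos rfl] at h5
      have hs : s = 0 := (mul_eq_zero.1 h5).resolve_right h.hc
      subst hs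
      exact ⟨_, hrs, _, ⟨r, rfl⟩, by simp⟩

variable (v)

/-- the move at two independent vectors of `V` -/
noncomputable def mv (w y : W) (hw : w ∈ v.V) (hy : y ∈ v.V) (hwy : det w y ≠ 0) : Vtx where
  P := ln y ⊔ sh 1 v.P
  Q := v.Q ⊔ ln w
  ex := by
    obtain ⟨a, b, c, k, h⟩ := v.ex
    obtain ⟨c', h'⟩ := h.of_mem hw hy hwy
    exact ⟨_, _, _, _, move_frame h'⟩

variable {v}

section mv

variable {w y : W} (hw : w ∈ v.V) (hy : y ∈ v.V) (hwy : det w y ≠ 0)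

theorem mv_P : (v.mv w y hw hy hwy).P = ln y ⊔ sh 1 v.P := rfl

theorem mv_Q : (v.mv w y hw hy hwy).Q = v.Q ⊔ ln w := rfl

theorem Tw_mem_mv : (T 1 : F) • w ∈ (v.mv w y hw hy hwy).V := by
  refine ⟨?_, ?_⟩
  · exact AddSubgroup.mem_sup_right (T_smul_mem_sh.2 (V_le_P hw))
  · exact T_smul_mem_sh.2 (AddSubgroup.mem_sup_right (self_mem_ln w))

theorem y_mem_mv : y ∈ (v.mv w y hw hy hwy).V := by
  refine ⟨AddSubgroup.mem_sup_left (self_mem_ln y), ?_⟩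
  exact sh_mono 1 (le_sup_left : v.Q ≤ v.Q ⊔ ln w) (V_le_Q hy)

end mv

section index

variable {N : AddSubgroup W}

theorem D_inf (N : AddSubgroup W) {w : W} (hw : w ∈ v.V) :
    v.D N = J N v.P (v.Q ⊔ ln w) * v.ci N w := by
  have e1 : (v.Q ⊔ ln w) ⊓ v.P = ln w := by
    rw [sup_comm, sup_inf_assoc_of_le _ ((ln_le hw).trans V_le_P), inf_comm v.Q, P_inf_Q,
      sup_bot_eq]
  have e2 : ln w ⊓ v.Q = ⊥ := by
    rw [eq_bot_iff, ← v.V_inf_Q]
    exact inf_le_inf_right _ (ln_le hw)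
  rw [D, J_step' N (le_sup_left : v.Q ≤ v.Q ⊔ ln w), e1, ci, sup_comm (N ⊓ v.Q), sup_comm v.Q,
    relIndex_tri N (ln w) v.Q, e2, sup_bot_eq]

theorem D_sh (hN : sh 1 N = N) : J N (sh 1 v.P) (sh 1 v.Q) = v.D N := by
  conv_lhs => rw [← hN]
  rw [J_sh, D]

theorem D_zero (hN : sh 1 N = N) {y : W} (hy : y ∈ v.V) :
    v.D N = J N (sh 1 v.P ⊔ ln y) (sh 1 v.Q) * v.c0 N y := by
  have e1 : (sh 1 v.P ⊔ ln y) ⊓ sh 1 v.Q = ln y := by
    rw [sup_comm, sup_inf_assoc_of_le _ ((ln_le hy).trans V_le_Q), ← sh_inf, P_inf_Q]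
    simp [sh]
  have e2 : ln y ⊓ sh 1 v.P = ⊥ := by
    rw [eq_bot_iff, ← v.V_inf_P]
    exact inf_le_inf_right _ (ln_le hy)
  rw [← D_sh hN, J_step N (le_sup_left : sh 1 v.P ≤ sh 1 v.P ⊔ ln y), e1, c0,
    sup_comm (N ⊓ sh 1 v.P), sup_comm (sh 1 v.P), relIndex_tri N (ln y) (sh 1 v.P), e2,
    sup_bot_eq]

variable {w y : W} (hw : w ∈ v.V) (hy : y ∈ v.V) (hwy : det w y ≠ 0)

theorem D_mv_zero (hN : sh 1 N = N) : (v.mv w y hw hy hwy).D N =
    J N v.P (v.Q ⊔ ln w) * (v.mv w y hw hy hwy).c0 N ((T 1 : F) • w) := by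
  rw [D_zero hN (Tw_mem_mv hw hy hwy)]
  congr 1
  rw [mv_P, mv_Q, ← sh_ln, ← sh_sup]
  have e1 : ln y ⊔ sh 1 v.P ⊔ ln w = v.P := by
    rw [sup_comm, ← sup_assoc, ← V_eq hw hy hwy, V_sup_P]
  rw [e1]
  conv_lhs => rw [← hN]
  rw [J_sh]

theorem D_mv_inf (N : AddSubgroup W) : (v.mv w y hw hy hwy).D N =
    J N (sh 1 v.P ⊔ ln y) (sh 1 v.Q) * (v.mv w y hw hy hwy).ci N y := by
  rw [D_inf N (y_mem_mv hw hy hwy), mv_P, mv_Q, sup_comm (ln y)]
  congr 2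
  rw [sup_assoc, ← V_eq hw hy hwy, sup_comm, V_sup_Q]

/-- first transfer formula -/
theorem transfer_w (hN : sh 1 N = N) : (v.mv w y hw hy hwy).D N * v.ci N w =
    v.D N * (v.mv w y hw hy hwy).c0 N ((T 1 : F) • w) := by
  rw [D_mv_zero hw hy hwy hN, D_inf N hw]
  ring

/-- second transfer formula -/
theorem transfer_y (hN : sh 1 N = N) : (v.mv w y hw hy hwy).D N * v.c0 N y =
    v.D N * (v.mv w y hw hy hwy).ci N y := by
  rw [D_mv_inf hw hy hwy N, D_zero hN hy]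
  ring

/-- the step from `P` to the new `P` -/
noncomputable def gg (v : Vtx) (N : AddSubgroup W) (w y : W) : ℕ :=
  ((v.lz N ⊓ ln y) ⊔ (N ⊓ ln w)).relIndex (v.lz N)

include hw hy in
theorem relIndex_gg : ((N ⊓ (ln y ⊔ sh 1 v.P)) ⊔ (N ⊓ ln w)).relIndex (N ⊓ v.P) = v.gg N w y := by
  have hA : (N ⊓ (ln y ⊔ sh 1 v.P)) ⊔ (N ⊓ ln w) ≤ N ⊓ v.P :=
    sup_le (inf_le_inf_left _ (sup_le ((ln_le hy).trans V_le_P) shP_le))
      (inf_le_inf_left _ ((ln_le hw).trans V_le_P))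
  have hB : (v.lz N ⊓ ln y) ⊔ (N ⊓ ln w) ≤ v.lz N :=
    sup_le inf_le_left (le_inf (inf_le_right.trans (ln_le hw)) (inf_le_left.trans le_sup_left))
  have kA := relIndex_sup_eq (Z := sh 1 v.P) hA (by
    refine le_trans ?_ (le_sup_left : (N ⊓ (ln y ⊔ sh 1 v.P)) ≤ _)
    exact le_inf (inf_le_left.trans inf_le_left) (inf_le_right.trans le_sup_right))
  have kB := relIndex_sup_eq (Z := sh 1 v.P) hB (by
    refine le_trans ?_ bot_le
    rw [← v.V_inf_P]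
    exact inf_le_inf_right _ inf_le_left)
  rw [gg, ← kA, ← kB]
  · -- the two pairs agree
    have e1 : N ⊓ v.P ⊔ sh 1 v.P = v.lz N ⊔ sh 1 v.P := by
      apply le_antisymm
      · refine sup_le ?_ le_sup_right
        intro m hm
        obtain ⟨hmN, hmP⟩ := hm
        rw [SetLike.mem_coe, ← V_sup_P] at hmP
        obtain ⟨x, hx, z, hz, rfl⟩ := AddSubgroup.mem_sup.1 hmP
        refine AddSubgroup.mem_sup.2 ⟨x, ⟨hx, ?_⟩, z, hz, rfl⟩
        exact AddSubgroup.mem_sup.2 ⟨x + z, hmN, -z, neg_mem hz, by abel⟩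
      · refine sup_le ?_ le_sup_right
        rintro m ⟨hmV, hm⟩
        obtain ⟨n, hn, z, hz, rfl⟩ := AddSubgroup.mem_sup.1 hm
        refine AddSubgroup.mem_sup.2 ⟨n, ⟨hn, ?_⟩, z, hz, rfl⟩
        have : n = (n + z) - z := by abel
        rw [SetLike.mem_coe, this]
        exact v.P.sub_mem (V_le_P hmV) (shP_le hz)
    have e2 : (N ⊓ (ln y ⊔ sh 1 v.P)) ⊔ (N ⊓ ln w) ⊔ sh 1 v.P =
        (v.lz N ⊓ ln y) ⊔ (N ⊓ ln w) ⊔ sh 1 v.P := by
      apply le_antisymm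
      · refine sup_le (sup_le ?_ ?_) le_sup_right
        · rintro m ⟨hmN, hm⟩
          obtain ⟨x, hx, z, hz, rfl⟩ := AddSubgroup.mem_sup.1 hm
          refine AddSubgroup.mem_sup.2 ⟨x, AddSubgroup.mem_sup_left ⟨⟨ln_le hy hx, ?_⟩, hx⟩,
            z, hz, rfl⟩
          exact AddSubgroup.mem_sup.2 ⟨x + z, hmN, -z, neg_mem hz, by abel⟩
        · exact le_sup_of_le_left le_sup_right
      · refine sup_le (sup_le ?_ ?_) le_sup_right
        · rintro m ⟨⟨hmV, hm⟩, hmy⟩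
          obtain ⟨n, hn, z, hz, rfl⟩ := AddSubgroup.mem_sup.1 hm
          refine AddSubgroup.mem_sup.2 ⟨n, AddSubgroup.mem_sup_left ⟨hn, ?_⟩, z, hz, rfl⟩
          exact AddSubgroup.mem_sup.2 ⟨n + z, hmy, -z, neg_mem hz, by abel⟩
        · exact le_sup_of_le_left le_sup_right
    rw [e1, e2]

/-- the change of the defect in a move -/
theorem D_mv (N : AddSubgroup W) :
    (v.mv w y hw hy hwy).D N = J N v.P (v.Q ⊔ ln w) * v.gg N w y := by
  have e1 : v.P ⊓ (v.Q ⊔ ln w) = ln w := by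
    rw [inf_comm, sup_comm, sup_inf_assoc_of_le _ ((ln_le hw).trans V_le_P), inf_comm v.Q,
      P_inf_Q, sup_bot_eq]
  rw [D, mv_P, mv_Q, J_step N (sup_le ((ln_le hy).trans V_le_P) shP_le :
    ln y ⊔ sh 1 v.P ≤ v.P), e1, relIndex_gg hw hy]

end index

end Vtx

end Pool.Agent.W411.LP
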