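import Pool.Agent.W411.LP.Laur

/-!
# Reduction modulo a prime and polynomials
-/

set_option autoImplicit false

namespace Pool.Agent.W411.LP

open LaurentPolynomial

section

variable {R : Type*} [CommRing R]

theorem toLaurent_coeff (g : Polynomial R) (n : ℕ) :
    (Polynomial.toLaurent g).coeff (n : ℤ) = g.coeff n := by
  rw [coeff_toLaurent]
  exact Finsupp.mapDomain_apply Nat.castEmbedding.injective _ n

theorem toLaurent_mem_Pos (g : Polynomial R) : Polynomial.toLaurent g ∈ Pos 0 := by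
  intro i hi
  rw [coeff_toLaurent]
  apply Finsupp.mapDomain_of_notMem_range
  rintro ⟨n, hn⟩
  have : (n : ℤ) = i := hn
  omega

theorem exists_toLaurent {f : LaurentPolynomial R} (hf : f ∈ Pos 0) :
    ∃ g : Polynomial R, Polynomial.toLaurent g = f := by
  obtain ⟨n, f', hf'⟩ := exists_T_pow f
  have h1 : (Polynomial.X : Polynomial R) ^ n ∣ f' := by
    rw [Polynomial.X_pow_dvd_iff]
    intro d hd
    rw [← toLaurent_coeff, hf', ← T_mul, coeff_T_mul]
    exact hf _ (by omega)
  obtain ⟨g, rfl⟩ := h1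
  refine ⟨g, ?_⟩
  rw [map_mul, Polynomial.toLaurent_X_pow, ← T_mul] at hf'
  have := congrArg (fun z => T (-(n : ℤ)) * z) hf'
  simp only [← mul_assoc, ← T_add, neg_add_cancel, T_zero, one_mul] at this
  exact this

end

theorem red_toLaurent (p : ℕ) (g : Polynomial ℤ) :
    red p (Polynomial.toLaurent g) = Polynomial.toLaurent (g.map (Int.castRingHom (ZMod p))) := by
  apply LaurentPolynomial.ext
  intro i
  rw [coeff_red]
  rcases lt_or_ge i 0 with hi | hi
  · rw [toLaurent_mem_Pos g i hi, toLaurent_mem_Pos _ i hi, Int.cast_zero]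
  · obtain ⟨n, rfl⟩ := Int.eq_ofNat_of_zero_le hi
    have h1 := toLaurent_coeff g n
    have h2 := toLaurent_coeff (g.map (Int.castRingHom (ZMod p))) n
    rw [Polynomial.coeff_map] at h2
    exact (congrArg _ h1).trans h2.symm

open Classical in
/-- reduction of an integral element of `F` -/
noncomputable def redF (p : ℕ) (f : F) : LaurentPolynomial (ZMod p) :=
  red p (Function.invFun toF f)

theorem redF_toF (p : ℕ) (f : A) : redF p (toF f) = red p f := by
  rw [redF, Function.leftInverse_invFun toF_injective f]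

theorem redF_add {p : ℕ} {f g : F} (hf : f ∈ AF) (hg : g ∈ AF) :
    redF p (f + g) = redF p f + redF p g := by
  obtain ⟨f, rfl⟩ := hf
  obtain ⟨g, rfl⟩ := hg
  rw [← map_add, redF_toF, redF_toF, redF_toF, map_add]

theorem redF_sub {p : ℕ} {f g : F} (hf : f ∈ AF) (hg : g ∈ AF) :
    redF p (f - g) = redF p f - redF p g := by
  obtain ⟨f, rfl⟩ := hf
  obtain ⟨g, rfl⟩ := hg
  rw [← map_sub, redF_toF, redF_toF, redF_toF, map_sub]

theorem redF_mul {p : ℕ} {f g : F} (hf : f ∈ AF) (hg : g ∈ AF) :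
    redF p (f * g) = redF p f * redF p g := by
  obtain ⟨f, rfl⟩ := hf
  obtain ⟨g, rfl⟩ := hg
  rw [← map_mul, redF_toF, redF_toF, redF_toF, map_mul]

theorem redF_T {p : ℕ} (n : ℤ) : redF p (T n) = T n := by
  rw [← toF_T, redF_toF]
  apply LaurentPolynomial.ext
  intro i
  rw [coeff_red, T_apply, T_apply]
  split_ifs <;> simp

theorem redF_C {p : ℕ} (n : ℤ) : redF p (C (n : ℚ)) = C (n : ZMod p) := by
  rw [← toF_C, redF_toF]
  apply LaurentPolynomial.ext
  intro i
  rw [coeff_red, C_apply, C_apply]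
  split_ifs <;> simp

theorem redF_eq_zero {p : ℕ} (hp : p ≠ 0) {f : F} (hf : f ∈ AF) :
    redF p f = 0 ↔ C ((p : ℚ)⁻¹) * f ∈ AF := by
  obtain ⟨f, rfl⟩ := hf
  rw [redF_toF, red_eq_zero hp]

theorem redF_mem_Pos {p : ℕ} {f : F} (hf : f ∈ AF) {k : ℤ} (h : f ∈ Pos k) : redF p f ∈ Pos k := by
  obtain ⟨f, rfl⟩ := hf
  intro i hi
  rw [redF_toF, coeff_red]
  have := h i hi
  rw [coeff_toF] at this
  have h2 : f.coeff i = 0 := by exact_mod_cast this
  rw [h2, Int.cast_zero]

/-- lifting a polynomial modulo `p` -/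
theorem exists_lift (p : ℕ) (h : Polynomial (ZMod p)) :
    ∃ f : F, f ∈ AF ∧ f ∈ Pos 0 ∧ redF p f = Polynomial.toLaurent h := by
  obtain ⟨g, rfl⟩ := Polynomial.map_surjective (Int.castRingHom (ZMod p))
    (ZMod.ringHom_surjective _) h
  refine ⟨toF (Polynomial.toLaurent g), toF_mem _, ?_, ?_⟩
  · intro i hi
    rw [coeff_toF, toLaurent_mem_Pos g i hi, Int.cast_zero]
  · rw [redF_toF, red_toLaurent]

end Pool.Agent.W411.LP
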