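import Pool.Agent.W411.LP.Line
import Pool.Agent.W411.LP.RedF

/-!
# The auxiliary module
-/

set_option autoImplicit false

namespace Pool.Agent.W411.LP

open LaurentPolynomial AddSubgroup

/-- the auxiliary module -/
noncomputable def Mp (p : ℕ) (s : W) : AddSubgroup W where
  carrier := {m | m ∈ M ∧ C ((p : ℚ)⁻¹) * det s m ∈ AF}
  zero_mem' := ⟨M.zero_mem, by rw [det_zero_right, mul_zero]; exact AF.zero_mem⟩
  add_mem' := fun h h' => ⟨M.add_mem h.1 h'.1, by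
    rw [det_add_right, mul_add]; exact AF.add_mem h.2 h'.2⟩
  neg_mem' := fun h => ⟨M.neg_mem h.1, by
    rw [det_neg_right, mul_neg]; exact AF.neg_mem h.2⟩

theorem mem_Mp {p : ℕ} {s m : W} : m ∈ Mp p s ↔ m ∈ M ∧ C ((p : ℚ)⁻¹) * det s m ∈ AF := Iff.rfl

theorem Mp_le {p : ℕ} {s : W} : Mp p s ≤ M := fun _ h => h.1

theorem smul_mem_Mp {p : ℕ} {s : W} {f : F} (hf : f ∈ AF) {m : W} (hm : m ∈ Mp p s) :
    f • m ∈ Mp p s := by
  refine ⟨smul_mem_M hf hm.1, ?_⟩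
  rw [det_smul_right, mul_left_comm]
  exact AF.mul_mem hf hm.2

theorem sh_Mp {p : ℕ} {s : W} (i : ℤ) : sh i (Mp p s) = Mp p s := by
  ext m
  rw [mem_sh]
  constructor
  · intro h
    have := smul_mem_Mp (T_mem i) h
    rwa [T_smul_cancel] at this
  · exact smul_mem_Mp (T_mem _)

theorem nsmul_mem_Mp {p : ℕ} (hp : p ≠ 0) {s m : W} (hs : s ∈ M) (hm : m ∈ M) :
    p • m ∈ Mp p s := by
  refine ⟨M.nsmul_mem hm p, ?_⟩
  have e : (p • m : W) = (C (p : ℚ) : F) • m := by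
    have : (C (p : ℚ) : F) = p := by simp
    rw [this, Nat.cast_smul_eq_nsmul]
  rw [e, det_smul_right, ← mul_assoc, ← C.map_mul, inv_mul_cancel₀ (by exact_mod_cast hp), C.map_one,
    one_mul]
  exact det_mem hs hm

theorem det_smul_identity (a b m : W) : det b m • a = - (det a b • m) + det a m • b := by
  ext1
  · simp only [det, Prod.smul_fst, Prod.fst_add, Prod.fst_neg, smul_eq_mul]; ring
  · simp only [det, Prod.smul_snd, Prod.snd_add, Prod.snd_neg, smul_eq_mul]; ring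

theorem gauss_smul {p : ℕ} (hp : p.Prime) {f : F} (hf : f ∈ AF) {s : W} (hs : s ∈ M)
    (hsp : (C ((p : ℚ)⁻¹) : F) • s ∉ M) (h : (C ((p : ℚ)⁻¹) : F) • (f • s) ∈ M) :
    C ((p : ℚ)⁻¹) * f ∈ AF := by
  by_contra hne
  apply hsp
  refine ⟨?_, ?_⟩
  · have h1 : C ((p : ℚ)⁻¹) * (f * s.1) ∈ AF := h.1
    exact (gauss hp hf hs.1 h1).resolve_left hne
  · have h1 : C ((p : ℚ)⁻¹) * (f * s.2) ∈ AF := h.2
    exact (gauss hp hf hs.2 h1).resolve_left hne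

/-- independence of the vector -/
theorem Mp_le_Mp {p : ℕ} (hp : p.Prime) {s s' : W} (hs : s ∈ M) (hs' : s' ∈ M)
    (hsp : (C ((p : ℚ)⁻¹) : F) • s ∉ M) (h : C ((p : ℚ)⁻¹) * det s s' ∈ AF) :
    Mp p s ≤ Mp p s' := by
  rintro m ⟨hm, hm'⟩
  refine ⟨hm, gauss_smul hp (det_mem hs' hm) hs hsp ?_⟩
  rw [det_smul_identity, smul_add, smul_neg, smul_smul, smul_smul]
  exact M.add_mem (M.neg_mem (smul_mem_M h hm)) (smul_mem_M hm' hs')

theorem Mp_eq {p : ℕ} (hp : p.Prime) {s s' : W} (hs : s ∈ M) (hs' : s' ∈ M)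
    (hsp : (C ((p : ℚ)⁻¹) : F) • s ∉ M) (hsp' : (C ((p : ℚ)⁻¹) : F) • s' ∉ M)
    (h : C ((p : ℚ)⁻¹) * det s s' ∈ AF) : Mp p s = Mp p s' := by
  refine le_antisymm (Mp_le_Mp hp hs hs' hsp h) (Mp_le_Mp hp hs' hs hsp' ?_)
  rw [det_swap, mul_neg]
  exact AF.neg_mem h

/-- there is a vector with determinant not divisible by `p` -/
theorem exists_det_not_mem {p : ℕ} {s : W} (hsp : (C ((p : ℚ)⁻¹) : F) • s ∉ M) :
    ∃ m ∈ M, C ((p : ℚ)⁻¹) * det s m ∉ AF := by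
  by_contra hne
  push Not at hne
  apply hsp
  have h1 := hne (0, 1) ⟨AF.zero_mem, AF.one_mem⟩
  have h2 := hne (1, 0) ⟨AF.one_mem, AF.zero_mem⟩
  simp only [det, mul_one, mul_zero, sub_zero, zero_sub, mul_neg] at h1 h2
  exact ⟨h1, by simpa using AF.neg_mem h2⟩

theorem C_smul_Tm {r : ℚ} {n : ℤ} {m : W} : (C r : F) • ((T n : F) • m) = (T n : F) • ((C r : F) • m) :=
  smul_comm _ _ _

namespace Vtx

variable {v : Vtx}

/-- `p` divides the determinants of pairs of elements of `M ⊓ V` -/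
theorem dvd_det {p : ℕ} (hp : p.Prime) (hpD : p ∣ v.D M) {s s' : W} (hs : s ∈ M) (hsV : s ∈ v.V)
    (hs' : s' ∈ M) (hsV' : s' ∈ v.V) : C ((p : ℚ)⁻¹) * det s s' ∈ AF := by
  by_cases h0 : det s s' = 0
  · rw [h0, mul_zero]; exact AF.zero_mem
  obtain ⟨a, b, c', k, h'⟩ := v.ex
  obtain ⟨c, h⟩ := h'.of_mem hsV hsV' h0
  obtain ⟨n, hn⟩ : ∃ n : ℤ, c = n := by
    refine C_mul_T_mem_AF (k := k) ?_
    rw [← h.hdet]
    exact det_mem hs hs'
  set G := (M ⊓ v.P) ⊔ (M ⊓ v.Q) with hG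
  have hmul : ∀ m ∈ M, n • m ∈ G := by
    intro m hm
    have := C_smul_mem_sup h hs hs' hm
    rw [hn] at this
    have e : (C (n : ℚ) : F) = n := by simp
    rwa [e, Int.cast_smul_eq_zsmul] at this
  have hdvd : (p : ℤ) ∣ n := by
    have hfin : Finite (M ⧸ G.addSubgroupOf M) := by
      rw [← AddSubgroup.index_ne_zero_iff_finite]
      exact v.D_ne_zero
    have hF := Fintype.ofFinite (M ⧸ G.addSubgroupOf M)
    have : Fact p.Prime := ⟨hp⟩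
    obtain ⟨z, hz⟩ := exists_prime_addOrderOf_dvd_card (G := M ⧸ G.addSubgroupOf M) p (by
      rw [← Nat.card_eq_fintype_card]
      exact hpD)
    obtain ⟨⟨y, hy⟩, rfl⟩ := QuotientAddGroup.mk_surjective z
    rw [← hz, addOrderOf_dvd_iff_zsmul_eq_zero, ← QuotientAddGroup.mk_zsmul,
      QuotientAddGroup.eq_zero_iff, mem_addSubgroupOf]
    exact hmul y hy
  obtain ⟨l, hl⟩ := hdvd
  have : (C ((p : ℚ)⁻¹) * det s s' : F) = C (l : ℚ) * T k := by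
    rw [h.hdet, ← mul_assoc, ← C.map_mul, hn, hl]
    congr 2
    push_cast
    have : (p : ℚ) ≠ 0 := by exact_mod_cast hp.ne_zero
    field_simp
  rw [this]
  exact AF.mul_mem (C_int_mem l) (T_mem k)

theorem V_le_Mp {p : ℕ} (hp : p.Prime) (hpD : p ∣ v.D M) {s : W} (hs : s ∈ M) (hsV : s ∈ v.V) :
    M ⊓ v.V ≤ Mp p s := fun _ hm => ⟨hm.1, dvd_det hp hpD hs hsV hm.1 hm.2⟩

theorem Mp_inf_V {p : ℕ} (hp : p.Prime) (hpD : p ∣ v.D M) {s : W} (hs : s ∈ M) (hsV : s ∈ v.V) :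
    Mp p s ⊓ v.V = M ⊓ v.V := le_antisymm (inf_le_inf_right _ Mp_le)
      (le_inf (V_le_Mp hp hpD hs hsV) inf_le_right)

theorem det_mem_Pos {a b : W} {c : ℚ} {k : ℤ} (h : IsFrame a b c k v.P v.Q) {s : W} (hs : s ∈ v.V)
    {m : W} (hm : m ∈ v.P) : det s m ∈ Pos k := by
  obtain ⟨r, t, rfl⟩ := h.mem_V.1 hs
  rw [h.hP] at hm
  rw [det_add_left, det_smul_left, det_smul_left]
  exact (Pos k).add_mem (C_mul_mem_Pos hm.1) (C_mul_mem_Pos hm.2)

theorem det_mem_Neg {a b : W} {c : ℚ} {k : ℤ} (h : IsFrame a b c k v.P v.Q) {s : W} (hs : s ∈ v.V)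
    {m : W} (hm : m ∈ v.Q) : det s m ∈ Neg k := by
  obtain ⟨r, t, rfl⟩ := h.mem_V.1 hs
  rw [h.hQ] at hm
  rw [det_add_left, det_smul_left, det_smul_left]
  exact (Neg k).add_mem (C_mul_mem_Neg hm.1) (C_mul_mem_Neg hm.2)

theorem mem_AF_of_add {r : ℚ} {f g : F} {k : ℤ} (hf : f ∈ Pos k) (hg : g ∈ Neg k)
    (h : C r * (f + g) ∈ AF) : C r * f ∈ AF ∧ C r * g ∈ AF := by
  rw [mem_AF] at h
  constructor
  · rw [mem_AF]
    intro i
    rcases lt_or_ge i k with hi | hi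
    · exact ⟨0, by rw [coeff_C_mul, hf i hi]; simp⟩
    · obtain ⟨n, hn⟩ := h i
      rw [coeff_C_mul, AddMonoidAlgebra.coeff_add, Finsupp.add_apply, hg i hi, add_zero] at hn
      exact ⟨n, by rw [coeff_C_mul, hn]⟩
  · rw [mem_AF]
    intro i
    rcases lt_or_ge i k with hi | hi
    · obtain ⟨n, hn⟩ := h i
      rw [coeff_C_mul, AddMonoidAlgebra.coeff_add, Finsupp.add_apply, hf i hi, zero_add] at hn
      exact ⟨n, by rw [coeff_C_mul, hn]⟩
    · exact ⟨0, by rw [coeff_C_mul, hg i hi]; simp⟩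

/-- the defect of the auxiliary module divides the defect -/
theorem D_Mp_dvd {p : ℕ} {s : W} (hsV : s ∈ v.V) : v.D (Mp p s) ∣ v.D M := by
  obtain ⟨a, b, c, k, h⟩ := v.ex
  set G := (M ⊓ v.P) ⊔ (M ⊓ v.Q) with hG
  have e1 : G ⊓ Mp p s = (Mp p s ⊓ v.P) ⊔ (Mp p s ⊓ v.Q) := by
    apply le_antisymm
    · rintro m ⟨hmG, hm⟩
      obtain ⟨m1, ⟨h1, h1'⟩, m2, ⟨h2, h2'⟩, rfl⟩ := AddSubgroup.mem_sup.1 hmG
      have h3 := hm.2
      rw [det_add_right] at h3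
      have h4 := mem_AF_of_add (det_mem_Pos h hsV h1') (det_mem_Neg h hsV h2') h3
      exact AddSubgroup.mem_sup.2 ⟨m1, ⟨⟨h1, h4.1⟩, h1'⟩, m2, ⟨⟨h2, h4.2⟩, h2'⟩, rfl⟩
    · refine sup_le (le_inf ?_ inf_le_left) (le_inf ?_ inf_le_left)
      · exact le_sup_of_le_left (inf_le_inf_right _ Mp_le)
      · exact le_sup_of_le_right (inf_le_inf_right _ Mp_le)
  have e2 : v.D (Mp p s) = G.relIndex (Mp p s) := by
    rw [D, J, ← e1, inf_relIndex_right]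
  have e3 : G.relIndex (Mp p s ⊔ G) * (Mp p s ⊔ G).relIndex M = G.relIndex M :=
    relIndex_mul_relIndex _ _ _ le_sup_right (sup_le Mp_le (sup_le inf_le_left inf_le_left))
  rw [relIndex_sup_right, ← e2] at e3
  exact Dvd.intro _ e3

theorem D_Mp_ne_zero {p : ℕ} {s : W} (hsV : s ∈ v.V) : v.D (Mp p s) ≠ 0 :=
  fun h => v.D_ne_zero (by
    have := D_Mp_dvd (p := p) hsV
    rw [h] at this
    exact zero_dvd_iff.1 this)

theorem D_Mp_le {p : ℕ} {s : W} (hsV : s ∈ v.V) : v.D (Mp p s) ≤ v.D M :=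
  Nat.le_of_dvd (Nat.pos_of_ne_zero v.D_ne_zero) (D_Mp_dvd hsV)

theorem lz_mono {N N' : AddSubgroup W} (h : N ≤ N') : v.lz N ≤ v.lz N' :=
  inf_le_inf_left _ (sup_le_sup_right h _)

theorem li_mono {N N' : AddSubgroup W} (h : N ≤ N') : v.li N ≤ v.li N' :=
  inf_le_inf_left _ (sup_le_sup_right h _)

/-- the index of the auxiliary lattice at `0` is `p` -/
theorem relIndex_lz_Mp {p : ℕ} (hp : p.Prime) {s : W} (hs : s ∈ M) (hsV : s ∈ v.V)
    (hsp : (C ((p : ℚ)⁻¹) : F) • s ∉ M) : (v.lz (Mp p s)).relIndex (v.lz M) = p := by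
  have : Fact p.Prime := ⟨hp⟩
  obtain ⟨a, b, c, k, h⟩ := v.ex
  -- the reduction
  set ψ : W → LaurentPolynomial (ZMod p) := fun m => redF p (T (-k) * det s m) with hψ
  have hTd : ∀ m ∈ M, (T (-k) * det s m : F) ∈ AF := fun m hm =>
    AF.mul_mem (T_mem _) (det_mem hs hm)
  have hadd : ∀ m ∈ M, ∀ m' ∈ M, ψ (m + m') = ψ m + ψ m' := by
    intro m hm m' hm'
    simp only [hψ]
    rw [det_add_right, mul_add, redF_add (hTd m hm) (hTd m' hm')]
  have hsub : ∀ m ∈ M, ∀ m' ∈ M, ψ (m - m') = ψ m - ψ m' := by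
    intro m hm m' hm'
    simp only [hψ]
    rw [det_sub_right, mul_sub, redF_sub (hTd m hm) (hTd m' hm')]
  have hsmul : ∀ f ∈ AF, ∀ m ∈ M, ψ (f • m) = redF p f * ψ m := by
    intro f hf m hm
    simp only [hψ]
    rw [det_smul_right, mul_left_comm, redF_mul hf (hTd m hm)]
  have hker : ∀ m ∈ M, ψ m = 0 → m ∈ Mp p s := by
    intro m hm h0
    refine ⟨hm, ?_⟩
    have h1 := (redF_eq_zero hp.ne_zero (hTd m hm)).1 h0
    rw [mul_left_comm] at h1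
    exact T_mul_mem_AF.1 h1
  have hker' : ∀ m ∈ Mp p s, ψ m = 0 := by
    intro m hm
    refine (redF_eq_zero hp.ne_zero (hTd m hm.1)).2 ?_
    rw [mul_left_comm]
    exact T_mul_mem_AF.2 hm.2
  have hpoly : ∀ m ∈ M, m ∈ v.P → ∃ g : Polynomial (ZMod p), Polynomial.toLaurent g = ψ m := by
    intro m hm hmP
    apply exists_toLaurent
    refine redF_mem_Pos (hTd m hm) ?_
    rw [T_mul_mem_Pos]
    simpa using det_mem_Pos h hsV hmP
  -- the ideal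
  let I : Ideal (Polynomial (ZMod p)) :=
    { carrier := {g | ∃ m ∈ M, m ∈ v.P ∧ ψ m = Polynomial.toLaurent g}
      zero_mem' := ⟨0, M.zero_mem, v.P.zero_mem, by
        rw [map_zero]; exact hker' 0 (Mp p s).zero_mem⟩
      add_mem' := by
        rintro g g' ⟨m, hm, hmP, hg⟩ ⟨m', hm', hmP', hg'⟩
        exact ⟨m + m', M.add_mem hm hm', v.P.add_mem hmP hmP', by
          rw [hadd m hm m' hm', hg, hg', map_add]⟩
      smul_mem' := by
        rintro t g ⟨m, hm, hmP, hg⟩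
        obtain ⟨f, hf, hf0, hft⟩ := exists_lift p t
        exact ⟨f • m, smul_mem_M hf hm, h.smul_mem_P hmP hf0, by
          rw [hsmul f hf m hm, hft, hg, smul_eq_mul, map_mul]⟩ }
  have hI : ∀ g, g ∈ I ↔ ∃ m ∈ M, m ∈ v.P ∧ ψ m = Polynomial.toLaurent g := fun _ => Iff.rfl
  obtain ⟨g, hg⟩ := (IsPrincipalIdealRing.principal I).principal
  have hgI : g ∈ I := by rw [hg]; exact Submodule.mem_span_singleton_self g
  have hmul : ∀ g' ∈ I, ∃ t, g' = g * t := by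
    intro g' hg'
    rw [hg] at hg'
    obtain ⟨t, ht⟩ := Submodule.mem_span_singleton.1 hg'
    exact ⟨t, by rw [← ht, smul_eq_mul, mul_comm]⟩
  have hg0 : g ≠ 0 := by
    rintro rfl
    obtain ⟨m, hm, hmd⟩ := exists_det_not_mem hsp
    obtain ⟨n, hn⟩ := h.exhaust_P m
    have hTm : (T (n : ℤ) : F) • m ∈ M := T_smul_mem_M.2 hm
    obtain ⟨g', hg'⟩ := hpoly _ hTm (hn n le_rfl)
    obtain ⟨t, ht⟩ := hmul g' ((hI _).2 ⟨_, hTm, hn n le_rfl, hg'.symm⟩)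
    rw [zero_mul] at ht
    rw [ht, map_zero] at hg'
    have h1 := (hker _ hTm hg'.symm).2
    rw [det_smul_right, mul_left_comm, T_mul_mem_AF] at h1
    exact hmd h1
  obtain ⟨m0, hm0, hm0P, hm0ψ⟩ := (hI g).1 hgI
  have hm0P' := hm0P
  rw [← v.V_sup_P] at hm0P'
  obtain ⟨x0, hx0, z0, hz0, hxz⟩ := AddSubgroup.mem_sup.1 hm0P'
  have hx0lz : x0 ∈ v.lz M := ⟨hx0, AddSubgroup.mem_sup.2 ⟨m0, hm0, -z0, neg_mem hz0, by
    rw [← hxz]; abel⟩⟩
  -- elements of `M ⊓ sh 1 P`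
  have hX : ∀ m ∈ M, m ∈ sh 1 v.P → ∃ t : Polynomial (ZMod p),
      ψ m = Polynomial.toLaurent (g * (Polynomial.X * t)) := by
    intro m hm hmP
    rw [mem_sh] at hmP
    have hTm : (T (-1) : F) • m ∈ M := T_smul_mem_M.2 hm
    obtain ⟨g', hg'⟩ := hpoly _ hTm hmP
    obtain ⟨t, ht⟩ := hmul g' ((hI _).2 ⟨_, hTm, hmP, hg'.symm⟩)
    refine ⟨t, ?_⟩
    have e : m = (T 1 : F) • ((T (-1) : F) • m) := (T_smul_cancel 1 m).symm
    rw [e, hsmul _ (T_mem 1) _ hTm, ← hg', ht, redF_T, ← Polynomial.toLaurent_X, ← map_mul]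
    congr 1
    ring
  have hX' : ∀ t : Polynomial (ZMod p), ∃ m ∈ M, m ∈ sh 1 v.P ∧
      ψ m = Polynomial.toLaurent (g * (Polynomial.X * t)) := by
    intro t
    obtain ⟨m, hm, hmP, hmψ⟩ := (hI (g * t)).1 (I.mul_mem_right t hgI)
    refine ⟨(T 1 : F) • m, T_smul_mem_M.2 hm, T_smul_mem_sh.2 hmP, ?_⟩
    rw [hsmul _ (T_mem 1) _ hm, hmψ, redF_T, ← Polynomial.toLaurent_X, ← map_mul]
    congr 1
    ring
  refine relIndex_eq_prime hp ?_ hx0lz ?_ ?_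
  · rintro x ⟨hxV, hx⟩
    obtain ⟨n, hn, z, hz, rfl⟩ := AddSubgroup.mem_sup.1 hx
    refine ⟨AddSubgroup.nsmul_mem _ hxV p, AddSubgroup.mem_sup.2 ⟨p • n,
      nsmul_mem_Mp hp.ne_zero hs hn, p • z, AddSubgroup.nsmul_mem _ hz p, ?_⟩⟩
    rw [smul_add]
  · rintro ⟨_, hx⟩
    obtain ⟨n, hn, z, hz, hnz⟩ := AddSubgroup.mem_sup.1 hx
    -- `m0 = n + (z + z0)`
    have h1 : m0 - n ∈ sh 1 v.P := by
      have : m0 - n = z + z0 := by rw [← hxz, ← hnz]; abel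
      rw [this]; exact AddSubgroup.add_mem _ hz hz0
    obtain ⟨t, ht⟩ := hX _ (M.sub_mem hm0 hn.1) h1
    rw [hsub m0 hm0 n hn.1, hker' n hn, sub_zero, hm0ψ, Polynomial.toLaurent_inj] at ht
    have h2 : (1 : Polynomial (ZMod p)) = Polynomial.X * t :=
      mul_left_cancel₀ hg0 (by rw [mul_one]; exact ht)
    have := congrArg (fun q => Polynomial.coeff q 0) h2
    simp at this
  · rintro y ⟨hyV, hy⟩
    obtain ⟨n, hn, z, hz, rfl⟩ := AddSubgroup.mem_sup.1 hy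
    have hnP : n ∈ v.P := by
      have : n = (n + z) - z := by abel
      rw [this]
      exact v.P.sub_mem (V_le_P hyV) (shP_le hz)
    obtain ⟨g', hg'⟩ := hpoly n hn hnP
    obtain ⟨t, ht⟩ := hmul g' ((hI _).2 ⟨n, hn, hnP, hg'.symm⟩)
    obtain ⟨l, hl⟩ := ZMod.intCast_surjective (t.coeff 0)
    refine ⟨l, ⟨AddSubgroup.sub_mem _ hyV (AddSubgroup.zsmul_mem _ hx0 l), ?_⟩⟩
    -- `t - C l` is divisible by `X`
    obtain ⟨t', ht'⟩ : Polynomial.X ∣ t - Polynomial.C (l : ZMod p) := by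
      rw [Polynomial.X_dvd_iff]
      simp [hl]
    obtain ⟨m3, hm3, hm3P, hm3ψ⟩ := hX' t'
    have hlm : l • m0 = (C (l : ℚ) : F) • m0 := by
      have : (C (l : ℚ) : F) = l := by simp
      rw [this, Int.cast_smul_eq_zsmul]
    have hlmM : l • m0 ∈ M := M.zsmul_mem hm0 l
    have h4 : n - l • m0 - m3 ∈ Mp p s := by
      refine hker _ (M.sub_mem (M.sub_mem hn hlmM) hm3) ?_
      rw [hsub _ (M.sub_mem hn hlmM) _ hm3, hsub n hn _ hlmM, hm3ψ, ← hg', ht, hlm,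
        hsmul _ (C_int_mem l) _ hm0, hm0ψ, redF_C, ← Polynomial.toLaurent_C, ← map_mul, ← map_sub,
        ← map_sub, ← ht']
      rw [show g * t - Polynomial.C (l : ZMod p) * g - g * (t - Polynomial.C (l : ZMod p)) = 0 by ring,
        map_zero]
    refine AddSubgroup.mem_sup.2 ⟨_, h4, m3 + z + l • z0, AddSubgroup.add_mem _
      (AddSubgroup.add_mem _ hm3P hz) (AddSubgroup.zsmul_mem _ hz0 l), ?_⟩
    rw [← hxz, smul_add]
    abel

/-- the index of the auxiliary lattice at infinity is `p` -/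
theorem relIndex_li_Mp {p : ℕ} (hp : p.Prime) (hpD : p ∣ v.D M) {s : W} (hs : s ∈ M)
    (hsV : s ∈ v.V) (hsp : (C ((p : ℚ)⁻¹) : F) • s ∉ M) :
    (v.li (Mp p s)).relIndex (v.li M) = p := by
  have h1 := relIndex_lz_Mp hp hs hsV hsp
  have e := Mp_inf_V hp hpD hs hsV
  have h2 := relIndex_lz_eq_li (v := v) (sh_M 1) v.D_ne_zero
  have h3 := relIndex_lz_eq_li (v := v) (sh_Mp 1) (D_Mp_ne_zero (p := p) hsV)
  have h4 := relIndex_lz_ne_zero (v := v) (sh_Mp 1) (D_Mp_ne_zero (p := p) hsV)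
  rw [e] at h3 h4
  have h5 := relIndex_mul_relIndex (M ⊓ v.V) (v.lz (Mp p s)) (v.lz M)
    (by rw [← e]; exact N_V_le_lz) (lz_mono Mp_le)
  have h6 := relIndex_mul_relIndex (M ⊓ v.V) (v.li (Mp p s)) (v.li M)
    (by rw [← e]; exact N_V_le_li) (li_mono Mp_le)
  rw [h1] at h5
  rw [← h3] at h6
  exact Nat.eq_of_mul_eq_mul_left (Nat.pos_of_ne_zero h4) (by rw [h6, h5, h2])

end Vtx

end Pool.Agent.W411.LP
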