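import Pool.Agent.W411.LP.VL

/-!
# Normal form of the two lattices of a vertex
-/

set_option autoImplicit false

namespace Pool.Agent.W411.LP

open LaurentPolynomial AddSubgroup

namespace Vtx

variable {v : Vtx} {N : AddSubgroup W}

theorem N_V_le_lz : N ⊓ v.V ≤ v.lz N := fun _ h => ⟨h.2, AddSubgroup.mem_sup_left h.1⟩

theorem N_V_le_li : N ⊓ v.V ≤ v.li N := fun _ h => ⟨h.2, AddSubgroup.mem_sup_left h.1⟩

theorem D_eq_lz (hN : sh 1 N = N) : v.D N = J N v.P (sh 1 v.Q) * (N ⊓ v.V).relIndex (v.lz N) := by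
  rw [← D_sh hN, J_step N shP_le]
  congr 1
  have h := relIndex_tri N v.V (sh 1 v.P)
  rw [V_inf_P, sup_bot_eq, V_sup_P, inf_comm v.V N] at h
  rw [sup_comm]
  exact h

theorem D_eq_li (N : AddSubgroup W) :
    v.D N = J N v.P (sh 1 v.Q) * (N ⊓ v.V).relIndex (v.li N) := by
  rw [D, J_step' N Q_le]
  congr 1
  have h := relIndex_tri N v.V v.Q
  rw [V_inf_Q, sup_bot_eq, V_sup_Q, inf_comm v.V N] at h
  rw [sup_comm, inf_comm (sh 1 v.Q)]
  exact h

theorem relIndex_lz_eq_li (hN : sh 1 N = N) (hD : v.D N ≠ 0) :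
    (N ⊓ v.V).relIndex (v.lz N) = (N ⊓ v.V).relIndex (v.li N) := by
  have h1 := D_eq_lz (v := v) hN
  have h2 := D_eq_li (v := v) N
  have h3 : J N v.P (sh 1 v.Q) ≠ 0 := by
    intro h
    rw [h, zero_mul] at h1
    exact hD h1
  exact Nat.eq_of_mul_eq_mul_left (Nat.pos_of_ne_zero h3) (h1.symm.trans h2)

theorem relIndex_lz_ne_zero (hN : sh 1 N = N) (hD : v.D N ≠ 0) :
    (N ⊓ v.V).relIndex (v.lz N) ≠ 0 := by
  intro h
  rw [D_eq_lz hN, h, mul_zero] at hD
  exact hD rfl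

theorem ci_ne_zero {w : W} (hw : w ∈ v.V) (hD : v.D N ≠ 0) : v.ci N w ≠ 0 := by
  intro h
  rw [D_inf N hw, h, mul_zero] at hD
  exact hD rfl

theorem c0_ne_zero (hN : sh 1 N = N) {w : W} (hw : w ∈ v.V) (hD : v.D N ≠ 0) : v.c0 N w ≠ 0 := by
  intro h
  rw [D_zero hN hw, h, mul_zero] at hD
  exact hD rfl

end Vtx

/-- the coordinate map of a frame -/
noncomputable def phi (a b : W) : ℚ × ℚ →+ W where
  toFun x := (C x.1 : F) • a + (C x.2 : F) • b
  map_zero' := by simp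
  map_add' x y := by
    simp only [Prod.fst_add, Prod.snd_add, C.map_add, add_smul]
    abel

theorem phi_apply (a b : W) (x : ℚ × ℚ) : phi a b x = (C x.1 : F) • a + (C x.2 : F) • b := rfl

theorem phi_smul (a b : W) (r : ℚ) (x : ℚ × ℚ) : phi a b (r • x) = (C r : F) • phi a b x := by
  rw [phi_apply, phi_apply, smul_add, smul_smul, smul_smul, ← C.map_mul, ← C.map_mul]
  rfl

section

variable {a b : W} {c : ℚ} {k : ℤ} {P Q : AddSubgroup W}

theorem IsFrame.det_phi (h : IsFrame a b c k P Q) (x y : ℚ × ℚ) :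
    det (phi a b x) (phi a b y) = C (dt x y * c) * T k := by
  rw [phi_apply, phi_apply, h.det_lin]
  rfl

theorem C_mul_T_eq_zero {c : ℚ} {k : ℤ} (h : (C c * T k : F) = 0) : c = 0 := by
  have := congrArg (fun f : F => f.coeff k) h
  simpa [coeff_C_mul_T] using this

theorem IsFrame.det_phi_ne_zero (h : IsFrame a b c k P Q) {x y : ℚ × ℚ} :
    det (phi a b x) (phi a b y) ≠ 0 ↔ dt x y ≠ 0 := by
  rw [h.det_phi, Ne, Ne, not_iff_not]
  constructor
  · intro h0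
    exact (mul_eq_zero.1 (C_mul_T_eq_zero h0)).resolve_right h.hc
  · intro h0
    rw [h0]
    simp

theorem IsFrame.phi_injective (h : IsFrame a b c k P Q) : Function.Injective (phi a b) := by
  rw [injective_iff_map_eq_zero]
  intro x hx
  have h1 : dt x (0, 1) = 0 := by
    by_contra h1
    exact h.det_phi_ne_zero.2 h1 (by rw [hx, det_zero_left])
  have h2 : dt x (1, 0) = 0 := by
    by_contra h1
    exact h.det_phi_ne_zero.2 h1 (by rw [hx, det_zero_left])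
  simp [dt] at h1 h2
  exact Prod.ext h1 h2

theorem IsFrame.mem_V_iff (h : IsFrame a b c k P Q) {m : W} :
    m ∈ P ⊓ sh 1 Q ↔ ∃ x, m = phi a b x := by
  rw [h.mem_V]
  constructor
  · rintro ⟨r, s, rfl⟩; exact ⟨(r, s), rfl⟩
  · rintro ⟨x, rfl⟩; exact ⟨x.1, x.2, rfl⟩

theorem IsFrame.phi_mem (h : IsFrame a b c k P Q) (x : ℚ × ℚ) : phi a b x ∈ P ⊓ sh 1 Q :=
  h.mem_V_iff.2 ⟨x, rfl⟩

theorem IsFrame.map_comap (h : IsFrame a b c k P Q) {X : AddSubgroup W} (hX : X ≤ P ⊓ sh 1 Q) :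
    (X.comap (phi a b)).map (phi a b) = X := by
  apply AddSubgroup.map_comap_eq_self
  intro m hm
  obtain ⟨x, rfl⟩ := h.mem_V_iff.1 (hX hm)
  exact ⟨x, rfl⟩

theorem IsFrame.relIndex_comap (h : IsFrame a b c k P Q) {X Y : AddSubgroup W}
    (hX : X ≤ P ⊓ sh 1 Q) (hY : Y ≤ P ⊓ sh 1 Q) :
    (X.comap (phi a b)).relIndex (Y.comap (phi a b)) = X.relIndex Y := by
  conv_rhs => rw [← h.map_comap hX, ← h.map_comap hY]
  rw [relIndex_map_map_of_injective _ _ h.phi_injective]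

theorem IsFrame.phi_frame (h : IsFrame a b c k P Q) {e f : ℚ × ℚ} (hef : dt e f ≠ 0) :
    IsFrame (phi a b e) (phi a b f) (dt e f * c) k P Q := h.reframe hef

theorem phi_phi (a b : W) (e f x : ℚ × ℚ) :
    phi (phi a b e) (phi a b f) x = phi a b (x.1 • e + x.2 • f) := by
  rw [map_add, phi_smul, phi_smul]
  rfl

end

theorem comb_mem_lt {e f : ℚ × ℚ} (h : dt e f ≠ 0) {x : ℚ × ℚ} :
    x.1 • e + x.2 • f ∈ lt e f ↔ x ∈ L0 := by
  rw [mem_lt, mem_L0]
  constructor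
  · rintro ⟨i, j, hij⟩
    refine ⟨i, j, ?_⟩
    have h1 := congrArg (fun z => dt z f) hij
    have h2 := congrArg (fun z => dt e z) hij
    simp only [dt_add_left, dt_add_right, dt_smul_left, dt_smul_right, dt_self, mul_zero, add_zero,
      zero_add] at h1 h2
    exact Prod.ext (mul_right_cancel₀ h h1) (mul_right_cancel₀ h h2)
  · rintro ⟨i, j, hij⟩
    exact ⟨i, j, by rw [hij]⟩

theorem comb_mem_lt' {e f : ℚ × ℚ} (h : dt e f ≠ 0) {q : ℕ} (hq : 0 < q) {x : ℚ × ℚ} :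
    x.1 • e + x.2 • f ∈ lt ((q : ℚ)⁻¹ • e) ((q : ℚ) • f) ↔ x ∈ Li q := by
  have hq' : (q : ℚ) ≠ 0 := by positivity
  rw [mem_lt, mem_Li]
  constructor
  · rintro ⟨i, j, hij⟩
    refine ⟨i, j, ?_⟩
    have h1 := congrArg (fun z => dt z f) hij
    have h2 := congrArg (fun z => dt e z) hij
    simp only [dt_add_left, dt_add_right, dt_smul_left, dt_smul_right, dt_self, mul_zero, add_zero,
      zero_add] at h1 h2
    refine Prod.ext (mul_right_cancel₀ h ?_) (mul_right_cancel₀ h ?_)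
    · show x.1 * dt e f = i / q * dt e f
      rw [h1]; ring
    · show x.2 * dt e f = j * q * dt e f
      rw [h2]; ring
  · rintro ⟨i, j, hij⟩
    refine ⟨i, j, ?_⟩
    rw [hij, smul_smul, smul_smul, div_eq_mul_inv]

namespace Vtx

/-- **normal form** -/
theorem exists_nf (v : Vtx) : ∃ a b c k, IsFrame a b c k v.P v.Q ∧ ∃ q : ℕ, 0 < q ∧
    (v.lz M).comap (phi a b) = L0 ∧ (v.li M).comap (phi a b) = Li q := by
  obtain ⟨a, b, c, k, h, ha, hb⟩ := v.exists_int_frame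
  obtain ⟨n, hn⟩ : ∃ n : ℤ, c = n := by
    refine C_mul_T_mem_AF (k := k) ?_
    rw [← h.hdet]
    exact det_mem ha hb
  have hn0 : n ≠ 0 := by
    rintro rfl
    exact h.hc (by rw [hn]; simp)
  have hn0' : (n.natAbs : ℚ) ≠ 0 := by
    have : n.natAbs ≠ 0 := Int.natAbs_ne_zero.2 hn0
    exact_mod_cast this
  have hD := v.D_ne_zero
  have hN := sh_M 1
  have hV1 : M ⊓ v.V ≤ v.P ⊓ sh 1 v.Q := inf_le_right
  have hV2 : v.lz M ≤ v.P ⊓ sh 1 v.Q := inf_le_left
  have hV3 : v.li M ≤ v.P ⊓ sh 1 v.Q := inf_le_left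
  set H := (M ⊓ v.V).comap (phi a b) with hH
  set Lz := (v.lz M).comap (phi a b) with hLz
  set Ll := (v.li M).comap (phi a b) with hLl
  have h1 : L0 ≤ H := by
    rintro x hx
    obtain ⟨i, j, rfl⟩ := hx
    refine ⟨?_, h.phi_mem _⟩
    exact M.add_mem (smul_mem_M (C_int_mem i) ha) (smul_mem_M (C_int_mem j) hb)
  have h2 : H ≤ Lz := AddSubgroup.comap_mono N_V_le_lz
  have h3 : H ≤ Ll := AddSubgroup.comap_mono N_V_le_li
  have i1 : H.relIndex Lz = (M ⊓ v.V).relIndex (v.lz M) := h.relIndex_comap hV1 hV2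
  have i2 : H.relIndex Ll = (M ⊓ v.V).relIndex (v.li M) := h.relIndex_comap hV1 hV3
  have i3 : H.relIndex Lz = H.relIndex Ll := by rw [i1, i2, relIndex_lz_eq_li hN hD]
  have i4 : H.relIndex Lz ≠ 0 := by rw [i1]; exact relIndex_lz_ne_zero hN hD
  have h4 : ∀ x ∈ H, (n.natAbs : ℚ) • x ∈ L0 := by
    intro x hx
    have hxM : phi a b x ∈ M := hx.1
    have e1 := det_mem ha hxM
    have e2 := det_mem hb hxM
    rw [phi_apply, (h.det_comb _ _).1] at e1
    rw [phi_apply, (h.det_comb _ _).2] at e2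
    obtain ⟨j, hj⟩ := C_mul_T_mem_AF e1
    obtain ⟨i, hi⟩ := C_mul_T_mem_AF e2
    rw [hn] at hi hj
    have hx' : (n : ℚ) • x ∈ L0 := by
      refine ⟨-i, j, Prod.ext ?_ ?_⟩
      · show (n : ℚ) * x.1 = ((-i : ℤ) : ℚ)
        push_cast
        rw [← hi]; ring
      · show (n : ℚ) * x.2 = j
        rw [← hj]; ring
    rcases Int.natAbs_eq n with h | h
    · rw [h] at hx'; simpa using hx'
    · rw [h] at hx'
      have := L0.neg_mem hx'
      simpa using this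
  have hLz : ∀ x ∈ Lz, ((n.natAbs * H.relIndex Lz : ℕ) : ℚ) • x ∈ L0 := by
    intro x hx
    have := mul_mem_of_relIndex (rfl : H.relIndex Lz = _) hx
    have := h4 _ this
    rw [← Nat.cast_smul_eq_nsmul ℚ, smul_smul] at this
    push_cast
    exact this
  have hLl : ∀ x ∈ Ll, ((n.natAbs * H.relIndex Lz : ℕ) : ℚ) • x ∈ L0 := by
    intro x hx
    have := mul_mem_of_relIndex (rfl : H.relIndex Ll = _) hx
    have := h4 _ this
    rw [← Nat.cast_smul_eq_nsmul ℚ, smul_smul, ← i3] at this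
    push_cast
    exact this
  have hidx : L0.relIndex Lz = L0.relIndex Ll := by
    rw [← relIndex_mul_relIndex _ _ _ h1 h2, ← relIndex_mul_relIndex _ _ _ h1 h3, i3]
  obtain ⟨q, hq, e, f, hef, hLze, hLlf⟩ := normal_form (h1.trans h2) (h1.trans h3)
    (Nat.mul_pos (Nat.pos_of_ne_zero (Int.natAbs_ne_zero.2 hn0)) (Nat.pos_of_ne_zero i4))
    hLz hLl hidx
  refine ⟨_, _, _, _, h.phi_frame hef, q, hq, ?_, ?_⟩
  · ext x
    rw [AddSubgroup.mem_comap, phi_phi, ← comb_mem_lt hef, ← hLze]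
    exact Iff.rfl
  · ext x
    rw [AddSubgroup.mem_comap, phi_phi, ← comb_mem_lt' hef hq, ← hLlf]
    exact Iff.rfl

end Vtx

end Pool.Agent.W411.LP
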