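import Mathlib

/-!
# Planar lattice combinatorics for `SL_2(ℤ[x, x⁻¹]) = E_2(ℤ[x, x⁻¹])`

`L0 = ℤ × ℤ` and `Li q = (1/q)ℤ × qℤ` in `ℚ × ℚ`.
-/

set_option autoImplicit false

namespace Pool.Agent.W411.LP

/-- the determinant of two vectors of the rational plane -/
def dt (u v : ℚ × ℚ) : ℚ := u.1 * v.2 - u.2 * v.1

theorem dt_smul_left (r : ℚ) (u v : ℚ × ℚ) : dt (r • u) v = r * dt u v := by
  simp [dt]; ring

theorem dt_smul_right (r : ℚ) (u v : ℚ × ℚ) : dt u (r • v) = r * dt u v := by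
  simp [dt]; ring

theorem dt_add_left (u u' v : ℚ × ℚ) : dt (u + u') v = dt u v + dt u' v := by
  simp [dt]; ring

theorem dt_add_right (u v v' : ℚ × ℚ) : dt u (v + v') = dt u v + dt u v' := by
  simp [dt]; ring

theorem dt_self (u : ℚ × ℚ) : dt u u = 0 := by
  simp [dt]; ring

theorem dt_swap (u v : ℚ × ℚ) : dt u v = - dt v u := by
  simp [dt]; ring

/-- two vectors with vanishing determinant are proportional -/
theorem exists_smul_of_dt_eq_zero {u v : ℚ × ℚ} (hv : v ≠ 0) (h : dt u v = 0) :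
    ∃ r : ℚ, u = r • v := by
  simp only [dt] at h
  by_cases h1 : v.1 = 0
  · have h2 : v.2 ≠ 0 := fun h2 => hv (Prod.ext h1 h2)
    refine ⟨u.2 / v.2, Prod.ext ?_ ?_⟩
    · simp only [Prod.smul_fst, smul_eq_mul, h1, mul_zero]
      rw [h1, mul_zero, sub_zero] at h
      exact (mul_eq_zero.1 h).resolve_right h2
    · simp only [Prod.smul_snd, smul_eq_mul]
      field_simp
  · refine ⟨u.1 / v.1, Prod.ext ?_ ?_⟩
    · simp only [Prod.smul_fst, smul_eq_mul]
      field_simp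
    · simp only [Prod.smul_snd, smul_eq_mul]
      field_simp
      linarith

/-- `ℤ × ℤ` in the rational plane. -/
def L0 : AddSubgroup (ℚ × ℚ) where
  carrier := {u | ∃ i j : ℤ, u = ((i : ℚ), (j : ℚ))}
  zero_mem' := ⟨0, 0, by simp; rfl⟩
  add_mem' := by
    rintro _ _ ⟨i, j, rfl⟩ ⟨i', j', rfl⟩
    exact ⟨i + i', j + j', by simp⟩
  neg_mem' := by
    rintro _ ⟨i, j, rfl⟩
    exact ⟨-i, -j, by simp⟩

/-- `(1/q)ℤ × qℤ` in the rational plane. -/
def Li (q : ℕ) : AddSubgroup (ℚ × ℚ) where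
  carrier := {u | ∃ i j : ℤ, u = ((i : ℚ) / q, (j : ℚ) * q)}
  zero_mem' := ⟨0, 0, by simp; rfl⟩
  add_mem' := by
    rintro _ _ ⟨i, j, rfl⟩ ⟨i', j', rfl⟩
    exact ⟨i + i', j + j', by simp [add_div, add_mul]⟩
  neg_mem' := by
    rintro _ ⟨i, j, rfl⟩
    exact ⟨-i, -j, by simp [neg_div]⟩

theorem mem_L0 {u : ℚ × ℚ} : u ∈ L0 ↔ ∃ i j : ℤ, u = ((i : ℚ), (j : ℚ)) := Iff.rfl

theorem mem_Li {q : ℕ} {u : ℚ × ℚ} : u ∈ Li q ↔ ∃ i j : ℤ, u = ((i : ℚ) / q, (j : ℚ) * q) := Iff.rfl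

theorem smul_mem_L {L : AddSubgroup (ℚ × ℚ)} {u : ℚ × ℚ} (h : u ∈ L) (k : ℤ) : (k : ℚ) • u ∈ L := by
  have := L.zsmul_mem h k
  rwa [← Int.cast_smul_eq_zsmul ℚ] at this

theorem dt_int_L0 {u v : ℚ × ℚ} (hu : u ∈ L0) (hv : v ∈ L0) : ∃ k : ℤ, dt u v = k := by
  obtain ⟨i, j, rfl⟩ := hu
  obtain ⟨i', j', rfl⟩ := hv
  exact ⟨i * j' - j * i', by simp [dt]⟩

theorem dt_int_Li {q : ℕ} (hq : 0 < q) {u v : ℚ × ℚ} (hu : u ∈ Li q) (hv : v ∈ Li q) :
    ∃ k : ℤ, dt u v = k := by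
  obtain ⟨i, j, rfl⟩ := hu
  obtain ⟨i', j', rfl⟩ := hv
  have : (q : ℚ) ≠ 0 := by positivity
  refine ⟨i * j' - j * i', ?_⟩
  simp only [dt]
  push_cast
  field_simp

/-- `z` is primitive in `L`. -/
def Prim (L : AddSubgroup (ℚ × ℚ)) (z : ℚ × ℚ) : Prop :=
  z ∈ L ∧ ∀ r : ℚ, r • z ∈ L → ∃ k : ℤ, r = k

theorem Prim.of_min {L : AddSubgroup (ℚ × ℚ)} {z : ℚ × ℚ} (h : z ∈ L)
    (hmin : ∀ t : ℚ, 0 < t → t < 1 → t • z ∉ L) : Prim L z := by
  refine ⟨h, fun r hr => ?_⟩
  by_contra hne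
  have h1 : 0 < Int.fract r := by
    rcases (Int.fract_nonneg r).lt_or_eq with h1 | h1
    · exact h1
    · exact absurd ⟨⌊r⌋, by have := Int.floor_add_fract r; rw [← h1, add_zero] at this; exact this.symm⟩ hne
  refine hmin (Int.fract r) h1 (Int.fract_lt_one r) ?_
  have : Int.fract r • z = r • z - (⌊r⌋ : ℚ) • z := by
    rw [← sub_smul]; rfl
  rw [this]
  exact L.sub_mem hr (smul_mem_L h _)

/-- the line of `u` meets both lattices in the same subgroup -/
def Special (L L' : AddSubgroup (ℚ × ℚ)) (u : ℚ × ℚ) : Prop :=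
  ∃ r : ℚ, r ≠ 0 ∧ Prim L (r • u) ∧ Prim L' (r • u)

theorem Special.smul {L L' : AddSubgroup (ℚ × ℚ)} {u : ℚ × ℚ} (h : Special L L' u) {r : ℚ}
    (hr : r ≠ 0) : Special L L' (r • u) := by
  obtain ⟨s, hs, h1, h2⟩ := h
  refine ⟨s * r⁻¹, mul_ne_zero hs (inv_ne_zero hr), ?_, ?_⟩
  · rw [smul_smul, mul_assoc, inv_mul_cancel₀ hr, mul_one]; exact h1
  · rw [smul_smul, mul_assoc, inv_mul_cancel₀ hr, mul_one]; exact h2

/-- The relation used in the planar argument: an equivalence relation compatible with scaling, with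
edges between `u ∈ Li q` and `v ∈ L0` whenever `0 < |det (u, v)| < 1`. -/
structure Edges (q : ℕ) (R : ℚ × ℚ → ℚ × ℚ → Prop) : Prop where
  symm : ∀ u v, R u v → R v u
  trans : ∀ u v w, R u v → R v w → R u w
  scale : ∀ (r : ℚ) (u : ℚ × ℚ), r ≠ 0 → u ≠ 0 → R (r • u) u
  edge : ∀ u v, u ∈ Li q → v ∈ L0 → dt u v ≠ 0 → |dt u v| < 1 → R u v

variable {q : ℕ} {R : ℚ × ℚ → ℚ × ℚ → Prop}

theorem abs_int_lt_one {x : ℚ} (h : |x| < 1) (hx : ∃ k : ℤ, x = k) : x = 0 := by
  obtain ⟨k, rfl⟩ := hx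
  have : |k| < 1 := by exact_mod_cast h
  have := Int.abs_lt_one_iff.1 this
  simp [this]

/-- the second coordinate of an element of `L0 ∪ Li` is an integer -/
theorem snd_int {x : ℚ × ℚ} (hx : x ∈ L0 ∨ x ∈ Li q) : ∃ k : ℤ, x.2 = k := by
  rcases hx with ⟨i, j, rfl⟩ | ⟨i, j, rfl⟩
  · exact ⟨j, rfl⟩
  · exact ⟨j * q, by push_cast; rfl⟩

theorem dirichlet (ξ : ℚ) {n : ℕ} (hn : 0 < n) :
    ∃ j k : ℤ, 0 < k ∧ k ≤ n ∧ |(k : ℚ) * ξ - j| ≤ 1 / (n + 1) := by
  obtain ⟨j, k, h1, h2, h3⟩ := Real.exists_int_int_abs_mul_sub_le (ξ : ℝ) hn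
  refine ⟨j, k, h1, h2, ?_⟩
  have h4 : ((|(k : ℚ) * ξ - j| : ℚ) : ℝ) ≤ ((1 / (n + 1) : ℚ) : ℝ) := by push_cast; exact h3
  exact (Rat.cast_le (K := ℝ)).1 h4

/-- Dirichlet step from `x ∈ L0`. -/
theorem step_L0 (hq : 0 < q) {a b : ℤ} (hb : b ≠ 0) :
    ∃ u ∈ Li q, u ≠ 0 ∧ |dt u ((a : ℚ), (b : ℚ))| < 1 ∧ |u.2| ≤ |(b : ℚ)| := by
  have hq' : (0 : ℚ) < q := by exact_mod_cast hq
  have hb' : (0 : ℚ) < |(b : ℚ)| := by positivity
  by_cases h : |(b : ℚ)| < q
  · refine ⟨((1 : ℤ) / q, (0 : ℤ) * q), ⟨1, 0, rfl⟩, ?_, ?_, ?_⟩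
    · intro h0
      have := congrArg Prod.fst h0
      simp at this
      omega
    · simp only [dt, Int.cast_one, Int.cast_zero, zero_mul, sub_zero]
      rw [abs_mul, abs_div, abs_one, Nat.abs_cast, div_mul_eq_mul_div, one_mul, div_lt_one hq']
      exact h
    · simp
  · push Not at h
    set N : ℕ := ⌊|(b : ℚ)| / q⌋₊ with hN
    have hN1 : 0 < N := Nat.floor_pos.2 (by rwa [one_le_div hq'])
    obtain ⟨j, k, hk, hkN, hjk⟩ := dirichlet ((q : ℚ) ^ 2 * a / b) hN1
    refine ⟨((j : ℚ) / q, (k : ℚ) * q), ⟨j, k, rfl⟩, ?_, ?_, ?_⟩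
    · intro h0
      have := congrArg Prod.snd h0
      simp at this
      omega
    · have hlt : |(b : ℚ)| / q < N + 1 := Nat.lt_floor_add_one _
      have e : dt ((j : ℚ) / q, (k : ℚ) * q) ((a : ℚ), (b : ℚ)) =
          -(b / q) * (k * ((q : ℚ) ^ 2 * a / b) - j) := by
        simp only [dt]
        have hb0 : (b : ℚ) ≠ 0 := by exact_mod_cast hb
        field_simp
        ring
      rw [e, abs_mul, abs_neg, abs_div, Nat.abs_cast]
      calc |(b : ℚ)| / q * |k * ((q : ℚ) ^ 2 * a / b) - j|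
          ≤ |(b : ℚ)| / q * (1 / (N + 1)) := by gcongr
        _ < (N + 1) * (1 / (N + 1)) := by gcongr
        _ = 1 := by field_simp
    · simp only
      rw [abs_mul, Nat.abs_cast]
      have h1 : (|(k : ℚ)|) ≤ N := by
        rw [abs_of_pos (by exact_mod_cast hk)]
        exact_mod_cast hkN
      have h2 : (N : ℚ) ≤ |(b : ℚ)| / q := Nat.floor_le (by positivity)
      calc |(k : ℚ)| * q ≤ (|(b : ℚ)| / q) * q := by gcongr; exact h1.trans h2
        _ = |(b : ℚ)| := by field_simp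

/-- Dirichlet step from `x ∈ Li`. -/
theorem step_Li (hq : 0 < q) {m n : ℤ} (hn : n ≠ 0) :
    ∃ u ∈ L0, u ≠ 0 ∧ |dt ((m : ℚ) / q, (n : ℚ) * q) u| < 1 ∧ |u.2| ≤ |(n : ℚ) * q| := by
  have hq' : (0 : ℚ) < q := by exact_mod_cast hq
  have hn' : (0 : ℚ) < |(n : ℚ)| := by positivity
  set N : ℕ := n.natAbs * q with hN
  have hNq : (N : ℚ) = |(n : ℚ)| * q := by
    rw [hN, Nat.cast_mul, Nat.cast_natAbs, Int.cast_abs]
  have hN1 : 0 < N := Nat.mul_pos (Int.natAbs_pos.2 hn) hq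
  obtain ⟨j, k, hk, hkN, hjk⟩ := dirichlet ((m : ℚ) / (q ^ 2 * n)) hN1
  refine ⟨((j : ℚ), (k : ℚ)), ⟨j, k, rfl⟩, ?_, ?_, ?_⟩
  · intro h0
    have := congrArg Prod.snd h0
    simp at this
    omega
  · have e : dt ((m : ℚ) / q, (n : ℚ) * q) ((j : ℚ), (k : ℚ)) =
        (n * q) * (k * ((m : ℚ) / (q ^ 2 * n)) - j) := by
      simp only [dt]
      have hb0 : (n : ℚ) ≠ 0 := by exact_mod_cast hn
      field_simp
    rw [e, abs_mul, abs_mul, Nat.abs_cast]
    calc |(n : ℚ)| * q * |k * ((m : ℚ) / (q ^ 2 * n)) - j|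
        ≤ |(n : ℚ)| * q * (1 / (N + 1)) := by gcongr
      _ = N * (1 / (N + 1)) := by rw [hNq]
      _ < (N + 1) * (1 / (N + 1)) := by gcongr; linarith
      _ = 1 := by field_simp
  · simp only
    rw [abs_mul, Nat.abs_cast, ← hNq, abs_of_pos (by exact_mod_cast hk)]
    exact_mod_cast hkN


/-- A vector of `L0 ∪ Li` of minimal positive second coordinate on its line. -/
theorem exists_min (x : ℚ × ℚ) (hx : x ∈ L0 ∨ x ∈ Li q) (h2 : x.2 ≠ 0) :
    ∃ r : ℚ, r ≠ 0 ∧ (r • x ∈ L0 ∨ r • x ∈ Li q) ∧ |(r • x).2| ≤ |x.2| ∧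
      ∀ t : ℚ, 0 < t → t < 1 → t • (r • x) ∉ L0 ∧ t • (r • x) ∉ Li q := by
  have key : ∀ n : ℕ, ∀ x : ℚ × ℚ, (x ∈ L0 ∨ x ∈ Li q) → x.2 ≠ 0 → |x.2| ≤ n →
      ∃ r : ℚ, r ≠ 0 ∧ (r • x ∈ L0 ∨ r • x ∈ Li q) ∧ |(r • x).2| ≤ |x.2| ∧
      ∀ t : ℚ, 0 < t → t < 1 → t • (r • x) ∉ L0 ∧ t • (r • x) ∉ Li q := by
    intro n
    induction n with
    | zero =>
      intro x hx h2 hn
      simp at hn
      exact absurd hn h2
    | succ n ih =>
      intro x hx h2 hn
      by_cases h : ∃ t : ℚ, 0 < t ∧ t < 1 ∧ (t • x ∈ L0 ∨ t • x ∈ Li q)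
      · obtain ⟨t, ht0, ht1, ht⟩ := h
        have h3 : (t • x).2 ≠ 0 := mul_ne_zero ht0.ne' h2
        have h5 : |(t • x).2| < |x.2| := by
          simp only [Prod.smul_snd, smul_eq_mul, abs_mul, abs_of_pos ht0]
          exact mul_lt_of_lt_one_left (abs_pos.2 h2) ht1
        have h4 : |(t • x).2| ≤ n := by
          obtain ⟨k, hk⟩ := snd_int ht
          have h6 : |(t • x).2| < (n : ℚ) + 1 := lt_of_lt_of_le h5 (by exact_mod_cast hn)
          rw [hk] at h6 ⊢
          have : |k| < (n : ℤ) + 1 := by exact_mod_cast h6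
          exact_mod_cast (Int.lt_add_one_iff.1 this)
        obtain ⟨r, hr, h6, h7, h8⟩ := ih (t • x) ht h3 h4
        refine ⟨r * t, mul_ne_zero hr ht0.ne', ?_, ?_, ?_⟩
        · rw [← smul_smul]; exact h6
        · rw [← smul_smul]; exact h7.trans h5.le
        · rw [← smul_smul]; exact h8
      · push Not at h
        exact ⟨1, one_ne_zero, by simpa using hx, by simp, fun t h0 h1 => by
          simpa using h t h0 h1⟩
  obtain ⟨k, hk⟩ := snd_int hx
  exact key k.natAbs x hx h2 (by rw [hk, Nat.cast_natAbs, Int.cast_abs])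

/-- All nonspecial lines are connected. -/
theorem nonspecial_aux (hq : 0 < q) (hR : Edges q R) : ∀ n : ℕ, ∀ x : ℚ × ℚ, x ≠ 0 →
    (x ∈ L0 ∨ x ∈ Li q) → |x.2| ≤ n → ¬ Special L0 (Li q) x → R x (1, 0) := by
  have hq' : (0 : ℚ) < q := by exact_mod_cast hq
  intro n
  induction n with
  | zero =>
    intro x hx0 _ hn _
    simp at hn
    have h1 : x.1 ≠ 0 := fun h1 => hx0 (Prod.ext h1 hn)
    have : x = x.1 • ((1, 0) : ℚ × ℚ) := Prod.ext (by simp) (by simp [hn])
    rw [this]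
    exact hR.scale _ _ h1 (by simp)
  | succ n ih =>
    intro x hx0 hx hn hsp
    by_cases h2 : x.2 = 0
    · have h1 : x.1 ≠ 0 := fun h1 => hx0 (Prod.ext h1 h2)
      have : x = x.1 • ((1, 0) : ℚ × ℚ) := Prod.ext (by simp) (by simp [h2])
      rw [this]
      exact hR.scale _ _ h1 (by simp)
    obtain ⟨r, hr, hy, hyx, hmin⟩ := exists_min x hx h2
    have hyR : R x (r • x) := hR.symm _ _ (hR.scale r x hr hx0)
    have hy2 : (r • x).2 ≠ 0 := mul_ne_zero hr h2
    have hysp : ¬ Special L0 (Li q) (r • x) := by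
      intro h
      apply hsp
      have := h.smul (inv_ne_zero hr)
      rwa [smul_smul, inv_mul_cancel₀ hr, one_smul] at this
    have hyn : |(r • x).2| ≤ (n : ℚ) + 1 := hyx.trans (by exact_mod_cast hn)
    generalize r • x = y at *
    have hy0 : y ≠ 0 := fun h => hy2 (by rw [h]; rfl)
    -- it is enough to find a suitable neighbour
    have fin : ∀ u : ℚ × ℚ, (u ∈ L0 ∨ u ∈ Li q) → ¬ Special L0 (Li q) u → R y u → u ≠ 0 →
        |u.2| < |y.2| → R x (1, 0) := by
      intro u hu husp hRu hu0 hlt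
      refine hR.trans _ _ _ hyR (hR.trans _ _ _ hRu (ih u hu0 hu ?_ husp))
      obtain ⟨k, hk⟩ := snd_int hu
      have h6 : |u.2| < (n : ℚ) + 1 := lt_of_lt_of_le hlt hyn
      rw [hk] at h6 ⊢
      have : |k| < (n : ℤ) + 1 := by exact_mod_cast h6
      exact_mod_cast (Int.lt_add_one_iff.1 this)
    -- parallel vectors
    have par : ∀ u : ℚ × ℚ, (u ∈ L0 ∨ u ∈ Li q) → u ≠ 0 → |u.2| ≤ |y.2| → dt u y = 0 →
        u = y ∨ u = -y := by
      intro u hu hu0 hle hdt
      obtain ⟨t, rfl⟩ := exists_smul_of_dt_eq_zero hy0 hdt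
      have ht0 : t ≠ 0 := fun h => hu0 (by rw [h, zero_smul])
      have ht1 : |t| ≤ 1 := by
        simp only [Prod.smul_snd, smul_eq_mul, abs_mul] at hle
        exact (mul_le_iff_le_one_left (abs_pos.2 hy2)).1 hle
      rcases ht1.lt_or_eq with h | h
      · exfalso
        have h3 := hmin |t| (abs_pos.2 ht0) h
        rcases abs_choice t with h4 | h4
        · rw [h4] at h3; tauto
        · rw [h4, neg_smul] at h3
          rcases hu with hu | hu
          · exact h3.1 (L0.neg_mem hu)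
          · exact h3.2 ((Li q).neg_mem hu)
      · rcases (abs_eq zero_le_one).1 h with h4 | h4
        · left; rw [h4, one_smul]
        · right; rw [h4, neg_smul, one_smul]
    rcases hy with hyL | hyL
    · have hprim : Prim L0 y := Prim.of_min hyL fun t h0 h1 => (hmin t h0 h1).1
      have hyLi : y ∉ Li q := fun h => hysp
        ⟨1, one_ne_zero, by rwa [one_smul], by
          rw [one_smul]; exact Prim.of_min h fun t h0 h1 => (hmin t h0 h1).2⟩
      obtain ⟨a, b, rfl⟩ := hyL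
      have hb : b ≠ 0 := by
        rintro rfl; exact hy2 (by simp)
      obtain ⟨u, hu, hu0, hdt1, hu2⟩ := step_L0 (a := a) hq hb
      have hdt0 : dt u ((a : ℚ), (b : ℚ)) ≠ 0 := by
        intro h
        rcases par u (Or.inr hu) hu0 hu2 h with h | h
        · exact hyLi (h ▸ hu)
        · rw [h] at hu; exact hyLi (by simpa using (Li q).neg_mem hu)
      refine fin u (Or.inr hu) ?_ (hR.symm _ _ (hR.edge u _ hu ⟨a, b, rfl⟩ hdt0 hdt1)) hu0 ?_
      · rintro ⟨t, ht, hz0, hzi⟩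
        obtain ⟨k, hk⟩ := hzi.2 t⁻¹ (by rw [smul_smul, inv_mul_cancel₀ ht, one_smul]; exact hu)
        apply hdt0
        apply abs_int_lt_one hdt1
        obtain ⟨l, hl⟩ := dt_int_L0 hz0.1 ⟨a, b, rfl⟩
        refine ⟨k * l, ?_⟩
        have : u = (k : ℚ) • (t • u) := by rw [← hk, smul_smul, inv_mul_cancel₀ ht, one_smul]
        rw [this, dt_smul_left, hl]
        push_cast; rfl
      · refine lt_of_le_of_ne hu2 fun heq => hdt0 (abs_int_lt_one hdt1 ?_)
        obtain ⟨m, n', rfl⟩ := hu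
        simp only [dt] at heq ⊢
        rcases abs_eq_abs.1 heq with h | h
        · rw [← h]
          exact ⟨m * n' - n' * q * a, by push_cast; field_simp⟩
        · rw [← neg_eq_iff_eq_neg.2 h] 
          exact ⟨- m * n' - n' * q * a, by push_cast; field_simp⟩
    · have hprim : Prim (Li q) y := Prim.of_min hyL fun t h0 h1 => (hmin t h0 h1).2
      have hyL0 : y ∉ L0 := fun h => hysp
        ⟨1, one_ne_zero, by
          rw [one_smul]; exact Prim.of_min h fun t h0 h1 => (hmin t h0 h1).1, by rwa [one_smul]⟩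
      obtain ⟨m, n', rfl⟩ := hyL
      have hn' : n' ≠ 0 := by
        rintro rfl; exact hy2 (by simp)
      obtain ⟨u, hu, hu0, hdt1, hu2⟩ := step_Li (m := m) hq hn'
      have hdt0 : dt ((m : ℚ) / q, (n' : ℚ) * q) u ≠ 0 := by
        intro h
        rw [dt_swap, neg_eq_zero] at h
        rcases par u (Or.inl hu) hu0 hu2 h with h | h
        · exact hyL0 (h ▸ hu)
        · rw [h] at hu; exact hyL0 (by simpa using L0.neg_mem hu)
      refine fin u (Or.inl hu) ?_ (hR.edge _ u ⟨m, n', rfl⟩ hu hdt0 hdt1) hu0 ?_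
      · rintro ⟨t, ht, hz0, hzi⟩
        obtain ⟨k, hk⟩ := hz0.2 t⁻¹ (by rw [smul_smul, inv_mul_cancel₀ ht, one_smul]; exact hu)
        apply hdt0
        apply abs_int_lt_one hdt1
        obtain ⟨l, hl⟩ := dt_int_Li hq (⟨m, n', rfl⟩ : ((m : ℚ) / q, (n' : ℚ) * q) ∈ Li q) hzi.1
        refine ⟨k * l, ?_⟩
        have : u = (k : ℚ) • (t • u) := by rw [← hk, smul_smul, inv_mul_cancel₀ ht, one_smul]
        rw [this, dt_smul_right, hl]
        push_cast; rfl
      · refine lt_of_le_of_ne hu2 fun heq => hdt0 (abs_int_lt_one hdt1 ?_)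
        obtain ⟨a, b, rfl⟩ := hu
        simp only [dt] at heq ⊢
        rcases abs_eq_abs.1 heq with h | h
        · rw [h]
          exact ⟨m * n' - n' * q * a, by push_cast; field_simp⟩
        · rw [h]
          exact ⟨- m * n' - n' * q * a, by push_cast; field_simp⟩

theorem nonspecial (hq : 0 < q) (hR : Edges q R) {x : ℚ × ℚ} (hx0 : x ≠ 0)
    (hx : x ∈ L0 ∨ x ∈ Li q) (h : ¬ Special L0 (Li q) x) : R x (1, 0) := by
  obtain ⟨k, hk⟩ := snd_int hx
  exact nonspecial_aux hq hR k.natAbs x hx0 hx (by rw [hk, Nat.cast_natAbs, Int.cast_abs]) h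

/-! ### Bases of `L0` and `Li` -/

/-- a primitive vector of `L0` has a partner -/
theorem partner_L0 {z : ℚ × ℚ} (hz : Prim L0 z) (hz0 : z ≠ 0) : ∃ y ∈ L0, dt z y = 1 := by
  obtain ⟨⟨a, b, rfl⟩, hz⟩ := hz
  have hcop : IsCoprime a b := by
    rw [Int.isCoprime_iff_gcd_eq_one]
    set g := Int.gcd a b with hg
    have hg0 : g ≠ 0 := by
      intro h
      rw [Int.gcd_eq_zero_iff] at h
      exact hz0 (by simp [h.1, h.2])
    obtain ⟨a', ha'⟩ : (g : ℤ) ∣ a := Int.gcd_dvd_left ..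
    obtain ⟨b', hb'⟩ : (g : ℤ) ∣ b := Int.gcd_dvd_right ..
    obtain ⟨k, hk⟩ := hz (1 / g) ⟨a', b', by
      have : (g : ℚ) ≠ 0 := by exact_mod_cast hg0
      rw [ha', hb']
      ext <;> simp <;> field_simp⟩
    have hg1 : (g : ℚ) ≠ 0 := by exact_mod_cast hg0
    field_simp at hk
    have : (1 : ℤ) = g * k := by exact_mod_cast hk
    have h3 : (g : ℤ) ∣ 1 := ⟨k, this⟩
    have := Int.natAbs_dvd_natAbs.2 h3
    simpa using this
  obtain ⟨u, v, huv⟩ := hcop
  refine ⟨((-v : ℤ), (u : ℤ)), ⟨-v, u, rfl⟩, ?_⟩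
  simp only [dt]
  push_cast
  have : (u : ℚ) * a + v * b = 1 := by exact_mod_cast huv
  linarith

/-- the isomorphism of `L0` with `Li` -/
def sc (q : ℕ) (u : ℚ × ℚ) : ℚ × ℚ := (u.1 / q, u.2 * q)

theorem sc_smul (r : ℚ) (u : ℚ × ℚ) : sc q (r • u) = r • sc q u := by
  ext <;> simp [sc] <;> ring

theorem dt_sc (hq : 0 < q) (u v : ℚ × ℚ) : dt (sc q u) (sc q v) = dt u v := by
  have : (q : ℚ) ≠ 0 := by positivity
  simp only [dt, sc]
  field_simp

theorem sc_mem (hq : 0 < q) {u : ℚ × ℚ} : sc q u ∈ Li q ↔ u ∈ L0 := by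
  have : (q : ℚ) ≠ 0 := by positivity
  constructor
  · rintro ⟨i, j, h⟩
    refine ⟨i, j, ?_⟩
    have h1 := congrArg Prod.fst h
    have h2 := congrArg Prod.snd h
    simp only [sc] at h1 h2
    field_simp at h1
    exact Prod.ext h1 (mul_right_cancel₀ this h2)
  · rintro ⟨i, j, rfl⟩
    exact ⟨i, j, rfl⟩

theorem exists_sc (hq : 0 < q) (u : ℚ × ℚ) : ∃ v, u = sc q v := by
  have : (q : ℚ) ≠ 0 := by positivity
  exact ⟨(u.1 * q, u.2 / q), by ext <;> simp [sc] <;> field_simp⟩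

theorem sc_prim (hq : 0 < q) {u : ℚ × ℚ} : Prim (Li q) (sc q u) ↔ Prim L0 u := by
  simp only [Prim, sc_mem hq, ← sc_smul]

theorem partner_Li (hq : 0 < q) {z : ℚ × ℚ} (hz : Prim (Li q) z) (hz0 : z ≠ 0) :
    ∃ y ∈ Li q, dt y z = 1 := by
  obtain ⟨v, rfl⟩ := exists_sc hq z
  have hv0 : v ≠ 0 := by rintro rfl; exact hz0 (by simp [sc])
  obtain ⟨y, hy, hd⟩ := partner_L0 ((sc_prim hq).1 hz) hv0
  refine ⟨sc q (-y), (sc_mem hq).2 (L0.neg_mem hy), ?_⟩
  rw [dt_sc hq, ← hd]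
  simp only [dt, Prod.fst_neg, Prod.snd_neg]
  ring

/-- if `dt z y = 1` then `(z, y)` is a basis of `L0` -/
theorem basis_L0 {z y : ℚ × ℚ} (hz : z ∈ L0) (hy : y ∈ L0) (h : dt z y = 1) {x : ℚ × ℚ}
    (hx : x ∈ L0) : ∃ i j : ℤ, x = (i : ℚ) • z + (j : ℚ) • y := by
  obtain ⟨i, hi⟩ := dt_int_L0 hx hy
  obtain ⟨j, hj⟩ := dt_int_L0 hz hx
  refine ⟨i, j, ?_⟩
  rw [← hi, ← hj]
  simp only [dt] at h ⊢
  ext
  · simp only [Prod.fst_add, Prod.smul_fst, smul_eq_mul]
    linear_combination -x.1 * h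
  · simp only [Prod.snd_add, Prod.smul_snd, smul_eq_mul]
    linear_combination -x.2 * h

theorem basis_Li (hq : 0 < q) {z y : ℚ × ℚ} (hz : z ∈ Li q) (hy : y ∈ Li q) (h : dt z y = 1)
    {x : ℚ × ℚ} (hx : x ∈ Li q) : ∃ i j : ℤ, x = (i : ℚ) • z + (j : ℚ) • y := by
  obtain ⟨i, hi⟩ := dt_int_Li hq hx hy
  obtain ⟨j, hj⟩ := dt_int_Li hq hz hx
  refine ⟨i, j, ?_⟩
  rw [← hi, ← hj]
  simp only [dt] at h ⊢
  ext
  · simp only [Prod.fst_add, Prod.smul_fst, smul_eq_mul]
    linear_combination -x.1 * h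
  · simp only [Prod.snd_add, Prod.smul_snd, smul_eq_mul]
    linear_combination -x.2 * h

/-- members of a pair with determinant one are primitive -/
theorem prim_L0_of_dt {z y : ℚ × ℚ} (hz : z ∈ L0) (hy : y ∈ L0) (h : |dt z y| = 1) : Prim L0 z := by
  refine ⟨hz, fun r hr => ?_⟩
  obtain ⟨k, hk⟩ := dt_int_L0 hr hy
  rw [dt_smul_left] at hk
  rcases (abs_eq zero_le_one).1 h with h | h
  · exact ⟨k, by rw [← hk, h, mul_one]⟩
  · exact ⟨-k, by push_cast; rw [← hk, h]; ring⟩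

theorem prim_Li_of_dt (hq : 0 < q) {z y : ℚ × ℚ} (hz : z ∈ Li q) (hy : y ∈ Li q)
    (h : |dt z y| = 1) : Prim (Li q) z := by
  refine ⟨hz, fun r hr => ?_⟩
  obtain ⟨k, hk⟩ := dt_int_Li hq hr hy
  rw [dt_smul_left] at hk
  rcases (abs_eq zero_le_one).1 h with h | h
  · exact ⟨k, by rw [← hk, h, mul_one]⟩
  · exact ⟨-k, by push_cast; rw [← hk, h]; ring⟩

/-- `K` is a subgroup of `L` of index `p` (in the form in which it is used). -/
structure SubP (p : ℕ) (L K : AddSubgroup (ℚ × ℚ)) : Prop where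
  le : K ≤ L
  mul : ∀ x ∈ L, (p : ℚ) • x ∈ K
  ne : ∃ x ∈ L, x ∉ K
  cyc : ∀ x ∈ L, ∀ y ∈ L, x ∉ K → ∃ k : ℤ, y - (k : ℚ) • x ∈ K

theorem prim_smul_eq {L : AddSubgroup (ℚ × ℚ)} {y : ℚ × ℚ} {r : ℚ} (hy : Prim L y)
    (hr : Prim L (r • y)) (hr0 : r ≠ 0) : r = 1 ∨ r = -1 := by
  obtain ⟨k, hk⟩ := hy.2 r hr.1
  obtain ⟨l, hl⟩ := hr.2 r⁻¹ (by rw [smul_smul, inv_mul_cancel₀ hr0, one_smul]; exact hy.1)
  have h1 : (k * l : ℤ) = 1 := by
    have : (k : ℚ) * l = 1 := by rw [← hk, ← hl, mul_inv_cancel₀ hr0]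
    exact_mod_cast this
  rcases Int.eq_one_or_neg_one_of_mul_eq_one h1 with h | h
  · left; rw [hk, h]; simp
  · right; rw [hk, h]; simp

theorem ne_zero_of_dt {u v : ℚ × ℚ} (h : dt u v ≠ 0) : u ≠ 0 ∧ v ≠ 0 := by
  constructor <;> rintro rfl <;> apply h <;> simp [dt]

/-- in a basis of `L` at most one vector lies in `K` -/
theorem SubP.not_both {p : ℕ} {K : AddSubgroup (ℚ × ℚ)} (h : SubP p L0 K) {z y : ℚ × ℚ}
    (hz : z ∈ L0) (hy : y ∈ L0) (hd : dt z y = 1) (hzK : z ∈ K) : y ∉ K := by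
  intro hyK
  obtain ⟨x, hx, hxK⟩ := h.ne
  obtain ⟨i, j, rfl⟩ := basis_L0 hz hy hd hx
  exact hxK (K.add_mem (smul_mem_L hzK i) (smul_mem_L hyK j))

theorem SubP.not_both' {p : ℕ} (hq : 0 < q) {K : AddSubgroup (ℚ × ℚ)} (h : SubP p (Li q) K)
    {z y : ℚ × ℚ} (hz : z ∈ Li q) (hy : y ∈ Li q) (hd : dt z y = 1) (hzK : z ∈ K) : y ∉ K := by
  intro hyK
  obtain ⟨x, hx, hxK⟩ := h.ne
  obtain ⟨i, j, rfl⟩ := basis_Li hq hz hy hd hx
  exact hxK (K.add_mem (smul_mem_L hzK i) (smul_mem_L hyK j))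

/-- exceptional lines -/
def Exc (q : ℕ) (K0 Ki : AddSubgroup (ℚ × ℚ)) (x : ℚ × ℚ) : Prop :=
  ∃ r : ℚ, r ≠ 0 ∧ Prim L0 (r • x) ∧ Prim (Li q) (r • x) ∧ r • x ∈ K0 ∧ r • x ∈ Ki

theorem exists_smul_mem_L0 (x : ℚ × ℚ) : ∃ r : ℚ, r ≠ 0 ∧ r • x ∈ L0 := by
  refine ⟨x.1.den * x.2.den, ?_, ⟨x.1.num * x.2.den, x.2.num * x.1.den, ?_⟩⟩
  · exact mul_ne_zero (by exact_mod_cast x.1.den_ne_zero) (by exact_mod_cast x.2.den_ne_zero)
  · ext
    · simp only [Prod.smul_fst, smul_eq_mul]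
      push_cast
      have h := Rat.mul_den_eq_num x.1
      linear_combination (x.2.den : ℚ) * h
    · simp only [Prod.smul_snd, smul_eq_mul]
      push_cast
      have h := Rat.mul_den_eq_num x.2
      linear_combination (x.1.den : ℚ) * h

/-- the planar theorem -/
theorem planar {p : ℕ} (hq : 0 < q) (hR : Edges q R) {K0 Ki : AddSubgroup (ℚ × ℚ)}
    (h0 : SubP p L0 K0) (hi : SubP p (Li q) Ki)
    (htie : ∀ u v, Prim (Li q) u → Prim L0 v → |dt u v| = 1 → u ∉ Ki → v ∉ K0 → R u v) :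
    ∃ b : ℚ × ℚ, ∀ x : ℚ × ℚ, x ≠ 0 → ¬ Exc q K0 Ki x → R x b := by
  have hq' : (q : ℚ) ≠ 0 := by positivity
  -- good partners
  have part0 : ∀ z, Prim L0 z → z ≠ 0 → ∃ y ∈ L0, dt z y = 1 ∧ y ∉ K0 := by
    intro z hz hz0
    obtain ⟨y, hy, hd⟩ := partner_L0 hz hz0
    by_cases hyK : y ∈ K0
    · refine ⟨y + z, L0.add_mem hy hz.1, by rw [dt_add_right, dt_self, hd, add_zero], ?_⟩
      intro h
      have hzK : z ∈ K0 := by simpa using K0.sub_mem h hyK
      exact h0.not_both hz.1 hy hd hzK hyK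
    · exact ⟨y, hy, hd, hyK⟩
  have parti : ∀ z, Prim (Li q) z → z ≠ 0 → ∃ y ∈ Li q, dt y z = 1 ∧ y ∉ Ki := by
    intro z hz hz0
    obtain ⟨y, hy, hd⟩ := partner_Li hq hz hz0
    by_cases hyK : y ∈ Ki
    · refine ⟨y + z, (Li q).add_mem hy hz.1, by rw [dt_add_left, dt_self, hd, add_zero], ?_⟩
      intro h
      have hzK : z ∈ Ki := by simpa using Ki.sub_mem h hyK
      exact hi.not_both' hq hy hz.1 hd hyK hzK
    · exact ⟨y, hy, hd, hyK⟩
  rcases Nat.lt_or_ge 1 q with hq2 | hq1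
  · -- the case `q ≥ 2`
    refine ⟨(1, 0), fun x hx hexc => ?_⟩
    have hnsp : ∀ y : ℚ × ℚ, y ≠ 0 → ¬ Special L0 (Li q) y → R y (1, 0) := by
      intro y hy hsp
      obtain ⟨r, hr, hry⟩ := exists_smul_mem_L0 y
      refine hR.trans _ _ _ (hR.symm _ _ (hR.scale r y hr hy))
        (nonspecial hq hR (smul_ne_zero hr hy) (Or.inl hry) ?_)
      intro h
      have := h.smul (inv_ne_zero hr)
      rw [smul_smul, inv_mul_cancel₀ hr, one_smul] at this
      exact hsp this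
    by_cases hsp : Special L0 (Li q) x
    · obtain ⟨r, hr, hz0, hzi⟩ := hsp
      have hxz := hR.symm _ _ (hR.scale r x hr hx)
      have hzne : r • x ≠ 0 := smul_ne_zero hr hx
      have hzK : r • x ∉ Ki ∨ r • x ∉ K0 := by
        by_contra h
        push Not at h
        exact hexc ⟨r, hr, hz0, hzi, h.2, h.1⟩
      generalize r • x = z at *
      rcases hzK with hzK | hzK
      · obtain ⟨y, hy, hd, hyK⟩ := part0 z hz0 hzne
        have hyp : Prim L0 y := prim_L0_of_dt hy hz0.1 (by rw [dt_swap, hd]; simp)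
        have hy0 : y ≠ 0 := (ne_zero_of_dt (by rw [hd]; exact one_ne_zero)).2
        refine hR.trans _ _ _ hxz (hR.trans _ _ _ (htie z y hzi hyp (by rw [hd]; simp) hzK hyK)
          (hnsp y hy0 ?_))
        rintro ⟨s, hs, h1, h2⟩
        have hyi : y ∈ Li q := by
          rcases prim_smul_eq hyp h1 hs with h | h
          · rw [h, one_smul] at h2; exact h2.1
          · rw [h, neg_smul, one_smul] at h2; simpa using (Li q).neg_mem h2.1
        obtain ⟨i, j, hij⟩ := basis_L0 hz0.1 hy hd (⟨0, 1, by simp⟩ : ((0 : ℚ), (1 : ℚ)) ∈ L0)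
        have : ((0 : ℚ), (1 : ℚ)) ∈ Li q := by
          rw [hij]; exact (Li q).add_mem (smul_mem_L hzi.1 i) (smul_mem_L hyi j)
        obtain ⟨a, b, hab⟩ := this
        have h3 := congrArg Prod.snd hab
        simp only at h3
        have h4 : (1 : ℤ) = b * q := by exact_mod_cast h3
        have h5 : (q : ℤ) ∣ 1 := ⟨b, by rw [mul_comm]; exact h4⟩
        have := Int.natAbs_dvd_natAbs.2 h5
        simp at this
        omega
      · obtain ⟨y, hy, hd, hyK⟩ := parti z hzi hzne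
        have hyp : Prim (Li q) y := prim_Li_of_dt hq hy hzi.1 (by rw [hd]; simp)
        have hy0 : y ≠ 0 := (ne_zero_of_dt (by rw [hd]; exact one_ne_zero)).1
        refine hR.trans _ _ _ hxz (hR.trans _ _ _
          (hR.symm _ _ (htie y z hyp hz0 (by rw [hd]; simp) hyK hzK)) (hnsp y hy0 ?_))
        rintro ⟨s, hs, h1, h2⟩
        have hyi : y ∈ L0 := by
          rcases prim_smul_eq hyp h2 hs with h | h
          · rw [h, one_smul] at h1; exact h1.1
          · rw [h, neg_smul, one_smul] at h1; simpa using L0.neg_mem h1.1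
        obtain ⟨i, j, hij⟩ := basis_Li hq hy hzi.1 hd
          (⟨1, 0, by simp⟩ : ((1 : ℚ) / q, (0 : ℚ)) ∈ Li q)
        have : ((1 : ℚ) / q, (0 : ℚ)) ∈ L0 := by
          rw [hij]; exact L0.add_mem (smul_mem_L hyi i) (smul_mem_L hz0.1 j)
        obtain ⟨a, b, hab⟩ := this
        have h3 := congrArg Prod.fst hab
        simp only at h3
        field_simp at h3
        have h4 : (1 : ℤ) = q * a := by exact_mod_cast h3
        have h5 : (q : ℤ) ∣ 1 := ⟨a, h4⟩
        have := Int.natAbs_dvd_natAbs.2 h5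
        simp at this
        omega
    · exact hnsp x hx hsp
  · -- the case `q = 1`
    have hq1 : q = 1 := by omega
    subst hq1
    have hLi : Li 1 = L0 := by
      ext u
      simp [mem_Li, mem_L0]
    rw [hLi] at hi htie parti
    -- adjacent vectors outside `K0`
    have adj : ∀ x y, x ∈ L0 → y ∈ L0 → dt x y = 1 → x ∉ K0 → y ∉ K0 → R x y := by
      intro x y hx hy hd hxK hyK
      have hxp : Prim L0 x := prim_L0_of_dt hx hy (by rw [hd]; simp)
      have hyp : Prim L0 y := prim_L0_of_dt hy hx (by rw [dt_swap, hd]; simp)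
      by_cases hxi : x ∈ Ki
      · have hyi := hi.not_both hx hy hd hxi
        exact hR.symm _ _ (htie y x hyp hxp (by rw [dt_swap, hd]; simp) hyi hxK)
      · exact htie x y hxp hyp (by rw [hd]; simp) hxi hyK
    -- a primitive vector in `K0`
    obtain ⟨f1, hf1, hf1K⟩ : ∃ f1, Prim L0 f1 ∧ f1 ∈ K0 := by
      have e1 : ((1 : ℚ), (0 : ℚ)) ∈ L0 := ⟨1, 0, by simp⟩
      have e2 : ((0 : ℚ), (1 : ℚ)) ∈ L0 := ⟨0, 1, by simp⟩
      by_cases he : ((1 : ℚ), (0 : ℚ)) ∈ K0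
      · exact ⟨_, prim_L0_of_dt e1 e2 (by simp [dt]), he⟩
      · obtain ⟨k, hk⟩ := h0.cyc _ e1 _ e2 he
        exact ⟨_, prim_L0_of_dt (h0.le hk) e1 (by simp [dt]), hk⟩
    have hf10 : f1 ≠ 0 := by
      rintro rfl
      obtain ⟨k, hk⟩ := hf1.2 (1 / 2) (by rw [smul_zero]; exact L0.zero_mem)
      have h2 : (1 : ℚ) = 2 * k := by rw [← hk]; norm_num
      have h3 : (1 : ℤ) = 2 * k := by exact_mod_cast h2
      omega
    obtain ⟨f2, hf2, hd, hf2K⟩ := part0 f1 hf1 hf10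
    have hmemK : ∀ a b : ℤ, ((a : ℚ) • f1 + (b : ℚ) • f2 ∈ K0 ↔ (b : ℚ) • f2 ∈ K0) := by
      intro a b
      constructor
      · intro h; simpa using K0.sub_mem h (smul_mem_L hf1K a)
      · intro h; exact K0.add_mem (smul_mem_L hf1K a) h
    have hmemL : ∀ a b : ℤ, (a : ℚ) • f1 + (b : ℚ) • f2 ∈ L0 := fun a b =>
      L0.add_mem (smul_mem_L hf1.1 a) (smul_mem_L hf2 b)
    have hdt : ∀ a b a' b' : ℤ, dt ((a : ℚ) • f1 + (b : ℚ) • f2) ((a' : ℚ) • f1 + (b' : ℚ) • f2) =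
        a * b' - b * a' := by
      intro a b a' b'
      have h2 : dt f2 f1 = -1 := by rw [dt_swap, hd]
      rw [dt_add_left, dt_add_right, dt_add_right]
      simp only [dt_smul_left, dt_smul_right, dt_self, hd, h2]
      ring
    have base : ∀ k : ℤ, R ((k : ℚ) • f1 + ((1 : ℤ) : ℚ) • f2) f2 := by
      have hK : ∀ k : ℤ, (k : ℚ) • f1 + ((1 : ℤ) : ℚ) • f2 ∉ K0 := by
        intro k h
        rw [hmemK] at h
        exact hf2K (by simpa using h)
      have hf20 : f2 ≠ 0 := (ne_zero_of_dt (by rw [hd]; exact one_ne_zero)).2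
      have hstep : ∀ k : ℤ, R (((k + 1 : ℤ) : ℚ) • f1 + ((1 : ℤ) : ℚ) • f2)
          ((k : ℚ) • f1 + ((1 : ℤ) : ℚ) • f2) := fun k =>
        adj _ _ (hmemL _ _) (hmemL _ _) (by rw [hdt]; push_cast; ring) (hK _) (hK _)
      intro k
      induction k using Int.induction_on with
      | zero => simpa using hR.scale 1 f2 one_ne_zero hf20
      | succ k ih => exact hR.trans _ _ _ (hstep _) ih
      | pred k ih =>
        refine hR.trans _ _ _ (hR.symm _ _ ?_) ih
        have := hstep (-(k : ℤ) - 1)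
        rwa [sub_add_cancel] at this
    have main : ∀ n : ℕ, ∀ a b : ℤ, IsCoprime a b → (b : ℚ) • f2 ∉ K0 → b.natAbs ≤ n →
        R ((a : ℚ) • f1 + (b : ℚ) • f2) f2 := by
      intro n
      induction n with
      | zero =>
        intro a b _ hb hn
        have : b = 0 := by omega
        exact absurd (by rw [this]; simpa using K0.zero_mem) hb
      | succ n ih =>
        intro a b hab hb hn
        have hb0 : b ≠ 0 := by rintro rfl; exact hb (by simpa using K0.zero_mem)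
        have hx0 : (a : ℚ) • f1 + (b : ℚ) • f2 ≠ 0 := by
          intro h
          have h1 : dt f1 ((a : ℚ) • f1 + (b : ℚ) • f2) = b := by
            rw [dt_add_right, dt_smul_right, dt_smul_right, dt_self, hd]; ring
          rw [h] at h1
          simp [dt] at h1
          exact hb0 (by exact_mod_cast h1.symm)
        by_cases hb1 : b.natAbs = 1
        · rcases Int.natAbs_eq b with h | h
          · rw [hb1] at h
            have : b = 1 := by simp at h; exact h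
            rw [this]; exact base a
          · rw [hb1] at h
            have : b = -1 := by simp at h; exact h
            rw [this] at hx0 ⊢
            have h2 := hR.symm _ _ (hR.scale (-1) _ (by norm_num) hx0)
            refine hR.trans _ _ _ h2 ?_
            have := base (-a)
            convert this using 1
            push_cast
            module
        · -- a neighbour with smaller second coordinate
          obtain ⟨u, v, huv⟩ := hab
          -- `u * a + v * b = 1`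
          have hdvd : ∃ a' b' : ℤ, a * b' - b * a' = 1 ∧ 0 ≤ b' ∧ b' < |b| := by
            refine ⟨-(v + a * (u / b)), u % b, ?_, Int.emod_nonneg _ hb0, Int.emod_lt_abs _ hb0⟩
            have := Int.emod_add_mul_ediv u b
            linear_combination huv + a * this
          obtain ⟨a', b', h1, h2, h3⟩ := hdvd
          have hb'0 : b' ≠ 0 := by
            rintro rfl
            have h4 : b ∣ 1 := ⟨-a', by linarith⟩
            have := Int.natAbs_dvd_natAbs.2 h4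
            simp at this
            omega
          have hgo : ∀ a' b' : ℤ, a * b' - b * a' = 1 → (b' : ℚ) • f2 ∉ K0 → b'.natAbs ≤ n →
              R ((a : ℚ) • f1 + (b : ℚ) • f2) f2 := by
            intro a' b' h1 h2 h3
            refine hR.trans _ _ _ (adj _ _ (hmemL _ _) (hmemL a' b')
              (by rw [hdt]; exact_mod_cast h1) ?_ ?_) (ih a' b' ⟨-b, a, by linarith⟩ h2 h3)
            · rw [hmemK]; exact hb
            · rw [hmemK]; exact h2
          have habs : |b| = b.natAbs := by simp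
          by_cases hb'K : (b' : ℚ) • f2 ∈ K0
          · rcases le_or_gt 0 b with hpos | hneg
            · refine hgo (a' - a) (b' - b) (by linarith) ?_ ?_
              · intro h
                push_cast at h
                rw [sub_smul] at h
                apply hb
                have := K0.sub_mem hb'K h
                simpa using this
              · rw [abs_of_nonneg hpos] at h3; omega
            · refine hgo (a' + a) (b' + b) (by linarith) ?_ ?_
              · intro h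
                push_cast at h
                rw [add_smul] at h
                apply hb
                have := K0.sub_mem h hb'K
                simpa using this
              · rw [abs_of_neg hneg] at h3; omega
          · exact hgo a' b' h1 hb'K (by omega)
    refine ⟨f2, fun x hx hexc => ?_⟩
    -- a primitive vector on the line of `x`
    obtain ⟨z, hz, hzx, hz0⟩ : ∃ z, Prim L0 z ∧ (∃ r : ℚ, r ≠ 0 ∧ z = r • x) ∧ z ≠ 0 := by
      obtain ⟨r, hr, hrx⟩ := exists_smul_mem_L0 x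
      obtain ⟨i, j, hij⟩ := hrx
      have hne : ((i : ℚ), (j : ℚ)) ≠ 0 := by rw [← hij]; exact smul_ne_zero hr hx
      have hg : Int.gcd i j ≠ 0 := by
        intro h
        rw [Int.gcd_eq_zero_iff] at h
        exact hne (by rw [h.1, h.2]; simp)
      obtain ⟨i', j', hcop', hi'', hj''⟩ := Int.exists_gcd_one (Nat.pos_of_ne_zero hg)
      have hi' : i = Int.gcd i j * i' := by rw [mul_comm]; exact hi''
      have hj' : j = Int.gcd i j * j' := by rw [mul_comm]; exact hj''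
      have hgq : (Int.gcd i j : ℚ) ≠ 0 := by exact_mod_cast hg
      have hz : ((i' : ℚ), (j' : ℚ)) = ((Int.gcd i j : ℚ)⁻¹ * r) • x := by
        rw [← smul_smul, hij]
        have e1 : (i : ℚ) = Int.gcd i j * i' := by exact_mod_cast hi'
        have e2 : (j : ℚ) = Int.gcd i j * j' := by exact_mod_cast hj'
        ext
        · simp only [Prod.smul_fst, smul_eq_mul]
          rw [e1]; field_simp
        · simp only [Prod.smul_snd, smul_eq_mul]
          rw [e2]; field_simp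
      have hcop : IsCoprime i' j' := by
        rw [Int.isCoprime_iff_gcd_eq_one]
        exact hcop'
      obtain ⟨u, v, huv⟩ := hcop
      refine ⟨((i' : ℚ), (j' : ℚ)), ?_, ⟨_, ?_, hz⟩, ?_⟩
      · refine prim_L0_of_dt (y := ((-v : ℤ), (u : ℤ))) ⟨i', j', rfl⟩ ⟨-v, u, rfl⟩ ?_
        have : (u : ℚ) * i' + v * j' = 1 := by exact_mod_cast huv
        simp only [dt]
        push_cast
        rw [show (i' : ℚ) * u - j' * -v = 1 by linarith]
        simp
      · exact mul_ne_zero (inv_ne_zero hgq) hr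
      · rw [hz]; exact smul_ne_zero (mul_ne_zero (inv_ne_zero hgq) hr) hx
    obtain ⟨r, hr, rfl⟩ := hzx
    refine hR.trans _ _ _ (hR.symm _ _ (hR.scale r x hr hx)) ?_
    have hout : ∀ w, Prim L0 w → w ∉ K0 → R w f2 := by
      intro w hw hwK
      obtain ⟨a, b, hab⟩ := basis_L0 hf1.1 hf2 hd hw.1
      have hcop : IsCoprime a b := by
        rw [Int.isCoprime_iff_gcd_eq_one]
        have hg : Int.gcd a b ≠ 0 := by
          intro h
          rw [Int.gcd_eq_zero_iff] at h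
          rw [h.1, h.2] at hab
          simp at hab
          exact hwK (by rw [hab]; exact K0.zero_mem)
        obtain ⟨a', ha'⟩ : (Int.gcd a b : ℤ) ∣ a := Int.gcd_dvd_left ..
        obtain ⟨b', hb'⟩ : (Int.gcd a b : ℤ) ∣ b := Int.gcd_dvd_right ..
        have hgq : (Int.gcd a b : ℚ) ≠ 0 := by exact_mod_cast hg
        obtain ⟨k, hk⟩ := hw.2 (Int.gcd a b : ℚ)⁻¹ (by
          have e1 : (a : ℚ) = Int.gcd a b * a' := by exact_mod_cast ha'
          have e2 : (b : ℚ) = Int.gcd a b * b' := by exact_mod_cast hb'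
          have : (Int.gcd a b : ℚ)⁻¹ • w = (a' : ℚ) • f1 + (b' : ℚ) • f2 := by
            rw [hab, e1, e2, smul_add, smul_smul, smul_smul, ← mul_assoc, ← mul_assoc,
              inv_mul_cancel₀ hgq, one_mul, one_mul]
          rw [this]; exact hmemL _ _)
        have h1 : (1 : ℚ) = Int.gcd a b * k := by rw [← hk]; field_simp
        have h3 : (Int.gcd a b : ℤ) ∣ 1 := ⟨k, by exact_mod_cast h1⟩
        have := Int.natAbs_dvd_natAbs.2 h3
        simpa using this
      rw [hab]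
      refine main b.natAbs a b hcop ?_ le_rfl
      rw [← hmemK a]; rwa [← hab]
    by_cases hzK : r • x ∈ K0
    · have hzi : r • x ∉ Ki := fun h => hexc ⟨r, hr, hz, by rw [hLi]; exact hz, hzK, h⟩
      obtain ⟨y, hy, hd', hyK⟩ := part0 _ hz hz0
      have hyp : Prim L0 y := prim_L0_of_dt hy hz.1 (by rw [dt_swap, hd']; simp)
      exact hR.trans _ _ _ (htie _ y hz hyp (by rw [hd']; simp) hzi hyK) (hout y hyp hyK)
    · exact hout _ hz hzK

end Pool.Agent.W411.LP
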