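import Pool.Agent.W411.LP.MpMod

/-!
# Primitive vectors
-/

set_option autoImplicit false

namespace Pool.Agent.W411.LP

open LaurentPolynomial AddSubgroup

/-- a primitive vector of `L0` on a line -/
theorem exists_prim_L0 {x : ℚ × ℚ} (hx : x ≠ 0) : ∃ r : ℚ, r ≠ 0 ∧ Prim L0 (r • x) := by
  obtain ⟨r, hr, i, j, hij⟩ := exists_smul_mem_L0 x
  have hne : ((i : ℚ), (j : ℚ)) ≠ 0 := by rw [← hij]; exact smul_ne_zero hr hx
  have hg : Int.gcd i j ≠ 0 := by
    intro h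
    rw [Int.gcd_eq_zero_iff] at h
    exact hne (by rw [h.1, h.2]; simp)
  obtain ⟨i', j', hcop, hi, hj⟩ := Int.exists_gcd_one (Nat.pos_of_ne_zero hg)
  have hgq : (Int.gcd i j : ℚ) ≠ 0 := by exact_mod_cast hg
  have hz : ((i' : ℚ), (j' : ℚ)) = ((Int.gcd i j : ℚ)⁻¹ * r) • x := by
    rw [← smul_smul, hij]
    have e1 : (i : ℚ) = i' * Int.gcd i j := by exact_mod_cast hi
    have e2 : (j : ℚ) = j' * Int.gcd i j := by exact_mod_cast hj
    ext
    · simp only [Prod.smul_fst, smul_eq_mul]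
      rw [e1]; field_simp
    · simp only [Prod.smul_snd, smul_eq_mul]
      rw [e2]; field_simp
  refine ⟨_, mul_ne_zero (inv_ne_zero hgq) hr, ?_⟩
  rw [← hz]
  obtain ⟨u, v, huv⟩ := Int.isCoprime_iff_gcd_eq_one.2 hcop
  refine prim_L0_of_dt (y := ((-v : ℤ), (u : ℤ))) ⟨i', j', rfl⟩ ⟨-v, u, rfl⟩ ?_
  have : (u : ℚ) * i' + v * j' = 1 := by exact_mod_cast huv
  simp only [dt]
  push_cast
  rw [show (i' : ℚ) * u - j' * -v = 1 by linarith]
  simp

theorem exists_prim_Li {q : ℕ} (hq : 0 < q) {x : ℚ × ℚ} (hx : x ≠ 0) :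
    ∃ r : ℚ, r ≠ 0 ∧ Prim (Li q) (r • x) := by
  obtain ⟨y, rfl⟩ := exists_sc hq x
  have hy : y ≠ 0 := by rintro rfl; exact hx (by simp [sc])
  obtain ⟨r, hr, h⟩ := exists_prim_L0 hy
  exact ⟨r, hr, by rw [← sc_smul]; exact (sc_prim hq).2 h⟩

theorem Prim.iff {L : AddSubgroup (ℚ × ℚ)} {z : ℚ × ℚ} (h : Prim L z) (r : ℚ) :
    r • z ∈ L ↔ ∃ k : ℤ, r = k := by
  constructor
  · exact h.2 r
  · rintro ⟨k, rfl⟩
    exact smul_mem_L h.1 k

/-- primitive vectors -/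
def PrimW (X : AddSubgroup W) (z : W) : Prop := z ∈ X ∧ ∀ r : ℚ, (C r : F) • z ∈ X → ∃ k : ℤ, r = k

theorem zC_mem {X : AddSubgroup W} {z : W} (h : z ∈ X) (k : ℤ) : (C (k : ℚ) : F) • z ∈ X := by
  have : (C (k : ℚ) : F) = k := by simp
  rw [this, Int.cast_smul_eq_zsmul]
  exact X.zsmul_mem h k

theorem PrimW.iff {X : AddSubgroup W} {z : W} (h : PrimW X z) (r : ℚ) :
    (C r : F) • z ∈ X ↔ ∃ k : ℤ, r = k := by
  constructor
  · exact h.2 r
  · rintro ⟨k, rfl⟩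
    exact zC_mem h.1 k

theorem PrimW.not_mem {z : W} (h : PrimW M z) {p : ℕ} (hp : p.Prime) :
    (C ((p : ℚ)⁻¹) : F) • z ∉ M := by
  intro h1
  obtain ⟨k, hk⟩ := h.2 _ h1
  have hp0 : (p : ℚ) ≠ 0 := by exact_mod_cast hp.ne_zero
  have h2 : (1 : ℚ) = p * k := by rw [← hk]; field_simp
  have h3 : (1 : ℤ) = p * k := by exact_mod_cast h2
  have h4 : (p : ℤ) ∣ 1 := ⟨k, h3⟩
  have := Int.natAbs_dvd_natAbs.2 h4
  simp at this
  exact hp.one_lt.ne' this

/-- a primitive integral vector on a line -/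
theorem exists_prim_M {y : W} (hy : y ≠ 0) : ∃ r : ℚ, r ≠ 0 ∧ PrimW M ((C r : F) • y) := by
  obtain ⟨n, hn, hnM⟩ := exists_nat_smul_mem y
  have hn0 : (n : ℚ) ≠ 0 := by positivity
  set y' := (C (n : ℚ) : F) • y with hy'
  have hy0 : y' ≠ 0 := by
    intro h
    rcases C_smul_eq_zero h with h | h
    · exact hn0 h
    · exact hy h
  obtain ⟨m, hm0, hm⟩ : ∃ m : ℤ, m ≠ 0 ∧ ∀ t : ℚ, (C t : F) • y' ∈ M → ∃ k : ℤ, t * m = k := by
    have key : ∀ f : F, f ∈ AF → f ≠ 0 → (∀ t : ℚ, (C t : F) • y' ∈ M → C t * f ∈ AF) →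
        ∃ m : ℤ, m ≠ 0 ∧ ∀ t : ℚ, (C t : F) • y' ∈ M → ∃ k : ℤ, t * m = k := by
      intro f hf hf0 hft
      obtain ⟨i, hi⟩ : ∃ i, f.coeff i ≠ 0 := by
        by_contra hne
        push Not at hne
        exact hf0 (LaurentPolynomial.ext fun i => by rw [hne i]; simp)
      obtain ⟨m, hm⟩ := mem_AF.1 hf i
      refine ⟨m, by rintro rfl; exact hi (by rw [hm]; simp), fun t ht => ?_⟩
      obtain ⟨k, hk⟩ := mem_AF.1 (hft t ht) i
      exact ⟨k, by rw [← hk, coeff_C_mul, hm]⟩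
    by_cases h1 : y'.1 = 0
    · have h2 : y'.2 ≠ 0 := fun h2 => hy0 (Prod.ext h1 h2)
      exact key y'.2 hnM.2 h2 fun t ht => ht.2
    · exact key y'.1 hnM.1 h1 fun t ht => ht.1
  let G : AddSubgroup ℚ :=
    { carrier := {t | (C t : F) • y' ∈ M}
      zero_mem' := by simp [M.zero_mem]
      add_mem' := fun {s t} hs ht => by
        show (C (s + t) : F) • y' ∈ M
        rw [C.map_add, add_smul]; exact M.add_mem hs ht
      neg_mem' := fun {s} hs => by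
        show (C (-s) : F) • y' ∈ M
        rw [Cneg, neg_smul]; exact M.neg_mem hs }
  have hG : ∀ t, t ∈ G ↔ (C t : F) • y' ∈ M := fun _ => Iff.rfl
  obtain ⟨t, ht0, ht⟩ := cyclic_of_bdd G (by rw [hG, C.map_one, one_smul]; exact hnM)
    (n := m.natAbs) (Nat.pos_of_ne_zero (Int.natAbs_ne_zero.2 hm0)) (by
      intro r hr
      obtain ⟨k, hk⟩ := hm r hr
      rcases le_or_gt 0 m with h | h
      · refine ⟨k, ?_⟩
        rw [← hk, Nat.cast_natAbs, abs_of_nonneg h, mul_comm]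
      · refine ⟨-k, ?_⟩
        push_cast
        rw [← hk, Nat.cast_natAbs, abs_of_neg h]
        push_cast
        ring)
  refine ⟨t * n, mul_ne_zero ht0 hn0, ?_⟩
  have e : (C (t * n) : F) • y = (C t : F) • y' := by rw [hy', smul_smul, C.map_mul]
  rw [e]
  refine ⟨(hG t).1 ((ht t).2 ⟨1, by simp⟩), fun r hr => ?_⟩
  rw [smul_smul, ← C.map_mul, ← hG, ht] at hr
  obtain ⟨k, hk⟩ := hr
  exact ⟨k, mul_right_cancel₀ ht0 hk⟩

/-- **Gauss's lemma** for vectors -/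
theorem mem_AF_of_smul {s : W} (hs : PrimW M s) {f : F} (hf : f • s ∈ M) : f ∈ AF := by
  by_contra hne
  obtain ⟨N, hN, hNf, p, hp, ⟨l, hl⟩, hpn⟩ := exists_prime_of_not_mem hne
  apply hpn
  refine gauss_smul hp hNf hs.1 (hs.not_mem hp) ?_
  have : (C ((p : ℚ)⁻¹) : F) • ((C (N : ℚ) * f) • s) = (C ((l : ℤ) : ℚ) : F) • (f • s) := by
    rw [smul_smul, smul_smul, ← mul_assoc, ← C.map_mul, hl]
    congr 3
    have hp0 : (p : ℚ) ≠ 0 := by exact_mod_cast hp.ne_zero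
    push_cast
    field_simp
  rw [this]
  exact zC_mem hf l

/-- the relation generated by the vertices of bounded defect -/
inductive Rel (D : ℕ) : W → W → Prop
  | same (w : W) (r : ℚ) (i : ℤ) (hr : r ≠ 0) : Rel D ((C r * T i : F) • w) w
  | adj (v : Vtx) (h : v.D M ≤ D) (u w : W) (hu : u ∈ v.V) (hw : w ∈ v.V) (hu0 : u ≠ 0)
      (hw0 : w ≠ 0) : Rel D u w
  | symm {u w : W} (h : Rel D u w) : Rel D w u
  | trans {u v w : W} (h : Rel D u v) (h' : Rel D v w) : Rel D u w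

theorem Rel.refl (D : ℕ) (w : W) : Rel D w w := by
  have := Rel.same (D := D) w 1 0 one_ne_zero
  rwa [C.map_one, T_zero, one_mul, one_smul] at this

theorem Rel.smul (D : ℕ) (w : W) {r : ℚ} (hr : r ≠ 0) : Rel D ((C r : F) • w) w := by
  have := Rel.same (D := D) w r 0 hr
  rwa [T_zero, mul_one] at this

theorem Rel.T (D : ℕ) (w : W) (i : ℤ) : Rel D ((T i : F) • w) w := by
  have := Rel.same (D := D) w 1 i one_ne_zero
  rwa [C.map_one, one_mul] at this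

theorem Rel.mono {D D' : ℕ} (h : D ≤ D') {u w : W} (hr : Rel D u w) : Rel D' u w := by
  induction hr with
  | same w r i hr => exact Rel.same w r i hr
  | adj v h' u w hu hw hu0 hw0 => exact Rel.adj v (h'.trans h) u w hu hw hu0 hw0
  | symm _ ih => exact ih.symm
  | trans _ _ ih ih' => exact ih.trans ih'

end Pool.Agent.W411.LP
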