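import Pool.Agent.W411.LP.Lat

/-!
# Subgroups of prime index
-/

set_option autoImplicit false

namespace Pool.Agent.W411.LP

open AddSubgroup

theorem relIndex_eq_prime {G : Type*} [AddCommGroup G] {K L : AddSubgroup G} {p : ℕ} (hp : p.Prime)
    (hmul : ∀ x ∈ L, p • x ∈ K) {x : G} (hx : x ∈ L) (hxK : x ∉ K)
    (hcyc : ∀ y ∈ L, ∃ k : ℤ, y - k • x ∈ K) : K.relIndex L = p := by
  have : Fact p.Prime := ⟨hp⟩
  rw [AddSubgroup.relIndex, AddSubgroup.index]
  set z : L ⧸ K.addSubgroupOf L := QuotientAddGroup.mk ⟨x, hx⟩ with hz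
  have h1 : addOrderOf z = p := by
    refine addOrderOf_eq_prime ?_ ?_
    · rw [hz, ← QuotientAddGroup.mk_nsmul, QuotientAddGroup.eq_zero_iff, mem_addSubgroupOf]
      exact hmul x hx
    · rw [hz, Ne, QuotientAddGroup.eq_zero_iff, mem_addSubgroupOf]
      exact hxK
  rw [← h1]
  refine (addOrderOf_eq_card_of_forall_mem_zmultiples fun w => ?_).symm
  obtain ⟨⟨y, hy⟩, rfl⟩ := QuotientAddGroup.mk_surjective w
  obtain ⟨k, hk⟩ := hcyc y hy
  refine ⟨k, ?_⟩
  show k • z = _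
  rw [hz, ← QuotientAddGroup.mk_zsmul, QuotientAddGroup.eq, mem_addSubgroupOf]
  show -(k • x) + y ∈ K
  rwa [neg_add_eq_sub]

theorem mul_mem_of_relIndex {G : Type*} [AddCommGroup G] {K L : AddSubgroup G} {n : ℕ}
    (h : K.relIndex L = n) {x : G} (hx : x ∈ L) : n • x ∈ K := by
  rw [AddSubgroup.relIndex] at h
  have := AddSubgroup.nsmul_index_mem (K.addSubgroupOf L) (⟨x, hx⟩ : L)
  rw [h, mem_addSubgroupOf] at this
  exact this

theorem cyc_of_relIndex {G : Type*} [AddCommGroup G] {K L : AddSubgroup G} {p : ℕ} (hp : p.Prime)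
    (hKL : K ≤ L) (h : K.relIndex L = p) {x : G} (hx : x ∈ L) (hxK : x ∉ K) {y : G} (hy : y ∈ L) :
    ∃ k : ℤ, y - k • x ∈ K := by
  have h1 : K ≤ K ⊔ zmultiples x := le_sup_left
  have h2 : K ⊔ zmultiples x ≤ L := sup_le hKL ((zmultiples_le_of_mem hx))
  have h3 := relIndex_mul_relIndex _ _ _ h1 h2
  rw [h] at h3
  rcases (Nat.dvd_prime hp).1 (Dvd.intro _ h3) with h4 | h4
  · rw [relIndex_eq_one] at h4
    exact absurd (h4 (mem_sup_right (mem_zmultiples x))) hxK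
  · rw [h4] at h3
    have h5 : (K ⊔ zmultiples x).relIndex L = 1 := by
      have := hp.pos
      exact Nat.eq_of_mul_eq_mul_left this (by rw [h3, mul_one])
    rw [relIndex_eq_one] at h5
    obtain ⟨k, hk, z, hz, hkz⟩ := AddSubgroup.mem_sup.1 (h5 hy)
    obtain ⟨m, rfl⟩ := AddSubgroup.mem_zmultiples_iff.1 hz
    exact ⟨m, by rw [← hkz, add_sub_cancel_right]; exact hk⟩

theorem SubP_of_relIndex {p : ℕ} (hp : p.Prime) {L K : AddSubgroup (ℚ × ℚ)} (hKL : K ≤ L)
    (h : K.relIndex L = p) : SubP p L K where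
  le := hKL
  mul x hx := by
    rw [Nat.cast_smul_eq_nsmul]
    exact mul_mem_of_relIndex h hx
  ne := by
    by_contra hne
    push Not at hne
    have : K.relIndex L = 1 := relIndex_eq_one.2 hne
    rw [h] at this
    exact hp.one_lt.ne' this
  cyc x hx y hy hxK := by
    obtain ⟨k, hk⟩ := cyc_of_relIndex hp hKL h hx hxK hy
    exact ⟨k, by rwa [Int.cast_smul_eq_zsmul]⟩

end Pool.Agent.W411.LP
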