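import Pool.Agent.W411.LP.E1b

/-!
# Transport of vertices
-/

set_option autoImplicit false

namespace Pool.Agent.W411.LP

open LaurentPolynomial AddSubgroup

/-- the image of a subgroup -/
noncomputable def mp (g : W ≃ₗ[F] W) (X : AddSubgroup W) : AddSubgroup W :=
  X.map (g.toAddEquiv : W →+ W)

theorem mem_mp {g : W ≃ₗ[F] W} {X : AddSubgroup W} {m : W} : m ∈ mp g X ↔ g.symm m ∈ X := by
  rw [mp, AddSubgroup.mem_map]
  constructor
  · rintro ⟨n, hn, rfl⟩
    show g.symm (g n) ∈ X
    rwa [LinearEquiv.symm_apply_apply]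
  · intro h
    exact ⟨g.symm m, h, g.apply_symm_apply m⟩

theorem apply_mem_mp {g : W ≃ₗ[F] W} {X : AddSubgroup W} {m : W} : g m ∈ mp g X ↔ m ∈ X := by
  rw [mem_mp, LinearEquiv.symm_apply_apply]

theorem mp_inf (g : W ≃ₗ[F] W) (X Y : AddSubgroup W) : mp g (X ⊓ Y) = mp g X ⊓ mp g Y :=
  AddSubgroup.map_inf _ _ _ g.toAddEquiv.injective

theorem mp_sup (g : W ≃ₗ[F] W) (X Y : AddSubgroup W) : mp g (X ⊔ Y) = mp g X ⊔ mp g Y :=
  AddSubgroup.map_sup _ _ _

theorem mp_sh (g : W ≃ₗ[F] W) (i : ℤ) (X : AddSubgroup W) : mp g (sh i X) = sh i (mp g X) := by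
  ext m
  rw [mem_mp, mem_sh, mem_sh, mem_mp, map_smul]

theorem mp_ln (g : W ≃ₗ[F] W) (w : W) : mp g (ln w) = ln (g w) := by
  ext m
  rw [mem_mp, mem_ln, mem_ln]
  constructor
  · rintro ⟨r, hr⟩
    exact ⟨r, by rw [← map_smul, ← hr, LinearEquiv.apply_symm_apply]⟩
  · rintro ⟨r, rfl⟩
    exact ⟨r, by rw [map_smul, LinearEquiv.symm_apply_apply]⟩

theorem mp_relIndex (g : W ≃ₗ[F] W) (X Y : AddSubgroup W) :
    (mp g X).relIndex (mp g Y) = X.relIndex Y :=
  relIndex_map_map_of_injective _ _ g.toAddEquiv.injective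

/-- similitudes -/
def Sim (g : W ≃ₗ[F] W) (j : ℤ) : Prop := ∀ m m' : W, det (g m) (g m') = T j * det m m'

theorem IsFrame.map {g : W ≃ₗ[F] W} {j : ℤ} (hg : Sim g j) {a b : W} {c : ℚ} {k : ℤ}
    {P Q : AddSubgroup W} (h : IsFrame a b c k P Q) :
    IsFrame (g a) (g b) c (k + j) (mp g P) (mp g Q) where
  hc := h.hc
  hdet := by rw [hg, h.hdet, T_add]; ring
  hP m := by
    have e : m = g (g.symm m) := (g.apply_symm_apply m).symm
    rw [mem_mp, h.hP, e, hg, hg, T_mul_mem_Pos, T_mul_mem_Pos, add_sub_cancel_right,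
      LinearEquiv.symm_apply_apply]
  hQ m := by
    have e : m = g (g.symm m) := (g.apply_symm_apply m).symm
    rw [mem_mp, h.hQ, e, hg, hg, T_mul_mem_Neg, T_mul_mem_Neg, add_sub_cancel_right,
      LinearEquiv.symm_apply_apply]

theorem IsFrame.unique {a b : W} {c c' : ℚ} {k : ℤ} {P Q P' Q' : AddSubgroup W}
    (h : IsFrame a b c k P Q) (h' : IsFrame a b c' k P' Q') : P = P' ∧ Q = Q' := by
  constructor
  · ext m; rw [h.hP, h'.hP]
  · ext m; rw [h.hQ, h'.hQ]

namespace Vtx

@[ext]
theorem ext' {v v' : Vtx} (h : v.P = v'.P) (h' : v.Q = v'.Q) : v = v' := by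
  cases v; cases v'; cases h; cases h'; rfl

/-- the image of a vertex -/
noncomputable def map (g : W ≃ₗ[F] W) {j : ℤ} (hg : Sim g j) (v : Vtx) : Vtx where
  P := mp g v.P
  Q := mp g v.Q
  ex := by
    obtain ⟨a, b, c, k, h⟩ := v.ex
    exact ⟨_, _, _, _, h.map hg⟩

variable {g : W ≃ₗ[F] W} {j : ℤ} (hg : Sim g j) {v : Vtx} {N : AddSubgroup W}

theorem map_P : (v.map g hg).P = mp g v.P := rfl

theorem map_Q : (v.map g hg).Q = mp g v.Q := rfl

theorem map_V : (v.map g hg).V = mp g v.V := by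
  rw [V, map_P, map_Q, ← mp_sh, ← mp_inf]
  rfl

theorem map_mem_V {w : W} : g w ∈ (v.map g hg).V ↔ w ∈ v.V := by
  rw [map_V, apply_mem_mp]

theorem map_D (hN : mp g N = N) : (v.map g hg).D N = v.D N := by
  rw [D, map_P, map_Q, J]
  conv_lhs => rw [← hN]
  rw [← mp_inf, ← mp_inf, ← mp_sup, mp_relIndex]
  rfl

theorem map_c0 (hN : mp g N = N) (w : W) : (v.map g hg).c0 N (g w) = v.c0 N w := by
  rw [c0, map_P]
  conv_lhs => rw [← hN]
  rw [← mp_ln, ← mp_sh, ← mp_inf, ← mp_sup, ← mp_inf, mp_relIndex]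
  rfl

theorem map_ci (hN : mp g N = N) (w : W) : (v.map g hg).ci N (g w) = v.ci N w := by
  rw [ci, map_Q]
  conv_lhs => rw [← hN]
  rw [← mp_ln, ← mp_inf, ← mp_sup, ← mp_inf, mp_relIndex]
  rfl

theorem map_Low (hN : mp g M = M) {w : W} : (v.map g hg).Low (g w) ↔ v.Low w := by
  rw [Low, Low, map_mem_V, map_c0 hg hN, map_ci hg hN]
  simp

end Vtx

theorem Rel.map {g : W ≃ₗ[F] W} {j : ℤ} (hg : Sim g j) (hN : mp g M = M) {D : ℕ} {u w : W}
    (h : Rel D u w) : Rel D (g u) (g w) := by
  induction h with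
  | same w r i hr => rw [map_smul]; exact Rel.same _ r i hr
  | adj v h u w hu hw hu0 hw0 =>
    exact Rel.adj (v.map g hg) (by rw [Vtx.map_D hg hN]; exact h) _ _
      ((Vtx.map_mem_V hg).2 hu) ((Vtx.map_mem_V hg).2 hw) (by simpa using hu0) (by simpa using hw0)
  | symm _ ih => exact ih.symm
  | trans _ _ ih ih' => exact ih.trans ih'

/-- multiplication by a power of the variable as a linear equivalence -/
noncomputable def tl (i : ℤ) : W ≃ₗ[F] W where
  toFun m := (T i : F) • m
  invFun m := (T (-i) : F) • m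
  left_inv m := T_smul_cancel' i m
  right_inv m := T_smul_cancel i m
  map_add' m m' := smul_add _ _ _
  map_smul' f m := by
    show (T i : F) • (f • m) = f • ((T i : F) • m)
    exact smul_comm _ _ _

theorem tl_apply (i : ℤ) (m : W) : tl i m = (T i : F) • m := rfl

theorem tl_symm_apply (i : ℤ) (m : W) : (tl i).symm m = (T (-i) : F) • m := rfl

theorem tl_sim (i : ℤ) : Sim (tl i) (i + i) := by
  intro m m'
  rw [tl_apply, tl_apply, det_smul_left, det_smul_right, T_add]
  ring

theorem mp_tl_M (i : ℤ) : mp (tl i) M = M := by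
  ext m
  rw [mem_mp, tl_symm_apply, T_smul_mem_M]

/-- the transvection at `u` -/
noncomputable def nn (u : W) (f : F) : W ≃ₗ[F] W where
  toFun m := m + (f * det u m) • u
  invFun m := m + (-f * det u m) • u
  left_inv m := by
    show (m + (f * det u m) • u) + (-f * det u (m + (f * det u m) • u)) • u = m
    rw [det_add_right, det_smul_right, det_self]
    rw [mul_zero, add_zero, neg_mul, neg_smul]
    abel
  right_inv m := by
    show (m + (-f * det u m) • u) + (f * det u (m + (-f * det u m) • u)) • u = m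
    rw [det_add_right, det_smul_right, det_self]
    rw [mul_zero, add_zero, neg_mul, neg_smul]
    abel
  map_add' m m' := by
    show m + m' + (f * det u (m + m')) • u = (m + (f * det u m) • u) + (m' + (f * det u m') • u)
    rw [det_add_right, mul_add, add_smul]
    abel
  map_smul' t m := by
    show t • m + (f * det u (t • m)) • u = t • (m + (f * det u m) • u)
    rw [det_smul_right, smul_add, smul_smul]
    congr 2
    ring

theorem nn_apply (u : W) (f : F) (m : W) : nn u f m = m + (f * det u m) • u := rfl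

theorem nn_symm_apply (u : W) (f : F) (m : W) : (nn u f).symm m = m + (-f * det u m) • u := rfl

theorem nn_self (u : W) (f : F) : nn u f u = u := by
  rw [nn_apply, det_self, mul_zero, zero_smul, add_zero]

theorem nn_sim (u : W) (f : F) : Sim (nn u f) 0 := by
  intro m m'
  rw [nn_apply, nn_apply, T_zero, one_mul, det_add_left, det_add_right, det_add_right,
    det_smul_left, det_smul_right, det_smul_right, det_smul_left, det_self, det_swap m u]
  ring

theorem mp_nn_M {u : W} (hu : u ∈ M) {f : F} (hf : f ∈ AF) : mp (nn u f) M = M := by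
  ext m
  rw [mem_mp, nn_symm_apply]
  constructor
  · intro h
    have h1 : det u (m + (-f * det u m) • u) ∈ AF := det_mem hu h
    rw [det_add_right, det_smul_right, det_self, mul_zero, add_zero] at h1
    have h2 : (-f * det u m) • u ∈ M := smul_mem_M (AF.mul_mem (AF.neg_mem hf) h1) hu
    have := M.sub_mem h h2
    rwa [add_sub_cancel_right] at this
  · intro h
    exact M.add_mem h (smul_mem_M (AF.mul_mem (AF.neg_mem hf) (det_mem hu h)) hu)

theorem nn_add (u : W) (f f' : F) (m : W) : nn u (f + f') m = nn u f (nn u f' m) := by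
  rw [nn_apply, nn_apply, nn_apply, det_add_right, det_smul_right, det_self, mul_zero, add_zero,
    add_mul, add_smul]
  abel

theorem nn_symm (u : W) (f : F) (m : W) : (nn u f).symm m = nn u (-f) m := rfl

end Pool.Agent.W411.LP
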