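import Pool.Agent.W411.LP.Move
import Pool.Agent.W411.LP.Sub

/-!
# The lattices of a vertex
-/

set_option autoImplicit false

namespace Pool.Agent.W411.LP

open LaurentPolynomial AddSubgroup

/-- the integral vectors -/
noncomputable def M : AddSubgroup W where
  carrier := {m | m.1 ∈ AF ∧ m.2 ∈ AF}
  zero_mem' := ⟨AF.zero_mem, AF.zero_mem⟩
  add_mem' := fun h h' => ⟨AF.add_mem h.1 h'.1, AF.add_mem h.2 h'.2⟩
  neg_mem' := fun h => ⟨AF.neg_mem h.1, AF.neg_mem h.2⟩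

theorem mem_M {m : W} : m ∈ M ↔ m.1 ∈ AF ∧ m.2 ∈ AF := Iff.rfl

theorem smul_mem_M {f : F} (hf : f ∈ AF) {m : W} (hm : m ∈ M) : f • m ∈ M :=
  ⟨AF.mul_mem hf hm.1, AF.mul_mem hf hm.2⟩

theorem det_mem {m m' : W} (hm : m ∈ M) (hm' : m' ∈ M) : det m m' ∈ AF :=
  AF.sub_mem (AF.mul_mem hm.1 hm'.2) (AF.mul_mem hm.2 hm'.1)

theorem T_smul_mem_M {n : ℤ} {m : W} : (T n : F) • m ∈ M ↔ m ∈ M := by
  constructor
  · intro h
    have := smul_mem_M (T_mem (-n)) h
    rwa [T_smul_cancel'] at this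
  · exact smul_mem_M (T_mem n)

theorem sh_M (i : ℤ) : sh i M = M := by
  ext m; rw [mem_sh, T_smul_mem_M]

theorem exists_nat_smul_mem (m : W) : ∃ n : ℕ, 0 < n ∧ (C (n : ℚ) : F) • m ∈ M := by
  obtain ⟨n1, h1, h1'⟩ := exists_nat_mul_mem m.1
  obtain ⟨n2, h2, h2'⟩ := exists_nat_mul_mem m.2
  refine ⟨n1 * n2, Nat.mul_pos h1 h2, ?_, ?_⟩
  · have := AF.mul_mem (C_int_mem n2) h1'
    show C ((n1 * n2 : ℕ) : ℚ) * m.1 ∈ AF
    convert this using 1
    push_cast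
    rw [C.map_mul]; ring
  · have := AF.mul_mem (C_int_mem n1) h2'
    show C ((n1 * n2 : ℕ) : ℚ) * m.2 ∈ AF
    convert this using 1
    push_cast
    rw [C.map_mul]; ring

theorem C_mul_T_mem_AF {c : ℚ} {k : ℤ} (h : (C c * T k : F) ∈ AF) : ∃ n : ℤ, c = n := by
  obtain ⟨n, hn⟩ := mem_AF.1 h k
  rw [coeff_C_mul_T, if_pos rfl] at hn
  exact ⟨n, hn⟩

namespace Vtx

variable (v : Vtx)

theorem V_def : v.V = v.P ⊓ sh 1 v.Q := rfl

/-- an integral frame -/
theorem exists_int_frame : ∃ a b c k, IsFrame a b c k v.P v.Q ∧ a ∈ M ∧ b ∈ M := by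
  obtain ⟨a, b, c, k, h⟩ := v.ex
  obtain ⟨n1, h1, h1'⟩ := exists_nat_smul_mem a
  obtain ⟨n2, h2, h2'⟩ := exists_nat_smul_mem b
  have hn : (n1 : ℚ) * n2 - 0 * 0 ≠ 0 := by
    rw [mul_zero, sub_zero]
    exact mul_ne_zero (by positivity) (by positivity)
  have := h.reframe hn
  simp only [C.map_zero, zero_smul, add_zero, zero_add] at this
  exact ⟨_, _, _, _, this, h1', h2'⟩

variable {v}

theorem smul_mem_sup {s : W} (hs : s ∈ v.V) {N : AddSubgroup W}
    (hN : ∀ f ∈ AF, ∀ m ∈ N, f • m ∈ N) (hsN : s ∈ N) {f : F} (hf : f ∈ AF) :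
    f • s ∈ (N ⊓ v.P) ⊔ (N ⊓ v.Q) := by
  obtain ⟨a, b, c, k, h⟩ := v.ex
  have : f • s = pp 0 f • s + np 0 f • s := by rw [← add_smul, ← pp_add_np]
  rw [this]
  refine AddSubgroup.add_mem _ (AddSubgroup.mem_sup_left ⟨hN _ (pp_mem_AF hf) _ hsN,
    h.smul_mem_P (V_le_P hs) (pp_mem _ _)⟩) (AddSubgroup.mem_sup_right
      ⟨hN _ (np_mem_AF hf) _ hsN, ?_⟩)
  have h1 : s ∈ sh 1 v.Q := V_le_Q hs
  have : np 0 f • s = (T 1 * np 0 f) • ((T (-1) : F) • s) := by
    rw [smul_smul, mul_assoc, mul_comm (np 0 f), ← mul_assoc, ← T_add]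
    simp
  rw [SetLike.mem_coe, this]
  rw [mem_sh] at h1
  refine h.smul_mem_Q h1 ?_
  rw [T_mul_mem_Neg]
  simpa using np_mem 0 f

/-- a nonzero integer multiplies `M` into `(M ⊓ P) ⊔ (M ⊓ Q)` -/
theorem C_smul_mem_sup {a b : W} {c : ℚ} {k : ℤ} (h : IsFrame a b c k v.P v.Q) (ha : a ∈ M)
    (hb : b ∈ M) {m : W} (hm : m ∈ M) : (C c : F) • m ∈ (M ⊓ v.P) ⊔ (M ⊓ v.Q) := by
  have haV : a ∈ v.V := h.mem_V.2 ⟨1, 0, by simp⟩
  have hbV : b ∈ v.V := h.mem_V.2 ⟨0, 1, by simp⟩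
  have e : (C c : F) • m = (T (-k) * det m b) • a + (T (-k) * det a m) • b := by
    rw [mul_smul (T (-k)), mul_smul (T (-k)), ← smul_add, ← cramer, h.hdet, smul_smul,
      mul_comm (C c : F), ← mul_assoc, ← T_add]
    simp
  rw [e]
  exact AddSubgroup.add_mem _
    (smul_mem_sup haV (fun f hf m hm => smul_mem_M hf hm) ha
      (AF.mul_mem (T_mem _) (det_mem hm hb)))
    (smul_mem_sup hbV (fun f hf m hm => smul_mem_M hf hm) hb
      (AF.mul_mem (T_mem _) (det_mem ha hm)))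

/-- `M` is generated by the monomials -/
theorem mem_of_monomials {X : AddSubgroup W} (h1 : ∀ i : ℤ, (T i : F) • ((1, 0) : W) ∈ X)
    (h2 : ∀ i : ℤ, (T i : F) • ((0, 1) : W) ∈ X) {m : W} (hm : m ∈ M) : m ∈ X := by
  have key : ∀ e : W, (∀ i : ℤ, (T i : F) • e ∈ X) → ∀ f ∈ AF, f • e ∈ X := by
    intro e he f hf
    have : f = ∑ i ∈ f.coeff.support, C (f.coeff i) * T i := by
      apply LaurentPolynomial.ext
      intro j
      rw [AddMonoidAlgebra.coeff_sum, Finsupp.finsetSum_apply]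
      simp only [coeff_C_mul_T]
      rw [Finset.sum_ite_eq]
      split_ifs with h
      · rfl
      · simpa using h
    rw [this, Finset.sum_smul]
    refine AddSubgroup.sum_mem _ fun i _ => ?_
    obtain ⟨n, hn⟩ := mem_AF.1 hf i
    rw [hn, mul_smul]
    have : (C (n : ℚ) : F) = n := by simp
    rw [this, Int.cast_smul_eq_zsmul]
    exact AddSubgroup.zsmul_mem _ (he i) n
  have : m = m.1 • ((1, 0) : W) + m.2 • ((0, 1) : W) := by
    ext1 <;> simp
  rw [this]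
  exact AddSubgroup.add_mem _ (key _ h1 _ hm.1) (key _ h2 _ hm.2)

/-- the defect is finite -/
theorem D_ne_zero (v : Vtx) : v.D M ≠ 0 := by
  obtain ⟨a, b, c, k, h, ha, hb⟩ := v.exists_int_frame
  set G := (M ⊓ v.P) ⊔ (M ⊓ v.Q) with hG
  have hGM : G ≤ M := sup_le inf_le_left inf_le_left
  obtain ⟨n, hn⟩ : ∃ n : ℤ, c = n := by
    refine C_mul_T_mem_AF (k := k) ?_
    rw [← h.hdet]
    exact det_mem ha hb
  have hn0 : n ≠ 0 := by
    rintro rfl
    exact h.hc (by rw [hn]; simp)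
  have hmul : ∀ m ∈ M, n • m ∈ G := by
    intro m hm
    have := C_smul_mem_sup h ha hb hm
    rw [hn] at this
    have e : (C (n : ℚ) : F) = n := by simp
    rwa [e, Int.cast_smul_eq_zsmul] at this
  obtain ⟨n1, h1⟩ := h.exhaust_P ((1, 0) : W)
  obtain ⟨n2, h2⟩ := h.exhaust_P ((0, 1) : W)
  obtain ⟨n3, h3⟩ := h.exhaust_Q ((1, 0) : W)
  obtain ⟨n4, h4⟩ := h.exhaust_Q ((0, 1) : W)
  set n0 : ℕ := n1 + n2 + n3 + n4 with hn0'
  let S : Set W := (fun i : ℤ => (T i : F) • ((1, 0) : W)) '' (Set.Icc (-(n0 : ℤ)) n0) ∪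
    (fun i : ℤ => (T i : F) • ((0, 1) : W)) '' (Set.Icc (-(n0 : ℤ)) n0)
  have hSfin : S.Finite := ((Set.finite_Icc _ _).image _).union ((Set.finite_Icc _ _).image _)
  set Cl := AddSubgroup.closure S with hCl
  have e1 : ((1, 0) : W) ∈ M := ⟨AF.one_mem, AF.zero_mem⟩
  have e2 : ((0, 1) : W) ∈ M := ⟨AF.zero_mem, AF.one_mem⟩
  have hClM : Cl ≤ M := by
    rw [hCl, AddSubgroup.closure_le]
    rintro _ (⟨i, _, rfl⟩ | ⟨i, _, rfl⟩)
    · exact T_smul_mem_M.2 e1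
    · exact T_smul_mem_M.2 e2
  have hM : M = Cl ⊔ G := by
    apply le_antisymm _ (sup_le hClM hGM)
    intro m hm
    refine mem_of_monomials (fun i => ?_) (fun i => ?_) hm
    · by_cases hi : i ∈ Set.Icc (-(n0 : ℤ)) n0
      · exact AddSubgroup.mem_sup_left (AddSubgroup.subset_closure (Or.inl ⟨i, hi, rfl⟩))
      · apply AddSubgroup.mem_sup_right
        rw [Set.mem_Icc, not_and_or] at hi
        rcases hi with hi | hi
        · apply AddSubgroup.mem_sup_right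
          refine ⟨T_smul_mem_M.2 e1, ?_⟩
          have := h3 (-i) (by omega)
          rwa [neg_neg] at this
        · apply AddSubgroup.mem_sup_left
          exact ⟨T_smul_mem_M.2 e1, h1 i (by omega)⟩
    · by_cases hi : i ∈ Set.Icc (-(n0 : ℤ)) n0
      · exact AddSubgroup.mem_sup_left (AddSubgroup.subset_closure (Or.inr ⟨i, hi, rfl⟩))
      · apply AddSubgroup.mem_sup_right
        rw [Set.mem_Icc, not_and_or] at hi
        rcases hi with hi | hi
        · apply AddSubgroup.mem_sup_right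
          refine ⟨T_smul_mem_M.2 e2, ?_⟩
          have := h4 (-i) (by omega)
          rwa [neg_neg] at this
        · apply AddSubgroup.mem_sup_left
          exact ⟨T_smul_mem_M.2 e2, h2 i (by omega)⟩
  show G.relIndex M ≠ 0
  have : G.relIndex M = G.relIndex Cl := by
    conv_lhs => rw [hM]
    rw [relIndex_sup_right]
  rw [this, AddSubgroup.relIndex]
  have hfg : AddGroup.FG Cl := by
    rw [AddGroup.fg_iff_addSubgroup_fg]
    exact ⟨hSfin.toFinset, by rw [Set.Finite.coe_toFinset]⟩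
  have : Finite (Cl ⧸ G.addSubgroupOf Cl) := by
    refine AddCommGroup.finite_of_fg_isAddTorsion _ ?_
    intro z
    obtain ⟨⟨y, hy⟩, rfl⟩ := QuotientAddGroup.mk_surjective z
    rw [isOfFinAddOrder_iff_zsmul_eq_zero]
    refine ⟨n, hn0, ?_⟩
    rw [← QuotientAddGroup.mk_zsmul, QuotientAddGroup.eq_zero_iff, mem_addSubgroupOf]
    exact hmul y (hClM hy)
  exact AddSubgroup.index_ne_zero_iff_finite.2 this

end Vtx

end Pool.Agent.W411.LP
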