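import Pool.Agent.W411.LP.Index
import Pool.Agent.W411.LP.Laur

/-!
# Vertices
-/

set_option autoImplicit false

namespace Pool.Agent.W411.LP

open LaurentPolynomial AddSubgroup

/-- the plane over `F` -/
abbrev W := F × F

theorem Cneg (r : ℚ) : (C (-r) : F) = - C r := map_neg C r

theorem Csub (r s : ℚ) : (C (r - s) : F) = C r - C s := map_sub C r s

/-- the determinant -/
noncomputable def det (m m' : W) : F := m.1 * m'.2 - m.2 * m'.1

theorem det_smul_left (f : F) (m m' : W) : det (f • m) m' = f * det m m' := by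
  simp only [det, Prod.smul_fst, Prod.smul_snd, smul_eq_mul]; ring

theorem det_smul_right (f : F) (m m' : W) : det m (f • m') = f * det m m' := by
  simp only [det, Prod.smul_fst, Prod.smul_snd, smul_eq_mul]; ring

theorem det_add_left (m n m' : W) : det (m + n) m' = det m m' + det n m' := by
  simp only [det, Prod.fst_add, Prod.snd_add]; ring

theorem det_add_right (m m' n' : W) : det m (m' + n') = det m m' + det m n' := by
  simp only [det, Prod.fst_add, Prod.snd_add]; ring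

theorem det_sub_left (m n m' : W) : det (m - n) m' = det m m' - det n m' := by
  simp only [det, Prod.fst_sub, Prod.snd_sub]; ring

theorem det_sub_right (m m' n' : W) : det m (m' - n') = det m m' - det m n' := by
  simp only [det, Prod.fst_sub, Prod.snd_sub]; ring

theorem det_neg_right (m m' : W) : det m (-m') = - det m m' := by
  simp only [det, Prod.fst_neg, Prod.snd_neg]; ring

theorem det_self (m : W) : det m m = 0 := by
  simp only [det]; ring

theorem det_swap (m m' : W) : det m m' = - det m' m := by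
  simp only [det]; ring

theorem det_zero_left (m : W) : det 0 m = 0 := by simp [det]

theorem det_zero_right (m : W) : det m 0 = 0 := by simp [det]

theorem cramer (a b m : W) : det a b • m = det m b • a + det a m • b := by
  ext1
  · simp only [det, Prod.smul_fst, Prod.fst_add, smul_eq_mul]; ring
  · simp only [det, Prod.smul_snd, Prod.snd_add, smul_eq_mul]; ring

/-- multiplication by a power of the variable -/
noncomputable def sm (i : ℤ) : W ≃+ W where
  toFun m := (T i : F) • m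
  invFun m := (T (-i) : F) • m
  left_inv m := by
    show (T (-i) : F) • ((T i : F) • m) = m
    rw [smul_smul, ← T_add, neg_add_cancel, T_zero, one_smul]
  right_inv m := by
    show (T i : F) • ((T (-i) : F) • m) = m
    rw [smul_smul, ← T_add, add_neg_cancel, T_zero, one_smul]
  map_add' m m' := smul_add _ _ _

/-- the shift of a subgroup -/
noncomputable def sh (i : ℤ) (X : AddSubgroup W) : AddSubgroup W := X.map (sm i : W →+ W)

theorem mem_sh {i : ℤ} {X : AddSubgroup W} {m : W} : m ∈ sh i X ↔ (T (-i) : F) • m ∈ X := by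
  rw [sh, AddSubgroup.mem_map]
  constructor
  · rintro ⟨n, hn, rfl⟩
    show (T (-i) : F) • ((T i : F) • n) ∈ X
    rwa [smul_smul, ← T_add, neg_add_cancel, T_zero, one_smul]
  · intro h
    refine ⟨_, h, ?_⟩
    show (T i : F) • ((T (-i) : F) • m) = m
    rw [smul_smul, ← T_add, add_neg_cancel, T_zero, one_smul]

theorem T_smul_mem_sh {i : ℤ} {X : AddSubgroup W} {m : W} : (T i : F) • m ∈ sh i X ↔ m ∈ X := by
  rw [mem_sh, smul_smul, ← T_add, neg_add_cancel, T_zero, one_smul]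

theorem T_smul_cancel (i : ℤ) (m : W) : (T i : F) • ((T (-i) : F) • m) = m := by
  rw [smul_smul, ← T_add, add_neg_cancel, T_zero, one_smul]

theorem T_smul_cancel' (i : ℤ) (m : W) : (T (-i) : F) • ((T i : F) • m) = m := by
  rw [smul_smul, ← T_add, neg_add_cancel, T_zero, one_smul]

theorem sh_sh (i j : ℤ) (X : AddSubgroup W) : sh i (sh j X) = sh (i + j) X := by
  ext m
  rw [mem_sh, mem_sh, mem_sh, smul_smul, ← T_add]
  ring_nf

theorem sh_zero (X : AddSubgroup W) : sh 0 X = X := by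
  ext m; rw [mem_sh, neg_zero, T_zero, one_smul]

theorem sh_inf (i : ℤ) (X Y : AddSubgroup W) : sh i (X ⊓ Y) = sh i X ⊓ sh i Y :=
  AddSubgroup.map_inf _ _ _ (sm i).injective

theorem sh_sup (i : ℤ) (X Y : AddSubgroup W) : sh i (X ⊔ Y) = sh i X ⊔ sh i Y :=
  AddSubgroup.map_sup _ _ _

theorem sh_mono (i : ℤ) {X Y : AddSubgroup W} (h : X ≤ Y) : sh i X ≤ sh i Y :=
  AddSubgroup.map_mono h

theorem J_sh (i : ℤ) (N X Y : AddSubgroup W) : J (sh i N) (sh i X) (sh i Y) = J N X Y :=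
  J_map (sm i) N X Y

/-- the line -/
noncomputable def ln (w : W) : AddSubgroup W where
  carrier := {m | ∃ r : ℚ, m = (C r : F) • w}
  zero_mem' := ⟨0, by simp⟩
  add_mem' := by
    rintro _ _ ⟨r, rfl⟩ ⟨s, rfl⟩
    exact ⟨r + s, by rw [C.map_add, add_smul]⟩
  neg_mem' := by
    rintro _ ⟨r, rfl⟩
    exact ⟨-r, by rw [Cneg, neg_smul]⟩

theorem mem_ln {w m : W} : m ∈ ln w ↔ ∃ r : ℚ, m = (C r : F) • w := Iff.rfl

theorem self_mem_ln (w : W) : w ∈ ln w := ⟨1, by rw [C.map_one, one_smul]⟩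

theorem sh_ln (i : ℤ) (w : W) : sh i (ln w) = ln ((T i : F) • w) := by
  ext m
  rw [mem_sh, mem_ln, mem_ln]
  constructor
  · rintro ⟨r, hr⟩
    refine ⟨r, ?_⟩
    rw [smul_comm, ← hr, T_smul_cancel]
  · rintro ⟨r, rfl⟩
    refine ⟨r, ?_⟩
    rw [smul_comm, T_smul_cancel']

/-- `(a, b)` is a frame of `(P, Q)` -/
structure IsFrame (a b : W) (c : ℚ) (k : ℤ) (P Q : AddSubgroup W) : Prop where
  hc : c ≠ 0
  hdet : det a b = C c * T k
  hP : ∀ m, m ∈ P ↔ det a m ∈ Pos k ∧ det b m ∈ Pos k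
  hQ : ∀ m, m ∈ Q ↔ det a m ∈ Neg k ∧ det b m ∈ Neg k

section frame

variable {a b : W} {c : ℚ} {k : ℤ} {P Q : AddSubgroup W}

theorem IsFrame.expand (h : IsFrame a b c k P Q) (m : W) :
    m = (C c⁻¹ * T (-k) * det m b) • a + (C c⁻¹ * T (-k) * det a m) • b := by
  rw [mul_smul (C c⁻¹ * T (-k)), mul_smul (C c⁻¹ * T (-k)), ← smul_add, ← cramer, h.hdet, smul_smul]
  have : (C c⁻¹ * T (-k) * (C c * T k) : F) = 1 := by
    calc (C c⁻¹ * T (-k) * (C c * T k) : F) = (C c⁻¹ * C c) * (T (-k) * T k) := by ring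
      _ = 1 := by rw [← C.map_mul, inv_mul_cancel₀ h.hc, ← T_add, neg_add_cancel, T_zero,
        C.map_one, one_mul]
  rw [this, one_smul]

theorem IsFrame.eq_zero (h : IsFrame a b c k P Q) {m : W} (h1 : det a m = 0) (h2 : det b m = 0) :
    m = 0 := by
  rw [h.expand m, det_swap m b, h1, h2]
  simp

theorem IsFrame.disj (h : IsFrame a b c k P Q) {m : W} (h1 : m ∈ P) (h2 : m ∈ Q) : m = 0 := by
  rw [h.hP] at h1
  rw [h.hQ] at h2
  exact h.eq_zero (eq_zero_of_Pos_Neg h1.1 h2.1) (eq_zero_of_Pos_Neg h1.2 h2.2)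

theorem IsFrame.smul_mem_P (h : IsFrame a b c k P Q) {m : W} (hm : m ∈ P) {f : F}
    (hf : f ∈ Pos 0) : f • m ∈ P := by
  rw [h.hP] at hm ⊢
  rw [det_smul_right, det_smul_right]
  have h1 := mul_mem_Pos hf hm.1
  have h2 := mul_mem_Pos hf hm.2
  rw [zero_add] at h1 h2
  exact ⟨h1, h2⟩

theorem IsFrame.smul_mem_Q (h : IsFrame a b c k P Q) {m : W} (hm : m ∈ Q) {f : F}
    (hf : f ∈ Neg 1) : f • m ∈ Q := by
  rw [h.hQ] at hm ⊢
  rw [det_smul_right, det_smul_right]
  have h1 := mul_mem_Neg hf hm.1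
  have h2 := mul_mem_Neg hf hm.2
  rw [show (1 : ℤ) + k - 1 = k by ring] at h1 h2
  exact ⟨h1, h2⟩

theorem IsFrame.mem_sh_P (h : IsFrame a b c k P Q) {m : W} :
    m ∈ sh 1 P ↔ det a m ∈ Pos (k + 1) ∧ det b m ∈ Pos (k + 1) := by
  rw [mem_sh, h.hP, det_smul_right, det_smul_right, T_mul_mem_Pos, T_mul_mem_Pos, sub_neg_eq_add]

theorem IsFrame.mem_sh_Q (h : IsFrame a b c k P Q) {m : W} :
    m ∈ sh 1 Q ↔ det a m ∈ Neg (k + 1) ∧ det b m ∈ Neg (k + 1) := by
  rw [mem_sh, h.hQ, det_smul_right, det_smul_right, T_mul_mem_Neg, T_mul_mem_Neg, sub_neg_eq_add]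

theorem IsFrame.sh_P_le (h : IsFrame a b c k P Q) : sh 1 P ≤ P := fun m hm => by
  rw [h.mem_sh_P] at hm
  rw [h.hP]
  exact ⟨Pos_mono (by omega) hm.1, Pos_mono (by omega) hm.2⟩

theorem IsFrame.le_sh_Q (h : IsFrame a b c k P Q) : Q ≤ sh 1 Q := fun m hm => by
  rw [h.mem_sh_Q]
  rw [h.hQ] at hm
  exact ⟨Neg_mono (by omega) hm.1, Neg_mono (by omega) hm.2⟩

theorem IsFrame.det_comb (h : IsFrame a b c k P Q) (r s : ℚ) :
    det a ((C r : F) • a + (C s : F) • b) = C (s * c) * T k ∧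
    det b ((C r : F) • a + (C s : F) • b) = C (-(r * c)) * T k := by
  constructor
  · rw [det_add_right, det_smul_right, det_smul_right, det_self, h.hdet, C.map_mul]
    ring
  · rw [det_add_right, det_smul_right, det_smul_right, det_self, det_swap b a, h.hdet, Cneg,
      C.map_mul]
    ring

theorem IsFrame.comb_mem (h : IsFrame a b c k P Q) (r s : ℚ) :
    (C r : F) • a + (C s : F) • b ∈ P ⊓ sh 1 Q := by
  rw [mem_inf, h.hP, h.mem_sh_Q, (h.det_comb r s).1, (h.det_comb r s).2]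
  exact ⟨⟨C_mul_T_mem_Pos le_rfl, C_mul_T_mem_Pos le_rfl⟩,
    ⟨C_mul_T_mem_Neg (by omega), C_mul_T_mem_Neg (by omega)⟩⟩

/-- every element of `P` is the sum of a combination of `a` and `b` and an element of `sh 1 P` -/
theorem IsFrame.exists_sub_mem_P (h : IsFrame a b c k P Q) {m : W} (hm : m ∈ P) :
    ∃ r s : ℚ, m - ((C r : F) • a + (C s : F) • b) ∈ sh 1 P := by
  rw [h.hP] at hm
  refine ⟨-(det b m).coeff k / c, (det a m).coeff k / c, ?_⟩
  rw [h.mem_sh_P, det_sub_right, det_sub_right, (h.det_comb _ _).1, (h.det_comb _ _).2,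
    div_mul_cancel₀ _ h.hc, div_mul_cancel₀ _ h.hc, neg_neg]
  constructor
  · intro i hi
    rw [AddMonoidAlgebra.coeff_sub, Finsupp.sub_apply, coeff_C_mul_T]
    split_ifs with h'
    · rw [h', sub_self]
    · rw [hm.1 i (by omega), sub_zero]
  · intro i hi
    rw [AddMonoidAlgebra.coeff_sub, Finsupp.sub_apply, coeff_C_mul_T]
    split_ifs with h'
    · rw [h', sub_self]
    · rw [hm.2 i (by omega), sub_zero]

theorem IsFrame.exists_sub_mem_Q (h : IsFrame a b c k P Q) {m : W} (hm : m ∈ sh 1 Q) :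
    ∃ r s : ℚ, m - ((C r : F) • a + (C s : F) • b) ∈ Q := by
  rw [h.mem_sh_Q] at hm
  refine ⟨-(det b m).coeff k / c, (det a m).coeff k / c, ?_⟩
  rw [h.hQ, det_sub_right, det_sub_right, (h.det_comb _ _).1, (h.det_comb _ _).2,
    div_mul_cancel₀ _ h.hc, div_mul_cancel₀ _ h.hc, neg_neg]
  constructor
  · intro i hi
    rw [AddMonoidAlgebra.coeff_sub, Finsupp.sub_apply, coeff_C_mul_T]
    split_ifs with h'
    · rw [h', sub_self]
    · rw [hm.1 i (by omega), sub_zero]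
  · intro i hi
    rw [AddMonoidAlgebra.coeff_sub, Finsupp.sub_apply, coeff_C_mul_T]
    split_ifs with h'
    · rw [h', sub_self]
    · rw [hm.2 i (by omega), sub_zero]

theorem IsFrame.sh_P_disj (h : IsFrame a b c k P Q) {m : W} (h1 : m ∈ sh 1 P) (h2 : m ∈ sh 1 Q) :
    m = 0 := by
  rw [mem_sh] at h1 h2
  have := h.disj h1 h2
  rw [← T_smul_cancel 1 m, this, smul_zero]

theorem IsFrame.mem_V (h : IsFrame a b c k P Q) {m : W} :
    m ∈ P ⊓ sh 1 Q ↔ ∃ r s : ℚ, m = (C r : F) • a + (C s : F) • b := by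
  constructor
  · intro hm
    obtain ⟨r, s, hrs⟩ := h.exists_sub_mem_P hm.1
    refine ⟨r, s, ?_⟩
    have h1 : m - ((C r : F) • a + (C s : F) • b) ∈ sh 1 Q :=
      AddSubgroup.sub_mem _ hm.2 (h.comb_mem r s).2
    exact sub_eq_zero.1 (h.sh_P_disj hrs h1)
  · rintro ⟨r, s, rfl⟩
    exact h.comb_mem r s

theorem IsFrame.exhaust_P (h : IsFrame a b c k P Q) (m : W) :
    ∃ n : ℕ, ∀ j : ℤ, n ≤ j → (T j : F) • m ∈ P := by
  obtain ⟨k1, h1⟩ := exists_mem_Pos (det a m)
  obtain ⟨k2, h2⟩ := exists_mem_Pos (det b m)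
  refine ⟨(k - k1).natAbs + (k - k2).natAbs, fun j hj => ?_⟩
  rw [h.hP, det_smul_right, det_smul_right, T_mul_mem_Pos, T_mul_mem_Pos]
  exact ⟨Pos_mono (by omega) h1, Pos_mono (by omega) h2⟩

theorem IsFrame.exhaust_Q (h : IsFrame a b c k P Q) (m : W) :
    ∃ n : ℕ, ∀ j : ℤ, n ≤ j → (T (-j) : F) • m ∈ Q := by
  obtain ⟨k1, h1⟩ := exists_mem_Neg (det a m)
  obtain ⟨k2, h2⟩ := exists_mem_Neg (det b m)
  refine ⟨(k - k1).natAbs + (k - k2).natAbs, fun j hj => ?_⟩
  rw [h.hQ, det_smul_right, det_smul_right, T_mul_mem_Neg, T_mul_mem_Neg]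
  exact ⟨Neg_mono (by omega) h1, Neg_mono (by omega) h2⟩

theorem IsFrame.det_lin (h : IsFrame a b c k P Q) (r s r' s' : ℚ) :
    det ((C r : F) • a + (C s : F) • b) ((C r' : F) • a + (C s' : F) • b) =
      C ((r * s' - s * r') * c) * T k := by
  rw [det_add_left, det_smul_left, det_smul_left, (h.det_comb r' s').1, (h.det_comb r' s').2]
  simp only [C.map_mul, Cneg, Csub]
  ring

theorem inv_comb {r s r' s' : ℚ} (hrs : r * s' - s * r' ≠ 0) (f g : F) :
    f = C ((r * s' - s * r')⁻¹ * s') * (C r * f + C s * g) +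
      C (-((r * s' - s * r')⁻¹ * s)) * (C r' * f + C s' * g) ∧
    g = C (-((r * s' - s * r')⁻¹ * r')) * (C r * f + C s * g) +
      C ((r * s' - s * r')⁻¹ * r) * (C r' * f + C s' * g) := by
  obtain ⟨D, hD⟩ : ∃ D, D = r * s' - s * r' := ⟨_, rfl⟩
  rw [← hD] at hrs ⊢
  have e : (C D⁻¹ * (C r * C s' - C s * C r') : F) = 1 := by
    rw [← C.map_mul, ← C.map_mul, ← Csub, ← C.map_mul, ← hD, inv_mul_cancel₀ hrs, C.map_one]
  simp only [C.map_mul, Cneg]
  constructor
  · linear_combination (-f) * e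
  · linear_combination (-g) * e

/-- change of frame -/
theorem IsFrame.reframe (h : IsFrame a b c k P Q) {r s r' s' : ℚ} (hrs : r * s' - s * r' ≠ 0) :
    IsFrame ((C r : F) • a + (C s : F) • b) ((C r' : F) • a + (C s' : F) • b)
      ((r * s' - s * r') * c) k P Q where
  hc := mul_ne_zero hrs h.hc
  hdet := h.det_lin r s r' s'
  hP m := by
    obtain ⟨e1, e2⟩ := inv_comb hrs (det a m) (det b m)
    rw [h.hP]
    simp only [det_add_left, det_smul_left]
    constructor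
    · rintro ⟨h1, h2⟩
      exact ⟨(Pos k).add_mem (C_mul_mem_Pos h1) (C_mul_mem_Pos h2),
        (Pos k).add_mem (C_mul_mem_Pos h1) (C_mul_mem_Pos h2)⟩
    · rintro ⟨h1, h2⟩
      constructor
      · rw [e1]
        exact (Pos k).add_mem (C_mul_mem_Pos h1) (C_mul_mem_Pos h2)
      · rw [e2]
        exact (Pos k).add_mem (C_mul_mem_Pos h1) (C_mul_mem_Pos h2)
  hQ m := by
    obtain ⟨e1, e2⟩ := inv_comb hrs (det a m) (det b m)
    rw [h.hQ]
    simp only [det_add_left, det_smul_left]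
    constructor
    · rintro ⟨h1, h2⟩
      exact ⟨(Neg k).add_mem (C_mul_mem_Neg h1) (C_mul_mem_Neg h2),
        (Neg k).add_mem (C_mul_mem_Neg h1) (C_mul_mem_Neg h2)⟩
    · rintro ⟨h1, h2⟩
      constructor
      · rw [e1]
        exact (Neg k).add_mem (C_mul_mem_Neg h1) (C_mul_mem_Neg h2)
      · rw [e2]
        exact (Neg k).add_mem (C_mul_mem_Neg h1) (C_mul_mem_Neg h2)

/-- two independent vectors of `V` form a frame -/
theorem IsFrame.of_mem (h : IsFrame a b c k P Q) {w y : W} (hw : w ∈ P ⊓ sh 1 Q)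
    (hy : y ∈ P ⊓ sh 1 Q) (hwy : det w y ≠ 0) : ∃ c', IsFrame w y c' k P Q := by
  obtain ⟨r, s, rfl⟩ := h.mem_V.1 hw
  obtain ⟨r', s', rfl⟩ := h.mem_V.1 hy
  refine ⟨_, h.reframe fun h0 => hwy ?_⟩
  rw [h.det_lin, h0]
  simp

/-- the sum of `P` and `Q` is everything -/
theorem IsFrame.span (h : IsFrame a b c k P Q) (m : W) : ∃ p ∈ P, ∃ q ∈ Q, m = p + q := by
  set f := C c⁻¹ * T (-k) * det m b with hf
  set g := C c⁻¹ * T (-k) * det a m with hg
  have ha : a ∈ P ⊓ sh 1 Q := h.mem_V.2 ⟨1, 0, by simp⟩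
  have hb : b ∈ P ⊓ sh 1 Q := h.mem_V.2 ⟨0, 1, by simp⟩
  have hq : ∀ v ∈ P ⊓ sh 1 Q, ∀ f : F, f ∈ Neg 0 → f • v ∈ Q := by
    intro v hv f hf
    have h1 : v ∈ sh 1 Q := hv.2
    have : f • v = (T 1 * f) • ((T (-1) : F) • v) := by
      rw [smul_smul, mul_assoc, mul_comm f, ← mul_assoc, ← T_add]
      simp
    rw [this]
    rw [mem_sh] at h1
    refine h.smul_mem_Q h1 ?_
    rw [T_mul_mem_Neg]
    simpa using hf
  refine ⟨pp 0 f • a + pp 0 g • b, P.add_mem (h.smul_mem_P ha.1 (pp_mem _ _))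
    (h.smul_mem_P hb.1 (pp_mem _ _)), np 0 f • a + np 0 g • b, Q.add_mem (hq _ ha _ (np_mem _ _))
    (hq _ hb _ (np_mem _ _)), ?_⟩
  rw [h.expand m, ← hf, ← hg]
  conv_lhs => rw [pp_add_np 0 f, pp_add_np 0 g]
  rw [add_smul, add_smul]
  abel

end frame

end Pool.Agent.W411.LP
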